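import Mathlib
import Pool.Agent.H19.Sup.St
import Pool.Agent.H19.Sup.CL1
import Pool.Agent.H36.XD.St

set_option autoImplicit false

/-!
# Window theorem: definitions

Project WB (MP_8fded1_nt): sixth moment over a unit window below `T^(5/2)`; almost all forms of a unit window below
`T^(3/8)`.  New object: sums over the Hecke points of the primes `p` (not `p²`); a plane is the set of the points
`(a z + b) / (c z + d)` with fixed `(c, d)`, a line of it is the set of those with fixed `a`.  On a line the point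
moves on a Euclidean line (an equidistant curve), described by `Lin`.
-/

namespace Pool.Agent.H19.WB

open UpperHalfPlane Polynomial
open Pool.Agent.H19.Maass Pool.Agent.H19.Sup
open scoped MatrixGroups ComplexConjugate ENNReal

/-- a line seen from two points: the point `c u + i (3 + s u)`, seen from `x1 + i y1` and `x2 + i y2` -/
structure Lin where
  c : ℝ
  s : ℝ
  x1 : ℝ
  y1 : ℝ
  x2 : ℝ
  y2 : ℝ

namespace Lin

variable (p : Lin)

/-- auxiliary parameters with the denominator `3 + s u` (only `q.n` and `q.n1` are used, through `Par.al`) -/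
noncomputable def q : Par := ⟨0, p.c, 3, p.s, 1, 1, 0⟩

/-- real part and imaginary part of the point -/
noncomputable def m : ℝ[X] := C p.c * X
noncomputable def n : ℝ[X] := p.q.n

noncomputable def Q1 : ℝ[X] := (p.m - C p.x1) ^ 2 + (p.n - C p.y1) ^ 2
noncomputable def Qb1 : ℝ[X] := (p.m - C p.x1) ^ 2 + (p.n + C p.y1) ^ 2
noncomputable def Q2 : ℝ[X] := (p.m - C p.x2) ^ 2 + (p.n - C p.y2) ^ 2
noncomputable def Qb2 : ℝ[X] := (p.m - C p.x2) ^ 2 + (p.n + C p.y2) ^ 2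
noncomputable def R1 : ℝ[X] := p.Q1 * p.Qb1
noncomputable def R2 : ℝ[X] := p.Q2 * p.Qb2

/-- numerators of the first derivatives -/
noncomputable def a1 : ℝ[X] := derivative p.Q1 * p.n - C p.s * p.Q1
noncomputable def a2 : ℝ[X] := derivative p.Q2 * p.n - C p.s * p.Q2
noncomputable def al1 (j : ℕ) : ℝ[X] := p.q.al p.R1 p.a1 j
noncomputable def al2 (j : ℕ) : ℝ[X] := p.q.al p.R2 p.a2 j

/-- the polynomial whose smallness follows from the smallness of the derivative of order `j + 1` -/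
noncomputable def PP (j : ℕ) : ℝ[X] :=
  p.al1 j ^ 2 * p.R2 ^ (2 * j + 1) - p.al2 j ^ 2 * p.R1 ^ (2 * j + 1)

/-- the phase and its derivatives -/
noncomputable def H : ℕ → ℝ → ℝ
  | 0 => fun u => dh p.x1 p.y1 (p.n.eval u) (p.m.eval u) - dh p.x2 p.y2 (p.n.eval u) (p.m.eval u)
  | (j + 1) => fun u => (p.n.eval u ^ (j + 1))⁻¹ *
      ((p.al1 j).eval u * (p.R1.eval u) ^ (1 / 2 - (j + 1 : ℝ)) -
        (p.al2 j).eval u * (p.R2.eval u) ^ (1 / 2 - (j + 1 : ℝ)))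

/-- admissible parameters -/
structure Good (μ : ℝ) : Prop where
  hμ : 0 < μ
  hμ1 : μ ≤ 1
  hcs : p.c ^ 2 + p.s ^ 2 = 1
  hc : μ ≤ |p.c|
  hy1 : 9 / 5 ≤ p.y1 ∧ p.y1 ≤ 5
  hy2 : 9 / 5 ≤ p.y2 ∧ p.y2 ≤ 5
  hw1 : p.x1 ^ 2 + (p.y1 - 3) ^ 2 ≤ 4
  hw2 : p.x2 ^ 2 + (p.y2 - 3) ^ 2 ≤ 4
  hne : μ ^ 2 ≤ (p.x1 - p.x2) ^ 2 + (p.y1 - p.y2) ^ 2

/-- the term of a line sum -/
noncomputable def term (A : ℝ → ℂ) (T N u0 : ℝ) (n : ℤ) : ℂ :=
  osc A T (dh p.x1 p.y1 (p.n.eval (u0 + n / N)) (p.m.eval (u0 + n / N)))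
    (dh p.x2 p.y2 (p.n.eval (u0 + n / N)) (p.m.eval (u0 + n / N)))

end Lin

/-- indices of the amplifier: `⟨p, x⟩` with `p` a prime in `(N, 4 N]` and `x` a Hecke index of `p` -/
noncomputable def JJ (N : ℕ) : Finset (Σ _ : ℕ, Σ _ : ℕ, ℕ) := (PR N).sigma fun p => RR p

/-- the Hecke points -/
noncomputable def z1 (z : ℍ) (i : Σ _ : ℕ, Σ _ : ℕ, ℕ) : ℍ := hx i.1 i.2 z

/-- real and imaginary part of `(a z + b) / (c z + d)`; `CL1_nn c d z = |c z + d|²` -/
noncomputable def pre (z : ℍ) (c d a b : ℤ) : ℝ :=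
  (((a : ℝ) * z.re + b) * ((c : ℝ) * z.re + d) + a * c * z.im ^ 2) / CL1_nn c d z
noncomputable def pim (z : ℍ) (c d a b : ℤ) : ℝ :=
  z.im * ((a : ℝ) * d - b * c) / CL1_nn c d z

/-- the sum over the line of `a` of the plane of `(c, d)` -/
noncomputable def LL (A : ℝ → ℂ) (T : ℝ) (M : ℤ) (w w' z : ℍ) (c d a : ℤ) : ℂ :=
  ∑ b ∈ Finset.Icc (-M) M, if 0 < a * d - b * c then
    osc A T (dh w.re w.im (pim z c d a b) (pre z c d a b))
      (dh w'.re w'.im (pim z c d a b) (pre z c d a b)) else 0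

/-- the sum over the plane of `(c, d)` -/
noncomputable def PL (A : ℝ → ℂ) (T : ℝ) (M : ℤ) (w w' z : ℍ) (c d : ℤ) : ℂ :=
  ∑ a ∈ Finset.Icc (-M) M, LL A T M w w' z c d a

/-- the oscillating part of the geometric side, with weights -/
noncomputable def FF1 (α : ℕ → ℂ) (A : ℝ → ℂ) (T : ℝ) (N : ℕ) (z : ℍ) (S : Finset SL(2, ℤ)) : ℂ :=
  ∑ i ∈ JJ N, ∑ j ∈ JJ N, conj (α i.1) * α j.1 * ∑ σ ∈ S, wv A T (dist (z1 z i) (σ • z1 z j))

end Pool.Agent.H19.WB
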