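import Mathlib
import Pool.Agent.H19.WB.Defs
import Pool.Agent.H19.Maass.Mult

set_option autoImplicit false
set_option linter.unusedVariables false

/-!
# Window theorem: the main statements as propositions

Numbers.  `k = 9` only.  A line of a plane has `Nj` points, `N^(1/2 - 1/2000) / 20 ≤ Nj ≤ K √N h0`; the 9th derivative test
saves `2^(-10)`; `Nj^(-1/1400)` on a line, hence `N^(-1/2900)` for planes; `μ, ρ ≥ N^(-1/4100)`.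
Final parameters: `x = N^(1/42000)`, `ρ = x⁻²`, `h0 = x²`, `μ = x⁻¹⁰`.
-/

namespace Pool.Agent.H19.WB

open UpperHalfPlane Polynomial
open Pool.Agent.H19.Maass Pool.Agent.H19.Sup
open scoped MatrixGroups ComplexConjugate ENNReal

/-- nondegeneracy of the phase of a line -/
def NondegW : Prop :=
  ∀ (j : ℕ),
    ∃ K : ℝ, 0 < K ∧ ∀ (p : Lin) (μ : ℝ), p.Good μ →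
    ∀ (g ε : ℝ), 0 < g → g ≤ 1 → 0 ≤ ε → ∀ u : Fin (16 * j + 9) → ℝ, (∀ i, |u i| ≤ 40) →
    (∀ i l, i ≠ l → g ≤ |u i - u l|) → (∀ i, 0 < p.n.eval (u i)) →
    (∀ i, 0 < p.R1.eval (u i)) → (∀ i, 0 < p.R2.eval (u i)) →
    (∀ i, |p.H (j + 1) (u i)| ≤ ε) → μ ^ (6 * j + 4) * g ^ (16 * j + 8) ≤ K * ε

/-- a block of length at most `l`, `1 ≤ l ≤ N`, on which the `k`-th derivative has almost constant size `h` -/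
def GoodBlockW : Prop :=
  ∀ (k : ℕ), 4 ≤ k →
    ∃ (K : ℝ), 0 < K ∧
    ∀ (p : Lin) (μ : ℝ), p.Good μ → ∀ (A : ℝ → ℂ) (B0 B1 ρ₀ ρ h T N l u0 : ℝ) (a b : ℤ),
    Amp A B0 B1 ρ₀ → 0 < ρ → ρ ≤ 1 → 0 < h → 1 ≤ l → l ≤ N → a ≤ b → ((b - a : ℤ) : ℝ) ≤ l →
    l * (ρ⁻¹) ^ (2 * k + 1) ≤ N * h →
    l ^ (-(3 : ℝ)) ≤ T * h / (2 * Real.pi * N ^ k) → T * h / (2 * Real.pi * N ^ k) ≤ l ^ (-(3 / 4) : ℝ) →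
    (∀ t : ℝ, (a : ℝ) ≤ t → t ≤ b → |u0 + t / N| ≤ 40 ∧ 1 ≤ p.n.eval (u0 + t / N) ∧
      ρ ^ 2 ≤ p.R1.eval (u0 + t / N) ∧ ρ ^ 2 ≤ p.R2.eval (u0 + t / N) ∧
      h / 2 ≤ |p.H k (u0 + t / N)| ∧ |p.H k (u0 + t / N)| ≤ 2 * h) →
    ‖∑ n ∈ Finset.Icc a b, p.term A T N u0 n‖ ≤
      K * (B0 * (B0 + B1 * (l / N))) * l ^ (1 - (1 / 2) ^ (k + 1) : ℝ)

/-- the sum over a line of `N` points -/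
def LineSumW : Prop :=
  ∃ (K : ℝ), 0 < K ∧
    ∀ (p : Lin) (μ : ℝ), p.Good μ → ∀ (A : ℝ → ℂ) (B0 B1 ρ T N u0 : ℝ) (na nb : ℤ),
    Amp A B0 B1 ρ → 0 < ρ → ρ ≤ 1 → 1 ≤ N →
    N ^ (-(1 / 2000) : ℝ) ≤ μ → N ^ (-(1 / 2000) : ℝ) ≤ ρ →
    N ^ (-2 : ℝ) ≤ T / (2 * Real.pi * N ^ 9) → T / (2 * Real.pi * N ^ 9) ≤ N ^ (-(9 / 10) : ℝ) →
    (∀ n : ℤ, na ≤ n → n ≤ nb → |u0 + n / N| ≤ 40 ∧ 1 ≤ p.n.eval (u0 + n / N)) →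
    ‖∑ n ∈ Finset.Icc na nb, p.term A T N u0 n‖ ≤
      K * (B0 ^ 2 * N ^ (-(1 / 1400) : ℝ) + B0 * B1 * N ^ (-(1 / 20) : ℝ)) * N

/-- the common hypotheses on a plane -/
structure Pln (Y0 : ℝ) (A : ℝ → ℂ) (B0 B1 ρ T μ h0 : ℝ) (N : ℕ) (w w' z : ℍ) : Prop where
  hA : Amp A B0 B1 ρ
  hρ : 0 < ρ
  hρ1 : ρ ≤ 1
  hμ : 0 < μ
  hμ1 : μ ≤ 1
  hN : 1 ≤ N
  hμN : (N : ℝ) ^ (-(1 / 4100) : ℝ) ≤ μ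
  hρN : (N : ℝ) ^ (-(1 / 4100) : ℝ) ≤ ρ
  hh : 1 ≤ h0
  hhN : h0 ≤ (N : ℝ) ^ (1 / 1000 : ℝ)
  hT1 : 1 ≤ T
  hNT : (N : ℝ) ^ 39 ≤ T ^ 10
  hTN : T ≤ (N : ℝ) ^ 4
  hz : 1 / 2 ≤ z.im
  hzY : z.im ≤ Y0
  hw : 1 / 2 ≤ w.im
  hwh : w.im ≤ h0
  hw' : 1 / 2 ≤ w'.im
  hwh' : w'.im ≤ h0
  hd : μ ≤ dist w w'

/-- a line of a plane -/
def PlaneLineW : Prop :=
  ∀ Y0 : ℝ, ∃ K : ℝ, 0 < K ∧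
    ∀ (A : ℝ → ℂ) (B0 B1 ρ T μ h0 : ℝ) (N : ℕ) (M : ℤ) (w w' z : ℍ) (c d a : ℤ),
    Pln Y0 A B0 B1 ρ T μ h0 N w w' z →
    N * z.im / (2 * h0) ≤ CL1_nn c d z → CL1_nn c d z ≤ 16 * N * z.im →
    μ ^ 2 * CL1_nn c d z ≤ ((c : ℝ) * z.re + d) ^ 2 →
    ‖LL A T M w w' z c d a‖ ≤ K * (√(N : ℝ) * h0) *
      (B0 ^ 2 * (N : ℝ) ^ (-(1 / 2900) : ℝ) + B0 * B1 * (N : ℝ) ^ (-(1 / 45) : ℝ))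

/-- a plane with `c z.re + d` not small -/
def PlaneSumW : Prop :=
  ∀ Y0 : ℝ, ∃ K : ℝ, 0 < K ∧
    ∀ (A : ℝ → ℂ) (B0 B1 ρ T μ h0 : ℝ) (N : ℕ) (M : ℤ) (w w' z : ℍ) (c d : ℤ),
    Pln Y0 A B0 B1 ρ T μ h0 N w w' z →
    N * z.im / (2 * h0) ≤ CL1_nn c d z → CL1_nn c d z ≤ 16 * N * z.im →
    μ ^ 2 * CL1_nn c d z ≤ ((c : ℝ) * z.re + d) ^ 2 →
    ‖PL A T M w w' z c d‖ ≤ K * (N * h0 ^ 2) *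
      (B0 ^ 2 * (N : ℝ) ^ (-(1 / 2900) : ℝ) + B0 * B1 * (N : ℝ) ^ (-(1 / 45) : ℝ))

/-- trivial bound for a plane -/
def PlaneTrivW : Prop :=
  ∀ Y0 : ℝ, ∃ K : ℝ, 0 < K ∧
    ∀ (A : ℝ → ℂ) (B0 B1 ρ T h0 : ℝ) (N : ℕ) (M : ℤ) (w w' z : ℍ) (c d : ℤ),
    Amp A B0 B1 ρ → 1 ≤ N → 1 ≤ h0 → 1 / 2 ≤ z.im → z.im ≤ Y0 → w.im ≤ h0 →
    CL1_nn c d z ≤ 16 * N * z.im →
    ‖PL A T M w w' z c d‖ ≤ K * (N * h0 ^ 2) * B0 ^ 2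

/-- the sum over all planes -/
def AllPlanesW : Prop :=
  ∀ Y0 : ℝ, ∃ K : ℝ, 0 < K ∧
    ∀ (A : ℝ → ℂ) (B0 B1 ρ T μ h0 : ℝ) (N : ℕ) (M : ℤ) (w w' z : ℍ),
    Pln Y0 A B0 B1 ρ T μ h0 N w w' z →
    ∀ G : Finset (ℤ × ℤ),
    (∀ g ∈ G, N * z.im / (2 * h0) ≤ CL1_nn g.1 g.2 z ∧ CL1_nn g.1 g.2 z ≤ 16 * N * z.im) →
    ‖∑ g ∈ G, PL A T M w w' z g.1 g.2‖ ≤ K * (N ^ 2 * h0 ^ 2) *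
      (B0 ^ 2 * (μ + (N : ℝ) ^ (-(1 / 2900) : ℝ)) + B0 * B1 * (N : ℝ) ^ (-(1 / 45) : ℝ))

/-- trivial bound for the sum over all planes -/
def AllTrivW : Prop :=
  ∀ Y0 : ℝ, ∃ K : ℝ, 0 < K ∧
    ∀ (A : ℝ → ℂ) (B0 B1 ρ T h0 : ℝ) (N : ℕ) (M : ℤ) (w w' z : ℍ),
    Amp A B0 B1 ρ → 1 ≤ N → 1 ≤ h0 → 1 / 2 ≤ z.im → z.im ≤ Y0 → w.im ≤ h0 →
    ∀ G : Finset (ℤ × ℤ), (∀ g ∈ G, ¬ (g.1 = 0 ∧ g.2 = 0) ∧ CL1_nn g.1 g.2 z ≤ 16 * N * z.im) →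
    ‖∑ g ∈ G, PL A T M w w' z g.1 g.2‖ ≤ K * (N ^ 2 * h0 ^ 2) * B0 ^ 2

/-- the oscillating part -/
def FarBoundW : Prop :=
  ∀ Y0 : ℝ, ∃ K : ℝ, 0 < K ∧
    ∀ (α : ℕ → ℂ) (A : ℝ → ℂ) (B0 B1 ρ T μ h0 : ℝ) (N : ℕ) (z : ℍ) (S : Finset SL(2, ℤ)),
    Amp A B0 B1 ρ → 0 < ρ → ρ ≤ 1 → 0 < μ → μ ≤ 1 → 1 ≤ N →
    (N : ℝ) ^ (-(1 / 4100) : ℝ) ≤ μ → (N : ℝ) ^ (-(1 / 4100) : ℝ) ≤ ρ →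
    2 ≤ h0 → h0 ≤ (N : ℝ) ^ (1 / 1000 : ℝ) → 1 ≤ T → (N : ℝ) ^ 39 ≤ T ^ 10 → T ≤ (N : ℝ) ^ 4 →
    |z.re| ≤ 1 / 2 → 1 / 2 ≤ z.im → z.im ≤ Y0 →
    (∀ i ∈ JJ N, ∀ j ∈ JJ N, ∀ σ : SL(2, ℤ), dist (z1 z i) (σ • z1 z j) ≤ 1 / 2 → σ ∈ S) →
    ‖FF1 α A T N z S‖ ≤ K * (∑ p ∈ PR N, ‖α p‖ ^ 2) * (N : ℝ) ^ 3 * (B0 / h0 +
      √(h0 ^ 3 * (B0 ^ 2 * (μ + (N : ℝ) ^ (-(1 / 2900) : ℝ)) +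
        B0 * B1 * (N : ℝ) ^ (-(1 / 45) : ℝ))))

/-- the kernel, for all forms of a window -/
def SplitKernelW : Prop :=
  ∃ C : ℝ, 0 < C ∧ ∀ T : ℝ, 1 ≤ T → ∀ ρ : ℝ, 1 / T ≤ ρ → ρ ≤ 1 / 8 →
    ∃ (L j0 : ℕ) (k : ℝ → ℝ) (A : ℝ → ℂ), (2 : ℝ) ^ L ≤ 2 * √T ∧ j0 ≤ L ∧
      1 / (8 : ℝ) ^ j0 ≤ C * ρ ^ (3 / 2 : ℝ) ∧ Ker k (1 / 4) ∧
      (∀ t : ℝ, |t - T| ≤ 1 / 10 → 1 / 40 ≤ ‖selb k (1 / 2 + t * Complex.I)‖) ∧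
      Amp A (C * √T / √ρ) (C * √T / ρ ^ 3) ρ ∧
      ∀ z w : ℍ, ENNReal.ofReal |KK k z w - (wv A T (dist z w)).re| ≤
        phn C T j0 L (2 * Real.cosh (dist z w) - 2)

/-- Bessel's inequality for a family, with complex weights, without absolute values -/
def BesselW : Prop :=
  ∀ (k : ℝ → ℝ) (R : ℝ), Ker k R → ∀ (J : Type) [Fintype J] (t : J → ℝ) (U : J → ℂ → ℂ)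
    (c : J → ℕ → ℂ), (∀ j, Frm (t j) (U j) (c j)) → Orth U →
    ∀ (ι : Type) (I : Finset ι) (a : ι → ℂ) (ζ : ι → ℍ) (S : Finset SL(2, ℤ)),
    (∀ i ∈ I, ∀ j ∈ I, ∀ σ : SL(2, ℤ), dist (ζ i) (σ • ζ j) ≤ 2 * R → σ ∈ S) →
    ∑ j, ‖2 * selb k (1 / 2 + t j * Complex.I) * ∑ i ∈ I, a i * U j (ζ i)‖ ^ 2 ≤
      2 * (∑ i ∈ I, ∑ i' ∈ I, conj (a i) * a i' * ∑ σ ∈ S, (KK k (ζ i) (σ • ζ i') : ℂ)).re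

/-- families of forms with small Hecke eigenvalues at primes -/
def SmallFamW : Prop :=
  ∀ Y0 ε : ℝ, 0 < ε → ∃ K : ℝ, 0 < K ∧
    ∀ (N : ℕ) (T : ℝ), 1 ≤ N → (N : ℝ) ^ 7 ≤ T ^ 2 → 1 ≤ T → T ≤ (N : ℝ) ^ 6 →
    ∀ (J : Type) [Fintype J] (t : J → ℝ) (U : J → ℂ → ℂ) (c : J → ℕ → ℂ),
    (∀ j, |t j - T| ≤ 1 / 10) → (∀ j, Frm (t j) (U j) (c j)) → Orth U →
    (∀ j, ∀ p : ℕ, p.Prime → c j p ^ 2 = c j (p ^ 2) + p) →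
    ∀ z : ℍ, |z.re| ≤ 1 / 2 → 1 / 2 ≤ z.im → z.im ≤ Y0 →
    (∀ j, ∑ p ∈ PR N, ‖c j p‖ ^ 2 / p ≤ (PR N).card / 2) →
    ((PR N).card : ℝ) ^ 2 * ∑ j, ‖U j z‖ ^ 2 ≤
      K * ((N : ℝ) ^ ε * (N * T + √T * (N : ℝ) ^ (4 - 1 / 250000 : ℝ)))

/-- forms with large Hecke eigenvalues at primes, beyond `N = T^(1/4)` -/
def LargeImprovedW : Prop :=
  ∀ Y0 : ℝ, ∃ K : ℝ, 0 < K ∧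
    ∀ (N : ℕ) (T : ℝ), 1 ≤ N → (N : ℝ) ^ 39 ≤ T ^ 10 → 1 ≤ T → T ≤ (N : ℝ) ^ 4 →
    ∀ (t : ℝ) (U : ℂ → ℂ) (c : ℕ → ℂ), |t - T| ≤ 1 / 10 → Frm t U c →
    ∀ z : ℍ, |z.re| ≤ 1 / 2 → 1 / 2 ≤ z.im → z.im ≤ Y0 →
    (∑ p ∈ PR N, ‖c p‖ ^ 2 / p) * ‖U z‖ ^ 2 ≤ K * (T + √T * (N : ℝ) ^ (2 - 1 / 42000 : ℝ))

/-- forms which are at least `V` at the point `z` -/
def WeakW : Prop :=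
  ∀ Y0 : ℝ, ∃ C : ℝ, 0 < C ∧ ∀ T : ℝ, 1 ≤ T →
    ∀ (J : Type) [Fintype J] (t : J → ℝ) (U : J → ℂ → ℂ) (c : J → ℕ → ℂ),
    (∀ j, |t j - T| ≤ 1 / 10) → (∀ j, Frm (t j) (U j) (c j)) → Orth U →
    (∀ j, ∀ p : ℕ, p.Prime → c j p ^ 2 = c j (p ^ 2) + p) →
    ∀ z : ℍ, |z.re| ≤ 1 / 2 → 1 / 2 ≤ z.im → z.im ≤ Y0 → ∀ V : ℝ, 0 < V → (∀ j, V ≤ ‖U j z‖) →
    (Fintype.card J : ℝ) * V ^ 6 ≤ C * T ^ (5 / 2 - 65 / 10 ^ 8 : ℝ)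

/-- sixth moment at a point, short window -/
def SixthW : Prop :=
  ∀ Y0 : ℝ, ∃ C : ℝ, 0 < C ∧ ∀ T : ℝ, 1 ≤ T →
    ∀ (J : Type) [Fintype J] (t : J → ℝ) (U : J → ℂ → ℂ) (c : J → ℕ → ℂ),
    (∀ j, |t j - T| ≤ 1 / 10) → (∀ j, Frm (t j) (U j) (c j)) → Orth U →
    (∀ j, ∀ p : ℕ, p.Prime → c j p ^ 2 = c j (p ^ 2) + p) →
    ∀ z : ℍ, |z.re| ≤ 1 / 2 → 1 / 2 ≤ z.im → z.im ≤ Y0 →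
    ∑ j, ‖U j z‖ ^ 6 ≤ C * T ^ (5 / 2 - 6 / 10 ^ 7 : ℝ)

/-- large sieve inequality of any length -/
def SieveW : Prop :=
  ∀ ε : ℝ, 0 < ε → ∃ C : ℝ, 0 < C ∧ ∀ T : ℝ, 210 ≤ T →
    ∀ (J : Type) [Fintype J] (t : J → ℝ) (U : J → ℂ → ℂ) (c : J → ℕ → ℂ),
    (∀ j, |t j - T| ≤ 1 / 20) → (∀ j, CFrm (t j) (U j) (c j)) → Orth U →
    ∀ Y : ℝ, 0 < Y → Y ≤ 1 → ∀ (𝒩 : Finset ℕ), (∀ n ∈ 𝒩, 1 ≤ n ∧ (n : ℝ) * Y ≤ T / 272) → ∀ β : ℕ → ℂ,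
    ∑ j, ‖∑ n ∈ 𝒩, β n * c j n‖ ^ 2 ≤ C / Y * T ^ (1 + ε) * ∑ n ∈ 𝒩, n * ‖β n‖ ^ 2

/-- number of forms with small Hecke eigenvalues at primes of two ranges -/
def CountW : Prop :=
  ∀ ε : ℝ, 0 < ε → ∃ C : ℝ, 0 < C ∧ ∀ T : ℝ, 210 ≤ T →
    ∀ (J : Type) [Fintype J] (t : J → ℝ) (U : J → ℂ → ℂ) (c : J → ℕ → ℂ),
    (∀ j, |t j - T| ≤ 1 / 20) → (∀ j, CFrm (t j) (U j) (c j)) → Orth U →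
    (∀ j, ∀ p : ℕ, p.Prime → c j p ^ 2 = c j (p ^ 2) + p) →
    ∀ Y : ℝ, 0 < Y → Y ≤ 1 → ∀ N : ℕ, 1 ≤ N → 4096 * (N : ℝ) ^ 4 * Y ≤ T / 272 →
    (∀ j, ∑ p ∈ PR N, ‖c j p‖ ^ 2 / p ≤ (PR N).card / 2) →
    (∀ j, ∑ p ∈ PR (4 * N), ‖c j p‖ ^ 2 / p ≤ (PR (4 * N)).card / 2) →
    (Fintype.card J : ℝ) * ((PR N).card * (PR (4 * N)).card) ≤ C / Y * T ^ (1 + ε)

/-- almost all forms, short window -/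
def AlmostW : Prop :=
  ∀ δ ε Y0 : ℝ, 0 ≤ δ → δ ≤ 1 / 10 ^ 6 → 0 < ε → ∃ C : ℝ, 0 < C ∧ ∀ T : ℝ, 1 ≤ T →
    ∀ (J : Type) [Fintype J] (t : J → ℝ) (U : J → ℂ → ℂ) (c : J → ℕ → ℂ),
    (∀ j, |t j - T| ≤ 1 / 20) → (∀ j, CFrm (t j) (U j) (c j)) → Orth U →
    (∀ j, ∀ p : ℕ, p.Prime → c j p ^ 2 = c j (p ^ 2) + p) →
    (∀ j, ∃ z : ℍ, |z.re| ≤ 1 / 2 ∧ 1 / 2 ≤ z.im ∧ z.im ≤ Y0 ∧ C * T ^ (3 / 8 - δ) < ‖U j z‖) →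
    (Fintype.card J : ℝ) ≤ C * T ^ (1 / 2 + 4 * δ + ε)

/-- **Window theorem.** -/
def WindowSixthW : Prop :=
  ∀ K : Set ℂ, IsCompact K → K ⊆ {z : ℂ | 0 < z.im} →
    ∃ C : ℝ, ∀ T : ℝ, 1 ≤ T →
      ∀ (n : ℕ) (t : Fin n → ℝ) (U : Fin n → ℂ → ℂ),
        (∀ j, T ≤ t j ∧ t j ≤ T + 1) → (∀ j, IsHeckeMaass (t j) (U j)) →
        (∀ i j, i ≠ j → OrthForms (U i) (U j)) →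
        ∀ z ∈ K, ∑ j, ‖U j z‖ ^ 6 ≤ C * T ^ (5 / 2 - 6 / 10 ^ 7 : ℝ)

/-- **Almost all forms.** -/
def AlmostAllW : Prop :=
  ∀ K : Set ℂ, IsCompact K → K ⊆ {z : ℂ | 0 < z.im} → ∀ δ ε : ℝ, 0 ≤ δ → δ ≤ 1 / 10 ^ 6 → 0 < ε →
    ∃ C : ℝ, ∀ T : ℝ, 1 ≤ T →
    ∀ (n : ℕ) (t : Fin n → ℝ) (U : Fin n → ℂ → ℂ),
    (∀ j, T ≤ t j ∧ t j ≤ T + 1) →
    (∀ j, IsHeckeMaass (t j) (U j)) →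
    (∀ i j, i ≠ j → OrthForms (U i) (U j)) →
    (∀ j, ∃ z ∈ K, C * T ^ (3 / 8 - δ) < ‖U j z‖) →
    (n : ℝ) ≤ C * T ^ (1 / 2 + 4 * δ + ε)

end Pool.Agent.H19.WB
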