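import Mathlib
import Pool.Agent.H19.WB.St
import Pool.Agent.H19.Maass.Unit

set_option autoImplicit false

/-!
# AM: almost all forms, short window

Copy of `Maass.short_window` (`Maass/Unit.lean`).  Let `κ = 1/42000`, `e = min (ε / 8) (1 / 10^7)`, `η = 2 δ + e`, `N = ⌊T^(1/4 + η)⌋`, `T ≥ T₀` (small `T`: the hypothesis is impossible by
`weyl_bound`, choice of `C`).  For `M = N` and `M = 4 N`: `T ≤ M^4`, `M^39 ≤ T^10`, `#PR M ≥ c M^(1 - e)` (`card_PR_ge`).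
All forms have small eigenvalues at `M`: otherwise `#PR M / 2 * ‖U z‖² ≤ K (T + √T M^(2 - κ))` by `large`; but `‖U z‖² ≥ C² T^(3/4 - 2 δ)`, and
`(1/4 + η) (1 - e) + 3/4 - 2 δ ≥ 1` and `≥ 1/2 + (1/4 + η) (2 - κ)` (the latter because `4 δ + 2 e ≤ 42/10^7 ≤ κ / 4 = 59.5/10^7`), contradiction for large `C`.
`count` with `Y = min 1 (T / (272 * 4096 N^4))` (so `1 / Y ≤ K T^(4 η)`), exponent `e`:
`card J ≤ K T^(1 + e + 4 η - 2 (1/4 + η) (1 - e)) ≤ K T^(1/2 + 4 δ + ε)`.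
-/

namespace Pool.Agent.H19.WB

open UpperHalfPlane
open Pool.Agent.H19.Maass Pool.Agent.H19.Sup
open scoped MatrixGroups ComplexConjugate ENNReal

theorem almost_w (large : LargeImprovedW) (count : CountW) : AlmostW := by
  intro δ ε Y0 hδ0 hδ1 hε
  obtain ⟨C₀, hC₀, hweyl⟩ := weyl_bound
  obtain ⟨C₁, hC₁, hlarge⟩ := large Y0
  set e : ℝ := min (ε / 8) (1 / 10 ^ 7) with he
  have he0 : 0 < e := by positivity
  have he1 : e ≤ 1 / 10 ^ 7 := min_le_right _ _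
  have heε : e ≤ ε / 8 := min_le_left _ _
  obtain ⟨C₂, hC₂, hcount⟩ := count e he0
  obtain ⟨c₀, hc₀, hcard⟩ := card_PR_ge e he0
  set η : ℝ := 2 * δ + e with hη
  have hη0 : 0 < η := by positivity
  have hηe : e ≤ η := by rw [hη]; linarith
  have hη1 : η ≤ 21 / 10 ^ 7 := by rw [hη]; linarith
  set T₀ : ℝ := max (4 ^ 160) ((2 : ℝ) ^ (1 / e)) with hT₀
  have hT₀1 : (4 : ℝ) ^ 160 ≤ T₀ := le_max_left _ _
  have hT₀2 : (2 : ℝ) ^ (1 / e) ≤ T₀ := le_max_right _ _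
  have hT₀0 : 0 < T₀ := lt_of_lt_of_le (by positivity) hT₀1
  set Y' : ℝ := 1 + |Y0| with hY'
  have hY'1 : 1 ≤ Y' := by rw [hY']; linarith [abs_nonneg Y0]
  set κ : ℝ := c₀ / 2 with hκ
  have hκ0 : 0 < κ := by positivity
  set A : ℝ := 1 + C₀ * Y' * T₀ + 34 * C₁ / κ + C₂ * 1114112 / κ ^ 2 with hA
  have q1 : 0 ≤ C₀ * Y' * T₀ := by positivity
  have q2 : 0 ≤ 34 * C₁ / κ := by positivity
  have q3 : 0 ≤ C₂ * 1114112 / κ ^ 2 := by positivity
  have hA0 : 0 < A := by positivity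
  have hA1 : C₀ * Y' * T₀ ≤ A := by rw [hA]; linarith
  have hA2 : 34 * C₁ / κ ≤ A := by rw [hA]; linarith
  have hA3 : C₂ * 1114112 / κ ^ 2 ≤ A := by rw [hA]; linarith
  have hA4 : 1 ≤ A := by rw [hA]; linarith
  refine ⟨A, hA0, ?_⟩
  intro T hT J _ t U c ht hF horth hrel hbig
  classical
  have hT0 : 0 < T := by linarith
  rcases isEmpty_or_nonempty J with hJ | ⟨⟨j₀⟩⟩
  · rw [Fintype.card_eq_zero]
    push_cast
    positivity
  rcases lt_or_ge T T₀ with hTs | hTl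
  · -- small `T`: the hypothesis is impossible
    exfalso
    obtain ⟨z, hz1, hz2, hz3, hz4⟩ := hbig j₀
    have h1 := hweyl T hT J t U c (fun j => (ht j).trans (by norm_num)) (fun j => (hF j).toFrm)
      horth z hz1 hz2
    have h2 : ‖U j₀ z‖ ^ 2 ≤ C₀ * (1 + z.im) * T :=
      (Finset.single_le_sum (f := fun j => ‖U j z‖ ^ 2) (fun i _ => by positivity)
        (Finset.mem_univ j₀)).trans h1
    have h3 : C₀ * (1 + z.im) * T ≤ A := by
      refine le_trans ?_ hA1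
      have : 1 + z.im ≤ Y' := by rw [hY']; linarith [le_abs_self Y0]
      have := z.im_pos
      gcongr
    have h4 : A ≤ (A * T ^ (3 / 8 - δ)) ^ 2 := by
      have e1 : 1 ≤ T ^ (3 / 8 - δ) := Real.one_le_rpow hT (by linarith)
      have e2 : A ≤ A * T ^ (3 / 8 - δ) := le_mul_of_one_le_right hA0.le e1
      nlinarith
    have h5 : (A * T ^ (3 / 8 - δ)) ^ 2 < ‖U j₀ z‖ ^ 2 := pow_lt_pow_left₀ hz4 (by positivity)
      (by norm_num)
    linarith
  -- large `T`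
  have hT4 : (4 : ℝ) ^ 160 ≤ T := hT₀1.trans hTl
  have hT210 : 210 ≤ T := le_trans (by norm_num) hT4
  set Q : ℝ := T ^ (1 / 4 : ℝ) with hQ
  have hQ0 : 0 < Q := Real.rpow_pos_of_pos hT0 _
  have hQ1 : 1 ≤ Q := Real.one_le_rpow hT (by norm_num)
  have hQ4 : Q ^ 4 = T := by
    rw [hQ, ← Real.rpow_natCast, ← Real.rpow_mul hT0.le]; norm_num
  set R : ℝ := T ^ (1 / 4 + η) with hR
  have hR0 : 0 < R := Real.rpow_pos_of_pos hT0 _
  have hQR : 2 * Q ≤ R := by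
    rw [hR, Real.rpow_add hT0, mul_comm]
    refine mul_le_mul_of_nonneg_left ?_ hQ0.le
    calc (2 : ℝ) = ((2 : ℝ) ^ (1 / e)) ^ e := by
          rw [← Real.rpow_mul (by norm_num), one_div_mul_cancel he0.ne', Real.rpow_one]
      _ ≤ T ^ e := Real.rpow_le_rpow (by positivity) (hT₀2.trans hTl) he0.le
      _ ≤ T ^ η := Real.rpow_le_rpow_of_exponent_le hT hηe
  set N : ℕ := ⌊R⌋₊ with hN
  have hNle : (N : ℝ) ≤ R := Nat.floor_le hR0.le
  have hNge1 : R < N + 1 := Nat.lt_floor_add_one _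
  have hNQ : Q ≤ N := by linarith
  have hN1r : (1 : ℝ) ≤ N := hQ1.trans hNQ
  have hN1 : 1 ≤ N := by exact_mod_cast hN1r
  have hN0r : (0 : ℝ) < N := by linarith
  have hNge : R / 2 ≤ N := by linarith
  have hprime : ∀ M : ℕ, N ≤ M → κ * R ^ (1 - e) ≤ (PR M).card := by
    intro M hM
    have hM1 : 1 ≤ M := hN1.trans hM
    have hM0 : (0 : ℝ) < M := by exact_mod_cast hM1
    have hNM : (N : ℝ) ≤ M := by exact_mod_cast hM
    refine le_trans ?_ (hcard M hM1)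
    have h1 : (M : ℝ) / (M : ℝ) ^ e = (M : ℝ) ^ (1 - e) := by
      rw [Real.rpow_sub hM0, Real.rpow_one]
    rw [h1, hκ]
    have h2 : (R / 2) ^ (1 - e) ≤ (M : ℝ) ^ (1 - e) :=
      Real.rpow_le_rpow (by positivity) (by linarith) (by linarith)
    have h3 : R ^ (1 - e) / 2 ≤ (R / 2) ^ (1 - e) := by
      rw [Real.div_rpow hR0.le (by norm_num)]
      refine div_le_div_of_nonneg_left (by positivity) (by positivity) ?_
      calc (2 : ℝ) ^ (1 - e) ≤ 2 ^ (1 : ℝ) :=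
            Real.rpow_le_rpow_of_exponent_le (by norm_num) (by linarith)
        _ = 2 := Real.rpow_one _
    calc c₀ / 2 * R ^ (1 - e) = c₀ * (R ^ (1 - e) / 2) := by ring
      _ ≤ c₀ * (M : ℝ) ^ (1 - e) := by
          refine mul_le_mul_of_nonneg_left (h3.trans h2) hc₀.le
  have hRe : R ^ (1 - e) = T ^ ((1 / 4 + η) * (1 - e)) := by
    rw [hR, ← Real.rpow_mul hT0.le]
  have hηe2 : η * e ≤ 21 / 10 ^ 7 * e := mul_le_mul_of_nonneg_right hη1 he0.le
  have hηe3 : 0 ≤ η * e := by positivity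
  -- forms with a large value have small Hecke eigenvalues
  have hsm : ∀ (M : ℕ), N ≤ M → (M : ℝ) ≤ 4 * R → ∀ j,
      ∑ p ∈ PR M, ‖c j p‖ ^ 2 / p ≤ (PR M).card / 2 := by
    intro M hM hMR j
    by_contra hcon
    rw [not_le] at hcon
    obtain ⟨z, hz1, hz2, hz3, hz4⟩ := hbig j
    have hM1 : 1 ≤ M := hN1.trans hM
    have hM0 : (0 : ℝ) < M := by exact_mod_cast hM1
    have hNM : (N : ℝ) ≤ M := by exact_mod_cast hM
    have hTM : T ≤ (M : ℝ) ^ 4 := by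
      rw [← hQ4]
      exact pow_le_pow_left₀ hQ0.le (hNQ.trans hNM) 4
    have hMT : (M : ℝ) ^ 39 ≤ T ^ 10 := by
      have a1 : (M : ℝ) ^ 39 ≤ (4 * R) ^ 39 := pow_le_pow_left₀ hM0.le hMR 39
      have a2 : (4 : ℝ) ^ 39 ≤ T ^ (39 / 160 : ℝ) := by
        calc (4 : ℝ) ^ 39 = ((4 : ℝ) ^ 160) ^ (39 / 160 : ℝ) := by
              rw [← Real.rpow_natCast (4 : ℝ) 160, ← Real.rpow_mul (by norm_num)]
              norm_num
          _ ≤ T ^ (39 / 160 : ℝ) := Real.rpow_le_rpow (by positivity) hT4 (by norm_num)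
      have a3 : R ^ 39 = T ^ ((1 / 4 + η) * 39) := by
        rw [hR, ← Real.rpow_natCast, ← Real.rpow_mul hT0.le]
        norm_num
      calc (M : ℝ) ^ 39 ≤ (4 * R) ^ 39 := a1
        _ = 4 ^ 39 * R ^ 39 := mul_pow _ _ _
        _ ≤ T ^ (39 / 160 : ℝ) * T ^ ((1 / 4 + η) * 39) := by rw [a3]; gcongr
        _ = T ^ (39 / 160 + (1 / 4 + η) * 39) := by rw [← Real.rpow_add hT0]
        _ ≤ T ^ (10 : ℝ) := Real.rpow_le_rpow_of_exponent_le hT (by linarith)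
        _ = T ^ 10 := by norm_num
    have h1 := hlarge M T hM1 hMT hT hTM (t j) (U j) (c j) ((ht j).trans (by norm_num))
      (hF j).toFrm z hz1 hz2 hz3
    set γ : ℝ := (1 / 4 + η) * (1 - e) + (3 / 4 - 2 * δ) with hγ
    have hγ' : γ = 1 + η - 2 * δ - e / 4 - η * e := by rw [hγ]; ring
    have hγ1 : 1 ≤ γ := by
      rw [hγ', hη] at *
      linarith
    have hγ2 : 1 / 2 + (1 / 4 + η) * (2 - 1 / 42000) ≤ γ := by
      have : 1 / 2 + (1 / 4 + η) * (2 - 1 / 42000) = 1 + 2 * η - 1 / 168000 - η / 42000 := by ring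
      rw [this, hγ']
      have : η = 2 * δ + e := hη
      linarith
    have h2 : T + √T * (M : ℝ) ^ (2 - 1 / 42000 : ℝ) ≤ 17 * T ^ γ := by
      have b1 : T ≤ T ^ γ := by
        calc T = T ^ (1 : ℝ) := (Real.rpow_one T).symm
          _ ≤ _ := Real.rpow_le_rpow_of_exponent_le hT hγ1
      have b2 : (M : ℝ) ^ (2 - 1 / 42000 : ℝ) ≤ 16 * T ^ ((1 / 4 + η) * (2 - 1 / 42000)) := by
        calc (M : ℝ) ^ (2 - 1 / 42000 : ℝ) ≤ (4 * R) ^ (2 - 1 / 42000 : ℝ) :=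
              Real.rpow_le_rpow hM0.le hMR (by norm_num)
          _ = 4 ^ (2 - 1 / 42000 : ℝ) * R ^ (2 - 1 / 42000 : ℝ) :=
              Real.mul_rpow (by norm_num) hR0.le
          _ ≤ 4 ^ (2 : ℝ) * R ^ (2 - 1 / 42000 : ℝ) := by
              refine mul_le_mul_of_nonneg_right ?_ (by positivity)
              exact Real.rpow_le_rpow_of_exponent_le (by norm_num) (by norm_num)
          _ = 16 * T ^ ((1 / 4 + η) * (2 - 1 / 42000)) := by
              rw [hR, ← Real.rpow_mul hT0.le]; norm_num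
      calc T + √T * (M : ℝ) ^ (2 - 1 / 42000 : ℝ)
          ≤ T ^ γ + T ^ (1 / 2 : ℝ) * (16 * T ^ ((1 / 4 + η) * (2 - 1 / 42000))) := by
            rw [Real.sqrt_eq_rpow]
            gcongr
        _ = T ^ γ + 16 * T ^ (1 / 2 + (1 / 4 + η) * (2 - 1 / 42000)) := by
            rw [Real.rpow_add hT0 (1 / 2)]; ring
        _ ≤ T ^ γ + 16 * T ^ γ := by
            have := Real.rpow_le_rpow_of_exponent_le hT hγ2
            linarith
        _ = 17 * T ^ γ := by ring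
    have h3 : ((PR M).card : ℝ) / 2 * ‖U j z‖ ^ 2 ≤ C₁ * (17 * T ^ γ) := by
      calc ((PR M).card : ℝ) / 2 * ‖U j z‖ ^ 2
          ≤ (∑ p ∈ PR M, ‖c j p‖ ^ 2 / p) * ‖U j z‖ ^ 2 := by gcongr
        _ ≤ C₁ * (T + √T * (M : ℝ) ^ (2 - 1 / 42000 : ℝ)) := h1
        _ ≤ C₁ * (17 * T ^ γ) := by gcongr
    have h4 := hprime M hM
    have h5 : κ * R ^ (1 - e) * ‖U j z‖ ^ 2 ≤ 34 * C₁ * T ^ γ := by
      calc κ * R ^ (1 - e) * ‖U j z‖ ^ 2 ≤ (PR M).card * ‖U j z‖ ^ 2 := by gcongr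
        _ = 2 * (((PR M).card : ℝ) / 2 * ‖U j z‖ ^ 2) := by ring
        _ ≤ 2 * (C₁ * (17 * T ^ γ)) := by gcongr
        _ = _ := by ring
    have h6 : (A * T ^ (3 / 8 - δ)) ^ 2 < ‖U j z‖ ^ 2 := pow_lt_pow_left₀ hz4 (by positivity)
      (by norm_num)
    have h7 : R ^ (1 - e) * (T ^ (3 / 8 - δ)) ^ 2 = T ^ γ := by
      rw [hRe, ← Real.rpow_natCast (T ^ (3 / 8 - δ)), ← Real.rpow_mul hT0.le, ← Real.rpow_add hT0]
      congr 1
      push_cast
      rw [hγ]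
      ring
    have hTγ : 0 < T ^ γ := Real.rpow_pos_of_pos hT0 _
    have h8 : κ * A ^ 2 * T ^ γ < 34 * C₁ * T ^ γ := by
      calc κ * A ^ 2 * T ^ γ = κ * R ^ (1 - e) * (A * T ^ (3 / 8 - δ)) ^ 2 := by
            rw [← h7]; ring
        _ < κ * R ^ (1 - e) * ‖U j z‖ ^ 2 := by
            refine mul_lt_mul_of_pos_left h6 (by positivity)
        _ ≤ _ := h5
    have h9 : κ * A ^ 2 < 34 * C₁ := lt_of_mul_lt_mul_right h8 hTγ.le
    have h10 : 34 * C₁ ≤ κ * A := by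
      rw [div_le_iff₀ hκ0] at hA2
      linarith
    have h11 : κ * A ≤ κ * A ^ 2 := by
      refine mul_le_mul_of_nonneg_left ?_ hκ0.le
      nlinarith
    linarith
  -- the height
  set Y : ℝ := min 1 (T / (272 * 4096 * (N : ℝ) ^ 4)) with hY
  have hY0 : 0 < Y := by
    rw [hY]
    exact lt_min one_pos (by positivity)
  have hY1 : Y ≤ 1 := min_le_left _ _
  have hY2 : 4096 * (N : ℝ) ^ 4 * Y ≤ T / 272 := by
    have : Y ≤ T / (272 * 4096 * (N : ℝ) ^ 4) := min_le_right _ _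
    calc 4096 * (N : ℝ) ^ 4 * Y ≤ 4096 * (N : ℝ) ^ 4 * (T / (272 * 4096 * (N : ℝ) ^ 4)) := by gcongr
      _ = T / 272 := by field_simp
  have hR4 : R ^ 4 = T * T ^ (4 * η) := by
    rw [hR, ← Real.rpow_natCast, ← Real.rpow_mul hT0.le]
    rw [← Real.rpow_one_add' hT0.le (by positivity)]
    congr 1
    push_cast
    ring
  have hY3 : 1 / Y ≤ 1114112 * T ^ (4 * η) := by
    have hTη : 1 ≤ T ^ (4 * η) := Real.one_le_rpow hT (by positivity)
    rw [div_le_iff₀ hY0, hY]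
    rcases min_choice (1 : ℝ) (T / (272 * 4096 * (N : ℝ) ^ 4)) with h | h
    · rw [h]; linarith
    · rw [h]
      have g1 : (N : ℝ) ^ 4 ≤ T * T ^ (4 * η) := by
        rw [← hR4]; exact pow_le_pow_left₀ hN0r.le hNle 4
      rw [mul_div_assoc', le_div_iff₀ (by positivity)]
      nlinarith
  have hfin := hcount T hT210 J t U c ht hF horth hrel Y hY0 hY1 N hN1 hY2
    (hsm N le_rfl (by linarith)) (hsm (4 * N) (by omega) (by push_cast; linarith))
  have h1 := hprime N le_rfl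
  have h2 := hprime (4 * N) (by omega)
  have h3 : (Fintype.card J : ℝ) * (κ ^ 2 * T ^ ((1 / 2 + 2 * η) * (1 - e))) ≤
      C₂ * (1114112 * T ^ (4 * η)) * T ^ (1 + e) := by
    have e0 : C₂ / Y * T ^ (1 + e) ≤ C₂ * (1114112 * T ^ (4 * η)) * T ^ (1 + e) := by
      rw [div_eq_mul_one_div C₂ Y]
      gcongr
    refine le_trans ?_ (hfin.trans e0)
    have e1 : κ ^ 2 * T ^ ((1 / 2 + 2 * η) * (1 - e)) =
        (κ * R ^ (1 - e)) * (κ * R ^ (1 - e)) := by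
      have e2 : T ^ ((1 / 2 + 2 * η) * (1 - e)) = R ^ (1 - e) * R ^ (1 - e) := by
        rw [hRe, ← Real.rpow_add hT0]
        congr 1; ring
      rw [e2]; ring
    rw [e1]
    have : 0 ≤ κ * R ^ (1 - e) := by positivity
    gcongr
  have h4 : (Fintype.card J : ℝ) ≤
      C₂ * 1114112 / κ ^ 2 * (T ^ (4 * η + (1 + e)) / T ^ ((1 / 2 + 2 * η) * (1 - e))) := by
    rw [div_mul_div_comm, le_div_iff₀ (by positivity), Real.rpow_add hT0 (4 * η)]
    refine h3.trans (le_of_eq ?_)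
    ring
  refine h4.trans ?_
  have h5 : T ^ (4 * η + (1 + e)) / T ^ ((1 / 2 + 2 * η) * (1 - e)) ≤
      T ^ (1 / 2 + 4 * δ + ε) := by
    rw [← Real.rpow_sub hT0]
    refine Real.rpow_le_rpow_of_exponent_le hT ?_
    have : 4 * η + (1 + e) - (1 / 2 + 2 * η) * (1 - e) = 1 / 2 + 2 * η + 3 / 2 * e + 2 * (η * e) := by
      ring
    rw [this, hη]
    rw [hη] at hηe2
    linarith
  exact mul_le_mul hA3 h5 (by positivity) hA0.le

end Pool.Agent.H19.WB
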