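import Mathlib
import Pool.Agent.H19.WB.St
import Pool.Agent.H19.Maass.Unit

set_option autoImplicit false

/-!
# CW: number of forms with small Hecke eigenvalues at the primes of two ranges

Copy of `Maass.small_count` (`Maass/Unit.lean`) with `sieve` (parameter `Y`) instead of `large_sieve`.
-/

namespace Pool.Agent.H19.WB

open UpperHalfPlane
open Pool.Agent.H19.Maass Pool.Agent.H19.Sup
open scoped MatrixGroups ComplexConjugate ENNReal

theorem count_w (sieve : SieveW) : CountW := by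
  intro ε hε
  obtain ⟨C, hC, hls⟩ := sieve ε hε
  refine ⟨16 * C, by positivity, ?_⟩
  intro T hT J _ t U c ht hF horth hrel Y hY hY1 N hN hNT hs1 hs2
  classical
  have hT0 : 0 < T := by linarith
  set P : Finset (ℕ × ℕ) := PR N ×ˢ PR (4 * N) with hP
  set g : ℕ × ℕ → ℕ := fun x => x.1 ^ 2 * x.2 ^ 2 with hg
  have hmem : ∀ x ∈ P, (N < x.1 ∧ x.1 ≤ 4 * N ∧ x.1.Prime) ∧ (4 * N < x.2 ∧ x.2 ≤ 16 * N ∧
      x.2.Prime) := by
    intro x hx
    rw [hP, Finset.mem_product, mem_PR, mem_PR] at hx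
    exact ⟨⟨hx.1.1.1, hx.1.1.2, hx.1.2⟩, ⟨hx.2.1.1, by omega, hx.2.2⟩⟩
  have hinj : Set.InjOn g (P : Set (ℕ × ℕ)) := by
    intro x hx y hy hxy
    obtain ⟨⟨a1, a2, a3⟩, ⟨a4, a5, a6⟩⟩ := hmem x hx
    obtain ⟨⟨b1, b2, b3⟩, ⟨b4, b5, b6⟩⟩ := hmem y hy
    have h1 : (x.1 * x.2) ^ 2 = (y.1 * y.2) ^ 2 := by
      rw [mul_pow, mul_pow]; exact hxy
    have h2 : x.1 * x.2 = y.1 * y.2 := Nat.pow_left_injective (by norm_num) h1
    have h3 : x.1 ∣ y.1 * y.2 := ⟨x.2, h2.symm⟩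
    rcases (Nat.Prime.dvd_mul a3).1 h3 with h4 | h4
    · have h5 : x.1 = y.1 := (Nat.prime_dvd_prime_iff_eq a3 b3).1 h4
      rw [h5] at h2
      have h6 : x.2 = y.2 := Nat.eq_of_mul_eq_mul_left b3.pos h2
      exact Prod.ext h5 h6
    · have h5 : x.1 = y.2 := (Nat.prime_dvd_prime_iff_eq a3 b6).1 h4
      omega
  have hcop : ∀ x ∈ P, Nat.Coprime (x.1 ^ 2) (x.2 ^ 2) := by
    intro x hx
    obtain ⟨⟨a1, a2, a3⟩, ⟨a4, a5, a6⟩⟩ := hmem x hx
    exact Nat.Coprime.pow 2 2 ((Nat.coprime_primes a3 a6).2 (by omega))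
  set 𝒩 := P.image g with h𝒩
  set β : ℕ → ℂ := fun n => 1 / (Nat.sqrt n : ℂ) with hβ
  have hβg : ∀ x : ℕ × ℕ, β (g x) = 1 / ((x.1 : ℂ) * x.2) := by
    intro x
    rw [hβ, hg]; simp only
    rw [← mul_pow, sq, Nat.sqrt_eq]
    push_cast
    rfl
  have hcard : (P.card : ℝ) = (PR N).card * (PR (4 * N)).card := by
    rw [hP, Finset.card_product]; push_cast; ring
  have hmain := hls T hT J t U c ht hF horth Y hY hY1 𝒩 (by
    intro n hn
    rw [h𝒩, Finset.mem_image] at hn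
    obtain ⟨x, hx, rfl⟩ := hn
    obtain ⟨⟨a1, a2, a3⟩, ⟨a4, a5, a6⟩⟩ := hmem x hx
    refine ⟨Nat.mul_pos (pow_pos a3.pos 2) (pow_pos a6.pos 2), le_trans ?_ hNT⟩
    rw [hg]; simp only
    have e1 : (x.1 : ℝ) ≤ 4 * N := by exact_mod_cast a2
    have e2 : (x.2 : ℝ) ≤ 16 * N := by exact_mod_cast a5
    push_cast
    calc (x.1 : ℝ) ^ 2 * (x.2 : ℝ) ^ 2 * Y ≤ (4 * N) ^ 2 * (16 * N) ^ 2 * Y := by gcongr
      _ = 4096 * (N : ℝ) ^ 4 * Y := by ring) β
  have hS : ∑ n ∈ 𝒩, (n : ℝ) * ‖β n‖ ^ 2 = P.card := by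
    rw [h𝒩, Finset.sum_image hinj, Finset.card_eq_sum_ones]
    push_cast
    refine Finset.sum_congr rfl fun x hx => ?_
    obtain ⟨⟨a1, a2, a3⟩, ⟨a4, a5, a6⟩⟩ := hmem x hx
    have e1 : (0 : ℝ) < x.1 := by exact_mod_cast a3.pos
    have e2 : (0 : ℝ) < x.2 := by exact_mod_cast a6.pos
    rw [hβg, norm_div, norm_one, norm_mul, Complex.norm_natCast, Complex.norm_natCast, hg]
    push_cast
    field_simp
  rw [hS] at hmain
  have hval : ∀ (M : ℕ) (j : J), ∑ p ∈ PR M, ‖c j p‖ ^ 2 / p ≤ (PR M).card / 2 →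
      (PR M).card / 2 ≤ ‖∑ p ∈ PR M, c j (p ^ 2) / (p : ℂ)‖ := by
    intro M j hs
    have e1 : ∑ p ∈ PR M, c j (p ^ 2) / (p : ℂ) = ∑ p ∈ PR M, c j p ^ 2 / p - (PR M).card := by
      rw [Finset.card_eq_sum_ones]
      push_cast
      rw [← Finset.sum_sub_distrib]
      refine Finset.sum_congr rfl fun p hp => ?_
      have hp0 : (p : ℂ) ≠ 0 := by exact_mod_cast (mem_PR.1 hp).2.ne_zero
      rw [hrel j p (mem_PR.1 hp).2]
      field_simp
      ring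
    rw [e1]
    have e2 : ‖∑ p ∈ PR M, c j p ^ 2 / (p : ℂ)‖ ≤ (PR M).card / 2 := by
      refine (norm_sum_le _ _).trans (le_trans (le_of_eq ?_) hs)
      refine Finset.sum_congr rfl fun p _ => ?_
      rw [norm_div, norm_pow, Complex.norm_natCast]
    have e3 := norm_sub_norm_le ((PR M).card : ℂ) (∑ p ∈ PR M, c j p ^ 2 / (p : ℂ))
    rw [norm_sub_rev, Complex.norm_natCast] at e3
    linarith
  have hlow : ∀ j, (P.card : ℝ) / 4 ≤ ‖∑ n ∈ 𝒩, β n * c j n‖ := by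
    intro j
    have e1 : ∑ n ∈ 𝒩, β n * c j n = (∑ p ∈ PR N, c j (p ^ 2) / (p : ℂ)) *
        ∑ q ∈ PR (4 * N), c j (q ^ 2) / (q : ℂ) := by
      rw [h𝒩, Finset.sum_image hinj, Finset.sum_mul_sum, ← Finset.sum_product']
      refine Finset.sum_congr rfl fun x hx => ?_
      obtain ⟨⟨a1, a2, a3⟩, ⟨a4, a5, a6⟩⟩ := hmem x hx
      rw [hβg, hg]
      simp only
      rw [(hF j).c_coprime (pow_pos a3.pos 2) (pow_pos a6.pos 2) (hcop x hx)]
      have e1 : (x.1 : ℂ) ≠ 0 := by exact_mod_cast a3.ne_zero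
      have e2 : (x.2 : ℂ) ≠ 0 := by exact_mod_cast a6.ne_zero
      field_simp
    rw [e1, norm_mul, hcard]
    have e2 := hval N j (hs1 j)
    have e3 := hval (4 * N) j (hs2 j)
    calc ((PR N).card : ℝ) * (PR (4 * N)).card / 4 = (PR N).card / 2 * ((PR (4 * N)).card / 2) := by
          ring
      _ ≤ _ := by gcongr
  have hP1 : (0 : ℝ) < P.card := by
    rw [hcard]
    have e1 : (1 : ℝ) ≤ (PR N).card := by exact_mod_cast card_PR_pos hN
    have e2 : (1 : ℝ) ≤ (PR (4 * N)).card := by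
      exact_mod_cast card_PR_pos (show 1 ≤ 4 * N by omega)
    positivity
  have hsum : (Fintype.card J : ℝ) * ((P.card : ℝ) / 4) ^ 2 ≤ ∑ j, ‖∑ n ∈ 𝒩, β n * c j n‖ ^ 2 := by
    calc (Fintype.card J : ℝ) * ((P.card : ℝ) / 4) ^ 2 = ∑ _j : J, ((P.card : ℝ) / 4) ^ 2 := by
          rw [Finset.sum_const, nsmul_eq_mul, Finset.card_univ]
      _ ≤ _ := Finset.sum_le_sum fun j _ => pow_le_pow_left₀ (by positivity) (hlow j) 2
  have hfin := hsum.trans hmain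
  rw [← hcard]
  have h1 : ((Fintype.card J : ℝ) * P.card) * P.card ≤ (16 * C / Y * T ^ (1 + ε)) * P.card := by
    calc ((Fintype.card J : ℝ) * P.card) * P.card =
          16 * ((Fintype.card J : ℝ) * ((P.card : ℝ) / 4) ^ 2) := by ring
      _ ≤ 16 * (C / Y * T ^ (1 + ε) * P.card) := by gcongr
      _ = _ := by ring
  exact le_of_mul_le_mul_right h1 hP1

end Pool.Agent.H19.WB
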