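import Mathlib
import Pool.Agent.H19.WB.St
import Pool.Agent.H19.Maass.UnitWindow

set_option autoImplicit false

/-!
# FA: almost all forms, from short windows to unit windows

Copy of `Maass.unit_window` (`Maass/UnitWindow.lean`), with `3/8 - δ` and `1/2 + 4 δ + ε`.
-/

namespace Pool.Agent.H19.WB

open UpperHalfPlane
open Pool.Agent.H19.Maass Pool.Agent.H19.Sup
open scoped MatrixGroups ComplexConjugate ENNReal

theorem almost_all_w (almost : AlmostW) : AlmostAllW := by
  classical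
  intro K hK hKU δ ε hδ hδ1 hε
  have hδ2 : δ ≤ 3 / 8 := hδ1.trans (by norm_num)
  obtain ⟨Y, hY⟩ : ∃ Y : ℝ, ∀ z ∈ K, z.im + 1 / z.im ≤ Y := by
    have hcont : ContinuousOn (fun z : ℂ => z.im + 1 / z.im) K := by
      refine ContinuousOn.add Complex.continuous_im.continuousOn ?_
      refine ContinuousOn.div continuousOn_const Complex.continuous_im.continuousOn ?_
      intro z hz
      exact ne_of_gt (hKU hz)
    obtain ⟨Y, hY⟩ := (hK.image_of_continuousOn hcont).bddAbove
    exact ⟨Y, fun z hz => hY ⟨z, hz, rfl⟩⟩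
  obtain ⟨C, hC, hmain⟩ := almost δ ε Y hδ hδ1 hε
  set D : ℝ := 10 * (C * 2 ^ (1 / 2 + 4 * δ + ε)) with hD
  have h2e : (1 : ℝ) ≤ 2 ^ (1 / 2 + 4 * δ + ε) :=
    Real.one_le_rpow (by norm_num) (by linarith)
  refine ⟨D, ?_⟩
  intro T hT n t U ht hF horth hbig
  have hT0 : 0 < T := by linarith
  choose c hc using fun j => (hF j).exists_cfrm
  set P : ℕ → Fin n → Prop := fun i j => |t j - (T + (2 * (i : ℝ) + 1) / 20)| ≤ 1 / 20 with hP
  have hcover : (Finset.univ : Finset (Fin n)) ⊆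
      (Finset.range 10).biUnion fun i => Finset.univ.filter (P i) := by
    intro j _
    obtain ⟨i, hi, hi2⟩ := exists_subwindow' (ht j).1 (ht j).2
    rw [Finset.mem_biUnion]
    exact ⟨i, hi, Finset.mem_filter.2 ⟨Finset.mem_univ _, hi2⟩⟩
  have hcount : ∀ i ∈ Finset.range 10, ((Finset.univ.filter (P i)).card : ℝ) ≤
      C * 2 ^ (1 / 2 + 4 * δ + ε) * T ^ (1 / 2 + 4 * δ + ε) := by
    intro i hi
    have hi9 : (i : ℝ) ≤ 9 := by
      have : i ≤ 9 := by have := Finset.mem_range.1 hi; omega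
      exact_mod_cast this
    have hi0 : (0 : ℝ) ≤ i := Nat.cast_nonneg i
    set T' : ℝ := T + (2 * (i : ℝ) + 1) / 20 with hT'
    have hT'1 : 1 ≤ T' := by rw [hT']; linarith
    have hT'2 : T' ≤ 2 * T := by rw [hT']; linarith
    have h3 := hmain T' hT'1 {j // P i j} (fun j => t j) (fun j => U j) (fun j => c j)
      (fun j => j.2) (fun j => (hc j).1)
      (fun i j hij => (horth i j fun h => hij (Subtype.ext h)).integral)
      (fun j => (hc j).2) (fun j => by
        obtain ⟨z, hz, hzU⟩ := hbig j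
        have hzim : 0 < z.im := hKU hz
        obtain ⟨w, hw1, hw2, hw3, hw4⟩ := exists_move ⟨z, hzim⟩
        refine ⟨w, hw1, hw2, hw3.trans (hY z hz), ?_⟩
        rw [hw4 (U j) (hc j).1.inv]
        refine lt_of_le_of_lt ?_ hzU
        have e1 : T' ^ (3 / 8 - δ) ≤ 2 ^ (1 / 2 + 4 * δ + ε) * T ^ (3 / 8 - δ) := by
          calc T' ^ (3 / 8 - δ) ≤ (2 * T) ^ (3 / 8 - δ) :=
                Real.rpow_le_rpow (by linarith) hT'2 (by linarith)
            _ = 2 ^ (3 / 8 - δ) * T ^ (3 / 8 - δ) := Real.mul_rpow (by norm_num) hT0.le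
            _ ≤ 2 ^ (1 / 2 + 4 * δ + ε) * T ^ (3 / 8 - δ) := by
                refine mul_le_mul_of_nonneg_right ?_ (by positivity)
                exact Real.rpow_le_rpow_of_exponent_le (by norm_num) (by linarith)
        calc C * T' ^ (3 / 8 - δ) ≤ C * (2 ^ (1 / 2 + 4 * δ + ε) * T ^ (3 / 8 - δ)) := by gcongr
          _ = 1 * (C * 2 ^ (1 / 2 + 4 * δ + ε)) * T ^ (3 / 8 - δ) := by ring
          _ ≤ D * T ^ (3 / 8 - δ) := by
              rw [hD]
              gcongr
              norm_num)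
    rw [Fintype.card_subtype] at h3
    refine h3.trans ?_
    have e2 : T' ^ (1 / 2 + 4 * δ + ε) ≤
        2 ^ (1 / 2 + 4 * δ + ε) * T ^ (1 / 2 + 4 * δ + ε) := by
      rw [← Real.mul_rpow (by norm_num) hT0.le]
      exact Real.rpow_le_rpow (by linarith) hT'2 (by linarith)
    calc C * T' ^ (1 / 2 + 4 * δ + ε) ≤
          C * (2 ^ (1 / 2 + 4 * δ + ε) * T ^ (1 / 2 + 4 * δ + ε)) := by gcongr
      _ = _ := by ring
  have h1 : (n : ℝ) ≤ ∑ i ∈ Finset.range 10, ((Finset.univ.filter (P i)).card : ℝ) := by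
    have h2 := (Finset.card_le_card hcover).trans Finset.card_biUnion_le
    rw [Finset.card_univ, Fintype.card_fin] at h2
    exact_mod_cast h2
  refine (h1.trans (Finset.sum_le_sum hcount)).trans (le_of_eq ?_)
  rw [Finset.sum_const, Finset.card_range, nsmul_eq_mul, hD]
  push_cast
  ring

end Pool.Agent.H19.WB
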