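import Mathlib
import Pool.Agent.H19.WB.St
import Pool.Agent.H19.Sup.CL1

set_option autoImplicit false

/-!
# AP: all planes

* `all_planes_w`: the `(c, d) ∈ G` with `μ² CL1_nn ≤ (c z.re + d)²` by `plane_sum`; their number is at most `24 * 16 N z.im` (`Sup.CL1_rows`, all `(c, d) ≠ 0`
  because `CL1_nn > 0`).  The other ones: `|c z.re + d| < μ √CL1_nn ≤ 4 μ √(N z.im)` and `|c| z.im ≤ 4 √(N z.im)`: at most
  `(8 √(N / z.im) + 1) (8 μ √(N z.im) + 1) ≤ K (μ N + √N) ≤ K N (μ + N^(-1/2900))` of them (`Sup.P3_card_le` for the `c` and, for given `c`, for the `d`), each by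
  `plane_triv`.
* `all_triv_w`: `Sup.CL1_rows` and `plane_triv`.
-/

namespace Pool.Agent.H19.WB

open UpperHalfPlane
open Pool.Agent.H19.Maass Pool.Agent.H19.Sup

/-- number of integers in an interval -/
lemma AP_icc (S : Finset ℤ) (u v : ℝ) (huv : u ≤ v) (h : ∀ b ∈ S, u ≤ (b : ℝ) ∧ (b : ℝ) ≤ v) :
    (S.card : ℝ) ≤ v - u + 1 := by
  have hsub : S ⊆ Finset.Icc ⌈u⌉ ⌊v⌋ := by
    intro b hb
    obtain ⟨h1, h2⟩ := h b hb
    exact Finset.mem_Icc.mpr ⟨Int.ceil_le.mpr h1, Int.le_floor.mpr h2⟩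
  have hc : (S.card : ℝ) ≤ ((Finset.Icc ⌈u⌉ ⌊v⌋).card : ℝ) := by
    exact_mod_cast Finset.card_le_card hsub
  refine hc.trans ?_
  rw [Int.card_Icc]
  have h3 : (((⌊v⌋ + 1 - ⌈u⌉).toNat : ℕ) : ℝ) = ((max (⌊v⌋ + 1 - ⌈u⌉) 0 : ℤ) : ℝ) := by
    rw [← Int.toNat_eq_max]
    norm_cast
  rw [h3]
  push_cast
  refine max_le ?_ (by linarith)
  have h4 : (⌊v⌋ : ℝ) ≤ v := Int.floor_le v
  have h5 : u ≤ (⌈u⌉ : ℝ) := Int.le_ceil u
  linarith

/-- number of nonzero points of a lattice in a disk -/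
lemma AP_card {z : ℍ} (hz : 1 / 2 ≤ z.im) (G : Finset (ℤ × ℤ)) {Y : ℝ} (hY : 0 ≤ Y)
    (h : ∀ g ∈ G, ¬ (g.1 = 0 ∧ g.2 = 0) ∧ CL1_nn g.1 g.2 z ≤ Y) : (G.card : ℝ) ≤ 24 * Y := by
  have h1 : (G.card : ENNReal) ≤
      ∑' w1 : ℤ, ∑' w2 : ℤ, ic (¬ (w1 = 0 ∧ w2 = 0) ∧ CL1_nn w1 w2 z ≤ Y) := by
    rw [← ENNReal.tsum_prod
      (f := fun w1 w2 : ℤ => ic (¬ (w1 = 0 ∧ w2 = 0) ∧ CL1_nn w1 w2 z ≤ Y))]
    calc (G.card : ENNReal) = ∑ g ∈ G, (1 : ENNReal) := by simp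
      _ = ∑ g ∈ G, ic (¬ (g.1 = 0 ∧ g.2 = 0) ∧ CL1_nn g.1 g.2 z ≤ Y) :=
        Finset.sum_congr rfl (fun g hg => (ic_true (h g hg)).symm)
      _ ≤ _ := ENNReal.sum_le_tsum G
  have h2 := h1.trans (CL1_rows hz Y hY)
  rw [← ENNReal.ofReal_natCast] at h2
  exact (ENNReal.ofReal_le_ofReal_iff (by positivity)).1 h2

/-- number of points of a lattice in a thin rectangle -/
lemma AP_thin {z : ℍ} (hz : 1 / 2 ≤ z.im) {m : ℝ} (hm : z.im ≤ m) (hm1 : 1 ≤ m) {μ s : ℝ}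
    (hμ : 0 < μ) (hμ1 : μ ≤ 1) (hs : 1 ≤ s) (G : Finset (ℤ × ℤ))
    (h1 : ∀ g ∈ G, CL1_nn g.1 g.2 z ≤ 16 * s ^ 2 * z.im)
    (h2 : ∀ g ∈ G, ((g.1 : ℝ) * z.re + g.2) ^ 2 ≤ μ ^ 2 * CL1_nn g.1 g.2 z) :
    (G.card : ℝ) ≤ 64 * μ * s ^ 2 + (17 + 8 * m) * s := by
  classical
  have hy0 : 0 < z.im := by linarith
  set t : ℝ := √z.im with ht
  have ht2 : t ^ 2 = z.im := Real.sq_sqrt hy0.le
  have ht0 : 0 < t := Real.sqrt_pos.2 hy0
  have hth : 1 / 2 ≤ t := by nlinarith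
  have htm : t ≤ m := by nlinarith
  have hc : ∀ g ∈ G, |(g.1 : ℝ)| ≤ 4 * s / t := by
    intro g hg
    have e1 := h1 g hg
    unfold CL1_nn at e1
    have e2 : ((g.1 : ℝ) * z.im) ^ 2 ≤ 16 * s ^ 2 * z.im := by
      nlinarith [sq_nonneg ((g.1 : ℝ) * z.re + g.2)]
    rw [← ht2] at e2
    have e3 : ((g.1 : ℝ) * t) ^ 2 ≤ (4 * s) ^ 2 := by
      have e4 : ((g.1 : ℝ) * t) ^ 2 * t ^ 2 ≤ (4 * s) ^ 2 * t ^ 2 := by nlinarith
      exact le_of_mul_le_mul_right e4 (by positivity)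
    have e5 : |(g.1 : ℝ) * t| ≤ 4 * s := abs_le_of_sq_le_sq e3 (by linarith)
    rw [abs_mul, abs_of_pos ht0] at e5
    exact (le_div_iff₀ ht0).2 e5
  have hd : ∀ g ∈ G, |(g.1 : ℝ) * z.re + g.2| ≤ 4 * μ * s * t := by
    intro g hg
    have e1 := h2 g hg
    have e2 := mul_le_mul_of_nonneg_left (h1 g hg) (sq_nonneg μ)
    refine abs_le_of_sq_le_sq (b := 4 * μ * s * t) ?_ (by positivity)
    refine (e1.trans e2).trans (le_of_eq ?_)
    rw [← ht2]; ring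
  have hcard := Finset.card_eq_sum_card_fiberwise (s := G) (t := G.image Prod.fst) (f := Prod.fst)
    (fun g hg => Finset.mem_coe.2 (Finset.mem_image_of_mem _ hg))
  have hfib : ∀ c ∈ G.image Prod.fst, (((G.filter (fun g => g.1 = c)).card : ℕ) : ℝ) ≤
      8 * μ * s * t + 1 := by
    intro c _
    have hinj : Set.InjOn Prod.snd ((G.filter (fun g => g.1 = c)) : Set (ℤ × ℤ)) := by
      intro g hg g' hg' hgg
      have e1 := (Finset.mem_filter.1 (Finset.mem_coe.1 hg)).2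
      have e2 := (Finset.mem_filter.1 (Finset.mem_coe.1 hg')).2
      exact Prod.ext (e1.trans e2.symm) hgg
    rw [← Finset.card_image_of_injOn hinj]
    have h3 : (0 : ℝ) ≤ 4 * μ * s * t := by positivity
    refine (AP_icc _ (-((c : ℝ) * z.re) - 4 * μ * s * t) (-((c : ℝ) * z.re) + 4 * μ * s * t)
      (by linarith) ?_).trans (le_of_eq (by ring))
    intro b hb
    obtain ⟨g, hg, rfl⟩ := Finset.mem_image.1 hb
    obtain ⟨hg1, hg2⟩ := Finset.mem_filter.1 hg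
    have e1 := abs_le.1 (hd g hg1)
    rw [hg2] at e1
    constructor <;> linarith [e1.1, e1.2]
  have himg : ((G.image Prod.fst).card : ℝ) ≤ 8 * s / t + 1 := by
    have h3 : (0 : ℝ) ≤ 4 * s / t := by positivity
    refine (AP_icc _ (-(4 * s / t)) (4 * s / t) (by linarith) ?_).trans (le_of_eq (by ring))
    intro b hb
    obtain ⟨g, hg, rfl⟩ := Finset.mem_image.1 hb
    exact abs_le.1 (hc g hg)
  have htot : (G.card : ℝ) ≤ (8 * s / t + 1) * (8 * μ * s * t + 1) := by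
    rw [hcard]
    push_cast
    refine (Finset.sum_le_sum hfib).trans ?_
    rw [Finset.sum_const, nsmul_eq_mul]
    exact mul_le_mul_of_nonneg_right himg (by positivity)
  refine htot.trans ?_
  have e1 : (8 * s / t + 1) * (8 * μ * s * t + 1) =
      64 * μ * s ^ 2 + 8 * s / t + 8 * μ * s * t + 1 := by
    field_simp
    ring
  rw [e1]
  have e2 : 8 * s / t ≤ 16 * s := by
    rw [div_le_iff₀ ht0]
    nlinarith
  have e3 : 8 * μ * s * t ≤ 8 * s * m := by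
    have e4 : μ * (s * t) ≤ 1 * (s * t) := mul_le_mul_of_nonneg_right hμ1 (by positivity)
    have e5 : s * t ≤ s * m := mul_le_mul_of_nonneg_left htm (by linarith)
    nlinarith
  nlinarith

theorem all_planes_w (plane_sum : PlaneSumW) (plane_triv : PlaneTrivW) : AllPlanesW := by
  classical
  intro Y0
  obtain ⟨K1, hK1, h1⟩ := plane_sum Y0
  obtain ⟨K2, hK2, h2⟩ := plane_triv Y0
  set m : ℝ := max Y0 1 with hm
  have hm1 : (1 : ℝ) ≤ m := le_max_right _ _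
  refine ⟨384 * m * K1 + (81 + 8 * m) * K2, by positivity, ?_⟩
  intro A B0 B1 ρ T μ h0 N M w w' z hP G hG
  have hzm : z.im ≤ m := hP.hzY.trans (le_max_left _ _)
  have hz := hP.hz
  have hz0 : 0 < z.im := by linarith
  have hN1 : (1 : ℝ) ≤ N := by exact_mod_cast hP.hN
  have hNpos : (0 : ℝ) < N := by linarith
  have hB0 : 0 ≤ B0 := (norm_nonneg _).trans (hP.hA.bdd 0)
  have hB1 : 0 ≤ B1 := by
    have := hP.hA.lip 1 0
    simp only [sub_zero, abs_one, mul_one] at this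
    exact (norm_nonneg _).trans this
  have hh := hP.hh
  have hh0 : 0 < h0 := by linarith
  have hμ := hP.hμ
  have hNc : 0 < (N : ℝ) ^ (-(1 / 2900) : ℝ) := Real.rpow_pos_of_pos hNpos _
  have hNd : 0 < (N : ℝ) ^ (-(1 / 45) : ℝ) := Real.rpow_pos_of_pos hNpos _
  set P : ℤ × ℤ → Prop := fun g => μ ^ 2 * CL1_nn g.1 g.2 z ≤ ((g.1 : ℝ) * z.re + g.2) ^ 2 with hPd
  rw [← Finset.sum_filter_add_sum_filter_not G P (fun g => PL A T M w w' z g.1 g.2)]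
  refine (norm_add_le _ _).trans ?_
  -- the first part
  have hone : ‖∑ g ∈ G with P g, PL A T M w w' z g.1 g.2‖ ≤
      384 * (N * m) * (K1 * (N * h0 ^ 2) * (B0 ^ 2 * (N : ℝ) ^ (-(1 / 2900) : ℝ) +
        B0 * B1 * (N : ℝ) ^ (-(1 / 45) : ℝ))) := by
    refine (norm_sum_le _ _).trans ?_
    have hb : ∀ g ∈ G.filter P, ‖PL A T M w w' z g.1 g.2‖ ≤
        K1 * (N * h0 ^ 2) * (B0 ^ 2 * (N : ℝ) ^ (-(1 / 2900) : ℝ) +
        B0 * B1 * (N : ℝ) ^ (-(1 / 45) : ℝ)) := by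
      intro g hg
      obtain ⟨hg1, hg2⟩ := Finset.mem_filter.1 hg
      exact h1 A B0 B1 ρ T μ h0 N M w w' z g.1 g.2 hP (hG g hg1).1 (hG g hg1).2 hg2
    refine (Finset.sum_le_sum hb).trans ?_
    rw [Finset.sum_const, nsmul_eq_mul]
    refine mul_le_mul_of_nonneg_right ?_ (by positivity)
    have hc := AP_card hz (G.filter P) (Y := 16 * N * z.im) (by positivity) (by
      intro g hg
      obtain ⟨hg1, _⟩ := Finset.mem_filter.1 hg
      refine ⟨?_, (hG g hg1).2⟩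
      rintro ⟨e1, e2⟩
      have e3 := (hG g hg1).1
      rw [e1, e2] at e3
      unfold CL1_nn at e3
      have e4 : 0 < N * z.im / (2 * h0) := by positivity
      norm_num at e3
      linarith)
    refine hc.trans ?_
    have e5 : (N : ℝ) * z.im ≤ N * m := mul_le_mul_of_nonneg_left hzm hNpos.le
    linarith
  -- the second part
  have hsN : √(N : ℝ) ^ 2 = N := Real.sq_sqrt hNpos.le
  have hs1 : 1 ≤ √(N : ℝ) := Real.one_le_sqrt.2 hN1
  have hsq : √(N : ℝ) ≤ N * (N : ℝ) ^ (-(1 / 2900) : ℝ) := by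
    rw [Real.sqrt_eq_rpow]
    have e1 : (N : ℝ) * (N : ℝ) ^ (-(1 / 2900) : ℝ) = (N : ℝ) ^ (1 + -(1 / 2900) : ℝ) := by
      rw [Real.rpow_add hNpos, Real.rpow_one]
    rw [e1]
    exact Real.rpow_le_rpow_of_exponent_le hN1 (by norm_num)
  have htwo : ‖∑ g ∈ G with ¬ P g, PL A T M w w' z g.1 g.2‖ ≤
      (81 + 8 * m) * (N * (μ + (N : ℝ) ^ (-(1 / 2900) : ℝ))) * (K2 * (N * h0 ^ 2) * B0 ^ 2) := by
    refine (norm_sum_le _ _).trans ?_
    have hb : ∀ g ∈ G.filter (fun g => ¬ P g), ‖PL A T M w w' z g.1 g.2‖ ≤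
        K2 * (N * h0 ^ 2) * B0 ^ 2 := by
      intro g hg
      obtain ⟨hg1, hg2⟩ := Finset.mem_filter.1 hg
      exact h2 A B0 B1 ρ T h0 N M w w' z g.1 g.2 hP.hA hP.hN hP.hh hP.hz hP.hzY hP.hwh (hG g hg1).2
    refine (Finset.sum_le_sum hb).trans ?_
    rw [Finset.sum_const, nsmul_eq_mul]
    refine mul_le_mul_of_nonneg_right ?_ (by positivity)
    have hc := AP_thin hz hzm hm1 hμ hP.hμ1 hs1 (G.filter (fun g => ¬ P g)) (by
      intro g hg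
      rw [hsN]
      exact (hG g (Finset.mem_filter.1 hg).1).2) (by
      intro g hg
      exact (not_le.1 (Finset.mem_filter.1 hg).2).le)
    refine hc.trans ?_
    rw [hsN]
    have e1 : (17 + 8 * m) * √(N : ℝ) ≤ (17 + 8 * m) * (N * (N : ℝ) ^ (-(1 / 2900) : ℝ)) :=
      mul_le_mul_of_nonneg_left hsq (by positivity)
    have e2 : 0 ≤ N * (N : ℝ) ^ (-(1 / 2900) : ℝ) := by positivity
    have e3 : 0 ≤ μ * N := by positivity
    nlinarith [mul_nonneg (by linarith : (0 : ℝ) ≤ m) e3]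
  refine (add_le_add hone htwo).trans ?_
  set a : ℝ := (N : ℝ) ^ (-(1 / 2900) : ℝ)
  set b : ℝ := (N : ℝ) ^ (-(1 / 45) : ℝ)
  have f1 : 0 ≤ B0 * B1 * b := by positivity
  have f2 : 0 ≤ B0 ^ 2 * μ := by positivity
  have f3 : B0 ^ 2 * a + B0 * B1 * b ≤ B0 ^ 2 * (μ + a) + B0 * B1 * b := by nlinarith
  have f4 : B0 ^ 2 * (μ + a) ≤ B0 ^ 2 * (μ + a) + B0 * B1 * b := by linarith
  have g1 := mul_le_mul_of_nonneg_left f3 (by positivity : 0 ≤ 384 * m * K1 * ((N : ℝ) ^ 2 * h0 ^ 2))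
  have g2 := mul_le_mul_of_nonneg_left f4
    (by positivity : 0 ≤ (81 + 8 * m) * K2 * ((N : ℝ) ^ 2 * h0 ^ 2))
  calc _ = 384 * m * K1 * ((N : ℝ) ^ 2 * h0 ^ 2) * (B0 ^ 2 * a + B0 * B1 * b) +
        (81 + 8 * m) * K2 * ((N : ℝ) ^ 2 * h0 ^ 2) * (B0 ^ 2 * (μ + a)) := by ring
    _ ≤ _ := add_le_add g1 g2
    _ = _ := by ring

theorem all_triv_w (plane_triv : PlaneTrivW) : AllTrivW := by
  classical
  intro Y0
  obtain ⟨K2, hK2, h2⟩ := plane_triv Y0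
  set m : ℝ := max Y0 1 with hm
  have hm1 : (1 : ℝ) ≤ m := le_max_right _ _
  refine ⟨384 * m * K2, by positivity, ?_⟩
  intro A B0 B1 ρ T h0 N M w w' z hA hN hh hz hzY hwh G hG
  have hzm : z.im ≤ m := hzY.trans (le_max_left _ _)
  have hz0 : 0 < z.im := by linarith
  have hN1 : (1 : ℝ) ≤ N := by exact_mod_cast hN
  have hNpos : (0 : ℝ) < N := by linarith
  refine (norm_sum_le _ _).trans ?_
  have hb : ∀ g ∈ G, ‖PL A T M w w' z g.1 g.2‖ ≤ K2 * (N * h0 ^ 2) * B0 ^ 2 := by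
    intro g hg
    exact h2 A B0 B1 ρ T h0 N M w w' z g.1 g.2 hA hN hh hz hzY hwh (hG g hg).2
  refine (Finset.sum_le_sum hb).trans ?_
  rw [Finset.sum_const, nsmul_eq_mul]
  have hc := AP_card hz G (Y := 16 * N * z.im) (by positivity) hG
  have e5 : (N : ℝ) * z.im ≤ N * m := mul_le_mul_of_nonneg_left hzm hNpos.le
  have hc2 : (G.card : ℝ) ≤ 384 * (N * m) := by linarith
  refine (mul_le_mul_of_nonneg_right hc2 (by positivity)).trans (le_of_eq ?_)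
  ring

end Pool.Agent.H19.WB
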