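import Mathlib
import Pool.Agent.H19.WB.St
import Pool.Agent.H19.Sup.B1

set_option autoImplicit false

/-!
# BS: Bessel's inequality for a family, complex weights, without absolute values

Proof: `Maass.bessel` (`Maass/Bessel.lean`) for the orthonormal family `u j`, but the norm of `F` is computed exactly, as in
`Sup.B1_bessel` (`Sup/B1.lean`): `F w = ∑ a i pk k (ζ i) w`, `∫_𝒟 u_j F = 2 h_j ∑ a i u_j (ζ i)`, Bessel's inequality for the
orthonormal family `conj u_j`, `‖F‖² = ∑_{i,i'} conj (a i) a i' ∫ pk (ζ i') pk (ζ i) = 2 ∑_{i,i'} conj (a i) a i' ∑_{σ ∈ S} KK k (ζ i) (σ • ζ i')`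
(`Sup.B1_pair`); this number is real because it is `‖F‖²`.  How a `Frm` gives the hypotheses: `Sup.bessel_one`, `Maass.amplified`
(`Maass/Amp.lean`).
-/

namespace Pool.Agent.H19.WB

open MeasureTheory UpperHalfPlane
open Pool.Agent.H19.Maass Pool.Agent.H19.Sup
open scoped MatrixGroups ComplexConjugate ENNReal

section BSaux

open ModularGroup Metric
open scoped Modular

lemma BS_bessel {k : ℝ → ℝ} {R : ℝ} (hk : Ker k R) {J ι : Type*} [Fintype J] [DecidableEq J]
    (u : J → ℍ → ℂ)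
    (hu : ∀ j, Continuous (u j)) (hinv : ∀ j (γ : SL(2, ℤ)) w, u j (γ • w) = u j w)
    (hL2 : ∀ j, MemLp (u j) 2 ((volume : Measure ℍ).restrict 𝒟))
    (horth : ∀ i j, ∫ w in 𝒟, u i w * conj (u j w) = if i = j then 1 else 0)
    (h : J → ℂ) (heig : ∀ j z, ∫ w : ℍ, (k (dist z w) : ℂ) * u j w = h j * u j z)
    (I : Finset ι) (a : ι → ℂ) (ζ : ι → ℍ) (S : Finset SL(2, ℤ))
    (hS : ∀ i ∈ I, ∀ j ∈ I, ∀ σ : SL(2, ℤ), dist (ζ i) (σ • ζ j) ≤ 2 * R → σ ∈ S) :
    ∑ j, ‖2 * h j * ∑ i ∈ I, a i * u j (ζ i)‖ ^ 2 ≤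
      2 * (∑ i ∈ I, ∑ i' ∈ I, conj (a i) * a i' * ∑ σ ∈ S, (KK k (ζ i) (σ • ζ i') : ℂ)).re := by
  set μ := (volume : Measure ℍ).restrict 𝒟 with hμ
  set F : ℍ → ℂ := fun w => ∑ i ∈ I, a i * (pk k (ζ i) w : ℂ) with hF
  have hFL : MemLp F 2 μ := memLp_finsetSum I fun i _ => (memLp_pk hk (ζ i)).const_mul (a i)
  have hcL : ∀ j, MemLp (fun w => conj (u j w)) 2 μ := fun j => (hL2 j).star
  set e : J → Lp ℂ 2 μ := fun j => (hcL j).toLp _ with he
  have hb : ∀ j, ∫ w, u j w * F w ∂μ = 2 * h j * ∑ i ∈ I, a i * u j (ζ i) := by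
    intro j
    have h1 : ∀ w, u j w * F w = ∑ i ∈ I, a i * (u j w * (pk k (ζ i) w : ℂ)) := by
      intro w
      rw [hF]; simp only
      rw [Finset.mul_sum]
      exact Finset.sum_congr rfl fun i _ => by ring
    simp_rw [h1]
    rw [integral_finsetSum]
    · rw [Finset.mul_sum]
      refine Finset.sum_congr rfl fun i _ => ?_
      rw [integral_const_mul, hμ, integral_mul_pk hk (ζ i) (hu j).measurable
        (bdd_of_continuous (hu j) _ _) (hinv j), heig]
      ring
    · intro i _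
      exact ((hL2 j).integrable_mul (memLp_pk hk (ζ i))).const_mul _
  have hinner : ∀ j, inner ℂ (e j) (hFL.toLp F) = 2 * h j * ∑ i ∈ I, a i * u j (ζ i) := by
    intro j
    rw [← hb, L2.inner_def]
    refine integral_congr_ae ?_
    filter_upwards [(hcL j).coeFn_toLp, hFL.coeFn_toLp] with w h1 h2
    rw [h1, h2]
    simp [mul_comm]
  have hon : Orthonormal ℂ e := by
    rw [orthonormal_iff_ite]
    intro i j
    rw [L2.inner_def, ← horth i j]
    refine integral_congr_ae ?_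
    filter_upwards [(hcL i).coeFn_toLp, (hcL j).coeFn_toLp] with w h1 h2
    rw [h1, h2]
    simp [mul_comm]
  have hnorm : ‖hFL.toLp F‖ ^ 2 =
      2 * (∑ i ∈ I, ∑ i' ∈ I, conj (a i) * a i' *
        ∑ σ ∈ S, (KK k (ζ i) (σ • ζ i') : ℂ)).re := by
    have h1 : inner ℂ (hFL.toLp F) (hFL.toLp F) = ∫ w, conj (F w) * F w ∂μ := by
      rw [L2.inner_def]
      refine integral_congr_ae ?_
      filter_upwards [hFL.coeFn_toLp] with w h1
      rw [h1, RCLike.inner_apply, mul_comm]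
    have h3 : ∀ w, conj (F w) * F w = ∑ i ∈ I, ∑ i' ∈ I, (conj (a i) * a i') *
        ((pk k (ζ i') w : ℂ) * (pk k (ζ i) w : ℂ)) := by
      intro w
      rw [hF]; simp only
      rw [map_sum, Finset.sum_mul_sum]
      refine Finset.sum_congr rfl fun i _ => Finset.sum_congr rfl fun i' _ => ?_
      rw [map_mul, Complex.conj_ofReal]
      ring
    simp_rw [h3] at h1
    have hint : ∀ i i' : ι, Integrable (fun w => (conj (a i) * a i') *
        ((pk k (ζ i') w : ℂ) * (pk k (ζ i) w : ℂ))) μ := fun i i' =>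
      ((memLp_pk hk (ζ i')).integrable_mul (memLp_pk hk (ζ i))).const_mul _
    rw [integral_finsetSum _ (fun i _ => integrable_finsetSum _ fun i' _ => hint i i')] at h1
    have h4 : ∑ i ∈ I, ∫ w, ∑ i' ∈ I, (conj (a i) * a i') *
        ((pk k (ζ i') w : ℂ) * (pk k (ζ i) w : ℂ)) ∂μ =
        2 * ∑ i ∈ I, ∑ i' ∈ I, conj (a i) * a i' *
          ∑ σ ∈ S, (KK k (ζ i) (σ • ζ i') : ℂ) := by
      rw [Finset.mul_sum]
      refine Finset.sum_congr rfl fun i hi => ?_
      rw [integral_finsetSum _ (fun i' _ => hint i i'), Finset.mul_sum]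
      refine Finset.sum_congr rfl fun i' hi' => ?_
      rw [integral_const_mul, hμ, B1_pair hk (ζ i) (ζ i') S (hS i hi i' hi')]
      ring
    rw [h4] at h1
    rw [← inner_self_eq_norm_sq (𝕜 := ℂ), h1]
    show (2 * ∑ i ∈ I, ∑ i' ∈ I, conj (a i) * a i' *
          ∑ σ ∈ S, (KK k (ζ i) (σ • ζ i') : ℂ)).re = _
    rw [Complex.mul_re]
    simp
  have hbes := hon.sum_inner_products_le (hFL.toLp F) (s := Finset.univ)
  simp_rw [hinner] at hbes
  exact hbes.trans hnorm.le

end BSaux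

theorem bessel_w : BesselW := by
  intro k R hk J _ t U c hF hO ι I a ζ S hS
  classical
  exact BS_bessel hk (fun j (w : ℍ) => U j w) (fun j => (hF j).continuous)
    (fun j γ w => (hF j).inv γ w) (fun j => (hF j).l2)
    (fun i j => by
      by_cases hij : i = j
      · subst hij
        rw [if_pos rfl]
        exact (hF i).nrm
      · rw [if_neg hij]
        exact hO i j hij)
    (fun j => selb k (1 / 2 + t j * Complex.I))
    (fun j z => selberg (hF j).eig hk z) I a ζ S hS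

end Pool.Agent.H19.WB
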