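import Mathlib
import Pool.Agent.H19.WB.St
import Pool.Agent.H19.Sup.CL2

set_option autoImplicit false

/-!
# CN: Hecke points of a prime `q`, counts

* `count_high1`: copy of `Sup.count_high` (`Sup/CL1.lean`) with `q` instead of `q²` (all auxiliary lemmas there are for general `m`):
  the gcd `g` of the bottom row divides the determinant `q`, so `g ∈ {1, q}`.
* `low_count1`: `count_high1` with `h = 1/4`, `r = 1/2 + 2 h0`.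
-/

namespace Pool.Agent.H19.WB

open UpperHalfPlane
open Pool.Agent.H19.Maass Pool.Agent.H19.Sup
open scoped MatrixGroups ENNReal

theorem count_high1 : ∃ K : ℝ, 0 < K ∧ ∀ z : ℍ, |z.re| ≤ 1 / 2 → 1 / 2 ≤ z.im →
    ∀ q : ℕ, q.Prime → ∀ h r : ℝ, 0 < h → 0 ≤ r →
    ∑ y ∈ RR q, ∑' σ : SL(2, ℤ),
      ic (h ≤ (σ • hx q y z).im ∧ |(σ • hx q y z).re| ≤ r) ≤
    ENNReal.ofReal (K * (q * z.im / h) * (r + 1)) := by
  classical
  refine ⟨100, by norm_num, ?_⟩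
  intro z hre him q hq h r hh hr
  have hq0 : 0 < q := hq.pos
  have hqR : (2 : ℝ) ≤ q := by exact_mod_cast hq.two_le
  have hz := z.im_pos
  set X : ℝ := q * z.im / h with hX
  have hX0 : 0 ≤ X := by rw [hX]; positivity
  -- the function of the matrix
  set G : Z4 → ℝ≥0∞ := fun β => ic ((¬ (β.2.2.1 = 0 ∧ β.2.2.2 = 0) ∧
      CL1_nn β.2.2.1 β.2.2.2 z ≤ X ∧ Int.gcd β.2.2.1 β.2.2.2 ∣ q) ∧
      (β.1 * β.2.2.2 - β.2.1 * β.2.2.1 = (q : ℤ) ∧ |(CL1_pt β z).re| ≤ r)) with hG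
  have e1 : ∑ y ∈ RR q, ∑' σ : SL(2, ℤ),
      ic (h ≤ (σ • hx q y z).im ∧ |(σ • hx q y z).re| ≤ r) =
      ∑' p : (RR q) × SL(2, ℤ),
        ic (h ≤ (p.2 • hx q p.1.1 z).im ∧ |(p.2 • hx q p.1.1 z).re| ≤ r) := by
    rw [ENNReal.tsum_prod', tsum_fintype, ← Finset.sum_coe_sort (RR q)]
  rw [e1]
  set Ψ : (RR q) × SL(2, ℤ) → Z4 := fun p => CL1_mat q p.1.1 p.2 with hΨ
  have hinj : Function.Injective Ψ := by
    rintro ⟨⟨y, hy⟩, σ⟩ ⟨⟨y', hy'⟩, σ'⟩ h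
    obtain ⟨h1, h2⟩ := CL1_inj hy hy' h
    subst h1 h2
    rfl
  have e2 : ∀ p : (RR q) × SL(2, ℤ),
      ic (h ≤ (p.2 • hx q p.1.1 z).im ∧ |(p.2 • hx q p.1.1 z).re| ≤ r) ≤
      G (Ψ p) := by
    rintro ⟨⟨y, hy⟩, σ⟩
    refine ic_mono ?_
    rintro ⟨h1, h2⟩
    simp only at h1 h2 ⊢
    simp only [hΨ]
    set β := CL1_mat q y σ with hβ
    have hdet : det4 β = ((q : ℕ) : ℤ) := CL1_det hq0 hy σ
    have hdet' : β.1 * β.2.2.2 - β.2.1 * β.2.2.1 = (q : ℤ) := by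
      have := hdet
      unfold det4 at this
      rw [this]
    have hco := CL1_coe hq0 hy σ z
    rw [← hβ] at hco
    have him2 : (σ • hx q y z).im = (q : ℝ) * z.im / CL1_nn β.2.2.1 β.2.2.2 z := by
      rw [← coe_im, hco, CL1_im, hdet]
      push_cast
      ring
    have hv : ¬ (β.2.2.1 = 0 ∧ β.2.2.2 = 0) := by
      rintro ⟨a, b⟩
      rw [a, b, mul_zero, mul_zero, sub_zero] at hdet'
      have hqz : (q : ℤ) ≠ 0 := by exact_mod_cast hq0.ne'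
      exact hqz hdet'.symm
    have hnn : 0 ≤ CL1_nn β.2.2.1 β.2.2.2 z := by unfold CL1_nn; positivity
    refine ⟨⟨hv, ?_, ?_⟩, hdet', ?_⟩
    · rw [hX, le_div_iff₀ hh]
      rcases hnn.eq_or_lt with h0 | h0
      · rw [← h0, zero_mul]; positivity
      · rw [him2, le_div_iff₀ h0] at h1
        linarith
    · have a1 : ((Int.gcd β.2.2.1 β.2.2.2 : ℕ) : ℤ) ∣ (q : ℤ) := by
        rw [← hdet']
        exact dvd_sub ((Int.gcd_dvd_right ..).mul_left _) ((Int.gcd_dvd_left ..).mul_left _)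
      exact_mod_cast a1
    · rw [← hco, coe_re]
      exact h2
  refine (ENNReal.tsum_le_tsum e2).trans ?_
  refine (ENNReal.tsum_comp_le_tsum_of_injective hinj G).trans ?_
  -- reorder: bottom row first
  have e3 : ∑' β : Z4, G β = ∑' v1 : ℤ, ∑' v2 : ℤ, ∑' t1 : ℤ, ∑' t2 : ℤ, G (t1, t2, v1, v2) := by
    rw [ENNReal.tsum_prod']
    simp_rw [ENNReal.tsum_prod']
    -- ∑ t1, ∑ t2, ∑ v1, ∑ v2
    calc ∑' t1 : ℤ, ∑' t2 : ℤ, ∑' v1 : ℤ, ∑' v2 : ℤ, G (t1, t2, v1, v2)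
        = ∑' t1 : ℤ, ∑' v1 : ℤ, ∑' t2 : ℤ, ∑' v2 : ℤ, G (t1, t2, v1, v2) :=
          tsum_congr fun t1 => ENNReal.tsum_comm
      _ = ∑' v1 : ℤ, ∑' t1 : ℤ, ∑' t2 : ℤ, ∑' v2 : ℤ, G (t1, t2, v1, v2) := ENNReal.tsum_comm
      _ = ∑' v1 : ℤ, ∑' t1 : ℤ, ∑' v2 : ℤ, ∑' t2 : ℤ, G (t1, t2, v1, v2) :=
          tsum_congr fun v1 => tsum_congr fun t1 => ENNReal.tsum_comm
      _ = ∑' v1 : ℤ, ∑' v2 : ℤ, ∑' t1 : ℤ, ∑' t2 : ℤ, G (t1, t2, v1, v2) :=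
          tsum_congr fun v1 => ENNReal.tsum_comm
  rw [e3]
  -- inner sums
  have e4 : ∀ v1 v2 : ℤ, ∑' t1 : ℤ, ∑' t2 : ℤ, G (t1, t2, v1, v2) ≤
      ∑ g ∈ q.divisors, ic (¬ (v1 = 0 ∧ v2 = 0) ∧ CL1_nn v1 v2 z ≤ X ∧
        Int.gcd v1 v2 = g) * ENNReal.ofReal (2 * (r * (g : ℝ)) + 1) := by
    intro v1 v2
    have f1 : ∀ t1 t2 : ℤ, G (t1, t2, v1, v2) = ic (¬ (v1 = 0 ∧ v2 = 0) ∧
        CL1_nn v1 v2 z ≤ X ∧ Int.gcd v1 v2 ∣ q) *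
        ic (t1 * v2 - t2 * v1 = (q : ℤ) ∧ |(CL1_pt (t1, t2, v1, v2) z).re| ≤ r) := by
      intro t1 t2
      simp only [hG]
      rw [ic_and]
    simp_rw [f1, ENNReal.tsum_mul_left]
    by_cases hc : ¬ (v1 = 0 ∧ v2 = 0) ∧ CL1_nn v1 v2 z ≤ X ∧ Int.gcd v1 v2 ∣ q
    · rw [ic_true hc, one_mul]
      refine (CL1_inner _ v1 v2 hc.1 hr).trans ?_
      have hmem : Int.gcd v1 v2 ∈ q.divisors :=
        Nat.mem_divisors.2 ⟨hc.2.2, hq0.ne'⟩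
      refine le_trans (le_of_eq ?_) (Finset.single_le_sum (f := fun g : ℕ =>
        ic (¬ (v1 = 0 ∧ v2 = 0) ∧ CL1_nn v1 v2 z ≤ X ∧ Int.gcd v1 v2 = g) *
          ENNReal.ofReal (2 * (r * (g : ℝ)) + 1)) (fun _ _ => zero_le) hmem)
      rw [ic_true (p := ¬ (v1 = 0 ∧ v2 = 0) ∧ CL1_nn v1 v2 z ≤ X ∧
        Int.gcd v1 v2 = Int.gcd v1 v2) ⟨hc.1, hc.2.1, rfl⟩, one_mul]
    · rw [ic_false hc, zero_mul]
      exact zero_le
  refine (ENNReal.tsum_le_tsum fun v1 => ENNReal.tsum_le_tsum fun v2 => e4 v1 v2).trans ?_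
  have e5 : ∑' v1 : ℤ, ∑' v2 : ℤ, ∑ g ∈ q.divisors, ic (¬ (v1 = 0 ∧ v2 = 0) ∧
      CL1_nn v1 v2 z ≤ X ∧ Int.gcd v1 v2 = g) * ENNReal.ofReal (2 * (r * (g : ℝ)) + 1) =
      ∑ g ∈ q.divisors, (∑' v1 : ℤ, ∑' v2 : ℤ, ic (¬ (v1 = 0 ∧ v2 = 0) ∧
        CL1_nn v1 v2 z ≤ X ∧ Int.gcd v1 v2 = g)) * ENNReal.ofReal (2 * (r * (g : ℝ)) + 1) := by
    have g1 : ∀ v1 : ℤ, ∑' v2 : ℤ, ∑ g ∈ q.divisors, ic (¬ (v1 = 0 ∧ v2 = 0) ∧
      CL1_nn v1 v2 z ≤ X ∧ Int.gcd v1 v2 = g) * ENNReal.ofReal (2 * (r * (g : ℝ)) + 1) =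
      ∑ g ∈ q.divisors, (∑' v2 : ℤ, ic (¬ (v1 = 0 ∧ v2 = 0) ∧
        CL1_nn v1 v2 z ≤ X ∧ Int.gcd v1 v2 = g)) * ENNReal.ofReal (2 * (r * (g : ℝ)) + 1) := by
      intro v1
      rw [Summable.tsum_finsetSum (fun _ _ => ENNReal.summable)]
      exact Finset.sum_congr rfl fun g _ => ENNReal.tsum_mul_right
    simp_rw [g1]
    rw [Summable.tsum_finsetSum (fun _ _ => ENNReal.summable)]
    exact Finset.sum_congr rfl fun g _ => ENNReal.tsum_mul_right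
  rw [e5]
  have e6 : ∀ g ∈ q.divisors, (∑' v1 : ℤ, ∑' v2 : ℤ, ic (¬ (v1 = 0 ∧ v2 = 0) ∧
        CL1_nn v1 v2 z ≤ X ∧ Int.gcd v1 v2 = g)) * ENNReal.ofReal (2 * (r * (g : ℝ)) + 1) ≤
      ENNReal.ofReal (24 * (X / (g : ℝ) ^ 2) * (2 * (r * (g : ℝ)) + 1)) := by
    intro g hg
    rw [Nat.mem_divisors] at hg
    have hg0 : 0 < g := Nat.pos_of_dvd_of_pos hg.1 hq0
    rw [ENNReal.ofReal_mul (by positivity)]
    exact mul_le_mul_left (CL1_gcd him hX0 hg0) _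
  refine (Finset.sum_le_sum e6).trans ?_
  rw [← ENNReal.ofReal_sum_of_nonneg]
  · refine ENNReal.ofReal_le_ofReal ?_
    have hq1 : (1 : ℕ) ∉ ({q} : Finset ℕ) := by
      simp only [Finset.mem_singleton]
      have := hq.two_le
      omega
    rw [Nat.Prime.divisors hq, Finset.sum_insert hq1, Finset.sum_singleton]
    have hqp : (0 : ℝ) < q := by linarith
    have k1 : 24 * (X / ((1 : ℕ) : ℝ) ^ 2) * (2 * (r * ((1 : ℕ) : ℝ)) + 1) =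
        X * (48 * r + 24) := by push_cast; ring
    have k2 : 24 * (X / (q : ℝ) ^ 2) * (2 * (r * (q : ℝ)) + 1) ≤ X * (24 * r + 6) := by
      have : 24 * (X / (q : ℝ) ^ 2) * (2 * (r * (q : ℝ)) + 1) =
          X * (48 * r * (1 / q) + 24 * (1 / q) ^ 2) := by field_simp; ring
      rw [this]
      have i1 : 1 / (q : ℝ) ≤ 1 / 2 := one_div_le_one_div_of_le (by norm_num) hqR
      have i0 : 0 ≤ 1 / (q : ℝ) := by positivity
      refine mul_le_mul_of_nonneg_left ?_ hX0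
      nlinarith
    rw [k1]
    nlinarith [mul_nonneg hX0 hr]
  · intro g _
    positivity

theorem low_count1 : ∃ K : ℝ, 0 < K ∧ ∀ z : ℍ, |z.re| ≤ 1 / 2 → 1 / 2 ≤ z.im →
    ∀ q : ℕ, q.Prime → ∀ h0 : ℝ, 1 ≤ h0 →
    ∑ y ∈ RR q, ∑' σ : SL(2, ℤ),
      ic (1 / 4 ≤ (σ • hx q y z).im ∧ (σ • hx q y z).im ≤ 2 * h0 ∧
        |(σ • hx q y z).re| ≤ 1 / 2 + (σ • hx q y z).im) ≤
    ENNReal.ofReal (K * (q * z.im) * h0) := by
  obtain ⟨K, hK, H⟩ := count_high1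
  refine ⟨K * 14, by positivity, ?_⟩
  intro z hre him q hq h0 hh
  have hz := z.im_pos
  have h1 := H z hre him q hq (1 / 4) (1 / 2 + 2 * h0) (by norm_num) (by linarith)
  refine le_trans ?_ (h1.trans (ENNReal.ofReal_le_ofReal ?_))
  · refine Finset.sum_le_sum fun y _ => ENNReal.tsum_le_tsum fun σ => ic_mono ?_
    rintro ⟨a1, a2, a3⟩
    exact ⟨a1, by linarith⟩
  · have hq0 : (0 : ℝ) ≤ q * z.im := by positivity
    have e1 : K * (q * z.im / (1 / 4)) * (1 / 2 + 2 * h0 + 1) =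
        K * (q * z.im) * (6 + 8 * h0) := by ring
    have e2 : K * 14 * (q * z.im) * h0 = K * (q * z.im) * (14 * h0) := by ring
    rw [e1, e2]
    refine mul_le_mul_of_nonneg_left ?_ (by positivity)
    linarith

end Pool.Agent.H19.WB
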