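import Mathlib
import Pool.Agent.H19.WB.CN
import Pool.Agent.H19.Sup.G1

set_option autoImplicit false

/-!
# HP: pairs with a high point, with weights

Write `W i = g i • z1 z i`, `H = (W i).im`.  `2 α_p α_q ≤ α_p² + α_q²`.
(A) For every `i` with `1/2 ≤ H`: the number of the `(j, σ)`, `j ∈ JJ N`, with `dist (W i) (σ • z1 z j) ≤ 1/2` is at most `K N² z.im`: by `Sup.near_im` such a point
    has `im ≥ 3/5 H`, `|re| ≤ 1/2 + H`; `count_high1` for every `q ∈ PR N` (`(H + 3/2) / H ≤ 4`, `q ≤ 4 N`, `#PR N ≤ 3 N`).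
(B) For `h > 0` the number of the `x ∈ RR p` with `h ≤ (g • hx p x z).im` (`|re| ≤ 1/2`) is at most `K N z.im / h` (`count_high1` with `r = 1/2`, one term of the sum over `σ`).
First part: `∑_{i high} α_p² #(A) ≤ K N² z.im ∑_p α_p² K N z.im / h0`.
Second part: `∑_j α_q² #{(i, σ) : i high, dist (W i) (σ • z1 z j) ≤ 1/2}`.  `dist (W i) (σ • z1 z j) = dist (W j) (g j σ⁻¹ g i • z1 z i)`, so for given `j` the
number of the `(i, σ)` is at most that of (A) for `j`; and if it is not `0` then `(σ • z1 z j).im ≥ 3/5 h0`, hence (`Sup.im_orbit`: the heights of the orbit of `W j`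
are at most `max (W j).im 2`) `(W j).im ≥ 3/5 h0` if `h0 ≥ 4`; then (B) with `h = 3/5 h0`.  If `h0 < 4`: `#RR p ≤ 5 N` and `5 N ≤ 20 N / h0`, no condition on `j` needed
(`z.im ≥ 1/2`).
-/

namespace Pool.Agent.H19.WB

open UpperHalfPlane
open Pool.Agent.H19.Maass Pool.Agent.H19.Sup
open scoped MatrixGroups ENNReal

/-- the statement of `count_high1` for a fixed constant -/
private def CH (K : ℝ) : Prop := ∀ z : ℍ, |z.re| ≤ 1 / 2 → 1 / 2 ≤ z.im →
    ∀ q : ℕ, q.Prime → ∀ h r : ℝ, 0 < h → 0 ≤ r →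
    ∑ y ∈ RR q, ∑' σ : SL(2, ℤ), ic (h ≤ (σ • hx q y z).im ∧ |(σ • hx q y z).re| ≤ r) ≤
    ENNReal.ofReal (K * (q * z.im / h) * (r + 1))

private theorem HP_row {K : ℝ} (hK : 0 < K) (hcount : CH K) {z : ℍ} (hz1 : |z.re| ≤ 1 / 2)
    (hz2 : 1 / 2 ≤ z.im) (N : ℕ) (w : ℍ) (hw1 : |w.re| ≤ 1 / 2) (hw2 : 1 / 2 ≤ w.im) :
    ∑ j ∈ JJ N, ∑' σ : SL(2, ℤ), ic (dist w (σ • z1 z j) ≤ 1 / 2) ≤
      ENNReal.ofReal (80 * K * ((N : ℝ) ^ 2 * z.im)) := by
  have hz0 : 0 < z.im := by linarith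
  have hw0 : 0 < w.im := by linarith
  have hsum : ∑ j ∈ JJ N, ∑' σ : SL(2, ℤ), ic (dist w (σ • z1 z j) ≤ 1 / 2) =
      ∑ q ∈ PR N, ∑ y ∈ RR q, ∑' σ : SL(2, ℤ), ic (dist w (σ • hx q y z) ≤ 1 / 2) := by
    unfold JJ
    rw [Finset.sum_sigma]
    rfl
  rw [hsum]
  calc _ ≤ ∑ q ∈ PR N, ENNReal.ofReal (80 / 3 * K * ((N : ℝ) * z.im)) := by
        apply Finset.sum_le_sum
        intro q hq
        rw [mem_PR] at hq
        calc _ ≤ ∑ y ∈ RR q, ∑' σ : SL(2, ℤ),
              ic (3 / 5 * w.im ≤ (σ • hx q y z).im ∧ |(σ • hx q y z).re| ≤ 1 / 2 + w.im) := by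
              apply Finset.sum_le_sum
              intro y _
              apply ENNReal.tsum_le_tsum
              intro σ
              apply ic_mono
              intro hd
              obtain ⟨g1, g2, g3⟩ := near_im hd
              constructor
              · linarith
              · have h1 : |(σ • hx q y z).re| ≤ |w.re| + |w.re - (σ • hx q y z).re| := by
                  have := abs_sub w.re (w.re - (σ • hx q y z).re)
                  have h2 : w.re - (w.re - (σ • hx q y z).re) = (σ • hx q y z).re := by ring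
                  rw [h2] at this
                  exact this
                linarith
          _ ≤ ENNReal.ofReal (K * (q * z.im / (3 / 5 * w.im)) * (1 / 2 + w.im + 1)) :=
              hcount z hz1 hz2 q hq.2 _ _ (by linarith) (by linarith)
          _ ≤ _ := by
              apply ENNReal.ofReal_le_ofReal
              have h1 : K * ((q : ℝ) * z.im / (3 / 5 * w.im)) * (1 / 2 + w.im + 1) =
                  K * ((q : ℝ) * z.im) * (5 / 3 * (3 / 2 / w.im + 1)) := by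
                field_simp
                ring
              rw [h1]
              have h2 : (3 : ℝ) / 2 / w.im ≤ 3 := by
                rw [div_le_iff₀ hw0]
                linarith
              have hq1 : (q : ℝ) ≤ 4 * N := by exact_mod_cast hq.1.2
              have h3 : (0 : ℝ) ≤ q := Nat.cast_nonneg q
              have h4 : K * ((q : ℝ) * z.im) ≤ K * (4 * N * z.im) :=
                mul_le_mul_of_nonneg_left (mul_le_mul_of_nonneg_right hq1 hz0.le) hK.le
              have h5 : 0 ≤ K * ((q : ℝ) * z.im) := by positivity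
              have h6 : (0 : ℝ) ≤ 3 / 2 / w.im := by positivity
              calc K * ((q : ℝ) * z.im) * (5 / 3 * (3 / 2 / w.im + 1))
                  ≤ K * ((q : ℝ) * z.im) * (20 / 3) :=
                    mul_le_mul_of_nonneg_left (by linarith) h5
                _ ≤ K * (4 * N * z.im) * (20 / 3) :=
                    mul_le_mul_of_nonneg_right h4 (by norm_num)
                _ = 80 / 3 * K * ((N : ℝ) * z.im) := by ring
    _ = ((PR N).card : ℝ≥0∞) * ENNReal.ofReal (80 / 3 * K * ((N : ℝ) * z.im)) := by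
        rw [Finset.sum_const, nsmul_eq_mul]
    _ ≤ ENNReal.ofReal (3 * N) * ENNReal.ofReal (80 / 3 * K * ((N : ℝ) * z.im)) := by
        refine mul_le_mul_left ?_ _
        rw [← ENNReal.ofReal_natCast]
        apply ENNReal.ofReal_le_ofReal
        have := card_PR_le N
        exact_mod_cast this
    _ = ENNReal.ofReal (80 * K * ((N : ℝ) ^ 2 * z.im)) := by
        rw [← ENNReal.ofReal_mul (by positivity)]
        congr 1
        ring

open Classical in
private theorem HP_cnt {K : ℝ} (hK : 0 < K) (hcount : CH K) {z : ℍ} (hz1 : |z.re| ≤ 1 / 2)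
    (hz2 : 1 / 2 ≤ z.im) (N : ℕ) (g : (Σ _ : ℕ, Σ _ : ℕ, ℕ) → SL(2, ℤ))
    (hg : ∀ i, |(g i • z1 z i).re| ≤ 1 / 2) (h : ℝ) (hh : 0 < h) (a : ℕ → ℝ) (ha : ∀ n, 0 ≤ a n) :
    ∑ i ∈ (JJ N).filter (fun i => h ≤ (g i • z1 z i).im), ENNReal.ofReal (a i.1) ≤
      ENNReal.ofReal (6 * K * ((N : ℝ) * z.im / h) * ∑ p ∈ PR N, a p) := by
  have hz0 : 0 < z.im := by linarith
  calc ∑ i ∈ (JJ N).filter (fun i => h ≤ (g i • z1 z i).im), ENNReal.ofReal (a i.1)
      ≤ ∑ i ∈ (JJ N).filter (fun i => h ≤ (g i • z1 z i).im), ENNReal.ofReal (a i.1) *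
          ∑' σ : SL(2, ℤ), ic (h ≤ (σ • z1 z i).im ∧ |(σ • z1 z i).re| ≤ 1 / 2) := by
        apply Finset.sum_le_sum
        intro i hi
        rw [Finset.mem_filter] at hi
        have h1 : ic (h ≤ (g i • z1 z i).im ∧ |(g i • z1 z i).re| ≤ 1 / 2) = 1 :=
          ic_true ⟨hi.2, hg i⟩
        have h2 : (1 : ℝ≥0∞) ≤ ∑' σ : SL(2, ℤ),
            ic (h ≤ (σ • z1 z i).im ∧ |(σ • z1 z i).re| ≤ 1 / 2) := by
          rw [← h1]
          exact ENNReal.le_tsum (f := fun σ : SL(2, ℤ) =>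
            ic (h ≤ (σ • z1 z i).im ∧ |(σ • z1 z i).re| ≤ 1 / 2)) (g i)
        calc ENNReal.ofReal (a i.1) = ENNReal.ofReal (a i.1) * 1 := (mul_one _).symm
          _ ≤ _ := mul_le_mul_right h2 _
    _ ≤ ∑ i ∈ JJ N, ENNReal.ofReal (a i.1) *
          ∑' σ : SL(2, ℤ), ic (h ≤ (σ • z1 z i).im ∧ |(σ • z1 z i).re| ≤ 1 / 2) :=
        Finset.sum_le_sum_of_subset (Finset.filter_subset _ _)
    _ = ∑ p ∈ PR N, ENNReal.ofReal (a p) * ∑ y ∈ RR p,
          ∑' σ : SL(2, ℤ), ic (h ≤ (σ • hx p y z).im ∧ |(σ • hx p y z).re| ≤ 1 / 2) := by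
        unfold JJ
        rw [Finset.sum_sigma]
        apply Finset.sum_congr rfl
        intro p _
        rw [Finset.mul_sum]
        rfl
    _ ≤ ∑ p ∈ PR N, ENNReal.ofReal (6 * K * ((N : ℝ) * z.im / h) * a p) := by
        apply Finset.sum_le_sum
        intro p hp
        rw [mem_PR] at hp
        calc _ ≤ ENNReal.ofReal (a p) * ENNReal.ofReal (K * (p * z.im / h) * (1 / 2 + 1)) :=
              mul_le_mul_right (hcount z hz1 hz2 p hp.2 h (1 / 2) hh (by norm_num)) _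
          _ = ENNReal.ofReal (a p * (K * (p * z.im / h) * (1 / 2 + 1))) :=
              (ENNReal.ofReal_mul (ha p)).symm
          _ ≤ _ := by
              apply ENNReal.ofReal_le_ofReal
              have hp1 : (p : ℝ) ≤ 4 * N := by exact_mod_cast hp.1.2
              have h1 : (p : ℝ) * z.im / h ≤ 4 * N * z.im / h :=
                div_le_div_of_nonneg_right (mul_le_mul_of_nonneg_right hp1 hz0.le) hh.le
              have h2 : K * ((p : ℝ) * z.im / h) ≤ K * (4 * N * z.im / h) :=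
                mul_le_mul_of_nonneg_left h1 hK.le
              calc a p * (K * (p * z.im / h) * (1 / 2 + 1))
                  ≤ a p * (K * (4 * N * z.im / h) * (1 / 2 + 1)) :=
                    mul_le_mul_of_nonneg_left
                      (mul_le_mul_of_nonneg_right h2 (by norm_num)) (ha p)
                _ = 6 * K * ((N : ℝ) * z.im / h) * a p := by ring
    _ = ENNReal.ofReal (6 * K * ((N : ℝ) * z.im / h) * ∑ p ∈ PR N, a p) := by
        rw [Finset.mul_sum, ENNReal.ofReal_sum_of_nonneg]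
        intro p _
        have := ha p
        positivity

private theorem HP_symm (a b : SL(2, ℤ)) (v w : ℍ) :
    ∑' σ : SL(2, ℤ), ic (dist (a • v) (σ • w) ≤ 1 / 2) =
      ∑' σ : SL(2, ℤ), ic (dist (b • w) (σ • v) ≤ 1 / 2) := by
  rw [← Equiv.tsum_eq (((Equiv.inv SL(2, ℤ)).trans (Equiv.mulLeft b)).trans (Equiv.mulRight a))
    (fun σ : SL(2, ℤ) => ic (dist (b • w) (σ • v) ≤ 1 / 2))]
  apply tsum_congr
  intro σ
  show ic (dist (a • v) (σ • w) ≤ 1 / 2) = ic (dist (b • w) ((b * σ⁻¹ * a) • v) ≤ 1 / 2)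
  have h1 : dist (b • w) ((b * σ⁻¹ * a) • v) = dist (a • v) (σ • w) := by
    rw [mul_assoc, mul_smul, G1_dist_sl, mul_smul, ← G1_dist_sl σ, smul_inv_smul, dist_comm]
  rw [h1]

open Classical in
theorem high_pairs1 : ∃ K : ℝ, 0 < K ∧ ∀ z : ℍ, |z.re| ≤ 1 / 2 → 1 / 2 ≤ z.im →
    ∀ N : ℕ, 1 ≤ N → ∀ h0 : ℝ, 1 ≤ h0 → ∀ g : (Σ _ : ℕ, Σ _ : ℕ, ℕ) → SL(2, ℤ),
    (∀ i, |(g i • z1 z i).re| ≤ 1 / 2) → (∀ i, 1 / 2 ≤ (g i • z1 z i).im) →
    ∀ α : ℕ → ℝ, (∀ n, 0 ≤ α n) →
    ∑ i ∈ (JJ N).filter (fun i => h0 < (g i • z1 z i).im), ∑ j ∈ JJ N,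
      ENNReal.ofReal (α i.1 * α j.1) * ∑' σ : SL(2, ℤ), ic (dist (g i • z1 z i) (σ • z1 z j) ≤ 1 / 2) ≤
    ENNReal.ofReal (K * ((N : ℝ) ^ 3 * z.im ^ 2 / h0) * ∑ p ∈ PR N, α p ^ 2) := by
  obtain ⟨K, hK, hcount0⟩ := count_high1
  have hcount : CH K := hcount0
  refine ⟨4320 * K ^ 2, by positivity, ?_⟩
  intro z hz1 hz2 N hN h0 hh0 g hg1 hg2 α hα
  have hz0 : 0 < z.im := by linarith
  have hh00 : 0 < h0 := by linarith
  have hS : 0 ≤ ∑ p ∈ PR N, α p ^ 2 := Finset.sum_nonneg fun p _ => sq_nonneg _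
  -- the number of pairs
  obtain ⟨c, hc⟩ : ∃ c : (Σ _ : ℕ, Σ _ : ℕ, ℕ) → (Σ _ : ℕ, Σ _ : ℕ, ℕ) → ℝ≥0∞,
      ∀ i j, c i j = ∑' σ : SL(2, ℤ), ic (dist (g i • z1 z i) (σ • z1 z j) ≤ 1 / 2) :=
    ⟨_, fun _ _ => rfl⟩
  have hcs : ∀ i j, c i j = c j i := by
    intro i j
    rw [hc, hc]
    exact HP_symm _ _ _ _
  have hrow : ∀ i, ∑ j ∈ JJ N, c i j ≤ ENNReal.ofReal (80 * K * ((N : ℝ) ^ 2 * z.im)) := by
    intro i
    simp only [hc]
    exact HP_row hK hcount hz1 hz2 N _ (hg1 i) (hg2 i)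
  simp only [← hc]
  obtain ⟨F, hF⟩ : ∃ F, F = (JJ N).filter (fun i => h0 < (g i • z1 z i).im) := ⟨_, rfl⟩
  rw [← hF]
  have hFJ : F ⊆ JJ N := by rw [hF]; exact Finset.filter_subset _ _
  have hFm : ∀ i ∈ F, h0 < (g i • z1 z i).im := by
    intro i hi
    rw [hF, Finset.mem_filter] at hi
    exact hi.2
  -- the second factor
  have hcol : ∀ j, ¬ (h0 / 8 ≤ (g j • z1 z j).im) → ∑ i ∈ F, c i j = 0 := by
    intro j hj
    apply Finset.sum_eq_zero
    intro i hi
    rw [hc]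
    refine ENNReal.tsum_eq_zero.2 fun σ => ic_false ?_
    intro hd
    apply hj
    obtain ⟨g1, g2, g3⟩ := near_im hd
    have h1 := hFm i hi
    have h2 := im_orbit (g j • z1 z j) (hg2 j) (σ * (g j)⁻¹)
    rw [mul_smul, inv_smul_smul] at h2
    have h3 : 3 / 5 * h0 ≤ max (g j • z1 z j).im 2 := by linarith
    have h4 := hg2 j
    rcases le_total (g j • z1 z j).im 2 with h5 | h5
    · rw [max_eq_right h5] at h3
      linarith
    · rw [max_eq_left h5] at h3
      linarith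
  have hcol2 : ∀ j, ∑ i ∈ F, c i j ≤ ENNReal.ofReal (80 * K * ((N : ℝ) ^ 2 * z.im)) := by
    intro j
    calc ∑ i ∈ F, c i j ≤ ∑ i ∈ JJ N, c i j := Finset.sum_le_sum_of_subset hFJ
      _ = ∑ i ∈ JJ N, c j i := Finset.sum_congr rfl fun i _ => hcs i j
      _ ≤ _ := hrow j
  have hfirst : ∑ i ∈ F, ENNReal.ofReal (α i.1 ^ 2) * ∑ j ∈ JJ N, c i j ≤
      ENNReal.ofReal (480 * K ^ 2 * ((N : ℝ) ^ 3 * z.im ^ 2 / h0) * ∑ p ∈ PR N, α p ^ 2) := by
    calc _ ≤ ∑ i ∈ F, ENNReal.ofReal (α i.1 ^ 2) *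
          ENNReal.ofReal (80 * K * ((N : ℝ) ^ 2 * z.im)) :=
          Finset.sum_le_sum fun i _ => mul_le_mul_right (hrow i) _
      _ = (∑ i ∈ F, ENNReal.ofReal (α i.1 ^ 2)) *
          ENNReal.ofReal (80 * K * ((N : ℝ) ^ 2 * z.im)) := by rw [Finset.sum_mul]
      _ ≤ (∑ i ∈ (JJ N).filter (fun i => h0 ≤ (g i • z1 z i).im), ENNReal.ofReal (α i.1 ^ 2)) *
          ENNReal.ofReal (80 * K * ((N : ℝ) ^ 2 * z.im)) := by
          refine mul_le_mul_left (Finset.sum_le_sum_of_subset ?_) _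
          intro i hi
          rw [Finset.mem_filter]
          exact ⟨hFJ hi, (hFm i hi).le⟩
      _ ≤ ENNReal.ofReal (6 * K * ((N : ℝ) * z.im / h0) * ∑ p ∈ PR N, α p ^ 2) *
          ENNReal.ofReal (80 * K * ((N : ℝ) ^ 2 * z.im)) :=
          mul_le_mul_left (HP_cnt hK hcount hz1 hz2 N g hg1 h0 hh00 (fun n => α n ^ 2)
            (fun n => sq_nonneg _)) _
      _ = _ := by
          rw [← ENNReal.ofReal_mul (by positivity)]
          congr 1
          field_simp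
          ring
  have hsecond : ∑ j ∈ JJ N, ENNReal.ofReal (α j.1 ^ 2) * ∑ i ∈ F, c i j ≤
      ENNReal.ofReal (3840 * K ^ 2 * ((N : ℝ) ^ 3 * z.im ^ 2 / h0) * ∑ p ∈ PR N, α p ^ 2) := by
    calc _ = ∑ j ∈ (JJ N).filter (fun i => h0 / 8 ≤ (g i • z1 z i).im),
          ENNReal.ofReal (α j.1 ^ 2) * ∑ i ∈ F, c i j := by
          symm
          apply Finset.sum_subset (Finset.filter_subset _ _)
          intro j hj hj2
          rw [hcol j, mul_zero]
          intro h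
          exact hj2 (Finset.mem_filter.2 ⟨hj, h⟩)
      _ ≤ ∑ j ∈ (JJ N).filter (fun i => h0 / 8 ≤ (g i • z1 z i).im),
          ENNReal.ofReal (α j.1 ^ 2) * ENNReal.ofReal (80 * K * ((N : ℝ) ^ 2 * z.im)) :=
          Finset.sum_le_sum fun j _ => mul_le_mul_right (hcol2 j) _
      _ = (∑ j ∈ (JJ N).filter (fun i => h0 / 8 ≤ (g i • z1 z i).im),
          ENNReal.ofReal (α j.1 ^ 2)) * ENNReal.ofReal (80 * K * ((N : ℝ) ^ 2 * z.im)) := by
          rw [Finset.sum_mul]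
      _ ≤ ENNReal.ofReal (6 * K * ((N : ℝ) * z.im / (h0 / 8)) * ∑ p ∈ PR N, α p ^ 2) *
          ENNReal.ofReal (80 * K * ((N : ℝ) ^ 2 * z.im)) :=
          mul_le_mul_left (HP_cnt hK hcount hz1 hz2 N g hg1 (h0 / 8) (by linarith)
            (fun n => α n ^ 2) (fun n => sq_nonneg _)) _
      _ = _ := by
          rw [← ENNReal.ofReal_mul (by positivity)]
          congr 1
          field_simp
          ring
  calc ∑ i ∈ F, ∑ j ∈ JJ N, ENNReal.ofReal (α i.1 * α j.1) * c i j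
      ≤ ∑ i ∈ F, ∑ j ∈ JJ N, (ENNReal.ofReal (α i.1 ^ 2) * c i j +
          ENNReal.ofReal (α j.1 ^ 2) * c i j) := by
        apply Finset.sum_le_sum
        intro i _
        apply Finset.sum_le_sum
        intro j _
        rw [← add_mul]
        refine mul_le_mul_left ?_ _
        rw [← ENNReal.ofReal_add (sq_nonneg _) (sq_nonneg _)]
        apply ENNReal.ofReal_le_ofReal
        nlinarith [sq_nonneg (α i.1 - α j.1), sq_nonneg (α i.1), sq_nonneg (α j.1)]
    _ = ∑ i ∈ F, ENNReal.ofReal (α i.1 ^ 2) * ∑ j ∈ JJ N, c i j +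
        ∑ j ∈ JJ N, ENNReal.ofReal (α j.1 ^ 2) * ∑ i ∈ F, c i j := by
        simp only [Finset.sum_add_distrib]
        congr 1
        · apply Finset.sum_congr rfl
          intro i _
          rw [Finset.mul_sum]
        · rw [Finset.sum_comm]
          apply Finset.sum_congr rfl
          intro j _
          rw [Finset.mul_sum]
    _ ≤ _ := add_le_add hfirst hsecond
    _ = _ := by
        rw [← ENNReal.ofReal_add (by positivity) (by positivity)]
        congr 1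
        ring

end Pool.Agent.H19.WB
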