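import Mathlib
import Pool.Agent.H19.WB.St
import Pool.Agent.H19.Sup.F0
import Pool.Agent.H19.Sup.P3

set_option autoImplicit false

/-!
# MJ: majorant by all integral matrices

For `s ∈ S`: `β = CL1_mat s.1.1 s.1.2 s.2 = (a, b, c, d)` has determinant `q = s.1.1` (`Sup.CL1_det`) and `s.2 • z1 z s.1 = (a z + b) / (c z + d)` (`Sup.CL1_coe`),
so `im = q z.im / CL1_nn c d z` (`Sup.CL1_im`); `1/4 ≤ im ≤ 2 h0` and `N < q ≤ 4 N` give `N z.im / (2 h0) ≤ CL1_nn c d z ≤ 16 N z.im`.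
`s ↦ β` is injective on `S` (`Sup.CL1_inj` for equal `q`; `q = det β`).  Let `G` be the set of the `(c, d)`, `M` a bound for all entries.  Then
`∑_{s ∈ S} |∑_i a_i wv (dist (W i) (s.2 • z1 z s.1))|² ≤ ∑_{(c, d) ∈ G} ∑_{|a|, |b| ≤ M, 0 < a d - b c} |∑_i a_i wv (dist (W i) v)|²`, `v = (a z + b) / (c z + d)`
(all terms are nonnegative), `dist (W i) v = dh (W i).re (W i).im (pim z c d a b) (pre z c d a b)` (`Sup.P3_dist`), and the right side is the
expanded sum, since `osc A T d d' = wv A T d * conj (wv A T d')`.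
-/

namespace Pool.Agent.H19.WB

open UpperHalfPlane
open Pool.Agent.H19.Maass Pool.Agent.H19.Sup
open scoped MatrixGroups ComplexConjugate

/-- the oscillating term as a product -/
private theorem MJ_osc_eq (A : ℝ → ℂ) (T d d' : ℝ) :
    osc A T d d' = wv A T d * conj (wv A T d') := by
  unfold osc wv
  rw [map_mul, ← Complex.exp_conj, map_mul, Complex.conj_ofReal, Complex.conj_I]
  have : Complex.exp (((T * (d - d') : ℝ) : ℂ) * Complex.I) =
      Complex.exp (((T * d : ℝ) : ℂ) * Complex.I) *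
        Complex.exp (((T * d' : ℝ) : ℂ) * -Complex.I) := by
    rw [← Complex.exp_add]
    congr 1
    push_cast
    ring
  rw [this]
  ring

/-- the square of the absolute value, expanded -/
private theorem MJ_norm_sq {ι : Type*} (I : Finset ι) (a : ι → ℂ) (A : ℝ → ℂ) (T : ℝ) (D : ι → ℝ) :
    ((‖∑ i ∈ I, a i * wv A T (D i)‖ ^ 2 : ℝ) : ℂ) =
      ∑ i ∈ I, ∑ i' ∈ I, a i * conj (a i') * osc A T (D i) (D i') := by
  have h1 : ∀ x : ℂ, ((‖x‖ ^ 2 : ℝ) : ℂ) = x * conj x := by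
    intro x
    rw [Complex.mul_conj, Complex.normSq_eq_norm_sq]
  rw [h1, map_sum, Finset.sum_mul_sum]
  refine Finset.sum_congr rfl fun i _ => Finset.sum_congr rfl fun i' _ => ?_
  rw [MJ_osc_eq, map_mul]
  ring

/-- real part of the image point -/
private theorem MJ_re (β : Z4) (z : ℍ) : (CL1_pt β z).re = pre z β.2.2.1 β.2.2.2 β.1 β.2.1 := by
  unfold CL1_pt pre
  rw [Complex.div_re, CL1_normSq, ← add_div]
  congr 1
  simp
  ring

/-- imaginary part of the image point -/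
private theorem MJ_im (β : Z4) (z : ℍ) : (CL1_pt β z).im = pim z β.2.2.1 β.2.2.2 β.1 β.2.1 := by
  rw [CL1_im]
  unfold pim det4
  push_cast
  ring

theorem majorant_w {ι : Type*} (I : Finset ι) (W : ι → ℍ) (a : ι → ℂ) (A : ℝ → ℂ) (T : ℝ)
    {N : ℕ} (hN : 1 ≤ N) (z : ℍ) {h0 : ℝ} (hh : 1 ≤ h0) (S : Finset ((Σ _ : ℕ, Σ _ : ℕ, ℕ) × SL(2, ℤ)))
    (hS : ∀ s ∈ S, s.1 ∈ JJ N ∧ 1 / 4 ≤ (s.2 • z1 z s.1).im ∧ (s.2 • z1 z s.1).im ≤ 2 * h0) :
    ∃ (G : Finset (ℤ × ℤ)) (M : ℤ),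
      (∀ g ∈ G, N * z.im / (2 * h0) ≤ CL1_nn g.1 g.2 z ∧ CL1_nn g.1 g.2 z ≤ 16 * N * z.im) ∧
      ∑ s ∈ S, ‖∑ i ∈ I, a i * wv A T (dist (W i) (s.2 • z1 z s.1))‖ ^ 2 ≤
        ‖∑ i ∈ I, ∑ i' ∈ I, a i * conj (a i') * ∑ g ∈ G, PL A T M (W i) (W i') z g.1 g.2‖ := by
  classical
  set B : (Σ _ : ℕ, Σ _ : ℕ, ℕ) × SL(2, ℤ) → Z4 := fun s => CL1_mat s.1.1 s.1.2 s.2 with hB
  have hmem : ∀ s ∈ S, (N < s.1.1 ∧ s.1.1 ≤ 4 * N) ∧ s.1.1.Prime ∧ s.1.2 ∈ RR s.1.1 := by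
    intro s hs
    have h := (hS s hs).1
    unfold JJ PR at h
    rw [Finset.mem_sigma, Finset.mem_filter, Finset.mem_Ioc] at h
    exact ⟨h.1.1, h.1.2, h.2⟩
  have hdet : ∀ s ∈ S, det4 (B s) = s.1.1 := by
    intro s hs
    obtain ⟨-, h2, h3⟩ := hmem s hs
    exact CL1_det h2.pos h3 s.2
  have hpt : ∀ s ∈ S, ((s.2 • z1 z s.1 : ℍ) : ℂ) = CL1_pt (B s) z := by
    intro s hs
    obtain ⟨-, h2, h3⟩ := hmem s hs
    exact CL1_coe h2.pos h3 s.2 z
  have hre : ∀ s ∈ S, (s.2 • z1 z s.1 : ℍ).re =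
      pre z (B s).2.2.1 (B s).2.2.2 (B s).1 (B s).2.1 := by
    intro s hs
    rw [← MJ_re, ← hpt s hs]
    rfl
  have him : ∀ s ∈ S, (s.2 • z1 z s.1 : ℍ).im =
      pim z (B s).2.2.1 (B s).2.2.2 (B s).1 (B s).2.1 := by
    intro s hs
    rw [← MJ_im, ← hpt s hs]
    rfl
  have him' : ∀ s ∈ S, (s.2 • z1 z s.1 : ℍ).im =
      (s.1.1 : ℝ) * z.im / CL1_nn (B s).2.2.1 (B s).2.2.2 z := by
    intro s hs
    have h := CL1_im (B s) z
    rw [← hpt s hs, hdet s hs] at h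
    rw [show ((s.2 • z1 z s.1 : ℍ).im) = (((s.2 • z1 z s.1 : ℍ) : ℂ)).im from rfl, h]
    push_cast
    rfl
  set G : Finset (ℤ × ℤ) := S.image fun s => ((B s).2.2.1, (B s).2.2.2) with hG
  obtain ⟨M, hM⟩ := Finset.exists_le (S.image (fun s => |(B s).1|) ∪ S.image (fun s => |(B s).2.1|))
  have hM1 : ∀ s ∈ S, |(B s).1| ≤ M := fun s hs =>
    hM _ (Finset.mem_union_left _ (Finset.mem_image_of_mem (fun s => |(B s).1|) hs))
  have hM2 : ∀ s ∈ S, |(B s).2.1| ≤ M := fun s hs =>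
    hM _ (Finset.mem_union_right _ (Finset.mem_image_of_mem (fun s => |(B s).2.1|) hs))
  have hz := z.im_pos
  have hN0 : (0 : ℝ) < N := by exact_mod_cast hN
  refine ⟨G, M, ?_, ?_⟩
  · intro g hg
    rw [hG, Finset.mem_image] at hg
    obtain ⟨s, hs, rfl⟩ := hg
    obtain ⟨⟨h1, h1'⟩, -, -⟩ := hmem s hs
    obtain ⟨-, h2, h3⟩ := hS s hs
    rw [him' s hs] at h2 h3
    have hq1 : (N : ℝ) ≤ s.1.1 := by exact_mod_cast h1.le
    have hq2 : (s.1.1 : ℝ) ≤ 4 * N := by exact_mod_cast h1'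
    have hnn0 : 0 ≤ CL1_nn (B s).2.2.1 (B s).2.2.2 z := by unfold CL1_nn; positivity
    have hnn : 0 < CL1_nn (B s).2.2.1 (B s).2.2.2 z := by
      rcases hnn0.lt_or_eq with h | h
      · exact h
      · rw [← h, div_zero] at h2
        norm_num at h2
    rw [div_le_iff₀ hnn] at h3
    rw [le_div_iff₀ hnn] at h2
    constructor
    · rw [div_le_iff₀ (by positivity)]
      have : (N : ℝ) * z.im ≤ s.1.1 * z.im := mul_le_mul_of_nonneg_right hq1 hz.le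
      dsimp only
      linarith
    · have : (s.1.1 : ℝ) * z.im ≤ 4 * N * z.im := mul_le_mul_of_nonneg_right hq2 hz.le
      dsimp only
      linarith
  -- the function on the index set
  set D : (ℤ × ℤ) × (ℤ × ℤ) → ι → ℝ := fun t i =>
    dh (W i).re (W i).im (pim z t.1.1 t.1.2 t.2.1 t.2.2) (pre z t.1.1 t.1.2 t.2.1 t.2.2) with hD
  set F : (ℤ × ℤ) × (ℤ × ℤ) → ℝ := fun t =>
    if 0 < t.2.1 * t.1.2 - t.2.2 * t.1.1 then ‖∑ i ∈ I, a i * wv A T (D t i)‖ ^ 2 else 0 with hF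
  have hF0 : ∀ t, 0 ≤ F t := by
    intro t
    simp only [hF]
    split_ifs
    · positivity
    · exact le_rfl
  set Φ : (Σ _ : ℕ, Σ _ : ℕ, ℕ) × SL(2, ℤ) → (ℤ × ℤ) × (ℤ × ℤ) :=
    fun s => (((B s).2.2.1, (B s).2.2.2), ((B s).1, (B s).2.1)) with hΦ
  have hterm : ∀ s ∈ S, ‖∑ i ∈ I, a i * wv A T (dist (W i) (s.2 • z1 z s.1))‖ ^ 2 = F (Φ s) := by
    intro s hs
    have h5 : 0 < (B s).1 * (B s).2.2.2 - (B s).2.1 * (B s).2.2.1 := by
      have h6 := hdet s hs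
      unfold det4 at h6
      have h7 : (0 : ℤ) < s.1.1 := by exact_mod_cast (hmem s hs).2.1.pos
      linarith
    simp only [hF, hΦ]
    rw [if_pos h5]
    congr 2
    refine Finset.sum_congr rfl fun i _ => ?_
    rw [P3_dist, hre s hs, him s hs]
  have hinj : Set.InjOn Φ (S : Set ((Σ _ : ℕ, Σ _ : ℕ, ℕ) × SL(2, ℤ))) := by
    intro s hs s' hs' hss
    have hs := Finset.mem_coe.1 hs
    have hs' := Finset.mem_coe.1 hs'
    have hBB : B s = B s' := by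
      simp only [hΦ, Prod.mk.injEq] at hss
      obtain ⟨⟨h1, h2⟩, h3, h4⟩ := hss
      exact Prod.ext h3 (Prod.ext h4 (Prod.ext h1 h2))
    have hq : s.1.1 = s'.1.1 := by
      have h1 := hdet s hs
      rw [hBB, hdet s' hs'] at h1
      exact_mod_cast h1.symm
    obtain ⟨-, hp, h5⟩ := hmem s hs
    obtain ⟨-, hp', h5'⟩ := hmem s' hs'
    simp only [hB] at hBB
    obtain ⟨⟨q, y⟩, σ⟩ := s
    obtain ⟨⟨q', y'⟩, σ'⟩ := s'
    simp only at hq h5 h5' hBB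
    subst hq
    obtain ⟨h6, h7⟩ := CL1_inj h5 h5' hBB
    subst h6 h7
    rfl
  have hsub : S.image Φ ⊆ G ×ˢ (Finset.Icc (-M) M ×ˢ Finset.Icc (-M) M) := by
    intro t ht'
    rw [Finset.mem_image] at ht'
    obtain ⟨s, hs, rfl⟩ := ht'
    rw [Finset.mem_product, Finset.mem_product, Finset.mem_Icc, Finset.mem_Icc]
    exact ⟨Finset.mem_image_of_mem (fun s => ((B s).2.2.1, (B s).2.2.2)) hs,
      abs_le.1 (hM1 s hs), abs_le.1 (hM2 s hs)⟩
  have hle : ∑ s ∈ S, ‖∑ i ∈ I, a i * wv A T (dist (W i) (s.2 • z1 z s.1))‖ ^ 2 ≤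
      ∑ t ∈ G ×ˢ (Finset.Icc (-M) M ×ˢ Finset.Icc (-M) M), F t := by
    rw [Finset.sum_congr rfl hterm, ← Finset.sum_image hinj]
    exact Finset.sum_le_sum_of_subset_of_nonneg hsub fun t _ _ => hF0 t
  refine hle.trans ?_
  have hcomplex : (((∑ t ∈ G ×ˢ (Finset.Icc (-M) M ×ˢ Finset.Icc (-M) M), F t : ℝ)) : ℂ) =
      ∑ i ∈ I, ∑ i' ∈ I, a i * conj (a i') * ∑ g ∈ G, PL A T M (W i) (W i') z g.1 g.2 := by
    have e1 : ∀ i ∈ I, ∀ i' ∈ I, a i * conj (a i') * ∑ g ∈ G, PL A T M (W i) (W i') z g.1 g.2 =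
        ∑ t ∈ G ×ˢ (Finset.Icc (-M) M ×ˢ Finset.Icc (-M) M),
          if 0 < t.2.1 * t.1.2 - t.2.2 * t.1.1 then a i * conj (a i') *
            osc A T (D t i) (D t i') else 0 := by
      intro i _ i' _
      rw [Finset.sum_product, Finset.mul_sum]
      refine Finset.sum_congr rfl fun g _ => ?_
      unfold PL
      rw [Finset.sum_product, Finset.mul_sum]
      refine Finset.sum_congr rfl fun a' _ => ?_
      unfold LL
      rw [Finset.mul_sum]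
      refine Finset.sum_congr rfl fun b _ => ?_
      dsimp only
      split_ifs
      · rfl
      · rw [mul_zero]
    rw [Finset.sum_congr rfl fun i hi => Finset.sum_congr rfl fun i' hi' => e1 i hi i' hi']
    push_cast
    rw [Finset.sum_congr rfl fun i _ => Finset.sum_comm, Finset.sum_comm]
    refine Finset.sum_congr rfl fun t _ => ?_
    simp only [hF]
    split_ifs
    · rw [MJ_norm_sq]
    · simp
  rw [← hcomplex, Complex.norm_real]
  exact le_abs_self _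

end Pool.Agent.H19.WB
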