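import Mathlib
import Pool.Agent.H19.WB.St
import Pool.Agent.H19.Maass.Sixth

set_option autoImplicit false

/-!
# Mv: moving a point into the fundamental domain

`Maass.exists_move'` (`Maass/Cells.lean`) again; a separate file because `Maass.Cells` and `Maass.Unit` cannot be imported together.
-/

namespace Pool.Agent.H19.WB

open UpperHalfPlane ModularGroup
open Pool.Agent.H19.Maass Pool.Agent.H19.Sup
open scoped MatrixGroups Modular

theorem exists_move_w (z : ℍ) : ∃ g : SL(2, ℤ), |(g • z).re| ≤ 1 / 2 ∧ 1 / 2 ≤ (g • z).im := by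
  obtain ⟨g, hg⟩ := exists_smul_mem_fd z
  refine ⟨g, hg.2, ?_⟩
  have h1 := three_le_four_mul_im_sq_of_mem_fd hg
  have h2 := (g • z).im_pos
  nlinarith

end Pool.Agent.H19.WB
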