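import Mathlib
import Pool.Agent.H19.WB.St
import Pool.Agent.H19.Sup.F0
import Pool.Agent.H19.Sup.G1
import Pool.Agent.H19.Sup.NR2

set_option autoImplicit false

/-!
# NR: rows of the near part, primes

* `near_row`: `Maass.MM_prime_le`, then `Maass.count_p` with `S = 1` and `S = 6 / 16^j` (`√S = √6 / 4^j`):
  `∑_q count ≤ K N (N / 4^j + 1) (N (1 + z.im) / 4^j + 1) ≤ K (1 + z.im) (N³ / 16^j + N² / 4^j + N)`; times `√T 2^j`, sum over `j0 ≤ j ≤ L`, `2^L ≤ 2 √T`.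
  The diagonal term `p * ct (phn ..) 1 z`: `phn C T j0 L ≤ 2 ph C T L` (`ic (s ≤ 1) ≤ ic (s ≤ 6)`, `1 ≤ √T`), `Maass.ph_count_one`.
  Compare `Maass.row_p` (`Maass/Rows.lean`) and `Sup/NR2.lean`.
* `near_row_mu`: the same with the single function `ic (s ≤ 2 μ²)`, `√S = √2 μ`, `1 ≤ μ N`; diagonal: the number of unimodular matrices with
  `sf4 ≤ 2` is at most `K (1 + z.im)`.
-/

namespace Pool.Agent.H19.WB

open UpperHalfPlane
open Pool.Agent.H19.Maass Pool.Agent.H19.Sup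
open scoped MatrixGroups ENNReal

private lemma NR_sum_MM (φ : ℝ → ℝ≥0∞) (N : ℕ) {p : ℕ} (hp : p.Prime) (z : ℍ) :
    ∑ q ∈ PR N, MM φ p q z ≤
      2 * (∑ q ∈ PR N, ct φ (p * q) z + (p : ℝ≥0∞) * ct φ 1 z) := by
  calc ∑ q ∈ PR N, MM φ p q z
      ≤ ∑ q ∈ PR N, 2 * (ct φ (p * q) z +
          if q = p then (p : ℝ≥0∞) * ct φ 1 z else 0) :=
        Finset.sum_le_sum fun q hq => MM_prime_le _ hp (mem_PR.1 hq).2 z
    _ = 2 * (∑ q ∈ PR N, ct φ (p * q) z + ∑ q ∈ PR N,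
          if q = p then (p : ℝ≥0∞) * ct φ 1 z else 0) := by
        rw [← Finset.mul_sum, Finset.sum_add_distrib]
    _ ≤ _ := by
        refine mul_le_mul_right (add_le_add le_rfl ?_) 2
        rw [Finset.sum_ite_eq']
        split_ifs
        · exact le_rfl
        · exact zero_le

private lemma NR_phn_le {C T : ℝ} (hC : 0 ≤ C) (hT : 1 ≤ T) (j0 L : ℕ) (s : ℝ) :
    phn C T j0 L s ≤ 2 * ph C T L s := by
  have h1 : ENNReal.ofReal C * ic (s ≤ 1) ≤ ph C T L s := by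
    have h2 : ENNReal.ofReal (C * √T * 2 ^ 0) * ic (s ≤ 6 / 16 ^ 0) ≤ ph C T L s := by
      unfold ph
      exact Finset.single_le_sum (f := fun j => ENNReal.ofReal (C * √T * 2 ^ j) *
        ic (s ≤ 6 / 16 ^ j)) (fun j _ => zero_le) (Finset.mem_range.2 (Nat.succ_pos L))
    refine le_trans ?_ h2
    refine mul_le_mul' (ENNReal.ofReal_le_ofReal ?_) (ic_mono fun h => ?_)
    · have h3 : (1 : ℝ) ≤ √T := by
        rw [Real.one_le_sqrt]; exact hT
      rw [pow_zero, mul_one]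
      exact le_mul_of_one_le_right hC h3
    · rw [pow_zero, div_one]; linarith
  have h2 : ∑ j ∈ Finset.Icc j0 L, ENNReal.ofReal (C * √T * 2 ^ j) * ic (s ≤ 6 / 16 ^ j) ≤
      ph C T L s := by
    unfold ph
    refine Finset.sum_le_sum_of_subset ?_
    intro j hj
    rw [Finset.mem_Icc] at hj
    rw [Finset.mem_range]
    omega
  unfold phn
  rw [two_mul]
  exact add_le_add h1 h2

private lemma NR_ct_mono {φ ψ : ℝ → ℝ≥0∞} (h : ∀ s, φ s ≤ ψ s) (n : ℤ) (z : ℍ) :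
    ct φ n z ≤ ct ψ n z := by
  unfold ct
  exact ENNReal.tsum_le_tsum fun β => mul_le_mul_right (h _) _

private lemma NR_ct_two (φ : ℝ → ℝ≥0∞) (n : ℤ) (z : ℍ) :
    ct (fun s => 2 * φ s) n z = 2 * ct φ n z := by
  unfold ct
  rw [← ENNReal.tsum_mul_left]
  refine tsum_congr fun β => ?_
  ring

theorem near_row : ∃ K : ℝ, 0 < K ∧ ∀ z : ℍ, |z.re| ≤ 1 / 2 → 1 / 2 ≤ z.im →
    ∀ C T : ℝ, 0 ≤ C → 1 ≤ T → ∀ j0 L : ℕ, j0 ≤ L → (2 : ℝ) ^ L ≤ 2 * √T → ∀ N : ℕ, 1 ≤ N →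
    ∀ p ∈ PR N, ∑ q ∈ PR N, MM (phn C T j0 L) p q z ≤
      ENNReal.ofReal (K * C * (1 + z.im) *
        (N * T + √T * (N : ℝ) ^ 3 / 8 ^ j0 + √T * (N : ℝ) ^ 2 + (N : ℝ) ^ 3)) := by
  obtain ⟨C₁, hC₁, hone⟩ := ph_count_one
  refine ⟨100000000 + 16 * C₁, by positivity, ?_⟩
  intro z hx hy C T hC hT j0 L hjL hL N hN p hp
  rw [mem_PR] at hp
  obtain ⟨⟨hp1, hp2⟩, hpp⟩ := hp
  have hNr : (1 : ℝ) ≤ N := by exact_mod_cast hN
  have hN0 : (0 : ℝ) < N := by linarith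
  have hp1r : (N : ℝ) ≤ p := by exact_mod_cast hp1.le
  have hp2r : (p : ℝ) ≤ 4 * N := by exact_mod_cast hp2
  have hT0 : 0 ≤ √T := Real.sqrt_nonneg T
  have hTT : √T * √T = T := Real.mul_self_sqrt (by linarith)
  have hy0 := z.im_pos
  set y := z.im with hyd
  have hcnt := fun (S : ℝ) (hS : 0 ≤ S) (hS6 : S ≤ 6) => count_p z hx hy (Y := z.im) le_rfl hNr hpp
    hp1r hp2r (PR N) (fun q hq => by
      obtain ⟨⟨h3, h4⟩, _⟩ := mem_PR.1 hq
      exact ⟨by omega, by exact_mod_cast h4⟩) hS hS6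
  have hsum : ∑ q ∈ PR N, ct (phn C T j0 L) (p * q) z =
      ENNReal.ofReal C * ∑ q ∈ PR N, ∑' β : Z4, ic (det4 β = p * q ∧ sf4 β z ≤ 1) +
      ∑ j ∈ Finset.Icc j0 L, ENNReal.ofReal (C * √T * 2 ^ j) *
        ∑ q ∈ PR N, ∑' β : Z4, ic (det4 β = p * q ∧ sf4 β z ≤ 6 / 16 ^ j) := by
    simp_rw [NR2_ct]
    rw [Finset.sum_add_distrib, ← Finset.mul_sum]
    congr 1
    rw [Finset.sum_comm]
    refine Finset.sum_congr rfl fun j _ => ?_
    rw [Finset.mul_sum]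
  have h1 : ENNReal.ofReal C * ∑ q ∈ PR N,
      ∑' β : Z4, ic (det4 β = p * q ∧ sf4 β z ≤ 1) ≤
      ENNReal.ofReal (C * (161 * 130 * 153 * ((N : ℝ) ^ 3 * (1 + y)))) := by
    rw [ENNReal.ofReal_mul hC]
    refine mul_le_mul_right ?_ _
    refine (hcnt 1 (by norm_num) (by norm_num)).trans ?_
    refine ENNReal.ofReal_le_ofReal ?_
    rw [Real.sqrt_one, one_mul]
    have e1 : 8 * (N : ℝ) + 1 ≤ 9 * N := by linarith
    have e2 : 16 * (N : ℝ) * y + 1 ≤ 17 * (N * (1 + y)) := by nlinarith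
    calc 161 * (N : ℝ) * ((8 * N + 1) * ((16 * N * y + 1) * 130))
        ≤ 161 * (N : ℝ) * ((9 * N) * ((17 * (N * (1 + y))) * 130)) := by gcongr
      _ = _ := by ring
  have h2 : ∀ j ∈ Finset.Icc j0 L, ENNReal.ofReal (C * √T * 2 ^ j) *
      ∑ q ∈ PR N, ∑' β : Z4, ic (det4 β = p * q ∧ sf4 β z ≤ 6 / 16 ^ j) ≤
      ENNReal.ofReal (C * √T * (161 * 130 * N * (768 * (N ^ 2 * y) * (1 / 8) ^ j +
        40 * (N * (1 + y)) * (1 / 2) ^ j + 2 ^ j))) := by
    intro j _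
    refine (mul_le_mul_right (hcnt (6 / 16 ^ j) (by positivity)
      (div_le_self (by norm_num) (one_le_pow₀ (by norm_num)))) _).trans ?_
    rw [← ENNReal.ofReal_mul (by positivity)]
    refine ENNReal.ofReal_le_ofReal ?_
    set r := √(6 / 16 ^ j) with hr
    have hr0 : 0 ≤ r := Real.sqrt_nonneg _
    have hr2 : r ^ 2 = 6 / 16 ^ j := Real.sq_sqrt (by positivity)
    have hr3 : r ≤ 5 / 2 * (1 / 4) ^ j := sqrt_six_div j
    have e1 : (2 : ℝ) ^ j * (1 / 4) ^ j = (1 / 2) ^ j := by rw [← mul_pow]; norm_num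
    have e2 : (2 : ℝ) ^ j * r ^ 2 = 6 * (1 / 8) ^ j := by
      rw [hr2]
      have : (2 : ℝ) ^ j * (1 / 16) ^ j = (1 / 8) ^ j := by rw [← mul_pow]; norm_num
      rw [← this, div_pow, one_pow]; ring
    have e3 : (2 : ℝ) ^ j * r ≤ 5 / 2 * (1 / 2) ^ j := by
      rw [← e1]
      have : (0 : ℝ) ≤ 2 ^ j := by positivity
      nlinarith
    have e5 : (2 : ℝ) ^ j * ((8 * (r * N) + 1) * (16 * (r * N) * y + 1)) ≤
        768 * (N ^ 2 * y) * (1 / 8) ^ j + 40 * (N * (1 + y)) * (1 / 2) ^ j + 2 ^ j := by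
      have f1 : (2 : ℝ) ^ j * ((8 * (r * N) + 1) * (16 * (r * N) * y + 1)) =
          128 * (2 ^ j * r ^ 2) * (N ^ 2 * y) + (2 ^ j * r) * (8 * N + 16 * (N * y)) + 2 ^ j := by
        ring
      rw [f1, e2]
      have f2 : (2 ^ j * r) * (8 * N + 16 * (N * y)) ≤
          (5 / 2 * (1 / 2) ^ j) * (16 * (N * (1 + y))) := by
        refine mul_le_mul e3 ?_ (by positivity) (by positivity)
        nlinarith
      linarith
    calc C * √T * 2 ^ j * (161 * N * ((8 * (r * N) + 1) * ((16 * (r * N) * y + 1) * 130)))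
        = C * √T * (161 * 130 * N * (2 ^ j * ((8 * (r * N) + 1) * (16 * (r * N) * y + 1)))) := by
          ring
      _ ≤ _ := by
        refine mul_le_mul_of_nonneg_left ?_ (by positivity)
        exact mul_le_mul_of_nonneg_left e5 (by positivity)
  have h12 : ∑ q ∈ PR N, ct (phn C T j0 L) (p * q) z ≤
      ENNReal.ofReal (C * (161 * 130 * 153 * ((N : ℝ) ^ 3 * (1 + y))) +
        C * (161 * 130 * N * (1536 * (√T * N ^ 2 * y / 8 ^ j0) + 80 * (√T * (N * (1 + y))) +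
          4 * T))) := by
    rw [hsum]
    refine (add_le_add h1 (Finset.sum_le_sum h2)).trans ?_
    rw [← ENNReal.ofReal_sum_of_nonneg (fun j _ => by positivity),
      ← ENNReal.ofReal_add (by positivity) (Finset.sum_nonneg fun j _ => by positivity)]
    refine ENNReal.ofReal_le_ofReal ?_
    refine add_le_add le_rfl ?_
    rw [← Finset.mul_sum, ← Finset.mul_sum, Finset.sum_add_distrib, Finset.sum_add_distrib,
      ← Finset.mul_sum, ← Finset.mul_sum]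
    have g1 := NR2_geom_two j0 L
    have g2 := NR2_geom_half j0 L
    have g3 := NR2_geom_eighth j0 L
    have g5 : √T * (768 * (N ^ 2 * y) * ∑ j ∈ Finset.Icc j0 L, (1 / 8 : ℝ) ^ j +
        40 * (N * (1 + y)) * ∑ j ∈ Finset.Icc j0 L, (1 / 2 : ℝ) ^ j +
        ∑ j ∈ Finset.Icc j0 L, (2 : ℝ) ^ j) ≤
        1536 * (√T * N ^ 2 * y / 8 ^ j0) + 80 * (√T * (N * (1 + y))) + 4 * T := by
      calc √T * (768 * (N ^ 2 * y) * ∑ j ∈ Finset.Icc j0 L, (1 / 8 : ℝ) ^ j +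
          40 * (N * (1 + y)) * ∑ j ∈ Finset.Icc j0 L, (1 / 2 : ℝ) ^ j +
          ∑ j ∈ Finset.Icc j0 L, (2 : ℝ) ^ j)
          ≤ √T * (768 * (N ^ 2 * y) * (2 / 8 ^ j0) + 40 * (N * (1 + y)) * 2 + 4 * √T) := by
            gcongr
            linarith
        _ = 1536 * (√T * N ^ 2 * y / 8 ^ j0) + 80 * (√T * (N * (1 + y))) + 4 * (√T * √T) := by
            ring
        _ = _ := by rw [hTT]
    calc C * √T * (161 * 130 * N * (768 * (N ^ 2 * y) * ∑ j ∈ Finset.Icc j0 L, (1 / 8 : ℝ) ^ j +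
          40 * (N * (1 + y)) * ∑ j ∈ Finset.Icc j0 L, (1 / 2 : ℝ) ^ j +
          ∑ j ∈ Finset.Icc j0 L, (2 : ℝ) ^ j))
        = C * (161 * 130 * N * (√T * (768 * (N ^ 2 * y) * ∑ j ∈ Finset.Icc j0 L, (1 / 8 : ℝ) ^ j +
          40 * (N * (1 + y)) * ∑ j ∈ Finset.Icc j0 L, (1 / 2 : ℝ) ^ j +
          ∑ j ∈ Finset.Icc j0 L, (2 : ℝ) ^ j))) := by ring
      _ ≤ _ := by
        refine mul_le_mul_of_nonneg_left ?_ hC
        exact mul_le_mul_of_nonneg_left g5 (by positivity)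
  have h3 : ct (phn C T j0 L) 1 z ≤ ENNReal.ofReal (2 * (C₁ * C * (T + √T * y))) := by
    calc ct (phn C T j0 L) 1 z ≤ ct (fun s => 2 * ph C T L s) 1 z :=
          NR_ct_mono (NR_phn_le hC hT j0 L) 1 z
      _ = 2 * ct (ph C T L) 1 z := NR_ct_two _ _ _
      _ ≤ ENNReal.ofReal 2 * ENNReal.ofReal (C₁ * C * (T + √T * y)) := by
          rw [show (2 : ℝ≥0∞) = ENNReal.ofReal 2 by norm_num]
          exact mul_le_mul_right (hone z hx hy C T hC L hT hL) _
      _ = _ := by rw [← ENNReal.ofReal_mul (by norm_num)]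
  refine (NR_sum_MM (phn C T j0 L) N hpp z).trans ?_
  calc 2 * (∑ q ∈ PR N, ct (phn C T j0 L) (p * q) z + (p : ℝ≥0∞) * ct (phn C T j0 L) 1 z)
      ≤ ENNReal.ofReal 2 * (ENNReal.ofReal (C * (161 * 130 * 153 * ((N : ℝ) ^ 3 * (1 + y))) +
          C * (161 * 130 * N * (1536 * (√T * N ^ 2 * y / 8 ^ j0) + 80 * (√T * (N * (1 + y))) +
          4 * T))) + ENNReal.ofReal (4 * N) * ENNReal.ofReal (2 * (C₁ * C * (T + √T * y)))) := by
        rw [show (2 : ℝ≥0∞) = ENNReal.ofReal 2 by norm_num]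
        refine mul_le_mul_right (add_le_add h12 (mul_le_mul' ?_ h3)) _
        rw [← ENNReal.ofReal_natCast]
        exact ENNReal.ofReal_le_ofReal hp2r
    _ = ENNReal.ofReal (2 * (C * (161 * 130 * 153 * ((N : ℝ) ^ 3 * (1 + y))) +
          C * (161 * 130 * N * (1536 * (√T * N ^ 2 * y / 8 ^ j0) + 80 * (√T * (N * (1 + y))) +
          4 * T)) + 4 * N * (2 * (C₁ * C * (T + √T * y))))) := by
        rw [← ENNReal.ofReal_mul (by positivity), ← ENNReal.ofReal_add (by positivity)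
          (by positivity), ← ENNReal.ofReal_mul (by positivity)]
    _ ≤ _ := by
        refine ENNReal.ofReal_le_ofReal ?_
        have hsT : √T ≤ T := by
          rw [Real.sqrt_le_left (by linarith)]
          nlinarith
        have hTp : 0 ≤ T := by linarith
        set U := √T * (N : ℝ) ^ 3 / 8 ^ j0 with hU
        set V := √T * (N : ℝ) ^ 2 with hV
        have hU0 : 0 ≤ U := by positivity
        have hV0 : 0 ≤ V := by positivity
        have a1 : T + √T * y ≤ (1 + y) * T := by nlinarith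
        have a2 : C * (161 * 130 * N * (1536 * (√T * N ^ 2 * y / 8 ^ j0) +
            80 * (√T * (N * (1 + y))) + 4 * T)) =
            C * (161 * 130 * (1536 * (U * y) + 80 * (V * (1 + y)) + 4 * (N * T))) := by
          rw [hU, hV]; ring
        have a3 : 161 * 130 * (1536 * (U * y) + 80 * (V * (1 + y)) + 4 * (N * T)) ≤
            32148480 * ((1 + y) * U) + 1674400 * ((1 + y) * V) + 83720 * ((1 + y) * (N * T)) := by
          have b1 : U * y ≤ (1 + y) * U := by nlinarith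
          have b2 : (N : ℝ) * T ≤ (1 + y) * (N * T) := by
            have : 0 ≤ y * ((N : ℝ) * T) := by positivity
            linarith
          nlinarith
        have a4 : 4 * (N : ℝ) * (2 * (C₁ * C * (T + √T * y))) ≤
            8 * C₁ * (C * ((1 + y) * (N * T))) := by
          calc 4 * (N : ℝ) * (2 * (C₁ * C * (T + √T * y)))
              ≤ 4 * (N : ℝ) * (2 * (C₁ * C * ((1 + y) * T))) := by gcongr
            _ = _ := by ring
        have c1 : 0 ≤ C * ((1 + y) * U) := by positivity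
        have c2 : 0 ≤ C * ((1 + y) * V) := by positivity
        have c3 : 0 ≤ C * ((1 + y) * (N * T)) := by positivity
        have c4 : 0 ≤ C * ((1 + y) * (N : ℝ) ^ 3) := by positivity
        have c5 : 0 ≤ C₁ * (C * ((1 + y) * U)) := by positivity
        have c6 : 0 ≤ C₁ * (C * ((1 + y) * V)) := by positivity
        have c7 : 0 ≤ C₁ * (C * ((1 + y) * (N : ℝ) ^ 3)) := by positivity
        have a5 := mul_le_mul_of_nonneg_left a3 hC
        rw [a2]
        calc 2 * (C * (161 * 130 * 153 * ((N : ℝ) ^ 3 * (1 + y))) +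
              C * (161 * 130 * (1536 * (U * y) + 80 * (V * (1 + y)) + 4 * (N * T))) +
              4 * N * (2 * (C₁ * C * (T + √T * y))))
            ≤ 2 * (C * (161 * 130 * 153 * ((N : ℝ) ^ 3 * (1 + y))) +
              C * (32148480 * ((1 + y) * U) + 1674400 * ((1 + y) * V) +
                83720 * ((1 + y) * (N * T))) + 8 * C₁ * (C * ((1 + y) * (N * T)))) := by
              linarith
          _ = 6404580 * (C * ((1 + y) * (N : ℝ) ^ 3)) + 64296960 * (C * ((1 + y) * U)) +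
              3348800 * (C * ((1 + y) * V)) + 167440 * (C * ((1 + y) * (N * T))) +
              16 * (C₁ * (C * ((1 + y) * (N * T)))) := by ring
          _ ≤ 100000000 * (C * ((1 + y) * (N : ℝ) ^ 3)) + 100000000 * (C * ((1 + y) * U)) +
              100000000 * (C * ((1 + y) * V)) + 100000000 * (C * ((1 + y) * (N * T))) +
              16 * (C₁ * (C * ((1 + y) * (N * T)))) + 16 * (C₁ * (C * ((1 + y) * U))) +
              16 * (C₁ * (C * ((1 + y) * V))) + 16 * (C₁ * (C * ((1 + y) * (N : ℝ) ^ 3))) := by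
              linarith
          _ = _ := by ring

theorem near_row_mu : ∃ K : ℝ, 0 < K ∧ ∀ z : ℍ, |z.re| ≤ 1 / 2 → 1 / 2 ≤ z.im →
    ∀ N : ℕ, 1 ≤ N → ∀ μ : ℝ, 1 / (N : ℝ) ≤ μ → μ ≤ 1 →
    ∀ p ∈ PR N, ∑ q ∈ PR N, MM (fun s => ic (s ≤ 2 * μ ^ 2)) p q z ≤
      ENNReal.ofReal (K * (1 + z.im) * ((N : ℝ) ^ 3 * μ ^ 2)) := by
  obtain ⟨C₁, hC₁, hone⟩ := ph_count_one
  refine ⟨20000000 + 8 * C₁, by positivity, ?_⟩
  intro z hx hy N hN μ hμ hμ1 p hp
  rw [mem_PR] at hp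
  obtain ⟨⟨hp1, hp2⟩, hpp⟩ := hp
  have hNr : (1 : ℝ) ≤ N := by exact_mod_cast hN
  have hN0 : (0 : ℝ) < N := by linarith
  have hp1r : (N : ℝ) ≤ p := by exact_mod_cast hp1.le
  have hp2r : (p : ℝ) ≤ 4 * N := by exact_mod_cast hp2
  have hy0 := z.im_pos
  have hμ0 : 0 < μ := lt_of_lt_of_le (by positivity) hμ
  have hμN : 1 ≤ μ * N := by
    rw [div_le_iff₀ hN0] at hμ
    exact hμ
  set y := z.im with hyd
  have hS6 : 2 * μ ^ 2 ≤ 6 := by nlinarith
  have hcnt := count_p z hx hy (Y := z.im) le_rfl hNr hpp hp1r hp2r (PR N) (fun q hq => by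
      obtain ⟨⟨h3, h4⟩, _⟩ := mem_PR.1 hq
      exact ⟨by omega, by exact_mod_cast h4⟩) (S := 2 * μ ^ 2) (by positivity) hS6
  have hct : ∑ q ∈ PR N, ct (fun s => ic (s ≤ 2 * μ ^ 2)) (p * q) z =
      ∑ q ∈ PR N, ∑' β : Z4, ic (det4 β = p * q ∧ sf4 β z ≤ 2 * μ ^ 2) := by
    refine Finset.sum_congr rfl fun q _ => ?_
    unfold ct
    refine tsum_congr fun β => ?_
    rw [ic_and]
  have hr : √(2 * μ ^ 2) ≤ 3 / 2 * μ := by
    rw [Real.sqrt_le_left (by positivity)]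
    nlinarith
  have h1 : ∑ q ∈ PR N, ct (fun s => ic (s ≤ 2 * μ ^ 2)) (p * q) z ≤
      ENNReal.ofReal (161 * 130 * 325 * ((N : ℝ) ^ 3 * μ ^ 2 * (1 + y))) := by
    rw [hct]
    refine hcnt.trans (ENNReal.ofReal_le_ofReal ?_)
    have hrN : √(2 * μ ^ 2) * N ≤ 3 / 2 * (μ * N) := by
      calc √(2 * μ ^ 2) * N ≤ 3 / 2 * μ * N := by gcongr
        _ = _ := by ring
    have hr0 : 0 ≤ √(2 * μ ^ 2) * N := by positivity
    have e1 : 8 * (√(2 * μ ^ 2) * N) + 1 ≤ 13 * (μ * N) := by linarith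
    have e2 : 16 * (√(2 * μ ^ 2) * N) * y + 1 ≤ 25 * (μ * N * (1 + y)) := by
      have f1 : (√(2 * μ ^ 2) * N) * y ≤ 3 / 2 * (μ * N) * y :=
        mul_le_mul_of_nonneg_right hrN hy0.le
      have f2 : 0 ≤ μ * N * y := by positivity
      linarith
    calc 161 * (N : ℝ) * ((8 * (√(2 * μ ^ 2) * N) + 1) *
          ((16 * (√(2 * μ ^ 2) * N) * y + 1) * 130))
        ≤ 161 * (N : ℝ) * ((13 * (μ * N)) * ((25 * (μ * N * (1 + y))) * 130)) := by gcongr
      _ = _ := by ring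
  have h3 : ct (fun s => ic (s ≤ 2 * μ ^ 2)) 1 z ≤ ENNReal.ofReal (C₁ * (1 + y)) := by
    refine (NR_ct_mono (ψ := ph 1 1 0) (fun s => ?_) 1 z).trans
      ((hone z hx hy 1 1 zero_le_one 0 le_rfl (by rw [Real.sqrt_one]; norm_num)).trans ?_)
    · unfold ph
      rw [Finset.sum_range_one, Real.sqrt_one, pow_zero, pow_zero, mul_one, mul_one,
        ENNReal.ofReal_one, one_mul]
      exact ic_mono fun h => by rw [div_one]; linarith
    · refine ENNReal.ofReal_le_ofReal ?_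
      rw [Real.sqrt_one]
      linarith
  refine (NR_sum_MM (fun s => ic (s ≤ 2 * μ ^ 2)) N hpp z).trans ?_
  calc 2 * (∑ q ∈ PR N, ct (fun s => ic (s ≤ 2 * μ ^ 2)) (p * q) z +
        (p : ℝ≥0∞) * ct (fun s => ic (s ≤ 2 * μ ^ 2)) 1 z)
      ≤ ENNReal.ofReal 2 * (ENNReal.ofReal (161 * 130 * 325 * ((N : ℝ) ^ 3 * μ ^ 2 * (1 + y))) +
          ENNReal.ofReal (4 * N) * ENNReal.ofReal (C₁ * (1 + y))) := by
        rw [show (2 : ℝ≥0∞) = ENNReal.ofReal 2 by norm_num]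
        refine mul_le_mul_right (add_le_add h1 (mul_le_mul' ?_ h3)) _
        rw [← ENNReal.ofReal_natCast]
        exact ENNReal.ofReal_le_ofReal hp2r
    _ = ENNReal.ofReal (2 * (161 * 130 * 325 * ((N : ℝ) ^ 3 * μ ^ 2 * (1 + y)) +
          4 * N * (C₁ * (1 + y)))) := by
        rw [← ENNReal.ofReal_mul (by positivity), ← ENNReal.ofReal_add (by positivity)
          (by positivity), ← ENNReal.ofReal_mul (by positivity)]
    _ ≤ _ := by
        refine ENNReal.ofReal_le_ofReal ?_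
        have a1 : (N : ℝ) ≤ (N : ℝ) ^ 3 * μ ^ 2 := by
          have : 1 ≤ (μ * N) ^ 2 := by nlinarith
          calc (N : ℝ) = N * 1 := by ring
            _ ≤ N * (μ * N) ^ 2 := by gcongr
            _ = _ := by ring
        have a2 : 4 * (N : ℝ) * (C₁ * (1 + y)) ≤ 4 * ((N : ℝ) ^ 3 * μ ^ 2) * (C₁ * (1 + y)) := by
          gcongr
        have a3 : 0 ≤ (N : ℝ) ^ 3 * μ ^ 2 * (1 + y) := by positivity
        calc 2 * (161 * 130 * 325 * ((N : ℝ) ^ 3 * μ ^ 2 * (1 + y)) + 4 * N * (C₁ * (1 + y)))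
            ≤ 2 * (161 * 130 * 325 * ((N : ℝ) ^ 3 * μ ^ 2 * (1 + y)) +
              4 * ((N : ℝ) ^ 3 * μ ^ 2) * (C₁ * (1 + y))) := by linarith
          _ = 13604500 * ((N : ℝ) ^ 3 * μ ^ 2 * (1 + y)) +
              8 * C₁ * ((1 + y) * ((N : ℝ) ^ 3 * μ ^ 2)) := by ring
          _ ≤ 20000000 * ((N : ℝ) ^ 3 * μ ^ 2 * (1 + y)) +
              8 * C₁ * ((1 + y) * ((N : ℝ) ^ 3 * μ ^ 2)) := by linarith
          _ = _ := by ring

end Pool.Agent.H19.WB
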