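import Mathlib
import Pool.Agent.H19.WB.NR

set_option autoImplicit false

/-!
# NP: pairs of near points

`dist ((g i) • z1 z i) ((g i') • z1 z i') = dist (z1 z i) (σ • z1 z i')` with `σ = (g i)⁻¹ g i'`, `Sup.cosh_le_of_dist`; so the sum is at most
`∑_{p, q} α_p α_q MM (ic (s ≤ 2 μ²)) p q z ≤ ∑_p α_p² ∑_q MM p q` (`2 α_p α_q ≤ α_p² + α_q²`, `Maass.MM_comm`), then `near_row_mu`.
Compare `Sup.F1_close`, `Sup.II_le_MM`.
-/

namespace Pool.Agent.H19.WB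

open UpperHalfPlane
open Pool.Agent.H19.Maass Pool.Agent.H19.Sup
open scoped MatrixGroups ENNReal

/-- the index set `JJ` is the index set of the sums `MM` -/
private lemma NP_sum (φ : ℝ → ℝ≥0∞) (w : ℕ → ℕ → ℝ≥0∞) (N : ℕ) (z : ℍ) :
    ∑ i ∈ JJ N, ∑ j ∈ JJ N, w i.1 j.1 * ∑' σ : SL(2, ℤ),
      φ (2 * Real.cosh (dist (z1 z i) (σ • z1 z j)) - 2) =
    ∑ p ∈ PR N, ∑ q ∈ PR N, w p q * MM φ p q z := by
  unfold JJ
  rw [Finset.sum_sigma]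
  refine Finset.sum_congr rfl fun p _ => ?_
  have h1 : ∀ x : Σ _ : ℕ, ℕ, ∑ j ∈ (PR N).sigma fun p => RR p,
      w p j.1 * ∑' σ : SL(2, ℤ), φ (2 * Real.cosh (dist (z1 z ⟨p, x⟩) (σ • z1 z j)) - 2) =
      ∑ q ∈ PR N, w p q * ∑ y ∈ RR q, ∑' σ : SL(2, ℤ),
        φ (2 * Real.cosh (dist (hx p x z) (σ • hx q y z)) - 2) := by
    intro x
    rw [Finset.sum_sigma]
    refine Finset.sum_congr rfl fun q _ => ?_
    rw [Finset.mul_sum]
    rfl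
  rw [Finset.sum_congr rfl fun x _ => h1 x, Finset.sum_comm]
  refine Finset.sum_congr rfl fun q _ => ?_
  rw [← Finset.mul_sum]
  rfl

theorem near_pairs1 : ∃ K : ℝ, 0 < K ∧ ∀ z : ℍ, |z.re| ≤ 1 / 2 → 1 / 2 ≤ z.im →
    ∀ N : ℕ, 1 ≤ N → ∀ μ : ℝ, 1 / (N : ℝ) ≤ μ → μ ≤ 1 → ∀ g : (Σ _ : ℕ, Σ _ : ℕ, ℕ) → SL(2, ℤ),
    ∀ I : Finset (Σ _ : ℕ, Σ _ : ℕ, ℕ), I ⊆ JJ N → ∀ α : ℕ → ℝ, (∀ n, 0 ≤ α n) →
    ∑ i ∈ I, ∑ i' ∈ I, ENNReal.ofReal (α i.1 * α i'.1) *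
      ic (dist (g i • z1 z i) (g i' • z1 z i') ≤ μ) ≤
    ENNReal.ofReal (K * (1 + z.im) * ((N : ℝ) ^ 3 * μ ^ 2) * ∑ p ∈ PR N, α p ^ 2) := by
  obtain ⟨K, hK, hrow⟩ := near_row_mu
  refine ⟨K, hK, fun z hre him N hN μ hμ hμ1 g I hI α hα => ?_⟩
  have hz := z.im_pos
  set φ : ℝ → ℝ≥0∞ := fun s => ic (s ≤ 2 * μ ^ 2) with hφ
  have h2 : ∀ i i', ic (dist (g i • z1 z i) (g i' • z1 z i') ≤ μ) ≤
      ∑' σ : SL(2, ℤ), φ (2 * Real.cosh (dist (z1 z i) (σ • z1 z i')) - 2) := by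
    intro i i'
    refine le_trans ?_ (ENNReal.le_tsum ((g i)⁻¹ * g i'))
    refine ic_mono fun h => Pool.Agent.H19.Sup.cosh_le_of_dist hμ1 ?_
    rw [mul_smul, dist_sl', inv_inv]
    exact h
  have hsym : ∀ n m : ℕ, ENNReal.ofReal (α n * α m) * MM φ n m z ≤
      ENNReal.ofReal (α n ^ 2 / 2) * MM φ n m z + ENNReal.ofReal (α m ^ 2 / 2) * MM φ m n z := by
    intro n m
    rw [MM_comm φ m n z, ← add_mul, ← ENNReal.ofReal_add (by positivity) (by positivity)]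
    refine mul_le_mul_left (ENNReal.ofReal_le_ofReal ?_) _
    nlinarith [sq_nonneg (α n - α m)]
  set V := K * (1 + z.im) * ((N : ℝ) ^ 3 * μ ^ 2) with hV
  have hV0 : 0 ≤ V := by positivity
  calc ∑ i ∈ I, ∑ i' ∈ I, ENNReal.ofReal (α i.1 * α i'.1) *
        ic (dist (g i • z1 z i) (g i' • z1 z i') ≤ μ)
      ≤ ∑ i ∈ I, ∑ i' ∈ I, ENNReal.ofReal (α i.1 * α i'.1) * ∑' σ : SL(2, ℤ),
          φ (2 * Real.cosh (dist (z1 z i) (σ • z1 z i')) - 2) :=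
        Finset.sum_le_sum fun i _ => Finset.sum_le_sum fun i' _ => mul_le_mul_right (h2 i i') _
    _ ≤ ∑ i ∈ JJ N, ∑ i' ∈ JJ N, ENNReal.ofReal (α i.1 * α i'.1) * ∑' σ : SL(2, ℤ),
          φ (2 * Real.cosh (dist (z1 z i) (σ • z1 z i')) - 2) :=
        le_trans (Finset.sum_le_sum fun i _ => Finset.sum_le_sum_of_subset hI)
          (Finset.sum_le_sum_of_subset hI)
    _ = ∑ n ∈ PR N, ∑ m ∈ PR N, ENNReal.ofReal (α n * α m) * MM φ n m z :=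
        NP_sum φ (fun n m => ENNReal.ofReal (α n * α m)) N z
    _ ≤ ∑ n ∈ PR N, ∑ m ∈ PR N, (ENNReal.ofReal (α n ^ 2 / 2) * MM φ n m z +
            ENNReal.ofReal (α m ^ 2 / 2) * MM φ m n z) :=
          Finset.sum_le_sum fun n _ => Finset.sum_le_sum fun m _ => hsym n m
    _ = ∑ n ∈ PR N, ∑ m ∈ PR N, ENNReal.ofReal (α n ^ 2 / 2) * MM φ n m z +
            ∑ n ∈ PR N, ∑ m ∈ PR N, ENNReal.ofReal (α n ^ 2 / 2) * MM φ n m z := by
          simp_rw [Finset.sum_add_distrib]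
          congr 1
          rw [Finset.sum_comm]
    _ = ∑ n ∈ PR N, ENNReal.ofReal (α n ^ 2) * ∑ m ∈ PR N, MM φ n m z := by
          rw [← Finset.sum_add_distrib]
          refine Finset.sum_congr rfl fun n _ => ?_
          rw [← Finset.mul_sum, ← add_mul, ← ENNReal.ofReal_add (by positivity) (by positivity)]
          congr 2
          ring
    _ ≤ ∑ n ∈ PR N, ENNReal.ofReal (α n ^ 2) * ENNReal.ofReal V :=
          Finset.sum_le_sum fun n hn => mul_le_mul_right (hrow z hre him N hN μ hμ hμ1 n hn) _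
    _ = ENNReal.ofReal (V * ∑ p ∈ PR N, α p ^ 2) := by
          rw [← Finset.sum_mul, ← ENNReal.ofReal_sum_of_nonneg (fun n _ => by positivity),
            ← ENNReal.ofReal_mul (Finset.sum_nonneg fun n _ => by positivity), mul_comm]

end Pool.Agent.H19.WB
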