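import Mathlib
import Pool.Agent.H19.WB.MJ
import Pool.Agent.H19.WB.CN
import Pool.Agent.H19.WB.HP
import Pool.Agent.H19.WB.NP
import Pool.Agent.H19.WB.Mv
import Pool.Agent.H19.Sup.F0
import Pool.Agent.H19.Sup.B1
import Pool.Agent.H19.Sup.CL2

set_option autoImplicit false

/-!
# FB: the oscillating part (assembly)

As `Sup/F1.lean` / `H36/XD/F1.lean`, with weights `α` and primes.  Write `Σ² = ∑_{p ∈ PR N} ‖α p‖²`.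
Choose `g i` with `W i = g i • z1 z i`, `|re| ≤ 1/2`, `1/2 ≤ im` (`exists_move_w`; do NOT import `Sup.F1` or `Maass.Cells`, they clash with `Maass.Unit`); `FF1 = ∑_i ∑_j conj α_i α_j ∑_{σ ∈ S'} wv (dist (W i) (σ • z1 z j))` (`Sup.F0_shift`, compare `Sup.F1_FF`).
*High part* (`h0 < (W i).im`): `≤ B0 * high_pairs1 ≤ K B0 N³ / h0 Σ²`.
*Low part*: let `P` be the set of the `(j, σ) ∈ JJ N × S'` with `dist (W i) (σ • z1 z j) < 1/2` for some low `i`.  Cauchy-Schwarz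
(`Finset.sum_mul_sq_le_sq_mul_sq` or `inner_mul_le_norm_mul_norm`):
`|low|² ≤ (∑_P ‖α_j‖²) (∑_P ‖∑_{i low} conj α_i wv (dist (W i) (σ • z1 z j))‖²)`.
First factor: `≤ ∑_q ‖α_q‖² low_count1 ≤ K N h0 Σ²` (`near_im`: `im ≥ 3/5 * 1/2 ≥ 1/4`, `im ≤ 5/3 h0 ≤ 2 h0`, `|re| ≤ 1/2 + im`, compare `Sup.F1_card`).
Second factor: `majorant_w` with `a i = conj (α i.1)`: at most `∑_{i, i' low} ‖α_i‖ ‖α_i'‖ ‖∑_g PL ..‖`; pairs with `dist (W i) (W i') < μ`: `near_pairs1` and `all_triv`: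
`K N³ μ² Σ² K N² h0² B0²`; all pairs: `(∑_i ‖α_i‖)² ≤ (5 N ∑_p ‖α_p‖)² ≤ 75 N³ Σ²` (`#RR p = p + 1 ≤ 5 N`, `#PR N ≤ 3 N`) and `all_planes` (`K N² h0² (..)`).
Product: `K N⁶ h0³ (Σ²)² (B0² (μ + N^(-1/2900)) + B0 B1 N^(-1/45))` (`μ² ≤ μ`).
-/

namespace Pool.Agent.H19.WB

open UpperHalfPlane
open Pool.Agent.H19.Maass Pool.Agent.H19.Sup
open scoped MatrixGroups ComplexConjugate ENNReal

private lemma FB_high {α : ℕ → ℂ} {K : ℝ} {A : ℝ → ℂ} {B0 B1 ρ : ℝ} (h : Amp A B0 B1 ρ) (T : ℝ) {N : ℕ}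
    (z : ℍ) (g : (Σ _ : ℕ, Σ _ : ℕ, ℕ) → SL(2, ℤ)) (S' : Finset SL(2, ℤ))
    (I : Finset (Σ _ : ℕ, Σ _ : ℕ, ℕ)) (hK : 0 ≤ K)
    (hp : ∑ i ∈ I, ∑ j ∈ JJ N, ENNReal.ofReal (‖α i.1‖ * ‖α j.1‖) *
      ∑' σ : SL(2, ℤ), ic (dist (g i • z1 z i) (σ • z1 z j) ≤ 1 / 2) ≤ ENNReal.ofReal K) :
    ‖∑ i ∈ I, ∑ j ∈ JJ N, conj (α i.1) * α j.1 *
      ∑ σ ∈ S', wv A T (dist (g i • z1 z i) (σ • z1 z j))‖ ≤ B0 * K := by
  have hB := h.B0_nonneg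
  rw [← ENNReal.ofReal_le_ofReal_iff (by positivity)]
  have h1 : ∀ i ∈ I, ∀ j ∈ JJ N, ENNReal.ofReal ‖conj (α i.1) * α j.1 *
      ∑ σ ∈ S', wv A T (dist (g i • z1 z i) (σ • z1 z j))‖ ≤
      ENNReal.ofReal B0 * (ENNReal.ofReal (‖α i.1‖ * ‖α j.1‖) *
        ∑' σ : SL(2, ℤ), ic (dist (g i • z1 z i) (σ • z1 z j) ≤ 1 / 2)) := by
    intro i hi j hj
    have h2 : ENNReal.ofReal ‖∑ σ ∈ S', wv A T (dist (g i • z1 z i) (σ • z1 z j))‖ ≤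
        ENNReal.ofReal B0 * ∑' σ : SL(2, ℤ), ic (dist (g i • z1 z i) (σ • z1 z j) ≤ 1 / 2) := by
      calc ENNReal.ofReal ‖∑ σ ∈ S', wv A T (dist (g i • z1 z i) (σ • z1 z j))‖
          ≤ ENNReal.ofReal (∑ σ ∈ S', ‖wv A T (dist (g i • z1 z i) (σ • z1 z j))‖) :=
            ENNReal.ofReal_le_ofReal (norm_sum_le _ _)
        _ = ∑ σ ∈ S', ENNReal.ofReal ‖wv A T (dist (g i • z1 z i) (σ • z1 z j))‖ :=
            ENNReal.ofReal_sum_of_nonneg fun _ _ => norm_nonneg _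
        _ ≤ ∑ σ ∈ S', ENNReal.ofReal B0 * ic (dist (g i • z1 z i) (σ • z1 z j) ≤ 1 / 2) :=
            Finset.sum_le_sum fun σ _ => wv_le h T _
        _ ≤ _ := by
            rw [← Finset.mul_sum]
            exact mul_le_mul_right (ENNReal.sum_le_tsum _) _
    rw [norm_mul, norm_mul, RCLike.norm_conj, ENNReal.ofReal_mul (by positivity)]
    calc ENNReal.ofReal (‖α i.1‖ * ‖α j.1‖) *
          ENNReal.ofReal ‖∑ σ ∈ S', wv A T (dist (g i • z1 z i) (σ • z1 z j))‖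
        ≤ ENNReal.ofReal (‖α i.1‖ * ‖α j.1‖) * (ENNReal.ofReal B0 *
          ∑' σ : SL(2, ℤ), ic (dist (g i • z1 z i) (σ • z1 z j) ≤ 1 / 2)) :=
          mul_le_mul_right h2 _
      _ = _ := by ring
  calc ENNReal.ofReal ‖∑ i ∈ I, ∑ j ∈ JJ N, conj (α i.1) * α j.1 *
      ∑ σ ∈ S', wv A T (dist (g i • z1 z i) (σ • z1 z j))‖
      ≤ ENNReal.ofReal (∑ i ∈ I, ∑ j ∈ JJ N, ‖conj (α i.1) * α j.1 *
        ∑ σ ∈ S', wv A T (dist (g i • z1 z i) (σ • z1 z j))‖) :=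
        ENNReal.ofReal_le_ofReal ((norm_sum_le _ _).trans
          (Finset.sum_le_sum fun i _ => norm_sum_le _ _))
    _ = ∑ i ∈ I, ∑ j ∈ JJ N, ENNReal.ofReal ‖conj (α i.1) * α j.1 *
        ∑ σ ∈ S', wv A T (dist (g i • z1 z i) (σ • z1 z j))‖ := by
        rw [ENNReal.ofReal_sum_of_nonneg fun _ _ => Finset.sum_nonneg fun _ _ => norm_nonneg _]
        exact Finset.sum_congr rfl fun i _ => ENNReal.ofReal_sum_of_nonneg fun _ _ => norm_nonneg _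
    _ ≤ ∑ i ∈ I, ∑ j ∈ JJ N, ENNReal.ofReal B0 * (ENNReal.ofReal (‖α i.1‖ * ‖α j.1‖) *
        ∑' σ : SL(2, ℤ), ic (dist (g i • z1 z i) (σ • z1 z j) ≤ 1 / 2)) :=
        Finset.sum_le_sum fun i hi => Finset.sum_le_sum fun j hj => h1 i hi j hj
    _ = ENNReal.ofReal B0 * ∑ i ∈ I, ∑ j ∈ JJ N, (ENNReal.ofReal (‖α i.1‖ * ‖α j.1‖) *
        ∑' σ : SL(2, ℤ), ic (dist (g i • z1 z i) (σ • z1 z j) ≤ 1 / 2)) := by
        simp_rw [← Finset.mul_sum]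
    _ ≤ ENNReal.ofReal B0 * ENNReal.ofReal K := mul_le_mul_right hp _
    _ = _ := by rw [← ENNReal.ofReal_mul hB]

open Classical in
/-- Cauchy-Schwarz -/
private lemma FB_cs (α : ℕ → ℂ) {A : ℝ → ℂ} {B0 B1 ρ : ℝ} (h : Amp A B0 B1 ρ) (T : ℝ) {N : ℕ} (z : ℍ)
    (W : (Σ _ : ℕ, Σ _ : ℕ, ℕ) → ℍ) (S' : Finset SL(2, ℤ)) (I : Finset (Σ _ : ℕ, Σ _ : ℕ, ℕ)) :
    ‖∑ i ∈ I, ∑ j ∈ JJ N, conj (α i.1) * α j.1 *
      ∑ σ ∈ S', wv A T (dist (W i) (σ • z1 z j))‖ ^ 2 ≤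
    (∑ s ∈ (JJ N ×ˢ S').filter fun s => ∃ i ∈ I, dist (W i) (s.2 • z1 z s.1) < 1 / 2,
      ‖α s.1.1‖ ^ 2) *
      ∑ s ∈ (JJ N ×ˢ S').filter fun s => ∃ i ∈ I, dist (W i) (s.2 • z1 z s.1) < 1 / 2,
        ‖∑ i ∈ I, conj (α i.1) * wv A T (dist (W i) (s.2 • z1 z s.1))‖ ^ 2 := by
  set P := (JJ N ×ˢ S').filter fun s => ∃ i ∈ I, dist (W i) (s.2 • z1 z s.1) < 1 / 2 with hP
  set f : (Σ _ : ℕ, Σ _ : ℕ, ℕ) × SL(2, ℤ) → ℂ := fun s =>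
    ∑ i ∈ I, conj (α i.1) * wv A T (dist (W i) (s.2 • z1 z s.1)) with hf
  have e1 : ∑ i ∈ I, ∑ j ∈ JJ N, conj (α i.1) * α j.1 *
      ∑ σ ∈ S', wv A T (dist (W i) (σ • z1 z j)) =
      ∑ s ∈ JJ N ×ˢ S', α s.1.1 * f s := by
    rw [Finset.sum_product, Finset.sum_comm]
    refine Finset.sum_congr rfl fun j _ => ?_
    simp_rw [hf, Finset.mul_sum]
    rw [Finset.sum_comm]
    refine Finset.sum_congr rfl fun σ _ => Finset.sum_congr rfl fun i _ => ?_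
    ring
  have e2 : ∑ s ∈ JJ N ×ˢ S', α s.1.1 * f s = ∑ s ∈ P, α s.1.1 * f s := by
    refine (Finset.sum_subset (Finset.filter_subset _ _) fun s hs hsP => ?_).symm
    have h3 : f s = 0 := by
      rw [hf]
      simp only
      refine Finset.sum_eq_zero fun i hi => ?_
      rw [wv_zero h T, mul_zero]
      by_contra hc
      exact hsP (Finset.mem_filter.2 ⟨hs, i, hi, not_le.1 hc⟩)
    rw [h3, mul_zero]
  have e3 : ‖∑ s ∈ P, α s.1.1 * f s‖ ≤ ∑ s ∈ P, ‖α s.1.1‖ * ‖f s‖ := by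
    refine (norm_sum_le _ _).trans (Finset.sum_le_sum fun s hs => ?_)
    rw [norm_mul]
  have e4 := Finset.sum_mul_sq_le_sq_mul_sq P (fun s => ‖α s.1.1‖) (fun s => ‖f s‖)
  rw [e1, e2]
  exact (pow_le_pow_left₀ (norm_nonneg _) e3 2).trans e4

private lemma FB_mem {N : ℕ} {i : Σ _ : ℕ, Σ _ : ℕ, ℕ} (hi : i ∈ JJ N) :
    i.1 ∈ PR N ∧ i.2 ∈ RR i.1 := by
  unfold JJ at hi
  exact Finset.mem_sigma.1 hi

open Classical in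
/-- the number of points near a low point -/
private lemma FB_card (α : ℕ → ℂ) {K : ℝ} (hK : 0 ≤ K) {N : ℕ} (z : ℍ)
    (W : (Σ _ : ℕ, Σ _ : ℕ, ℕ) → ℍ)
    (S' : Finset SL(2, ℤ)) (I : Finset (Σ _ : ℕ, Σ _ : ℕ, ℕ)) {h0 : ℝ} (hh : 1 ≤ h0)
    (hW : ∀ i ∈ I, |(W i).re| ≤ 1 / 2 ∧ 1 / 2 ≤ (W i).im ∧ (W i).im ≤ h0)
    (hc : ∀ q ∈ PR N, ∑ y ∈ RR q, ∑' σ : SL(2, ℤ),
      ic (1 / 4 ≤ (σ • hx q y z).im ∧ (σ • hx q y z).im ≤ 2 * h0 ∧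
        |(σ • hx q y z).re| ≤ 1 / 2 + (σ • hx q y z).im) ≤ ENNReal.ofReal K) :
    ∑ s ∈ (JJ N ×ˢ S').filter fun s => ∃ i ∈ I, dist (W i) (s.2 • z1 z s.1) < 1 / 2,
      ‖α s.1.1‖ ^ 2 ≤ K * ∑ p ∈ PR N, ‖α p‖ ^ 2 := by
  set P := (JJ N ×ˢ S').filter fun s => ∃ i ∈ I, dist (W i) (s.2 • z1 z s.1) < 1 / 2 with hP
  have hS0 : 0 ≤ ∑ p ∈ PR N, ‖α p‖ ^ 2 := Finset.sum_nonneg fun _ _ => by positivity
  rw [← ENNReal.ofReal_le_ofReal_iff (by positivity),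
    ENNReal.ofReal_sum_of_nonneg (fun _ _ => by positivity), ENNReal.ofReal_mul hK,
    ENNReal.ofReal_sum_of_nonneg (fun _ _ => by positivity)]
  have h1 : ∀ s ∈ P, ENNReal.ofReal (‖α s.1.1‖ ^ 2) ≤ ENNReal.ofReal (‖α s.1.1‖ ^ 2) *
      ic (1 / 4 ≤ (s.2 • z1 z s.1).im ∧ (s.2 • z1 z s.1).im ≤ 2 * h0 ∧
        |(s.2 • z1 z s.1).re| ≤ 1 / 2 + (s.2 • z1 z s.1).im) := by
    intro s hs
    obtain ⟨_, i, hi, hd⟩ := Finset.mem_filter.1 hs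
    obtain ⟨w1, w2, w3⟩ := hW i hi
    rw [dist_comm] at hd
    obtain ⟨n1, n2, n3⟩ := near_im hd.le
    rw [ic_true, mul_one]
    refine ⟨by linarith, by linarith, ?_⟩
    have h5 := abs_sub_abs_le_abs_sub (s.2 • z1 z s.1).re (W i).re
    linarith
  calc ∑ s ∈ P, ENNReal.ofReal (‖α s.1.1‖ ^ 2)
      ≤ ∑ s ∈ P, ENNReal.ofReal (‖α s.1.1‖ ^ 2) *
      ic (1 / 4 ≤ (s.2 • z1 z s.1).im ∧ (s.2 • z1 z s.1).im ≤ 2 * h0 ∧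
        |(s.2 • z1 z s.1).re| ≤ 1 / 2 + (s.2 • z1 z s.1).im) := Finset.sum_le_sum h1
    _ ≤ ∑ s ∈ JJ N ×ˢ S', ENNReal.ofReal (‖α s.1.1‖ ^ 2) *
      ic (1 / 4 ≤ (s.2 • z1 z s.1).im ∧ (s.2 • z1 z s.1).im ≤ 2 * h0 ∧
        |(s.2 • z1 z s.1).re| ≤ 1 / 2 + (s.2 • z1 z s.1).im) :=
        Finset.sum_le_sum_of_subset (Finset.filter_subset _ _)
    _ = ∑ i ∈ JJ N, ∑ σ ∈ S', ENNReal.ofReal (‖α i.1‖ ^ 2) *
      ic (1 / 4 ≤ (σ • z1 z i).im ∧ (σ • z1 z i).im ≤ 2 * h0 ∧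
        |(σ • z1 z i).re| ≤ 1 / 2 + (σ • z1 z i).im) := by rw [Finset.sum_product]
    _ ≤ ∑ i ∈ JJ N, ENNReal.ofReal (‖α i.1‖ ^ 2) * ∑' σ : SL(2, ℤ),
      ic (1 / 4 ≤ (σ • z1 z i).im ∧ (σ • z1 z i).im ≤ 2 * h0 ∧
        |(σ • z1 z i).re| ≤ 1 / 2 + (σ • z1 z i).im) := by
        refine Finset.sum_le_sum fun i _ => ?_
        rw [← Finset.mul_sum]
        exact mul_le_mul_right (ENNReal.sum_le_tsum _) _
    _ = ∑ q ∈ PR N, ENNReal.ofReal (‖α q‖ ^ 2) * ∑ y ∈ RR q, ∑' σ : SL(2, ℤ),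
      ic (1 / 4 ≤ (σ • hx q y z).im ∧ (σ • hx q y z).im ≤ 2 * h0 ∧
        |(σ • hx q y z).re| ≤ 1 / 2 + (σ • hx q y z).im) := by
        unfold JJ
        rw [Finset.sum_sigma]
        refine Finset.sum_congr rfl fun q _ => ?_
        rw [Finset.mul_sum]
        rfl
    _ ≤ ∑ q ∈ PR N, ENNReal.ofReal (‖α q‖ ^ 2) * ENNReal.ofReal K :=
        Finset.sum_le_sum fun q hq => mul_le_mul_right (hc q hq) _
    _ = _ := by rw [← Finset.sum_mul, mul_comm]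

/-- the sum of the absolute values of the weights -/
private lemma FB_l1 (α : ℕ → ℂ) {N : ℕ} (hN : 1 ≤ N) :
    (∑ i ∈ JJ N, ‖α i.1‖) ^ 2 ≤ 75 * (N : ℝ) ^ 3 * ∑ p ∈ PR N, ‖α p‖ ^ 2 := by
  have hN0 : (0 : ℝ) < N := by exact_mod_cast hN
  have h1 : ∑ i ∈ JJ N, ‖α i.1‖ ≤ 5 * N * ∑ p ∈ PR N, ‖α p‖ := by
    unfold JJ
    rw [Finset.sum_sigma, Finset.mul_sum]
    refine Finset.sum_le_sum fun p hp => ?_
    rw [mem_PR] at hp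
    have h2 : (RR p).card ≤ 5 * N := by
      unfold RR
      rw [Finset.card_sigma, hp.2.divisors, Finset.sum_pair hp.2.one_lt.ne]
      simp only [Finset.card_range]
      omega
    have h3 : ((RR p).card : ℝ) ≤ 5 * N := by exact_mod_cast h2
    simp only [Finset.sum_const, nsmul_eq_mul]
    exact mul_le_mul_of_nonneg_right h3 (norm_nonneg _)
  have h2 : (∑ p ∈ PR N, ‖α p‖) ^ 2 ≤ 3 * N * ∑ p ∈ PR N, ‖α p‖ ^ 2 := by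
    have h3 := sq_sum_le_card_mul_sum_sq (s := PR N) (f := fun p => ‖α p‖)
    have h4 : ((PR N).card : ℝ) ≤ 3 * N := by exact_mod_cast card_PR_le N
    exact h3.trans (mul_le_mul_of_nonneg_right h4 (Finset.sum_nonneg fun _ _ => by positivity))
  have h0 : 0 ≤ ∑ i ∈ JJ N, ‖α i.1‖ := Finset.sum_nonneg fun _ _ => norm_nonneg _
  calc (∑ i ∈ JJ N, ‖α i.1‖) ^ 2 ≤ (5 * N * ∑ p ∈ PR N, ‖α p‖) ^ 2 := pow_le_pow_left₀ h0 h1 2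
    _ = 25 * (N : ℝ) ^ 2 * (∑ p ∈ PR N, ‖α p‖) ^ 2 := by ring
    _ ≤ 25 * (N : ℝ) ^ 2 * (3 * N * ∑ p ∈ PR N, ‖α p‖ ^ 2) :=
        mul_le_mul_of_nonneg_left h2 (by positivity)
    _ = _ := by ring

open Classical in
/-- the sum over pairs -/
private lemma FB_pairs (α : ℕ → ℂ) {N : ℕ} (hN : 1 ≤ N) (W : (Σ _ : ℕ, Σ _ : ℕ, ℕ) → ℍ)
    (I : Finset (Σ _ : ℕ, Σ _ : ℕ, ℕ)) (hI : I ⊆ JJ N) {μ : ℝ}
    (Z : (Σ _ : ℕ, Σ _ : ℕ, ℕ) → (Σ _ : ℕ, Σ _ : ℕ, ℕ) → ℂ) {V0 V1 C : ℝ} (hV0 : 0 ≤ V0) (hV1 : 0 ≤ V1)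
    (hC : 0 ≤ C) (hZ0 : ∀ i ∈ I, ∀ i' ∈ I, ‖Z i i'‖ ≤ V0)
    (hZ1 : ∀ i ∈ I, ∀ i' ∈ I, μ ≤ dist (W i) (W i') → ‖Z i i'‖ ≤ V1)
    (hc : ∑ i ∈ I, ∑ i' ∈ I, ENNReal.ofReal (‖α i.1‖ * ‖α i'.1‖) * ic (dist (W i) (W i') ≤ μ) ≤
      ENNReal.ofReal C) :
    ‖∑ i ∈ I, ∑ i' ∈ I, conj (α i.1) * conj (conj (α i'.1)) * Z i i'‖ ≤
      C * V0 + 75 * (N : ℝ) ^ 3 * (∑ p ∈ PR N, ‖α p‖ ^ 2) * V1 := by
  have h1 : ∀ i ∈ I, ∀ i' ∈ I, ‖conj (α i.1) * conj (conj (α i'.1)) * Z i i'‖ ≤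
      (if dist (W i) (W i') ≤ μ then ‖α i.1‖ * ‖α i'.1‖ else 0) * V0 + ‖α i.1‖ * ‖α i'.1‖ * V1 := by
    intro i hi i' hi'
    have e0 : 0 ≤ ‖α i.1‖ * ‖α i'.1‖ := by positivity
    rw [norm_mul, norm_mul, RCLike.norm_conj, RCLike.norm_conj, RCLike.norm_conj]
    split_ifs with hd
    · have h2 := mul_le_mul_of_nonneg_left (hZ0 i hi i' hi') e0
      have h3 := mul_nonneg e0 hV1
      linarith
    · rw [zero_mul, zero_add]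
      exact mul_le_mul_of_nonneg_left (hZ1 i hi i' hi' (not_le.1 hd).le) e0
  have h2 : ∑ i ∈ I, ∑ i' ∈ I, (if dist (W i) (W i') ≤ μ then ‖α i.1‖ * ‖α i'.1‖ else 0) ≤ C := by
    have hn : ∀ i i', 0 ≤ (if dist (W i) (W i') ≤ μ then ‖α i.1‖ * ‖α i'.1‖ else 0) := by
      intro i i'
      split_ifs
      · positivity
      · exact le_rfl
    rw [← ENNReal.ofReal_le_ofReal_iff hC,
      ENNReal.ofReal_sum_of_nonneg (fun i _ => Finset.sum_nonneg fun i' _ => hn i i')]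
    refine le_trans (le_of_eq ?_) hc
    refine Finset.sum_congr rfl fun i _ => ?_
    rw [ENNReal.ofReal_sum_of_nonneg (fun i' _ => hn i i')]
    refine Finset.sum_congr rfl fun i' _ => ?_
    split_ifs with hd
    · rw [ic_true hd, mul_one]
    · rw [ic_false hd, mul_zero, ENNReal.ofReal_zero]
  have h3 : ∑ i ∈ I, ∑ i' ∈ I, ‖α i.1‖ * ‖α i'.1‖ ≤
      75 * (N : ℝ) ^ 3 * ∑ p ∈ PR N, ‖α p‖ ^ 2 := by
    have h4 : ∑ i ∈ I, ‖α i.1‖ ≤ ∑ i ∈ JJ N, ‖α i.1‖ :=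
      Finset.sum_le_sum_of_subset_of_nonneg hI fun _ _ _ => norm_nonneg _
    have h5 : 0 ≤ ∑ i ∈ I, ‖α i.1‖ := Finset.sum_nonneg fun _ _ => norm_nonneg _
    rw [← Finset.sum_mul_sum, ← sq]
    exact (pow_le_pow_left₀ h5 h4 2).trans (FB_l1 α hN)
  calc ‖∑ i ∈ I, ∑ i' ∈ I, conj (α i.1) * conj (conj (α i'.1)) * Z i i'‖
      ≤ ∑ i ∈ I, ∑ i' ∈ I, ‖conj (α i.1) * conj (conj (α i'.1)) * Z i i'‖ :=
        (norm_sum_le _ _).trans (Finset.sum_le_sum fun i _ => norm_sum_le _ _)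
    _ ≤ ∑ i ∈ I, ∑ i' ∈ I, ((if dist (W i) (W i') ≤ μ then ‖α i.1‖ * ‖α i'.1‖ else 0) * V0 +
          ‖α i.1‖ * ‖α i'.1‖ * V1) :=
        Finset.sum_le_sum fun i hi => Finset.sum_le_sum fun i' hi' => h1 i hi i' hi'
    _ = (∑ i ∈ I, ∑ i' ∈ I, (if dist (W i) (W i') ≤ μ then ‖α i.1‖ * ‖α i'.1‖ else 0)) * V0 +
          (∑ i ∈ I, ∑ i' ∈ I, ‖α i.1‖ * ‖α i'.1‖) * V1 := by
        simp_rw [Finset.sum_add_distrib, Finset.sum_mul]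
    _ ≤ C * V0 + 75 * (N : ℝ) ^ 3 * (∑ p ∈ PR N, ‖α p‖ ^ 2) * V1 :=
        add_le_add (mul_le_mul_of_nonneg_right h2 hV0) (mul_le_mul_of_nonneg_right h3 hV1)

open Classical in
theorem far_bound_w (all_planes : AllPlanesW) (all_triv : AllTrivW) : FarBoundW := by
  intro Y0
  obtain ⟨K3, hK3, hall⟩ := all_planes Y0
  obtain ⟨Kt, hKt, htriv⟩ := all_triv Y0
  obtain ⟨K4, hK4, hpair⟩ := near_pairs1
  obtain ⟨K1, hK1, hlow⟩ := low_count1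
  obtain ⟨K2, hK2, hhigh⟩ := high_pairs1
  set Y1 := max Y0 1 with hY1
  have hY1p : 1 ≤ Y1 := le_max_right _ _
  refine ⟨K2 * Y1 ^ 2 + √(4 * K1 * Y1 * (K4 * (1 + Y1) * Kt + 75 * K3)), by positivity, ?_⟩
  intro α A B0 B1 ρ T μ h0 N z S hA hρ hρ1 hμ hμ1 hN hμN hρN hh0 hhN hT1 hNT hTN hre him hzY hS
  have hB0 := hA.B0_nonneg
  have hN0 : (0 : ℝ) < N := by exact_mod_cast hN
  have hNr : (1 : ℝ) ≤ N := by exact_mod_cast hN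
  have hz0 := z.im_pos
  have hzY1 : z.im ≤ Y1 := hzY.trans (le_max_left _ _)
  have hB1 : 0 ≤ B1 := by
    have := (norm_nonneg _).trans (hA.lip 1 0)
    simpa using this
  obtain ⟨A2, hA2⟩ : ∃ A2 : ℝ, A2 = ∑ p ∈ PR N, ‖α p‖ ^ 2 := ⟨_, rfl⟩
  have hA20 : 0 ≤ A2 := by
    rw [hA2]
    exact Finset.sum_nonneg fun _ _ => by positivity
  -- moving into the fundamental domain
  choose g hg1 hg2 using fun i : (Σ _ : ℕ, Σ _ : ℕ, ℕ) => exists_move_w (z1 z i)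
  set W : (Σ _ : ℕ, Σ _ : ℕ, ℕ) → ℍ := fun i => g i • z1 z i with hW
  obtain ⟨S', hS'⟩ := exists_cover (JJ N) W (z1 z) (1 / 2)
  have hFF : FF1 α A T N z S = ∑ i ∈ JJ N, ∑ j ∈ JJ N, conj (α i.1) * α j.1 *
      ∑ σ ∈ S', wv A T (dist (g i • z1 z i) (σ • z1 z j)) := by
    unfold FF1
    refine Finset.sum_congr rfl fun i hi => Finset.sum_congr rfl fun j hj => ?_
    rw [F0_shift hA T (g i) (z1 z i) (z1 z j) (hS i hi j hj) (hS' i hi j hj)]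
  rw [hFF]
  set low := (JJ N).filter fun i => ¬ h0 < (g i • z1 z i).im with hlowdef
  have hlowsub : low ⊆ JJ N := Finset.filter_subset _ _
  rw [← Finset.sum_filter_add_sum_filter_not (JJ N) (fun i => h0 < (g i • z1 z i).im)]
  have hh1 : 1 ≤ h0 := by linarith
  -- high part
  have hH := FB_high (α := α) hA T z g S' _ (by positivity)
    (hhigh z hre him N hN h0 hh1 g hg1 hg2 (fun n => ‖α n‖) fun n => norm_nonneg _)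
  rw [← hA2] at hH
  have hH2 : B0 * (K2 * ((N : ℝ) ^ 3 * z.im ^ 2 / h0) * A2) ≤
      K2 * Y1 ^ 2 * A2 * (N : ℝ) ^ 3 * (B0 / h0) := by
    have e1 : z.im ^ 2 ≤ Y1 ^ 2 := pow_le_pow_left₀ hz0.le hzY1 2
    calc B0 * (K2 * ((N : ℝ) ^ 3 * z.im ^ 2 / h0) * A2)
        = K2 * z.im ^ 2 * A2 * (N : ℝ) ^ 3 * (B0 / h0) := by field_simp
      _ ≤ _ := by gcongr
  -- low part
  have hWlow : ∀ i ∈ low, |(W i).re| ≤ 1 / 2 ∧ 1 / 2 ≤ (W i).im ∧ (W i).im ≤ h0 := by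
    intro i hi
    exact ⟨hg1 i, hg2 i, not_lt.1 (Finset.mem_filter.1 hi).2⟩
  have hcs := FB_cs α hA T (N := N) z W S' low
  have hcard := FB_card α (K := K1 * (4 * N * z.im) * h0) (by positivity) (N := N) z W S' low hh1 hWlow
    (fun q hq => by
      have hq' := mem_PR.1 hq
      refine (hlow z hre him q hq'.2 h0 hh1).trans (ENNReal.ofReal_le_ofReal ?_)
      have h4 : (q : ℝ) ≤ 4 * N := by exact_mod_cast hq'.1.2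
      gcongr)
  rw [← hA2] at hcard
  set P := (JJ N ×ˢ S').filter fun s => ∃ i ∈ low, dist (W i) (s.2 • z1 z s.1) < 1 / 2 with hP
  obtain ⟨G, M, hG, hmaj⟩ := majorant_w low W (fun i => conj (α i.1)) A T hN z hh1 P (by
      intro s hs
      obtain ⟨hs1, i, hi, hd⟩ := Finset.mem_filter.1 hs
      obtain ⟨w1, w2, w3⟩ := hWlow i hi
      rw [dist_comm] at hd
      obtain ⟨n1, n2, n3⟩ := near_im hd.le
      exact ⟨(Finset.mem_product.1 hs1).1, by linarith, by linarith⟩)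
  set Q : ℝ := B0 ^ 2 * (μ + (N : ℝ) ^ (-(1 / 2900) : ℝ)) +
        B0 * B1 * (N : ℝ) ^ (-(1 / 45) : ℝ) with hQ
  have hQ0 : 0 ≤ Q := by positivity
  have hμN1 : 1 / (N : ℝ) ≤ μ := by
    refine le_trans ?_ hμN
    rw [one_div, ← Real.rpow_neg_one]
    exact Real.rpow_le_rpow_of_exponent_le hNr (by norm_num)
  have hcl := hpair z hre him N hN μ hμN1 hμ1 g low hlowsub (fun n => ‖α n‖)
    (fun n => norm_nonneg _)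
  rw [← hA2] at hcl
  have hprs := FB_pairs α hN W low hlowsub (μ := μ)
    (fun i i' => ∑ g ∈ G, PL A T M (W i) (W i') z g.1 g.2)
    (V0 := Kt * ((N : ℝ) ^ 2 * h0 ^ 2) * B0 ^ 2) (V1 := K3 * ((N : ℝ) ^ 2 * h0 ^ 2) * Q)
    (C := K4 * (1 + z.im) * ((N : ℝ) ^ 3 * μ ^ 2) * A2)
    (by positivity) (by positivity) (by positivity)
    (fun i hi i' hi' => htriv A B0 B1 ρ T h0 N M (W i) (W i') z hA hN hh1 him hzY
      (hWlow i hi).2.2 G (fun g hg => ⟨fun h00 => by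
        have h5 := (hG g hg).1
        unfold CL1_nn at h5
        rw [h00.1, h00.2] at h5
        have h6 : 0 < N * z.im / (2 * h0) := by positivity
        norm_num at h5
        linarith, (hG g hg).2⟩))
    (fun i hi i' hi' hd => hall A B0 B1 ρ T μ h0 N M (W i) (W i') z
      ⟨hA, hρ, hρ1, hμ, hμ1, hN, hμN, hρN, hh1, hhN, hT1, hNT, hTN, him, hzY,
        (hWlow i hi).2.1, (hWlow i hi).2.2, (hWlow i' hi').2.1, (hWlow i' hi').2.2, hd⟩ G hG) hcl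
  rw [← hA2] at hprs
  have hsq : ‖∑ i ∈ low, ∑ j ∈ JJ N, conj (α i.1) * α j.1 *
      ∑ σ ∈ S', wv A T (dist (W i) (σ • z1 z j))‖ ^ 2 ≤
      (√(4 * K1 * Y1 * (K4 * (1 + Y1) * Kt + 75 * K3)) * A2 * (N : ℝ) ^ 3 *
        √(h0 ^ 3 * Q)) ^ 2 := by
    have e1 : K1 * (4 * N * z.im) * h0 * A2 ≤ 4 * K1 * Y1 * N * h0 * A2 := by
      calc K1 * (4 * N * z.im) * h0 * A2 ≤ K1 * (4 * N * Y1) * h0 * A2 := by gcongr
        _ = _ := by ring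
    have e3 : μ ^ 2 * B0 ^ 2 ≤ Q := by
      have f1 : μ ^ 2 ≤ μ := by nlinarith
      have f2 : μ ^ 2 * B0 ^ 2 ≤ μ * B0 ^ 2 := mul_le_mul_of_nonneg_right f1 (by positivity)
      have f3 : 0 ≤ B0 ^ 2 * (N : ℝ) ^ (-(1 / 2900) : ℝ) := by positivity
      have f4 : 0 ≤ B0 * B1 * (N : ℝ) ^ (-(1 / 45) : ℝ) := by positivity
      rw [hQ]
      linarith
    have e2 : K4 * (1 + z.im) * ((N : ℝ) ^ 3 * μ ^ 2) * A2 * (Kt * ((N : ℝ) ^ 2 * h0 ^ 2) * B0 ^ 2) +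
        75 * (N : ℝ) ^ 3 * A2 * (K3 * ((N : ℝ) ^ 2 * h0 ^ 2) * Q) ≤
        (N : ℝ) ^ 5 * h0 ^ 2 * A2 * ((K4 * (1 + Y1) * Kt + 75 * K3) * Q) := by
      calc K4 * (1 + z.im) * ((N : ℝ) ^ 3 * μ ^ 2) * A2 * (Kt * ((N : ℝ) ^ 2 * h0 ^ 2) * B0 ^ 2) +
          75 * (N : ℝ) ^ 3 * A2 * (K3 * ((N : ℝ) ^ 2 * h0 ^ 2) * Q)
          = (N : ℝ) ^ 5 * h0 ^ 2 * A2 * (K4 * (1 + z.im) * Kt * (μ ^ 2 * B0 ^ 2) + 75 * K3 * Q) := by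
            ring
        _ ≤ (N : ℝ) ^ 5 * h0 ^ 2 * A2 * (K4 * (1 + Y1) * Kt * Q + 75 * K3 * Q) := by gcongr
        _ = _ := by ring
    have e5 := hmaj.trans hprs
    rw [mul_pow, mul_pow, mul_pow, Real.sq_sqrt (by positivity), Real.sq_sqrt (by positivity)]
    calc _ ≤ _ := hcs
      _ ≤ (4 * K1 * Y1 * N * h0 * A2) *
          ((N : ℝ) ^ 5 * h0 ^ 2 * A2 * ((K4 * (1 + Y1) * Kt + 75 * K3) * Q)) :=
          mul_le_mul (hcard.trans e1) (e5.trans e2) (Finset.sum_nonneg fun _ _ => by positivity)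
            (by positivity)
      _ = _ := by ring
  have hL : ‖∑ i ∈ low, ∑ j ∈ JJ N, conj (α i.1) * α j.1 *
      ∑ σ ∈ S', wv A T (dist (W i) (σ • z1 z j))‖ ≤
      √(4 * K1 * Y1 * (K4 * (1 + Y1) * Kt + 75 * K3)) * A2 * (N : ℝ) ^ 3 *
        √(h0 ^ 3 * Q) :=
    le_of_sq_le_sq hsq (by positivity)
  refine (norm_add_le _ _).trans ?_
  rw [← hA2]
  set s1 := √(4 * K1 * Y1 * (K4 * (1 + Y1) * Kt + 75 * K3)) with hs1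
  set s2 := √(h0 ^ 3 * Q) with hs2
  have p1 : 0 ≤ s1 := Real.sqrt_nonneg _
  have p2 : 0 ≤ s2 := Real.sqrt_nonneg _
  have q1 : 0 ≤ K2 * Y1 ^ 2 * A2 * (N : ℝ) ^ 3 * s2 := by positivity
  have q2 : 0 ≤ s1 * A2 * (N : ℝ) ^ 3 * (B0 / h0) := by positivity
  calc _ ≤ K2 * Y1 ^ 2 * A2 * (N : ℝ) ^ 3 * (B0 / h0) + s1 * A2 * (N : ℝ) ^ 3 * s2 :=
        add_le_add (hH.trans hH2) hL
    _ ≤ K2 * Y1 ^ 2 * A2 * (N : ℝ) ^ 3 * (B0 / h0) + s1 * A2 * (N : ℝ) ^ 3 * s2 +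
        (K2 * Y1 ^ 2 * A2 * (N : ℝ) ^ 3 * s2 + s1 * A2 * (N : ℝ) ^ 3 * (B0 / h0)) := by linarith
    _ = (K2 * Y1 ^ 2 + s1) * A2 * (N : ℝ) ^ 3 * (B0 / h0 + s2) := by ring

end Pool.Agent.H19.WB
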