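import Mathlib
import Pool.Agent.H19.WB.St
import Pool.Agent.H19.Sup.N1

set_option autoImplicit false

/-!
# N0: the derivatives of the phase of a line

`hasDerivAt_succ`: `Sup.N1_step` with the `Par` `p.q` (`p.n = p.q.n` by definition), as `Par.hasDerivAt_succ`.
`hasDerivAt_zero`: with `m = c u`, `n = 3 + s u` (`m' = c`, `n' = s`), `g = 1 + ((m - x1)² + (n - y1)²) / (2 y1 n)`:
`g² - 1 = R1 / (2 y1 n)²` and `g' = (Q1' n - Q1 s) / (2 y1 n²) = a1 / (2 y1 n²)`, so `(arcosh g)' = g' / √(g² - 1) = a1 / (n √R1)`;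
compare with `Sup.N1_dh`.
-/

namespace Pool.Agent.H19.WB

open Polynomial
open Pool.Agent.H19.Maass Pool.Agent.H19.Sup

theorem Lin.n_eval (p : Lin) (u : ℝ) : p.n.eval u = 3 + p.s * u := by
  simp [Lin.n, Lin.q, Par.n]

theorem Lin.m_eval (p : Lin) (u : ℝ) : p.m.eval u = p.c * u := by
  simp [Lin.m]

/-- one half of `hasDerivAt_zero` -/
theorem N0_half {X Y : ℝ} (hY : 0 < Y) {m n : ℝ → ℝ} {c s u : ℝ} (hn : 0 < n u)
    (hm : HasDerivAt m c u) (hnd : HasDerivAt n s u)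
    (hR : 0 < ((m u - X) ^ 2 + (n u - Y) ^ 2) * ((m u - X) ^ 2 + (n u + Y) ^ 2)) :
    HasDerivAt (fun v => dh X Y (n v) (m v)) ((n u)⁻¹ *
      (((2 * (m u - X) * c + 2 * (n u - Y) * s) * n u - s * ((m u - X) ^ 2 + (n u - Y) ^ 2)) *
      (((m u - X) ^ 2 + (n u - Y) ^ 2) * ((m u - X) ^ 2 + (n u + Y) ^ 2)) ^ ((1 : ℝ) / 2 - 1))) u := by
  set R := ((m u - X) ^ 2 + (n u - Y) ^ 2) * ((m u - X) ^ 2 + (n u + Y) ^ 2) with hRdef
  have hN' := hn.ne'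
  have hY' := hY.ne'
  set g := 1 + ((m u - X) ^ 2 + (n u - Y) ^ 2) / (2 * Y * n u) with hg
  have hden : 0 < 2 * Y * n u := by positivity
  have hg2 : g ^ 2 - 1 = R / (2 * Y * n u) ^ 2 := by
    rw [hg, hRdef]
    field_simp
    ring
  have hsq : √(g ^ 2 - 1) = √R / (2 * Y * n u) := by
    rw [hg2, Real.sqrt_div hR.le, Real.sqrt_sq hden.le]
  have hg1 : 1 ≤ g := by
    rw [hg]
    have : 0 ≤ ((m u - X) ^ 2 + (n u - Y) ^ 2) / (2 * Y * n u) := by positivity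
    linarith
  have hgpos : 0 < g ^ 2 - 1 := by
    rw [hg2]; positivity
  have hg1' : g ∈ Set.Ioi (1 : ℝ) := by
    rcases hg1.lt_or_eq with h | h
    · exact h
    · rw [← h] at hgpos; norm_num at hgpos
  have hd1 : HasDerivAt (fun v => 1 + ((m v - X) ^ 2 + (n v - Y) ^ 2) / (2 * Y * n v))
      (((2 * (m u - X) * c + 2 * (n u - Y) * s) * (2 * Y * n u) -
        ((m u - X) ^ 2 + (n u - Y) ^ 2) * (2 * Y * s)) / (2 * Y * n u) ^ 2) u := by
    have h1 := ((hm.sub_const X).pow 2).add ((hnd.sub_const Y).pow 2)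
    have h2 := hnd.const_mul (2 * Y)
    have h3 := (h1.div h2 hden.ne').const_add 1
    refine h3.congr_deriv ?_
    simp
  have hd2 := (Real.hasDerivAt_arcosh hg1').comp u hd1
  have hfun : (fun v => dh X Y (n v) (m v)) =
      (Real.arcosh ∘ fun v => 1 + ((m v - X) ^ 2 + (n v - Y) ^ 2) / (2 * Y * n v)) := by
    funext v
    simp [dh]
  rw [hfun]
  refine hd2.congr_deriv ?_
  rw [hsq]
  have hpow : R ^ ((1 : ℝ) / 2 - 1) = (√R)⁻¹ := by
    rw [show (1 : ℝ) / 2 - 1 = -(1 / 2) by norm_num, Real.rpow_neg hR.le, ← Real.sqrt_eq_rpow]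
  rw [hpow]
  have hs : √R ≠ 0 := (Real.sqrt_pos.2 hR).ne'
  field_simp

theorem Lin.hasDerivAt_zero (p : Lin) (hy1 : 0 < p.y1) (hy2 : 0 < p.y2) {u : ℝ}
    (hn : 0 < p.n.eval u) (h1 : 0 < p.R1.eval u) (h2 : 0 < p.R2.eval u) :
    HasDerivAt (p.H 0) (p.H 1 u) u := by
  have hdm : derivative p.m = C p.c := by
    simp [Lin.m]
  have hdn : derivative p.n = C p.s := by
    simp [Lin.n, Lin.q, Par.n]
  have hm : HasDerivAt (fun v => p.m.eval v) p.c u := by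
    have := p.m.hasDerivAt u
    rw [hdm, eval_C] at this
    exact this
  have hnd : HasDerivAt (fun v => p.n.eval v) p.s u := by
    have := p.n.hasDerivAt u
    rw [hdn, eval_C] at this
    exact this
  have e1 : p.R1.eval u = ((p.m.eval u - p.x1) ^ 2 + (p.n.eval u - p.y1) ^ 2) *
      ((p.m.eval u - p.x1) ^ 2 + (p.n.eval u + p.y1) ^ 2) := by
    simp [Lin.R1, Lin.Q1, Lin.Qb1]
  have e2 : p.R2.eval u = ((p.m.eval u - p.x2) ^ 2 + (p.n.eval u - p.y2) ^ 2) *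
      ((p.m.eval u - p.x2) ^ 2 + (p.n.eval u + p.y2) ^ 2) := by
    simp [Lin.R2, Lin.Q2, Lin.Qb2]
  have a1e : p.a1.eval u = (2 * (p.m.eval u - p.x1) * p.c + 2 * (p.n.eval u - p.y1) * p.s) *
      p.n.eval u - p.s * ((p.m.eval u - p.x1) ^ 2 + (p.n.eval u - p.y1) ^ 2) := by
    simp [Lin.a1, Lin.Q1, hdm, hdn, derivative_pow]
  have a2e : p.a2.eval u = (2 * (p.m.eval u - p.x2) * p.c + 2 * (p.n.eval u - p.y2) * p.s) *
      p.n.eval u - p.s * ((p.m.eval u - p.x2) ^ 2 + (p.n.eval u - p.y2) ^ 2) := by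
    simp [Lin.a2, Lin.Q2, hdm, hdn, derivative_pow]
  have d1 := N0_half (X := p.x1) hy1 hn hm hnd (e1 ▸ h1)
  have d2 := N0_half (X := p.x2) hy2 hn hm hnd (e2 ▸ h2)
  have d3 := d1.sub d2
  refine (HasDerivAt.congr_deriv (f := p.H 0) d3 ?_)
  show _ = (p.n.eval u ^ (0 + 1))⁻¹ *
      ((p.al1 0).eval u * (p.R1.eval u) ^ (1 / 2 - (((0 : ℕ) : ℝ) + 1)) -
        (p.al2 0).eval u * (p.R2.eval u) ^ (1 / 2 - (((0 : ℕ) : ℝ) + 1)))
  have b1 : (p.al1 0).eval u = p.a1.eval u := rfl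
  have b2 : (p.al2 0).eval u = p.a2.eval u := rfl
  rw [b1, b2, a1e, a2e, e1, e2]
  simp only [Nat.cast_zero, zero_add, pow_one]
  ring

theorem Lin.hasDerivAt_succ (p : Lin) (j : ℕ) {u : ℝ}
    (hn : 0 < p.n.eval u) (h1 : 0 < p.R1.eval u) (h2 : 0 < p.R2.eval u) :
    HasDerivAt (p.H (j + 1)) (p.H (j + 2) u) u := by
  have d1 := N1_step p.q p.R1 p.a1 j hn h1
  have d2 := N1_step p.q p.R2 p.a2 j hn h2
  have d3 := d1.sub d2
  have hfun : p.H (j + 1) = fun v => (p.q.n.eval v ^ (j + 1))⁻¹ *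
      ((p.q.al p.R1 p.a1 j).eval v * (p.R1.eval v) ^ (1 / 2 - (j + 1 : ℝ))) -
      (p.q.n.eval v ^ (j + 1))⁻¹ *
      ((p.q.al p.R2 p.a2 j).eval v * (p.R2.eval v) ^ (1 / 2 - (j + 1 : ℝ))) := by
    funext v
    simp only [Lin.H, Lin.al1, Lin.al2, Lin.n]
    ring
  rw [hfun]
  refine d3.congr_deriv ?_
  simp only [Lin.H, Lin.al1, Lin.al2, Lin.n]
  ring

end Pool.Agent.H19.WB
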