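import Mathlib
import Pool.Agent.H19.WB.St
import Pool.Agent.H19.WB.N0
import Pool.Agent.H19.Sup.P3

set_option autoImplicit false

/-!
# L0: geometry of a line

* `dh_lip_w`: `dh x1 y1 y x` is the hyperbolic distance of `x1 + i y1` and `x + i y` (`Sup.P3_dist`); by the triangle inequality the
  difference is at most the distance `δ` of the points `m + i n` of the parameters `u, u'`, and `δ / 2 ≤ sinh (δ / 2) = |u - u'| / (2 √(n n')) ≤ |u - u'| / 2`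
  (`UpperHalfPlane.sinh_half_dist`; the points differ by `(u - u') (c + i s)`, `c² + s² = 1`, `n, n' ≥ 1`).
* `R_far_w`: if `ρ ≤ dh x1 y1 n m` then `Q1 = 2 y1 n (cosh dh - 1) ≥ y1 n ρ² ≥ ρ²` and `Qb1 ≥ (n + y1)² ≥ 1`, so `R1 ≥ ρ²`.
-/

namespace Pool.Agent.H19.WB

open Polynomial UpperHalfPlane
open Pool.Agent.H19.Maass Pool.Agent.H19.Sup

/-- the distance of two points of a line with imaginary parts at least one -/
theorem L0_dist (p : Lin) (hcs : p.c ^ 2 + p.s ^ 2 = 1) {u u' : ℝ} (P P' : ℍ)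
    (hPre : P.re = p.m.eval u) (hPim : P.im = p.n.eval u)
    (hPre' : P'.re = p.m.eval u') (hPim' : P'.im = p.n.eval u')
    (h1 : 1 ≤ p.n.eval u) (h2 : 1 ≤ p.n.eval u') : dist P P' ≤ |u - u'| := by
  have hs := UpperHalfPlane.sinh_half_dist P P'
  have hd0 : 0 ≤ dist P P' / 2 := by positivity
  have hself : dist P P' / 2 ≤ Real.sinh (dist P P' / 2) := Real.self_le_sinh_iff.2 hd0
  have hcd : dist (P : ℂ) (P' : ℂ) = |u - u'| := by
    rw [Complex.dist_eq_re_im]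
    have hr : ((P : ℂ).re - (P' : ℂ).re) ^ 2 + ((P : ℂ).im - (P' : ℂ).im) ^ 2 = (u - u') ^ 2 := by
      have e1 : (P : ℂ).re = p.c * u := by rw [UpperHalfPlane.coe_re, hPre, Lin.m_eval]
      have e2 : (P' : ℂ).re = p.c * u' := by rw [UpperHalfPlane.coe_re, hPre', Lin.m_eval]
      have e3 : (P : ℂ).im = 3 + p.s * u := by rw [UpperHalfPlane.coe_im, hPim, Lin.n_eval]
      have e4 : (P' : ℂ).im = 3 + p.s * u' := by rw [UpperHalfPlane.coe_im, hPim', Lin.n_eval]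
      rw [e1, e2, e3, e4]
      calc (p.c * u - p.c * u') ^ 2 + (3 + p.s * u - (3 + p.s * u')) ^ 2
          = (p.c ^ 2 + p.s ^ 2) * (u - u') ^ 2 := by ring
        _ = (u - u') ^ 2 := by rw [hcs, one_mul]
    rw [hr, Real.sqrt_sq_eq_abs]
  have hprod : 1 ≤ P.im * P'.im := by
    rw [hPim, hPim']
    nlinarith
  have hsq : 1 ≤ Real.sqrt (P.im * P'.im) := by
    rw [show (1 : ℝ) = Real.sqrt 1 by simp]
    exact Real.sqrt_le_sqrt hprod
  have hle : Real.sinh (dist P P' / 2) ≤ |u - u'| / 2 := by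
    rw [hs, hcd]
    apply div_le_div_of_nonneg_left (abs_nonneg _) (by norm_num)
    linarith
  linarith

theorem dh_lip_w (p : Lin) {μ : ℝ} (hp : p.Good μ) {u u' : ℝ} (h1 : 1 ≤ p.n.eval u)
    (h2 : 1 ≤ p.n.eval u') :
    |dh p.x1 p.y1 (p.n.eval u) (p.m.eval u) - dh p.x1 p.y1 (p.n.eval u') (p.m.eval u')| ≤ |u - u'| ∧
    |dh p.x2 p.y2 (p.n.eval u) (p.m.eval u) - dh p.x2 p.y2 (p.n.eval u') (p.m.eval u')| ≤ |u - u'| := by
  have hn : 0 < p.n.eval u := by linarith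
  have hn' : 0 < p.n.eval u' := by linarith
  let P : ℍ := ⟨⟨p.m.eval u, p.n.eval u⟩, hn⟩
  let P' : ℍ := ⟨⟨p.m.eval u', p.n.eval u'⟩, hn'⟩
  have hd : dist P P' ≤ |u - u'| := L0_dist p hp.hcs P P' rfl rfl rfl rfl h1 h2
  have key : ∀ (x y : ℝ), 0 < y →
      |dh x y (p.n.eval u) (p.m.eval u) - dh x y (p.n.eval u') (p.m.eval u')| ≤ |u - u'| := by
    intro x y hy
    let W : ℍ := ⟨⟨x, y⟩, hy⟩
    have e1 : dist W P = dh x y (p.n.eval u) (p.m.eval u) := P3_dist W P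
    have e2 : dist W P' = dh x y (p.n.eval u') (p.m.eval u') := P3_dist W P'
    rw [← e1, ← e2, dist_comm W P, dist_comm W P']
    exact (abs_dist_sub_le P P' W).trans hd
  exact ⟨key _ _ (by linarith [hp.hy1.1]), key _ _ (by linarith [hp.hy2.1])⟩

theorem L0_far {X Y y x ρ : ℝ} (hY : 9 / 5 ≤ Y) (hy : 1 ≤ y) (hρ : 0 < ρ)
    (h : ρ ≤ dh X Y y x) :
    ρ ^ 2 ≤ ((x - X) ^ 2 + (y - Y) ^ 2) * ((x - X) ^ 2 + (y + Y) ^ 2) := by
  have hY0 : 0 < Y := by linarith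
  have hy0 : 0 < y := by linarith
  set Q := (x - X) ^ 2 + (y - Y) ^ 2 with hQ
  have hQ0 : 0 ≤ Q := by positivity
  have hg : 1 ≤ 1 + Q / (2 * Y * y) := by
    have : 0 ≤ Q / (2 * Y * y) := by positivity
    linarith
  have hcosh : Real.cosh (dh X Y y x) = 1 + Q / (2 * Y * y) := by
    unfold dh
    exact Real.cosh_arcosh hg
  have hc1 : Real.cosh ρ ≤ Real.cosh (dh X Y y x) := by
    rw [Real.cosh_le_cosh, abs_of_pos hρ, abs_of_pos (lt_of_lt_of_le hρ h)]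
    exact h
  have hc2 : 1 + ρ ^ 2 / 2 ≤ Real.cosh ρ := by
    have h3 : Real.cosh ρ = 1 + 2 * Real.sinh (ρ / 2) ^ 2 := by
      have h4 := Real.cosh_two_mul (ρ / 2)
      have h5 := Real.cosh_sq (ρ / 2)
      rw [show 2 * (ρ / 2) = ρ by ring] at h4
      rw [h4, h5]
      ring
    have h6 : ρ / 2 ≤ Real.sinh (ρ / 2) := Real.self_le_sinh_iff.2 (by positivity)
    have h7 : (ρ / 2) ^ 2 ≤ Real.sinh (ρ / 2) ^ 2 := pow_le_pow_left₀ (by positivity) h6 2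
    rw [h3]
    nlinarith
  have h8 : ρ ^ 2 / 2 ≤ Q / (2 * Y * y) := by linarith
  have h9 : ρ ^ 2 * (Y * y) ≤ Q := by
    rw [le_div_iff₀ (by positivity)] at h8
    nlinarith
  have hYy : 1 ≤ Y * y := by nlinarith
  have h10 : ρ ^ 2 ≤ Q := by
    have : ρ ^ 2 * 1 ≤ ρ ^ 2 * (Y * y) := mul_le_mul_of_nonneg_left hYy (by positivity)
    linarith
  have h11 : 1 ≤ (x - X) ^ 2 + (y + Y) ^ 2 := by nlinarith [sq_nonneg (x - X)]
  calc ρ ^ 2 ≤ Q * 1 := by linarith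
    _ ≤ Q * ((x - X) ^ 2 + (y + Y) ^ 2) := mul_le_mul_of_nonneg_left h11 hQ0

theorem R_far_w (p : Lin) {μ : ℝ} (hp : p.Good μ) {u ρ : ℝ} (hn : 1 ≤ p.n.eval u) (hρ : 0 < ρ)
    (h1 : ρ ≤ dh p.x1 p.y1 (p.n.eval u) (p.m.eval u)) (h2 : ρ ≤ dh p.x2 p.y2 (p.n.eval u) (p.m.eval u)) :
    ρ ^ 2 ≤ p.R1.eval u ∧ ρ ^ 2 ≤ p.R2.eval u := by
  have e1 : p.R1.eval u = ((p.m.eval u - p.x1) ^ 2 + (p.n.eval u - p.y1) ^ 2) *
      ((p.m.eval u - p.x1) ^ 2 + (p.n.eval u + p.y1) ^ 2) := by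
    simp [Lin.R1, Lin.Q1, Lin.Qb1]
  have e2 : p.R2.eval u = ((p.m.eval u - p.x2) ^ 2 + (p.n.eval u - p.y2) ^ 2) *
      ((p.m.eval u - p.x2) ^ 2 + (p.n.eval u + p.y2) ^ 2) := by
    simp [Lin.R2, Lin.Q2, Lin.Qb2]
  rw [e1, e2]
  exact ⟨L0_far hp.hy1.1 hn hρ h1, L0_far hp.hy2.1 hn hρ h2⟩

end Pool.Agent.H19.WB
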