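import Mathlib
import Pool.Agent.H19.WB.St
import Pool.Agent.H19.Sup.N2

set_option autoImplicit false

/-!
# N1: upper bounds for the numerators

Copy of the first part of `Sup/N2.lean` (`N2_UB` for families indexed by `Lin` instead of `Par`): under `Good` we have `|c|, |s| ≤ 1`,
`|x1|, |x2| ≤ 2`, `y1, y2 ≤ 5`, so all polynomials `m, n, Q1, Qb1, ..., al1 j, al2 j` have coefficients bounded by constants.
`H_bound_w`: as `Pool.Agent.H36.XD.H_bound_x` (`H36/XD/L3.lean`), with `Sup.N2_rpow`.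
-/

namespace Pool.Agent.H19.WB

open Polynomial
open Pool.Agent.H19.Maass Pool.Agent.H19.Sup

/-- a family of polynomials with uniformly bounded degrees and coefficients -/
def N1_UB (q : Lin → ℝ[X]) : Prop :=
  ∃ (c : ℝ) (d : ℕ), 0 ≤ c ∧ ∀ (p : Lin) (μ : ℝ), p.Good μ →
    (q p).natDegree ≤ d ∧ ∀ i, |(q p).coeff i| ≤ c

theorem N1_UB.add {q r : Lin → ℝ[X]} (hq : N1_UB q) (hr : N1_UB r) :
    N1_UB (fun p => q p + r p) := by
  obtain ⟨c, d, hc, h⟩ := hq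
  obtain ⟨c', d', hc', h'⟩ := hr
  refine ⟨c + c', max d d', by positivity, fun p μ hp => ⟨?_, fun i => ?_⟩⟩
  · exact le_trans (natDegree_add_le _ _) (max_le_max (h p μ hp).1 (h' p μ hp).1)
  · rw [coeff_add]
    exact le_trans (abs_add_le _ _) (add_le_add ((h p μ hp).2 i) ((h' p μ hp).2 i))

theorem N1_UB.neg {q : Lin → ℝ[X]} (hq : N1_UB q) : N1_UB (fun p => - q p) := by
  obtain ⟨c, d, hc, h⟩ := hq
  refine ⟨c, d, hc, fun p μ hp => ⟨?_, fun i => ?_⟩⟩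
  · rw [natDegree_neg]; exact (h p μ hp).1
  · rw [coeff_neg, abs_neg]; exact (h p μ hp).2 i

theorem N1_UB.sub {q r : Lin → ℝ[X]} (hq : N1_UB q) (hr : N1_UB r) :
    N1_UB (fun p => q p - r p) := by
  have := hq.add hr.neg
  simpa [sub_eq_add_neg] using this

theorem N1_UB.mul {q r : Lin → ℝ[X]} (hq : N1_UB q) (hr : N1_UB r) :
    N1_UB (fun p => q p * r p) := by
  obtain ⟨c, d, hc, h⟩ := hq
  obtain ⟨c', d', hc', h'⟩ := hr
  refine ⟨(d + d' + 1) * (c * c'), d + d', by positivity, fun p μ hp => ⟨?_, fun i => ?_⟩⟩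
  · exact le_trans natDegree_mul_le (add_le_add (h p μ hp).1 (h' p μ hp).1)
  · have hdeg : (q p * r p).natDegree ≤ d + d' :=
      le_trans natDegree_mul_le (add_le_add (h p μ hp).1 (h' p μ hp).1)
    by_cases hi : i ≤ d + d'
    · rw [coeff_mul]
      calc |∑ x ∈ Finset.HasAntidiagonal.antidiagonal i, (q p).coeff x.1 * (r p).coeff x.2|
          ≤ ∑ x ∈ Finset.HasAntidiagonal.antidiagonal i, |(q p).coeff x.1 * (r p).coeff x.2| :=
            Finset.abs_sum_le_sum_abs _ _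
        _ ≤ ∑ x ∈ Finset.HasAntidiagonal.antidiagonal i, c * c' := by
            refine Finset.sum_le_sum fun x _ => ?_
            rw [abs_mul]
            exact mul_le_mul ((h p μ hp).2 _) ((h' p μ hp).2 _) (abs_nonneg _) hc
        _ = (i + 1 : ℝ) * (c * c') := by
            rw [Finset.sum_const, Finset.Nat.card_antidiagonal, nsmul_eq_mul]
            push_cast; ring
        _ ≤ (d + d' + 1) * (c * c') := by
            have : (i : ℝ) ≤ d + d' := by exact_mod_cast hi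
            have hcc : 0 ≤ c * c' := by positivity
            nlinarith
    · have hlt : (q p * r p).natDegree < i := by omega
      rw [coeff_eq_zero_of_natDegree_lt hlt]
      simp only [abs_zero]
      positivity

theorem N1_UB.pow {q : Lin → ℝ[X]} (hq : N1_UB q) : N1_UB (fun p => q p ^ 2) := by
  have := hq.mul hq
  simpa [pow_two] using this

theorem N1_UB.der {q : Lin → ℝ[X]} (hq : N1_UB q) : N1_UB (fun p => derivative (q p)) := by
  obtain ⟨c, d, hc, h⟩ := hq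
  refine ⟨c * (d + 1), d, by positivity, fun p μ hp => ⟨?_, fun i => ?_⟩⟩
  · exact le_trans (natDegree_derivative_le _) (le_trans (Nat.sub_le _ _) (h p μ hp).1)
  · rw [coeff_derivative]
    by_cases hi : i + 1 ≤ d
    · rw [abs_mul]
      have h1 : |(i : ℝ) + 1| ≤ d + 1 := by
        rw [abs_of_nonneg (by positivity)]
        have : (i : ℝ) + 1 ≤ d := by exact_mod_cast hi
        linarith
      exact mul_le_mul ((h p μ hp).2 _) h1 (abs_nonneg _) hc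
    · rw [coeff_eq_zero_of_natDegree_lt (lt_of_le_of_lt (h p μ hp).1 (by omega))]
      simp only [zero_mul, abs_zero]
      positivity

theorem N1_UB.const {f : Lin → ℝ} (c : ℝ) (hf : ∀ (p : Lin) (μ : ℝ), p.Good μ → |f p| ≤ c) :
    N1_UB (fun p => C (f p)) := by
  refine ⟨|c|, 0, abs_nonneg _, fun p μ hp => ⟨?_, fun i => ?_⟩⟩
  · simp
  · rw [coeff_C]
    split_ifs
    · exact le_trans (hf p μ hp) (le_abs_self _)
    · simp

theorem N1_UB.X : N1_UB (fun _ => (X : ℝ[X])) := by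
  refine ⟨1, 1, zero_le_one, fun p μ hp => ⟨natDegree_X_le, fun i => ?_⟩⟩
  rw [coeff_X]
  split_ifs <;> simp

theorem N1_UB.eval {q : Lin → ℝ[X]} (hq : N1_UB q) : ∃ K : ℝ, 0 < K ∧
    ∀ (p : Lin) (μ : ℝ), p.Good μ → ∀ u : ℝ, |u| ≤ 40 → |(q p).eval u| ≤ K := by
  obtain ⟨c, d, hc, h⟩ := hq
  refine ⟨(d + 1) * (c * 40 ^ d) + 1, by positivity, fun p μ hp u hu => ?_⟩
  rw [eval_eq_sum_range' (Nat.lt_succ_of_le (h p μ hp).1)]
  calc |∑ i ∈ Finset.range (d + 1), (q p).coeff i * u ^ i|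
      ≤ ∑ i ∈ Finset.range (d + 1), |(q p).coeff i * u ^ i| := Finset.abs_sum_le_sum_abs _ _
    _ ≤ ∑ i ∈ Finset.range (d + 1), c * 40 ^ d := by
        refine Finset.sum_le_sum fun i hi => ?_
        rw [abs_mul, abs_pow]
        have hi' : i ≤ d := Nat.lt_succ_iff.mp (Finset.mem_range.mp hi)
        have h1 : |u| ^ i ≤ 40 ^ d :=
          le_trans (pow_le_pow_left₀ (abs_nonneg _) hu i)
            (pow_le_pow_right₀ (by norm_num) hi')
        exact mul_le_mul ((h p μ hp).2 i) h1 (by positivity) hc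
    _ = (d + 1) * (c * 40 ^ d) := by
        rw [Finset.sum_const, Finset.card_range, nsmul_eq_mul]
        push_cast; ring
    _ ≤ (d + 1) * (c * 40 ^ d) + 1 := by linarith

theorem N1_abs_c (p : Lin) (μ : ℝ) (hp : p.Good μ) : |p.c| ≤ 1 := by
  have h := hp.hcs
  rw [abs_le]; constructor <;> nlinarith [sq_nonneg p.s]

theorem N1_abs_s (p : Lin) (μ : ℝ) (hp : p.Good μ) : |p.s| ≤ 1 := by
  have h := hp.hcs
  rw [abs_le]; constructor <;> nlinarith [sq_nonneg p.c]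

theorem N1_abs_x1 (p : Lin) (μ : ℝ) (hp : p.Good μ) : |p.x1| ≤ 2 := by
  have h := hp.hw1
  rw [abs_le]; constructor <;> nlinarith [sq_nonneg (p.y1 - 3)]

theorem N1_abs_x2 (p : Lin) (μ : ℝ) (hp : p.Good μ) : |p.x2| ≤ 2 := by
  have h := hp.hw2
  rw [abs_le]; constructor <;> nlinarith [sq_nonneg (p.y2 - 3)]

theorem N1_abs_y1 (p : Lin) (μ : ℝ) (hp : p.Good μ) : |p.y1| ≤ 5 := by
  have h := hp.hy1
  rw [abs_le]; constructor <;> linarith [h.1, h.2]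

theorem N1_abs_y2 (p : Lin) (μ : ℝ) (hp : p.Good μ) : |p.y2| ≤ 5 := by
  have h := hp.hy2
  rw [abs_le]; constructor <;> linarith [h.1, h.2]

theorem N1_m : N1_UB (fun p => p.m) := by
  unfold Lin.m
  exact (N1_UB.const 1 N1_abs_c).mul N1_UB.X

theorem N1_n : N1_UB (fun p => p.n) := by
  unfold Lin.n Lin.q Par.n
  exact (N1_UB.const 3 fun p μ hp => by norm_num).add
    ((N1_UB.const 1 N1_abs_s).mul N1_UB.X)

theorem N1_Q1 : N1_UB (fun p => p.Q1) := by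
  unfold Lin.Q1
  exact (N1_m.sub (N1_UB.const 2 N1_abs_x1)).pow.add (N1_n.sub (N1_UB.const 5 N1_abs_y1)).pow

theorem N1_Qb1 : N1_UB (fun p => p.Qb1) := by
  unfold Lin.Qb1
  exact (N1_m.sub (N1_UB.const 2 N1_abs_x1)).pow.add (N1_n.add (N1_UB.const 5 N1_abs_y1)).pow

theorem N1_Q2 : N1_UB (fun p => p.Q2) := by
  unfold Lin.Q2
  exact (N1_m.sub (N1_UB.const 2 N1_abs_x2)).pow.add (N1_n.sub (N1_UB.const 5 N1_abs_y2)).pow

theorem N1_Qb2 : N1_UB (fun p => p.Qb2) := by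
  unfold Lin.Qb2
  exact (N1_m.sub (N1_UB.const 2 N1_abs_x2)).pow.add (N1_n.add (N1_UB.const 5 N1_abs_y2)).pow

theorem N1_R1 : N1_UB (fun p => p.R1) := by
  unfold Lin.R1
  exact N1_Q1.mul N1_Qb1

theorem N1_R2 : N1_UB (fun p => p.R2) := by
  unfold Lin.R2
  exact N1_Q2.mul N1_Qb2

theorem N1_a1 : N1_UB (fun p => p.a1) := by
  unfold Lin.a1
  exact (N1_Q1.der.mul N1_n).sub ((N1_UB.const 1 N1_abs_s).mul N1_Q1)

theorem N1_a2 : N1_UB (fun p => p.a2) := by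
  unfold Lin.a2
  exact (N1_Q2.der.mul N1_n).sub ((N1_UB.const 1 N1_abs_s).mul N1_Q2)

theorem N1_al {R a : Lin → ℝ[X]} (hR : N1_UB R) (ha : N1_UB a) (j : ℕ) :
    N1_UB (fun p => p.q.al (R p) (a p) j) := by
  induction j with
  | zero => simpa [Par.al] using ha
  | succ j ih =>
    have hn : N1_UB (fun p => p.q.n) := N1_n
    have h1 : N1_UB (fun p => p.q.n * R p * derivative (p.q.al (R p) (a p) j)) :=
      (hn.mul hR).mul ih.der
    have h2 : N1_UB (fun p => C ((j + 1 : ℝ) * p.q.n1) * R p * p.q.al (R p) (a p) j) := by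
      refine ((N1_UB.const ((j + 1 : ℝ) * 1) fun p μ hp => ?_).mul hR).mul ih
      rw [abs_mul, abs_of_nonneg (by positivity : (0:ℝ) ≤ (j:ℝ) + 1)]
      exact mul_le_mul_of_nonneg_left (N1_abs_s p μ hp) (by positivity)
    have h3 : N1_UB (fun p => C (1 / 2 - (j + 1 : ℝ)) * p.q.n * derivative (R p) *
        p.q.al (R p) (a p) j) :=
      (((N1_UB.const |1 / 2 - (j + 1 : ℝ)| fun p μ hp => le_rfl).mul hn).mul hR.der).mul ih
    exact (h1.sub h2).add h3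

theorem al_bound_w (j : ℕ) : ∃ K : ℝ, 0 < K ∧ ∀ (p : Lin) (μ : ℝ), p.Good μ → ∀ u : ℝ, |u| ≤ 40 →
    |(p.al1 j).eval u| ≤ K ∧ |(p.al2 j).eval u| ≤ K ∧ |p.R1.eval u| ≤ K ∧ |p.R2.eval u| ≤ K := by
  obtain ⟨K1, hK1, h1⟩ := (N1_al N1_R1 N1_a1 j).eval
  obtain ⟨K2, hK2, h2⟩ := (N1_al N1_R2 N1_a2 j).eval
  obtain ⟨K3, hK3, h3⟩ := N1_R1.eval
  obtain ⟨K4, hK4, h4⟩ := N1_R2.eval
  refine ⟨K1 + K2 + K3 + K4, by positivity, fun p μ hp u hu => ⟨?_, ?_, ?_, ?_⟩⟩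
  · exact le_trans (h1 p μ hp u hu) (by linarith)
  · exact le_trans (h2 p μ hp u hu) (by linarith)
  · exact le_trans (h3 p μ hp u hu) (by linarith)
  · exact le_trans (h4 p μ hp u hu) (by linarith)

theorem H_bound_w (j : ℕ) : ∃ (K : ℝ), 1 ≤ K ∧ ∀ (p : Lin) (μ : ℝ), p.Good μ →
    ∀ ρ : ℝ, 0 < ρ → ρ ≤ 1 → ∀ u : ℝ, |u| ≤ 40 → 1 ≤ p.n.eval u → ρ ^ 2 ≤ p.R1.eval u →
    ρ ^ 2 ≤ p.R2.eval u → |p.H (j + 1) u| ≤ K * (ρ⁻¹) ^ (2 * j + 1) := by
  obtain ⟨K, hK, h⟩ := al_bound_w j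
  refine ⟨2 * K + 1, by linarith, fun p μ hp ρ hρ hρ1 u hu hn h1 h2 => ?_⟩
  obtain ⟨ha, hb, -, -⟩ := h p μ hp u hu
  have e1 := N2_rpow hρ h1 j
  have e2 := N2_rpow hρ h2 j
  have p1 : 0 ≤ (p.R1.eval u) ^ (1 / 2 - (j + 1 : ℝ)) :=
    Real.rpow_nonneg (le_trans (by positivity) h1) _
  have p2 : 0 ≤ (p.R2.eval u) ^ (1 / 2 - (j + 1 : ℝ)) :=
    Real.rpow_nonneg (le_trans (by positivity) h2) _
  simp only [Lin.H]
  rw [abs_mul]
  have hn1 : |(p.n.eval u ^ (j + 1))⁻¹| ≤ 1 := by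
    rw [abs_of_nonneg (by positivity)]
    exact inv_le_one_of_one_le₀ (one_le_pow₀ hn)
  have hr : 0 ≤ (ρ⁻¹) ^ (2 * j + 1) := by positivity
  have hmain : |(p.al1 j).eval u * (p.R1.eval u) ^ (1 / 2 - (j + 1 : ℝ)) -
      (p.al2 j).eval u * (p.R2.eval u) ^ (1 / 2 - (j + 1 : ℝ))| ≤
        (2 * K + 1) * (ρ⁻¹) ^ (2 * j + 1) := by
    calc _ ≤ |(p.al1 j).eval u * (p.R1.eval u) ^ (1 / 2 - (j + 1 : ℝ))| +
          |(p.al2 j).eval u * (p.R2.eval u) ^ (1 / 2 - (j + 1 : ℝ))| := abs_sub _ _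
      _ ≤ K * (ρ⁻¹) ^ (2 * j + 1) + K * (ρ⁻¹) ^ (2 * j + 1) := by
          rw [abs_mul, abs_mul, abs_of_nonneg p1, abs_of_nonneg p2]
          exact add_le_add (mul_le_mul ha e1 p1 hK.le) (mul_le_mul hb e2 p2 hK.le)
      _ = 2 * K * (ρ⁻¹) ^ (2 * j + 1) := by ring
      _ ≤ (2 * K + 1) * (ρ⁻¹) ^ (2 * j + 1) :=
          mul_le_mul_of_nonneg_right (by linarith) hr
  calc _ ≤ 1 * ((2 * K + 1) * (ρ⁻¹) ^ (2 * j + 1)) :=
        mul_le_mul hn1 hmain (abs_nonneg _) zero_le_one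
    _ = _ := one_mul _

end Pool.Agent.H19.WB
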