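import Mathlib
import Pool.Agent.H19.WB.L0
import Pool.Agent.H19.WB.N1
import Pool.Agent.H19.Sup.L3
import Pool.Agent.H36.XD.L3

set_option autoImplicit false

/-!
# GB: the sum over a good block

Copy of `Pool.Agent.H36.XD.good_block_x` (`H36/XD/L3.lean`) with `Lin` instead of `Par`: `Lin.hasDerivAt_zero`, `Lin.hasDerivAt_succ`,
`H_bound_w`, and for the variation of the amplitudes `dh_lip_w` (`|u_{i+1} - u_i| = 1 / N`, so the variation of `α` is at most
`2 B0 B1 / N ≤ 24 B0 B1 / N`) instead of `xi_lip`, `dh_lip`.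
-/

namespace Pool.Agent.H19.WB

open Polynomial
open Pool.Agent.H19.Maass Pool.Agent.H19.Sup Pool.Agent.H36.XD

theorem good_block_w : GoodBlockW := by
  intro k hk
  obtain ⟨C, hC, hvdc⟩ := tst k hk
  obtain ⟨K2, hK21, hH2⟩ := H_bound_w k
  have hK2 : 0 < K2 := by linarith
  refine ⟨24 * (C * ((K2 + 2) * 4)), by positivity, ?_⟩
  intro p μ hp A B0 B1 ρ₀ ρ h T N l u0 a b hA hρ hρ1 hh hl1 hlN hab hlen hblk hlo hhi hpt
  have hN : 1 ≤ N := hl1.trans hlN
  have hN0 : 0 < N := by linarith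
  have hl0 : 0 < l := by linarith
  have hNne : N ≠ 0 := hN0.ne'
  have hpi := Real.pi_pos
  obtain ⟨m, hm⟩ : ∃ m : ℕ, b = a + m := ⟨(b - a).toNat, by omega⟩
  subst hm
  set lam := T * h / (2 * Real.pi * N ^ k) with hlam
  have hlam0 : 0 < lam := lt_of_lt_of_le (Real.rpow_pos_of_pos hl0 _) hlo
  have hlam' : T / (2 * Real.pi * N ^ k) = lam / h := by
    rw [hlam]; field_simp
  -- the bounds `B0, B1` are nonnegative
  have hB0 : 0 ≤ B0 := (norm_nonneg _).trans (hA.bdd 0)
  have hB1 : 0 ≤ B1 := by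
    have := (norm_nonneg _).trans (hA.lip 1 0)
    simpa using this
  -- R
  set R := K2 + 2 with hR
  have hRone : 1 ≤ R := by linarith
  -- the phase
  let f : ℕ → ℝ → ℝ := fun i t => T / (2 * Real.pi) / N ^ i * p.H i (u0 + t / N)
  have hY : 0 < p.y1 := by linarith [hp.hy1.1]
  have hY' : 0 < p.y2 := by linarith [hp.hy2.1]
  have hder : ∀ i : ℕ, ∀ t : ℝ, (a : ℝ) ≤ t → t ≤ ((a + m : ℤ) : ℝ) →
      HasDerivAt (f i) (f (i + 1) t) t := by
    intro i t h1 h2
    obtain ⟨-, g2, g3, g4, -, -⟩ := hpt t h1 h2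
    have hn : 0 < p.n.eval (u0 + t / N) := by linarith
    have hr1 : 0 < p.R1.eval (u0 + t / N) := lt_of_lt_of_le (by positivity) g3
    have hr2 : 0 < p.R2.eval (u0 + t / N) := lt_of_lt_of_le (by positivity) g4
    have hH : HasDerivAt (p.H i) (p.H (i + 1) (u0 + t / N)) (u0 + t / N) := by
      cases i with
      | zero => exact p.hasDerivAt_zero hY hY' hn hr1 hr2
      | succ j => exact p.hasDerivAt_succ j hn hr1 hr2
    have hlin : HasDerivAt (fun t : ℝ => u0 + t / N) (1 / N) t := by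
      simpa using ((hasDerivAt_id t).div_const N).const_add u0
    have h3 := (HasDerivAt.comp t hH hlin).const_mul (T / (2 * Real.pi) / N ^ i)
    have h4 : T / (2 * Real.pi) / N ^ i * (p.H (i + 1) (u0 + t / N) * (1 / N)) = f (i + 1) t := by
      simp only [f]
      rw [pow_succ]
      field_simp
    rw [h4] at h3
    exact h3
  -- partial sums
  set M := C * (R / (1 / 2) ^ 2) * l ^ (1 - (1 / 2) ^ (k + 1) : ℝ) with hM
  have hM0 : 0 ≤ M := by positivity
  have hpart : ∀ j ≤ m, ‖∑ i ∈ Finset.range (j + 1), ee (f 0 ((a + (i : ℤ) : ℤ) : ℝ))‖ ≤ M := by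
    intro j hj
    have h1 : (a : ℝ) ≤ ((a + (j : ℤ) : ℤ) : ℝ) := by push_cast; linarith [Nat.cast_nonneg (α := ℝ) j]
    have hjm : (j : ℝ) ≤ m := by exact_mod_cast hj
    have h2 := hvdc f (a : ℝ) ((a + (j : ℤ) : ℤ) : ℝ) l lam (1 / 2) R hl1 h1 (by
      push_cast at hlen ⊢
      linarith) (by norm_num) (by norm_num) hRone hlo hhi (by
      intro i _ x hx
      refine hder i x hx.1 (hx.2.trans ?_)
      push_cast
      linarith) (by
      intro x hx
      have hx2 : x ≤ ((a + m : ℤ) : ℝ) := hx.2.trans (by push_cast; linarith)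
      obtain ⟨g1, g2, g3, g4, g5, g6⟩ := hpt x hx.1 hx2
      have hfk : |f k x| = lam / h * |p.H k (u0 + x / N)| := by
        simp only [f]
        rw [abs_mul]
        congr 1
        have : T / (2 * Real.pi) / N ^ k = lam / h := by rw [← hlam', div_div]
        rw [this, abs_of_pos (by positivity)]
      rw [hfk]
      constructor
      · calc 1 / 2 * lam = lam / h * (h / 2) := by field_simp
          _ ≤ _ := mul_le_mul_of_nonneg_left g5 (by positivity)
      · calc lam / h * |p.H k (u0 + x / N)| ≤ lam / h * (2 * h) :=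
              mul_le_mul_of_nonneg_left g6 (by positivity)
          _ = 2 * lam := by field_simp
          _ ≤ R * lam := mul_le_mul_of_nonneg_right (by linarith) hlam0.le)
      (by
      intro x hx
      have hx2 : x ≤ ((a + m : ℤ) : ℝ) := hx.2.trans (by push_cast; linarith)
      obtain ⟨g1, g2, g3, g4, g5, g6⟩ := hpt x hx.1 hx2
      have hfk : |f (k + 1) x| = lam / (h * N) * |p.H (k + 1) (u0 + x / N)| := by
        simp only [f]
        rw [abs_mul]
        congr 1
        have : T / (2 * Real.pi) / N ^ (k + 1) = lam / (h * N) := by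
          rw [hlam, pow_succ]; field_simp
        rw [this, abs_of_pos (by positivity)]
      rw [hfk]
      have h5 := hH2 p μ hp ρ hρ hρ1 _ g1 g2 g3 g4
      have h6 : (ρ⁻¹) ^ (2 * k + 1) ≤ N * h / l := by
        rw [le_div_iff₀ hl0, mul_comm]; exact hblk
      calc lam / (h * N) * |p.H (k + 1) (u0 + x / N)| ≤
            lam / (h * N) * (K2 * (N * h / l)) :=
            mul_le_mul_of_nonneg_left (h5.trans (mul_le_mul_of_nonneg_left h6 hK2.le))
              (by positivity)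
        _ = K2 * lam / l := by field_simp
        _ ≤ R * lam / l := by
            apply div_le_div_of_nonneg_right _ hl0.le
            exact mul_le_mul_of_nonneg_right (by linarith) hlam0.le)
    rw [Int.ceil_intCast, Int.floor_intCast, L3_Icc] at h2
    exact h2
  -- the terms
  let v : ℕ → ℝ := fun i => u0 + ((a + (i : ℤ) : ℤ) : ℝ) / N
  let d1 : ℕ → ℝ := fun i => dh p.x1 p.y1 (p.n.eval (v i)) (p.m.eval (v i))
  let d2 : ℕ → ℝ := fun i => dh p.x2 p.y2 (p.n.eval (v i)) (p.m.eval (v i))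
  let α : ℕ → ℂ := fun i => A (d1 i) * (starRingEnd ℂ) (A (d2 i))
  have hterm : ∀ i : ℕ, p.term A T N u0 (a + i) = α i * ee (f 0 ((a + (i : ℤ) : ℤ) : ℝ)) := by
    intro i
    simp only [Lin.term, osc, α, d1, d2, v, ee, f, Lin.H]
    congr 2
    rw [pow_zero, div_one]
    congr 2
    field_simp
  have hα : ∀ i, ‖α i‖ ≤ B0 * B0 := by
    intro i
    simp only [α]
    rw [norm_mul, RCLike.norm_conj]
    exact mul_le_mul (hA.bdd _) (hA.bdd _) (norm_nonneg _) hB0
  have hcoord : ∀ i : ℕ, i ≤ m → (a : ℝ) ≤ ((a + (i : ℤ) : ℤ) : ℝ) ∧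
      ((a + (i : ℤ) : ℤ) : ℝ) ≤ ((a + m : ℤ) : ℝ) := by
    intro i hi
    have him : (i : ℝ) ≤ m := by exact_mod_cast hi
    constructor
    · push_cast; linarith [Nat.cast_nonneg (α := ℝ) i]
    · push_cast; linarith
  have hd : ∀ i < m, |d1 (i + 1) - d1 i| ≤ 12 / N ∧ |d2 (i + 1) - d2 i| ≤ 12 / N := by
    intro i hi
    obtain ⟨c1, c2⟩ := hcoord i hi.le
    obtain ⟨c3, c4⟩ := hcoord (i + 1) hi
    have h1 := (hpt _ c1 c2).2.1
    have h2 := (hpt _ c3 c4).2.1
    have h3 := dh_lip_w p hp h2 h1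
    have h4 : |u0 + ((a + ((i + 1 : ℕ) : ℤ) : ℤ) : ℝ) / N - (u0 + ((a + (i : ℤ) : ℤ) : ℝ) / N)|
        = 1 / N := by
      have : u0 + ((a + ((i + 1 : ℕ) : ℤ) : ℤ) : ℝ) / N - (u0 + ((a + (i : ℤ) : ℤ) : ℝ) / N)
          = 1 / N := by
        push_cast
        field_simp
        ring
      rw [this, abs_of_pos (by positivity)]
    rw [h4] at h3
    have h5 : (1 : ℝ) / N ≤ 12 / N := by
      apply div_le_div_of_nonneg_right _ hN0.le
      norm_num
    exact ⟨h3.1.trans h5, h3.2.trans h5⟩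
  have hvar : ∀ i < m, ‖α (i + 1) - α i‖ ≤ 24 * (B0 * B1) / N := by
    intro i hi
    obtain ⟨hx, hx'⟩ := hd i hi
    have h1 : ‖A (d1 (i + 1)) - A (d1 i)‖ ≤ B1 * (12 / N) :=
      (hA.lip _ _).trans (mul_le_mul_of_nonneg_left hx hB1)
    have h2 : ‖A (d2 (i + 1)) - A (d2 i)‖ ≤ B1 * (12 / N) :=
      (hA.lip _ _).trans (mul_le_mul_of_nonneg_left hx' hB1)
    have h3 : α (i + 1) - α i = (A (d1 (i + 1)) - A (d1 i)) *
        (starRingEnd ℂ) (A (d2 (i + 1))) +
        A (d1 i) * (starRingEnd ℂ) (A (d2 (i + 1)) - A (d2 i)) := by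
      simp only [α, map_sub]
      ring
    rw [h3]
    refine (norm_add_le _ _).trans ?_
    rw [norm_mul, norm_mul, RCLike.norm_conj, RCLike.norm_conj]
    have h4 : ‖A (d1 (i + 1)) - A (d1 i)‖ * ‖A (d2 (i + 1))‖ ≤ B1 * (12 / N) * B0 :=
      mul_le_mul h1 (hA.bdd _) (norm_nonneg _) (by positivity)
    have h5 : ‖A (d1 i)‖ * ‖A (d2 (i + 1)) - A (d2 i)‖ ≤ B0 * (B1 * (12 / N)) :=
      mul_le_mul (hA.bdd _) h2 (norm_nonneg _) hB0
    calc _ ≤ B1 * (12 / N) * B0 + B0 * (B1 * (12 / N)) := add_le_add h4 h5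
      _ = 24 * (B0 * B1) / N := by ring
  -- assembly
  rw [L3_Icc]
  have hsum : ∑ i ∈ Finset.range (m + 1), p.term A T N u0 (a + i) =
      ∑ i ∈ Finset.range (m + 1), α i * ee (f 0 ((a + (i : ℤ) : ℤ) : ℝ)) :=
    Finset.sum_congr rfl fun i _ => hterm i
  rw [hsum]
  refine (L3_parts α _ m hM0 hpart (hα m) hvar).trans ?_
  have hmN : (m : ℝ) ≤ l := by
    push_cast at hlen
    linarith
  have h1 : (m : ℝ) * (24 * (B0 * B1) / N) ≤ 24 * (B0 * B1) * (l / N) := by
    calc (m : ℝ) * (24 * (B0 * B1) / N) ≤ l * (24 * (B0 * B1) / N) :=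
          mul_le_mul_of_nonneg_right hmN (by positivity)
      _ = _ := by ring
  have h2 : 0 ≤ B0 * B0 := mul_nonneg hB0 hB0
  calc (B0 * B0 + m * (24 * (B0 * B1) / N)) * M ≤
        (24 * (B0 * B0) + 24 * (B0 * B1) * (l / N)) * M := by
        apply mul_le_mul_of_nonneg_right _ hM0
        linarith
    _ = _ := by rw [hM, hR]; ring

end Pool.Agent.H19.WB
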