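import Mathlib
import Pool.Agent.H19.WB.NR
import Pool.Agent.H19.Sup.F2
import Pool.Agent.H19.Maass.Forms

set_option autoImplicit false

/-!
# LI: forms with large Hecke eigenvalues at primes, beyond `N = T^(1/4)`

`S = ∑_{p ∈ PR N} ‖c p‖² / p`, `α p = conj (c p) / p`, `∑ ‖α p‖² ≤ S / N` (`p > N`).  Bessel (`bessel`, `J = Unit`, `I = JJ N`, `a i = α i.1`, `ζ = z1 z`):
`∑_{i ∈ JJ N} α_i U (z1 z i) = ∑_p α_p c_p U z = S U z` (`Frm.hecke`).  With the kernel of `split` for `ρ = x⁻²`, `x = N^(1/42000)`: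
`S² ‖U z‖² (2/40)² ≤ 2 Re ∑_{i,i'} conj α_i α_i' ∑_σ KK`, `KK = Re wv + error`, `|error| ≤ phn`; `Re wv = (wv + conj wv) / 2`, so the main part is at most
`(‖FF1 α‖ + ‖FF1 (conj ∘ α)‖) / 2` (exchange of `i, i'` is not needed: `∑ conj α_i α_i' conj (wv ..) = conj (FF1 (conj ∘ α))`); the error part: `∑_{p, q} ‖α_p‖ ‖α_q‖ MM (phn ..) p q z ≤
∑_p ‖α_p‖² ∑_q MM p q ≤ (S / N) near_row` (as in `Maass.large_bound`, `Maass/Forms.lean`).
`far` with `h0 = x²`, `μ = x⁻¹⁰` (`= N^(-1/4200) ≥ N^(-1/4100)`), `B0 = C √T x`, `B1 = C √T x⁶`: `B0 / h0 = C √T / x`;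
`h0³ (B0² (μ + N^(-1/2900)) + B0 B1 N^(-1/45)) ≤ x⁶ C² T (2 x² x⁻¹⁰ + x⁷ x⁻¹⁵) ≤ 3 C² T / x²`.  So `‖FF1‖ ≤ K (S / N) N³ √T / x`.
`near_row`: `N T + √T N³ / 8^j0 + √T N² + N³`, `1 / 8^j0 ≤ C ρ^(3/2) ≤ C / x`, `√T N² ≤ N T` (`N² ≤ T`, from `N^39 ≤ T^10`), `N³ ≤ √T N³ / x` (`x ≤ N^(1/2) ≤ √T`...).
Division by `S` (if `S ≠ 0`).  For `x < 3` (`N < 3^42000`) use `Maass.large_bound` and `√T ≤ T`.  Compare `H36/XD/F2.lean`.
-/

namespace Pool.Agent.H19.WB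

open UpperHalfPlane
open Pool.Agent.H19.Maass Pool.Agent.H19.Sup
open scoped MatrixGroups ComplexConjugate ENNReal

private lemma LI_sum {t : ℝ} {U : ℂ → ℂ} {c : ℕ → ℂ} (hF : Frm t U c) (α : ℕ → ℂ) (N : ℕ) (z : ℍ) :
    ∑ i ∈ JJ N, α i.1 * U (z1 z i) = (∑ p ∈ PR N, α p * c p) * U z := by
  unfold JJ
  rw [Finset.sum_sigma, Finset.sum_mul]
  refine Finset.sum_congr rfl fun p hp => ?_
  rw [mul_assoc, ← hF.hecke p (mem_PR.1 hp).2.one_lt.le z, Finset.mul_sum]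
  rfl

private lemma LI_MM (φ : ℝ → ℝ≥0∞) (w : ℕ → ℕ → ℝ≥0∞) (N : ℕ) (z : ℍ) :
    ∑ i ∈ JJ N, ∑ j ∈ JJ N, w i.1 j.1 * ∑' σ : SL(2, ℤ),
      φ (2 * Real.cosh (dist (z1 z i) (σ • z1 z j)) - 2) =
    ∑ p ∈ PR N, ∑ q ∈ PR N, w p q * MM φ p q z := by
  unfold JJ
  rw [Finset.sum_sigma]
  refine Finset.sum_congr rfl fun p hp => ?_
  simp_rw [Finset.sum_sigma]
  rw [Finset.sum_comm]
  refine Finset.sum_congr rfl fun q hq => ?_
  unfold MM
  simp_rw [Finset.mul_sum]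
  rfl

private lemma LI_conj (α : ℕ → ℂ) (A : ℝ → ℂ) (T : ℝ) (N : ℕ) (z : ℍ) (S : Finset SL(2, ℤ)) :
    ∑ i ∈ JJ N, ∑ j ∈ JJ N, conj (α i.1) * α j.1 *
      ∑ σ ∈ S, (((wv A T (dist (z1 z i) (σ • z1 z j))).re : ℝ) : ℂ) =
    (FF1 α A T N z S + conj (FF1 (fun p => conj (α p)) A T N z S)) / 2 := by
  unfold FF1
  rw [map_sum, ← Finset.sum_add_distrib, Finset.sum_div]
  refine Finset.sum_congr rfl fun i _ => ?_
  rw [map_sum, ← Finset.sum_add_distrib, Finset.sum_div]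
  refine Finset.sum_congr rfl fun j _ => ?_
  rw [map_mul, map_mul, map_sum]
  simp only [Complex.conj_conj]
  rw [← mul_add, ← Finset.sum_add_distrib, mul_div_assoc, Finset.sum_div]
  congr 1
  refine Finset.sum_congr rfl fun σ _ => ?_
  rw [Complex.add_conj]
  push_cast
  ring

private lemma LI_geo {k : ℝ → ℝ} {A : ℝ → ℂ} {C T : ℝ} {j0 L : ℕ} (α : ℕ → ℂ) (N : ℕ) (z : ℍ)
    (S : Finset SL(2, ℤ))
    (hk : ∀ z w : ℍ, ENNReal.ofReal |KK k z w - (wv A T (dist z w)).re| ≤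
        phn C T j0 L (2 * Real.cosh (dist z w) - 2)) {V : ℝ} (hV : 0 ≤ V)
    (hn : ∑ p ∈ PR N, ∑ q ∈ PR N, ENNReal.ofReal (‖α p‖ * ‖α q‖) *
        MM (phn C T j0 L) p q z ≤ ENNReal.ofReal V) :
    (∑ i ∈ JJ N, ∑ j ∈ JJ N, conj (α i.1) * α j.1 *
      ∑ σ ∈ S, (KK k (z1 z i) (σ • z1 z j) : ℂ)).re ≤
      (‖FF1 α A T N z S‖ + ‖FF1 (fun p => conj (α p)) A T N z S‖) / 2 + V := by
  have h1 : ∑ i ∈ JJ N, ∑ j ∈ JJ N, conj (α i.1) * α j.1 *
      ∑ σ ∈ S, (KK k (z1 z i) (σ • z1 z j) : ℂ) =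
      (FF1 α A T N z S + conj (FF1 (fun p => conj (α p)) A T N z S)) / 2 +
      ∑ i ∈ JJ N, ∑ j ∈ JJ N, conj (α i.1) * α j.1 *
        ∑ σ ∈ S, ((KK k (z1 z i) (σ • z1 z j) - (wv A T (dist (z1 z i) (σ • z1 z j))).re : ℝ) : ℂ) := by
    rw [← LI_conj, ← Finset.sum_add_distrib]
    refine Finset.sum_congr rfl fun i _ => ?_
    rw [← Finset.sum_add_distrib]
    refine Finset.sum_congr rfl fun j _ => ?_
    rw [← mul_add, ← Finset.sum_add_distrib]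
    congr 1
    refine Finset.sum_congr rfl fun σ _ => ?_
    push_cast
    ring
  have h2 : ‖∑ i ∈ JJ N, ∑ j ∈ JJ N, conj (α i.1) * α j.1 *
        ∑ σ ∈ S, ((KK k (z1 z i) (σ • z1 z j) - (wv A T (dist (z1 z i) (σ • z1 z j))).re : ℝ) : ℂ)‖ ≤
      ∑ i ∈ JJ N, ∑ j ∈ JJ N, (‖α i.1‖ * ‖α j.1‖) *
        ∑ σ ∈ S, |KK k (z1 z i) (σ • z1 z j) - (wv A T (dist (z1 z i) (σ • z1 z j))).re| := by
    refine (norm_sum_le _ _).trans (Finset.sum_le_sum fun i _ => ?_)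
    refine (norm_sum_le _ _).trans (Finset.sum_le_sum fun j _ => ?_)
    rw [norm_mul, norm_mul, RCLike.norm_conj]
    refine mul_le_mul_of_nonneg_left ?_ (by positivity)
    refine (norm_sum_le _ _).trans (Finset.sum_le_sum fun σ _ => ?_)
    rw [Complex.norm_real, Real.norm_eq_abs]
  have h3 : ∑ i ∈ JJ N, ∑ j ∈ JJ N, (‖α i.1‖ * ‖α j.1‖) *
        ∑ σ ∈ S, |KK k (z1 z i) (σ • z1 z j) - (wv A T (dist (z1 z i) (σ • z1 z j))).re| ≤ V := by
    rw [← ENNReal.ofReal_le_ofReal_iff hV]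
    refine le_trans ?_ hn
    rw [← LI_MM (phn C T j0 L) (fun p q => ENNReal.ofReal (‖α p‖ * ‖α q‖)) N z]
    rw [ENNReal.ofReal_sum_of_nonneg (fun i _ => Finset.sum_nonneg fun j _ => by positivity)]
    refine Finset.sum_le_sum fun i _ => ?_
    rw [ENNReal.ofReal_sum_of_nonneg (fun j _ => by positivity)]
    refine Finset.sum_le_sum fun j _ => ?_
    rw [ENNReal.ofReal_mul (by positivity), ENNReal.ofReal_sum_of_nonneg (fun _ _ => abs_nonneg _)]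
    refine mul_le_mul_right ?_ _
    exact (Finset.sum_le_sum fun σ _ => hk _ _).trans (ENNReal.sum_le_tsum _)
  have h4 : ‖(FF1 α A T N z S + conj (FF1 (fun p => conj (α p)) A T N z S)) / 2‖ ≤
      (‖FF1 α A T N z S‖ + ‖FF1 (fun p => conj (α p)) A T N z S‖) / 2 := by
    rw [norm_div, Complex.norm_ofNat]
    refine div_le_div_of_nonneg_right ?_ (by norm_num)
    refine (norm_add_le _ _).trans ?_
    rw [RCLike.norm_conj]
  rw [h1]
  refine (Complex.re_le_norm _).trans ((norm_add_le _ _).trans ?_)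
  exact add_le_add h4 (h2.trans h3)

private lemma LI_near {φ : ℝ → ℝ≥0∞} {z : ℍ} {N : ℕ} (hN : 1 ≤ N) (c : ℕ → ℂ) {V : ℝ}
    (hrow : ∀ p ∈ PR N, ∑ q ∈ PR N, MM φ p q z ≤ ENNReal.ofReal V) :
    ∑ n ∈ PR N, ∑ m ∈ PR N, ENNReal.ofReal (‖conj (c n) / (n : ℂ)‖ * ‖conj (c m) / (m : ℂ)‖) *
      MM φ n m z ≤ ENNReal.ofReal (1 / N * (∑ p ∈ PR N, ‖c p‖ ^ 2 / p) * V) := by
  have hN0 : (0 : ℝ) < N := by exact_mod_cast hN
  set a : ℕ → ℂ := fun p => conj (c p) / p with ha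
  have ha2 : ∀ p ∈ PR N, ‖a p‖ ^ 2 ≤ 1 / N * (‖c p‖ ^ 2 / p) := by
    intro p hp
    rw [mem_PR] at hp
    have hp0 : (0 : ℝ) < p := by exact_mod_cast hp.2.pos
    have hNp : (N : ℝ) ≤ p := by exact_mod_cast hp.1.1.le
    rw [ha]; simp only
    rw [norm_div, RCLike.norm_conj, Complex.norm_natCast, div_pow, sq (p : ℝ),
      ← div_div, div_eq_mul_one_div _ (p : ℝ), mul_comm]
    refine mul_le_mul_of_nonneg_right (one_div_le_one_div_of_le hN0 hNp) (by positivity)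
  have hsym : ∀ n m : ℕ, ENNReal.ofReal (‖a n‖ * ‖a m‖) * MM φ n m z ≤
      ENNReal.ofReal (‖a n‖ ^ 2 / 2) * MM φ n m z + ENNReal.ofReal (‖a m‖ ^ 2 / 2) * MM φ m n z := by
    intro n m
    rw [MM_comm φ m n z, ← add_mul, ← ENNReal.ofReal_add (by positivity) (by positivity)]
    refine mul_le_mul_left (ENNReal.ofReal_le_ofReal ?_) _
    nlinarith [sq_nonneg (‖a n‖ - ‖a m‖)]
  calc ∑ n ∈ PR N, ∑ m ∈ PR N, ENNReal.ofReal (‖a n‖ * ‖a m‖) * MM φ n m z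
      ≤ ∑ n ∈ PR N, ∑ m ∈ PR N, (ENNReal.ofReal (‖a n‖ ^ 2 / 2) * MM φ n m z +
          ENNReal.ofReal (‖a m‖ ^ 2 / 2) * MM φ m n z) :=
        Finset.sum_le_sum fun n _ => Finset.sum_le_sum fun m _ => hsym n m
    _ = ∑ n ∈ PR N, ∑ m ∈ PR N, ENNReal.ofReal (‖a n‖ ^ 2 / 2) * MM φ n m z +
          ∑ n ∈ PR N, ∑ m ∈ PR N, ENNReal.ofReal (‖a n‖ ^ 2 / 2) * MM φ n m z := by
        simp_rw [Finset.sum_add_distrib]
        congr 1
        rw [Finset.sum_comm]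
    _ = ∑ n ∈ PR N, ENNReal.ofReal (‖a n‖ ^ 2) * ∑ m ∈ PR N, MM φ n m z := by
        rw [← Finset.sum_add_distrib]
        refine Finset.sum_congr rfl fun n _ => ?_
        rw [← Finset.mul_sum, ← add_mul, ← ENNReal.ofReal_add (by positivity) (by positivity)]
        congr 2
        ring
    _ ≤ ∑ n ∈ PR N, ENNReal.ofReal (1 / N * (‖c n‖ ^ 2 / n)) * ENNReal.ofReal V :=
        Finset.sum_le_sum fun n hn => mul_le_mul' (ENNReal.ofReal_le_ofReal (ha2 n hn))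
          (hrow n hn)
    _ = _ := by
        rw [← Finset.sum_mul, ← ENNReal.ofReal_sum_of_nonneg (fun n _ => by positivity),
          ← ENNReal.ofReal_mul (Finset.sum_nonneg fun n _ => by positivity), ← Finset.mul_sum]

private lemma LI_param {C T x Nc Nd : ℝ} (hC : 0 < C) (hT : 0 < T) (hx : 3 ≤ x)
    (hNc : Nc ≤ (x ^ 10)⁻¹) (hNd : Nd ≤ (x ^ 15)⁻¹) :
    C * √T / √((x ^ 2)⁻¹) / x ^ 2 + √((x ^ 2) ^ 3 *
      ((C * √T / √((x ^ 2)⁻¹)) ^ 2 * ((x ^ 10)⁻¹ + Nc) +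
        (C * √T / √((x ^ 2)⁻¹)) * (C * √T / ((x ^ 2)⁻¹) ^ 3) * Nd)) ≤ 3 * C * √T / x := by
  have hx0 : 0 < x := by linarith
  have hx1 : 1 ≤ x := by linarith
  set s := √T with hs
  have hs0 : 0 < s := Real.sqrt_pos.2 hT
  have hsq : √((x ^ 2)⁻¹) = x⁻¹ := by
    rw [Real.sqrt_inv, Real.sqrt_sq hx0.le]
  have e0 : C * s / √((x ^ 2)⁻¹) = C * s * x := by rw [hsq, div_inv_eq_mul]
  have e1 : C * s / ((x ^ 2)⁻¹) ^ 3 = C * s * x ^ 6 := by
    rw [inv_pow, div_inv_eq_mul, ← pow_mul]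
  rw [e0, e1]
  have hCs : 0 < C * s := by positivity
  have t2 : (C * s * x) ^ 2 * ((x ^ 10)⁻¹ + Nc) ≤ 2 * ((C * s) ^ 2 * (x ^ 8)⁻¹) := by
    calc (C * s * x) ^ 2 * ((x ^ 10)⁻¹ + Nc) ≤ (C * s * x) ^ 2 * ((x ^ 10)⁻¹ + (x ^ 10)⁻¹) := by
          gcongr
      _ = _ := by field_simp; ring
  have t3 : (C * s * x) * (C * s * x ^ 6) * Nd ≤ (C * s) ^ 2 * (x ^ 8)⁻¹ := by
    calc (C * s * x) * (C * s * x ^ 6) * Nd ≤ (C * s * x) * (C * s * x ^ 6) * (x ^ 15)⁻¹ := by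
          gcongr
      _ = _ := by field_simp
  have t4 : √((x ^ 2) ^ 3 * ((C * s * x) ^ 2 * ((x ^ 10)⁻¹ + Nc) +
        (C * s * x) * (C * s * x ^ 6) * Nd)) ≤ 2 * (C * s / x) := by
    rw [Real.sqrt_le_left (by positivity)]
    calc (x ^ 2) ^ 3 * ((C * s * x) ^ 2 * ((x ^ 10)⁻¹ + Nc) +
        (C * s * x) * (C * s * x ^ 6) * Nd)
        ≤ (x ^ 2) ^ 3 * (3 * ((C * s) ^ 2 * (x ^ 8)⁻¹)) := by
          refine mul_le_mul_of_nonneg_left (by linarith) (by positivity)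
      _ = 3 * (C * s / x) ^ 2 := by field_simp
      _ ≤ (2 * (C * s / x)) ^ 2 := by
          have : 0 ≤ (C * s / x) ^ 2 := by positivity
          nlinarith
  have t5 : C * s * x / x ^ 2 = C * s / x := by field_simp
  calc _ ≤ C * s / x + 2 * (C * s / x) := add_le_add t5.le t4
    _ = _ := by ring

theorem large_improved_w (far : FarBoundW) (split : SplitKernelW) (bessel : BesselW) :
    LargeImprovedW := by
  obtain ⟨Cw, hCw, hlarge⟩ := large_bound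
  obtain ⟨C, hC, hker⟩ := split
  obtain ⟨C', hC', hnear⟩ := near_row
  intro Y0
  obtain ⟨K, hK, hF⟩ := far Y0
  obtain ⟨δ, hδ⟩ : ∃ δ : ℝ, δ = 1 / 42000 := ⟨_, rfl⟩
  rw [← hδ]
  have hδ0 : 0 < δ := by rw [hδ]; norm_num
  set Y1 := max Y0 1 with hY1
  have hY1p : 1 ≤ Y1 := le_max_right _ _
  set N₀ : ℝ := (3 : ℝ) ^ (1 / δ) with hN₀
  have hN₀p : 1 ≤ N₀ := Real.one_le_rpow (by norm_num) (by positivity)
  refine ⟨max (Cw * (1 + Y1) * (1 + N₀ ^ 2)) (800 * (3 * K * C + C' * C * (1 + Y1) * (2 + C))),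
    lt_max_of_lt_left (by positivity), ?_⟩
  intro N T hN hNT hT1 hTN t U c ht hFrm z hre him hzY
  set K₀ := max (Cw * (1 + Y1) * (1 + N₀ ^ 2)) (800 * (3 * K * C + C' * C * (1 + Y1) * (2 + C)))
    with hK₀
  have hN0 : (0 : ℝ) < N := by exact_mod_cast hN
  have hNr : (1 : ℝ) ≤ N := by exact_mod_cast hN
  have hT0 : 0 < T := by linarith
  have hN2T : (N : ℝ) ^ 2 ≤ T := by
    have h1 : ((N : ℝ) ^ 2) ^ 10 ≤ T ^ 10 := by
      rw [← pow_mul]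
      exact le_trans (pow_le_pow_right₀ hNr (by norm_num)) hNT
    exact le_of_pow_le_pow_left₀ (by norm_num) hT0.le h1
  have hz0 := z.im_pos
  have hzY1 : z.im ≤ Y1 := hzY.trans (le_max_left _ _)
  have hs0 : 0 < √T := Real.sqrt_pos.2 hT0
  have hrest : 0 ≤ √T * (N : ℝ) ^ (2 - δ) := by positivity
  by_cases hbig : N₀ < N
  · -- main case
    set x : ℝ := (N : ℝ) ^ δ with hx
    have hx3 : 3 ≤ x := by
      have h1 : (3 : ℝ) ^ (1 / δ) ≤ N := hbig.le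
      have h2 : ((3 : ℝ) ^ (1 / δ)) ^ δ ≤ (N : ℝ) ^ δ := Real.rpow_le_rpow (by positivity) h1 hδ0.le
      rwa [← Real.rpow_mul (by norm_num), one_div_mul_cancel hδ0.ne', Real.rpow_one] at h2
    have hx0 : 0 < x := by linarith
    have hx1 : 1 ≤ x := by linarith
    have hxpow : ∀ n : ℕ, x ^ n = (N : ℝ) ^ (δ * n) := by
      intro n
      rw [hx, ← Real.rpow_natCast, ← Real.rpow_mul hN0.le]
    have hxle : ∀ n : ℕ, ∀ a : ℝ, δ * n ≤ a → x ^ n ≤ (N : ℝ) ^ a := by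
      intro n a ha
      rw [hxpow]
      exact Real.rpow_le_rpow_of_exponent_le hNr ha
    have hxm : ∀ n : ℕ, ∀ a : ℝ, δ * n ≤ a → (N : ℝ) ^ (-a) ≤ (x ^ n)⁻¹ := by
      intro n a ha
      rw [hxpow, ← Real.rpow_neg hN0.le]
      exact Real.rpow_le_rpow_of_exponent_le hNr (by linarith)
    have hx2N : x ^ 2 ≤ N := by
      have := hxle 2 1 (by rw [hδ]; norm_num)
      rwa [Real.rpow_one] at this
    have hNNT : (N : ℝ) ≤ T := by
      refine le_trans ?_ hN2T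
      calc (N : ℝ) = (N : ℝ) ^ 1 := (pow_one _).symm
        _ ≤ (N : ℝ) ^ 2 := pow_le_pow_right₀ hNr (by norm_num)
    have hx2 : x ^ 2 ≤ T := hx2N.trans hNNT
    have hx28 : 8 ≤ x ^ 2 := by nlinarith
    obtain ⟨L, j0, k, A, hL, hj0, h8, hk, hsel, hA, hKK⟩ := hker T hT1 ((x ^ 2)⁻¹)
      (by rw [one_div]; exact inv_anti₀ (by positivity) hx2)
      (by rw [one_div]; exact inv_anti₀ (by norm_num) hx28)
    obtain ⟨S, hS⟩ := exists_cover (JJ N) (z1 z) (z1 z) (1 / 2)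
    set α : ℕ → ℂ := fun p => conj (c p) / (p : ℂ) with hα
    set S0 : ℝ := ∑ p ∈ PR N, ‖c p‖ ^ 2 / p with hSd
    have hSn : 0 ≤ S0 := Finset.sum_nonneg fun p _ => by positivity
    have hbes := bessel k (1 / 4) hk Unit (fun _ => t) (fun _ => U) (fun _ => c) (fun _ => hFrm)
      (fun i j h => absurd (Subsingleton.elim i j) h) _ (JJ N) (fun i => α i.1) (z1 z) S
      (fun i hi j hj σ hσ => hS i hi j hj σ (by linarith))
    simp only [Finset.univ_unique, Finset.sum_singleton] at hbes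
    rw [LI_sum hFrm α N z] at hbes
    have hac : ∑ n ∈ PR N, α n * c n = (S0 : ℂ) := by
      rw [hSd]
      push_cast
      refine Finset.sum_congr rfl fun p _ => ?_
      rw [hα]; simp only
      rw [div_mul_eq_mul_div, mul_comm, Complex.mul_conj, Complex.normSq_eq_norm_sq]
      push_cast
      rfl
    rw [hac] at hbes
    have ha2 : ∑ p ∈ PR N, ‖α p‖ ^ 2 ≤ S0 / N := by
      rw [hSd, Finset.sum_div]
      refine Finset.sum_le_sum fun p hp => ?_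
      rw [mem_PR] at hp
      have hp0 : (0 : ℝ) < p := by exact_mod_cast hp.2.pos
      have hNp : (N : ℝ) ≤ p := by exact_mod_cast hp.1.1.le
      rw [hα]; simp only
      rw [norm_div, RCLike.norm_conj, Complex.norm_natCast, div_pow, sq (p : ℝ), ← div_div]
      exact div_le_div_of_nonneg_left (by positivity) hN0 hNp
    set V := C' * C * (1 + z.im) *
      (N * T + √T * (N : ℝ) ^ 3 / 8 ^ j0 + √T * (N : ℝ) ^ 2 + (N : ℝ) ^ 3) with hV
    have hV0 : 0 ≤ V := by positivity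
    have hrow := hnear z hre him C T hC.le hT1 j0 L hj0 hL N hN
    have hn := LI_near hN c hrow
    have hgeo := LI_geo (k := k) (A := A) (C := C) (T := T) (j0 := j0) (L := L) α N z S hKK
      (by positivity) hn
    have hfar0 : ∀ β : ℕ → ℂ, (∀ p, ‖β p‖ = ‖α p‖) →
        ‖FF1 β A T N z S‖ ≤ S0 * (3 * K * C * (√T * (N : ℝ) ^ (2 - δ))) := by
      intro β hβ
      have hfarb := hF β A _ _ _ T ((x ^ 10)⁻¹) (x ^ 2) N z S hA (by positivity)
        (inv_le_one_of_one_le₀ (by nlinarith)) (by positivity)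
        (inv_le_one_of_one_le₀ (one_le_pow₀ hx1)) hN
        (hxm 10 _ (by rw [hδ]; norm_num)) (hxm 2 _ (by rw [hδ]; norm_num)) (by linarith)
        (hxle 2 _ (by rw [hδ]; norm_num))
        hT1 hNT hTN hre him hzY (fun i hi j hj σ hσ => hS i hi j hj σ hσ)
      have hNc : (N : ℝ) ^ (-(1 / 2900) : ℝ) ≤ (x ^ 10)⁻¹ := hxm 10 _ (by rw [hδ]; norm_num)
      have hNd : (N : ℝ) ^ (-(1 / 45) : ℝ) ≤ (x ^ 15)⁻¹ := hxm 15 _ (by rw [hδ]; norm_num)
      have hpar := LI_param (C := C) (T := T) (x := x) hC hT0 hx3 hNc hNd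
      have hN4 : (N : ℝ) ^ (2 - δ) = (N : ℝ) ^ 2 / x := by
        rw [Real.rpow_sub hN0, Real.rpow_ofNat]
      refine hfarb.trans ?_
      rw [hN4]
      simp_rw [hβ]
      calc K * (∑ p ∈ PR N, ‖α p‖ ^ 2) * (N : ℝ) ^ 3 * _
          ≤ K * (S0 / N) * (N : ℝ) ^ 3 * (3 * C * √T / x) := by
            refine mul_le_mul ?_ hpar (by positivity) (by positivity)
            gcongr
        _ = _ := by field_simp
    have hfar1 := hfar0 α (fun _ => rfl)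
    have hfar2 := hfar0 (fun p => conj (α p)) (fun p => RCLike.norm_conj _)
    -- the near part
    have hNs : (N : ℝ) ≤ √T := Real.le_sqrt_of_sq_le hN2T
    set Wt := √T * (N : ℝ) ^ (2 - δ) with hWt
    have hN4 : (N : ℝ) ^ (2 - δ) = (N : ℝ) ^ 2 / x := by
      rw [Real.rpow_sub hN0, Real.rpow_ofNat]
    have hWx : N * Wt = √T * (N : ℝ) ^ 3 / x := by
      rw [hWt, hN4]; ring
    have n1 : √T * (N : ℝ) ^ 2 ≤ N * T := by
      calc √T * (N : ℝ) ^ 2 = N * (√T * N) := by ring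
        _ ≤ N * (√T * √T) := by gcongr
        _ = N * T := by rw [Real.mul_self_sqrt hT0.le]
    have hρ : ((x ^ 2)⁻¹) ^ (3 / 2 : ℝ) ≤ x⁻¹ := by
      have h1 : ((x ^ 2)⁻¹) ^ (3 / 2 : ℝ) ≤ ((x ^ 2)⁻¹) ^ (1 / 2 : ℝ) :=
        Real.rpow_le_rpow_of_exponent_ge (by positivity) (inv_le_one_of_one_le₀ (by nlinarith))
          (by norm_num)
      rwa [← Real.sqrt_eq_rpow, Real.sqrt_inv, Real.sqrt_sq hx0.le] at h1
    have n2 : √T * (N : ℝ) ^ 3 / 8 ^ j0 ≤ C * (N * Wt) := by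
      have h1 : 1 / (8 : ℝ) ^ j0 ≤ C * x⁻¹ := h8.trans (mul_le_mul_of_nonneg_left hρ hC.le)
      rw [hWx]
      calc √T * (N : ℝ) ^ 3 / 8 ^ j0 = √T * (N : ℝ) ^ 3 * (1 / 8 ^ j0) := by ring
        _ ≤ √T * (N : ℝ) ^ 3 * (C * x⁻¹) := mul_le_mul_of_nonneg_left h1 (by positivity)
        _ = _ := by ring
    have n3 : (N : ℝ) ^ 3 ≤ N * Wt := by
      rw [hWx, le_div_iff₀ hx0]
      have h1 : x ≤ √T := by
        have : x ≤ x ^ 2 := by nlinarith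
        linarith
      calc (N : ℝ) ^ 3 * x ≤ (N : ℝ) ^ 3 * √T := by gcongr
        _ = _ := by ring
    have hsum : N * T + √T * (N : ℝ) ^ 3 / 8 ^ j0 + √T * (N : ℝ) ^ 2 + (N : ℝ) ^ 3 ≤
        N * ((2 + C) * (T + Wt)) := by
      have h0 : 0 ≤ (N : ℝ) * T := by positivity
      have h1 : 0 ≤ (N : ℝ) * Wt := by positivity
      have h2 : 0 ≤ C * (N * T) := by positivity
      calc N * T + √T * (N : ℝ) ^ 3 / 8 ^ j0 + √T * (N : ℝ) ^ 2 + (N : ℝ) ^ 3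
          ≤ N * T + C * (N * Wt) + N * T + N * Wt := by linarith
        _ ≤ 2 * (N * T) + C * (N * T) + 2 * (N * Wt) + C * (N * Wt) := by linarith
        _ = _ := by ring
    have hV2 : V ≤ N * (C' * C * (1 + Y1) * (2 + C) * (T + Wt)) := by
      calc V ≤ C' * C * (1 + Y1) * (N * ((2 + C) * (T + Wt))) := by rw [hV]; gcongr
        _ = _ := by ring
    have hV3 : 1 / N * S0 * V ≤ S0 * (C' * C * (1 + Y1) * (2 + C) * (T + Wt)) := by
      calc 1 / N * S0 * V ≤ 1 / N * S0 * (N * (C' * C * (1 + Y1) * (2 + C) * (T + Wt))) := by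
            gcongr
        _ = _ := by field_simp
    have hfar3 : 3 * K * C * Wt ≤ 3 * K * C * (T + Wt) := by
      refine mul_le_mul_of_nonneg_left (by linarith) (by positivity)
    have hright : 2 * (∑ i ∈ JJ N, ∑ j ∈ JJ N, conj (α i.1) * α j.1 *
        ∑ σ ∈ S, (KK k (z1 z i) (σ • z1 z j) : ℂ)).re ≤
        S0 * (2 * ((3 * K * C + C' * C * (1 + Y1) * (2 + C)) * (T + Wt))) := by
      have h1 : S0 * (3 * K * C * Wt) ≤ S0 * (3 * K * C * (T + Wt)) :=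
        mul_le_mul_of_nonneg_left hfar3 hSn
      calc 2 * (∑ i ∈ JJ N, ∑ j ∈ JJ N, conj (α i.1) * α j.1 *
        ∑ σ ∈ S, (KK k (z1 z i) (σ • z1 z j) : ℂ)).re
          ≤ 2 * ((‖FF1 α A T N z S‖ + ‖FF1 (fun p => conj (α p)) A T N z S‖) / 2 +
            1 / N * S0 * V) := mul_le_mul_of_nonneg_left hgeo (by norm_num)
        _ ≤ 2 * (S0 * (3 * K * C * (T + Wt)) + S0 * (C' * C * (1 + Y1) * (2 + C) * (T + Wt))) := by
            linarith
        _ = _ := by ring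
    have hleft : S0 ^ 2 * ‖U z‖ ^ 2 ≤ 400 *
        ‖2 * selb k (1 / 2 + t * Complex.I) * ((S0 : ℂ) * U z)‖ ^ 2 := by
      rw [norm_mul, norm_mul, norm_mul, Complex.norm_ofNat, Complex.norm_real, Real.norm_eq_abs,
        abs_of_nonneg hSn]
      have hs := hsel t ht
      set s := ‖selb k (1 / 2 + t * Complex.I)‖
      set u := ‖U z‖
      have h1 : S0 * u ≤ 20 * (2 * s * (S0 * u)) := by
        have h3 : 0 ≤ S0 * u := mul_nonneg hSn (norm_nonneg _)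
        have h4 : 1 / 40 * (S0 * u) ≤ s * (S0 * u) := mul_le_mul_of_nonneg_right hs h3
        linarith
      calc S0 ^ 2 * u ^ 2 = (S0 * u) ^ 2 := by ring
        _ ≤ (20 * (2 * s * (S0 * u))) ^ 2 :=
            pow_le_pow_left₀ (mul_nonneg hSn (norm_nonneg _)) h1 2
        _ = _ := by ring
    rcases hSn.eq_or_lt with hS1 | hS1
    · rw [← hS1, zero_mul]; positivity
    have hfin : S0 * (S0 * ‖U z‖ ^ 2) ≤ S0 * (800 * (3 * K * C + C' * C * (1 + Y1) * (2 + C)) *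
        (T + Wt)) := by
      calc S0 * (S0 * ‖U z‖ ^ 2) = S0 ^ 2 * ‖U z‖ ^ 2 := by ring
        _ ≤ 400 * (S0 * (2 * ((3 * K * C + C' * C * (1 + Y1) * (2 + C)) * (T + Wt)))) :=
            hleft.trans (mul_le_mul_of_nonneg_left (hbes.trans hright) (by norm_num))
        _ = _ := by ring
    refine (le_of_mul_le_mul_left hfin hS1).trans ?_
    exact mul_le_mul_of_nonneg_right (le_max_right _ _) (by positivity)
  · -- small N
    rw [not_lt] at hbig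
    have h1 := hlarge T hT1 t U c ht hFrm z hre him N hN
    have hsT : √T ≤ T := by
      rw [Real.sqrt_le_left (by linarith)]
      nlinarith
    calc (∑ p ∈ PR N, ‖c p‖ ^ 2 / p) * ‖U z‖ ^ 2 ≤ Cw * (1 + z.im) * (T + √T * N ^ 2) := h1
      _ ≤ Cw * (1 + Y1) * (T + T * N₀ ^ 2) := by gcongr
      _ = Cw * (1 + Y1) * (1 + N₀ ^ 2) * T := by ring
      _ ≤ K₀ * (T + √T * (N : ℝ) ^ (2 - δ)) := by
          refine mul_le_mul (le_max_left _ _) (by linarith) hT0.le ?_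
          exact le_max_of_le_left (by positivity)

end Pool.Agent.H19.WB
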