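import Mathlib
import Pool.Agent.H19.WB.St
import Pool.Agent.H19.Sup.N3

set_option autoImplicit false

/-!
# N2: lower bound of `PP` at a complex root (the new point of the project)

Notation: `e = c + i s` (`|e| = 1`), `ē = c - i s`; `w = x1 + i y1`, `w' = x2 + i y2`.  For complex `u` let `V = 3 i + u e`,
`V̄ = - 3 i + u ē`; then `m = (V + V̄) / 2`, `n = (V - V̄) / (2 i)`, `Q1 = (V - w) (V̄ - w̄)`, `Qb1 = (V - w̄) (V̄ - w)`.  So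
`Q1 = (u - r1) (u - r̄1)`, `Qb1 = (u - r3) (u - r̄3)` with `r1 = (w - 3 i) ē`, `r3 = (w̄ - 3 i) ē`, in the same way `Q2, Qb2` with
`r1', r3'`.  (As real polynomials: `Q1 = X² - 2 (Re r1) X + |r1|²`, use `c² + s² = 1`.)  Let `a = Im r1`, `b = Im r3`, `a', b'`.
Facts:
* `|r1|, |r1'| ≤ 2`; `|r3|, |r3'| ≥ 3 + y ≥ 4.8` and `≤ 8`; so `|x - y| ≥ 2.8` for `x ∈ {r1, r̄1, r1', r̄1'}`, `y ∈ {r3, r̄3, r3', r̄3'}`.
* `r1 - r3 = 2 i y1 ē`, so `|r1 - r3| = 2 y1` and `a - b = 2 y1 c`; `a' - b' = 2 y2 c`.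
* `r1 - r1' = (w - w') ē`: `|r1 - r1'| = |w - w'| ≥ μ`; `r3 - r3' = (w̄ - w̄') ē`: `|r3 - r3'| ≥ μ`.
* `n (r1) = - ē (r1 - r̄3) / (2 i)`, so `|n (r1)| = |r1 - r̄3| / 2 ≥ 1.4`; `|n (r3)| = |r3 - r̄1| / 2 ≥ 1.4`.
* `a1 (r1) = Q1' (r1) n (r1) = 2 i a n (r1)`; since `Qb1 - Q1 = 4 y1 n`, also `a1 = Qb1' n - s Qb1`, so `a1 (r3) = 2 i b n (r3)`.
* `R1' (r1) = (r1 - r̄1) (r1 - r3) (r1 - r̄3)`, `|R1' (r1)| = 2 |a| 2 y1 2 |n (r1)|`; `R1' (r3) = (r3 - r̄3) (r3 - r1) (r3 - r̄1)`.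
* `R2 (r1) = (r1 - r1') (r1 - r̄1') (r1 - r3') (r1 - r̄3')`, `|R2 (r1)| ≥ μ |a + a'| 2.8²` (`Im (r1 - r̄1') = a + a'`);
  `|R2 (r3)| ≥ μ |b + b'| 2.8²`.
* `al1 (j+1) (u0) = (1/2 - (j+1)) n(u0) R1'(u0) al1 j (u0)` if `R1 (u0) = 0` (compare `Sup.N3_al`), so at `r1`:
  `|al1 j| ≥ c |a|^(j+1)`.
Since `(a + a') - (b + b') = 2 (y1 + y2) c`, one of `|a + a'|`, `|b + b'|` is at least `(y1 + y2) |c| ≥ 3.6 μ`.  If it is the first,
one of `|a|, |a'|` is at least `1.8 μ`: take `u0 = r1` or `u0 = r1'` (for `r1'` exchange the roles: `PP` is antisymmetric under the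
exchange of `(x1, y1)` and `(x2, y2)`; it is convenient to prove the bound for a general statement and apply it to the exchanged
`Lin`); if it is the second, `u0 = r3` or `r3'`.  In all cases `|PP j (u0)| = |al1 j (u0)|² |R2 (u0)|^(2j+1) ≥ c (μ^(j+1))² (μ²)^(2j+1) = c μ^(6j+4)`.
-/

namespace Pool.Agent.H19.WB

open Polynomial
open Pool.Agent.H19.Maass Pool.Agent.H19.Sup

/-- the root of `Q1` -/
private noncomputable def rr (c s x y : ℝ) : ℂ :=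
  ((x * c + (y - 3) * s : ℝ) : ℂ) + (((y - 3) * c - x * s : ℝ) : ℂ) * Complex.I

private theorem rr_im (c s x y : ℝ) : (rr c s x y).im = (y - 3) * c - x * s := by
  unfold rr
  simp

private theorem rr_sq (c s x y : ℝ) (h : c ^ 2 + s ^ 2 = 1) :
    ‖rr c s x y‖ ^ 2 = x ^ 2 + (y - 3) ^ 2 := by
  unfold rr
  rw [Complex.sq_norm, Complex.normSq_add_mul_I]
  linear_combination (x ^ 2 + (y - 3) ^ 2) * h

private theorem rr_sub (c s x y x' y' : ℝ) (h : c ^ 2 + s ^ 2 = 1) :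
    ‖rr c s x y - rr c s x' y'‖ ^ 2 = (x - x') ^ 2 + (y - y') ^ 2 := by
  have e : rr c s x y - rr c s x' y' =
      (((x - x') * c + (y - y') * s : ℝ) : ℂ) + (((y - y') * c - (x - x') * s : ℝ) : ℂ) * Complex.I := by
    unfold rr
    push_cast
    ring
  rw [e, Complex.sq_norm, Complex.normSq_add_mul_I]
  linear_combination ((x - x') ^ 2 + (y - y') ^ 2) * h

private theorem rr_conj (c s x y : ℝ) : (starRingEnd ℂ) (rr c s x y) =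
    ((x * c + (y - 3) * s : ℝ) : ℂ) - (((y - 3) * c - x * s : ℝ) : ℂ) * Complex.I := by
  unfold rr
  rw [map_add, map_mul, Complex.conj_ofReal, Complex.conj_ofReal, Complex.conj_I]
  ring

private theorem aev_n (p : Lin) (u : ℂ) : aeval u p.n = 3 + (p.s : ℂ) * u := by
  unfold Lin.n Par.n Lin.q
  simp [aeval_C]

private theorem aev_m (p : Lin) (u : ℂ) : aeval u p.m = (p.c : ℂ) * u := by
  unfold Lin.m
  simp [aeval_C]

private theorem hcsC (p : Lin) (h : p.c ^ 2 + p.s ^ 2 = 1) : (p.c : ℂ) ^ 2 + (p.s : ℂ) ^ 2 = 1 := by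
  exact_mod_cast congrArg (fun t : ℝ => (t : ℂ)) h

private theorem fac (c s x y : ℝ) (h : c ^ 2 + s ^ 2 = 1) (u : ℂ) :
    ((c : ℂ) * u - x) ^ 2 + (3 + (s : ℂ) * u - y) ^ 2 =
      (u - rr c s x y) * (u - (starRingEnd ℂ) (rr c s x y)) := by
  have h' : (c : ℂ) ^ 2 + (s : ℂ) ^ 2 = 1 := by
    exact_mod_cast congrArg (fun t : ℝ => (t : ℂ)) h
  have hI : Complex.I ^ 2 = -1 := Complex.I_sq
  rw [rr_conj]
  unfold rr
  push_cast
  linear_combination (u ^ 2 - ((x : ℂ) ^ 2 + ((y : ℂ) - 3) ^ 2)) * h' +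
    (((y : ℂ) - 3) * c - x * s) ^ 2 * hI

private theorem aev_Q1 (p : Lin) (h : p.c ^ 2 + p.s ^ 2 = 1) (u : ℂ) : aeval u p.Q1 =
    (u - rr p.c p.s p.x1 p.y1) * (u - (starRingEnd ℂ) (rr p.c p.s p.x1 p.y1)) := by
  rw [← fac p.c p.s p.x1 p.y1 h u]
  unfold Lin.Q1
  simp only [map_add, map_sub, map_pow, aev_n, aev_m, aeval_C, Complex.coe_algebraMap]

private theorem aev_Q2 (p : Lin) (h : p.c ^ 2 + p.s ^ 2 = 1) (u : ℂ) : aeval u p.Q2 =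
    (u - rr p.c p.s p.x2 p.y2) * (u - (starRingEnd ℂ) (rr p.c p.s p.x2 p.y2)) := by
  rw [← fac p.c p.s p.x2 p.y2 h u]
  unfold Lin.Q2
  simp only [map_add, map_sub, map_pow, aev_n, aev_m, aeval_C, Complex.coe_algebraMap]

private theorem aev_Qb2 (p : Lin) (h : p.c ^ 2 + p.s ^ 2 = 1) (u : ℂ) : aeval u p.Qb2 =
    (u - rr p.c p.s p.x2 (-p.y2)) * (u - (starRingEnd ℂ) (rr p.c p.s p.x2 (-p.y2))) := by
  rw [← fac p.c p.s p.x2 (-p.y2) h u]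
  unfold Lin.Qb2
  simp only [map_add, map_sub, map_pow, aev_n, aev_m, aeval_C, Complex.coe_algebraMap]
  push_cast
  ring

private theorem core_al (p : Lin) (hcs : p.c ^ 2 + p.s ^ 2 = 1) (hy1 : 9 / 5 ≤ |p.y1|)
    (hn : 1 ≤ ‖aeval (rr p.c p.s p.x1 p.y1) p.n‖) :
    aeval (rr p.c p.s p.x1 p.y1) p.R1 = 0 ∧ ∀ j : ℕ, |(p.y1 - 3) * p.c - p.x1 * p.s| ^ (j + 1) ≤
      ‖aeval (rr p.c p.s p.x1 p.y1) (p.al1 j)‖ := by
  set u0 : ℂ := rr p.c p.s p.x1 p.y1 with hu0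
  set a : ℝ := (p.y1 - 3) * p.c - p.x1 * p.s with ha
  set nn : ℂ := aeval u0 p.n with hnn
  have hQ0 : aeval u0 p.Q1 = 0 := by
    rw [aev_Q1 p hcs u0, ← hu0, sub_self, zero_mul]
  have hdm : derivative p.m = C p.c := by
    unfold Lin.m
    simp
  have hdn : derivative p.n = C p.s := by
    unfold Lin.n Par.n Lin.q
    simp
  have hQb : aeval u0 p.Qb1 = 4 * (p.y1 : ℂ) * nn := by
    have h1 : aeval u0 p.Qb1 = aeval u0 p.Q1 + 4 * (p.y1 : ℂ) * nn := by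
      unfold Lin.Qb1 Lin.Q1
      simp only [map_add, map_sub, map_pow, aeval_C, Complex.coe_algebraMap]
      rw [← hnn]
      ring
    rw [h1, hQ0, zero_add]
  have hdQ : aeval u0 (derivative p.Q1) = 2 * (a : ℂ) * Complex.I := by
    have h' := hcsC p hcs
    unfold Lin.Q1
    simp only [derivative_add, derivative_pow, derivative_sub, derivative_C, hdm, hdn, map_add, map_mul,
      map_pow, map_sub, aev_n, aev_m, aeval_C, Complex.coe_algebraMap, map_natCast, sub_zero]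
    rw [hu0, ha]
    unfold rr
    push_cast
    linear_combination (2 * (((p.x1 : ℂ) * p.c + ((p.y1 : ℂ) - 3) * p.s) +
      (((p.y1 : ℂ) - 3) * p.c - (p.x1 : ℂ) * p.s) * Complex.I)) * h'
  have hR0 : aeval u0 p.R1 = 0 := by
    unfold Lin.R1
    rw [map_mul, hQ0, zero_mul]
  have hdR : aeval u0 (derivative p.R1) = 2 * (a : ℂ) * Complex.I * (4 * (p.y1 : ℂ) * nn) := by
    unfold Lin.R1
    rw [derivative_mul, map_add, map_mul, map_mul, hQ0, zero_mul, add_zero, hdQ, hQb]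
  have hna : p.q.n = p.n := rfl
  have hq1 : p.q.n1 = p.s := rfl
  refine ⟨hR0, ?_⟩
  intro j
  induction j with
  | zero =>
    have e : aeval u0 (p.al1 0) = 2 * (a : ℂ) * Complex.I * nn := by
      unfold Lin.al1
      rw [Par.al]
      unfold Lin.a1
      rw [map_sub, map_mul, map_mul, hQ0, hdQ, mul_zero, sub_zero]
    rw [e, norm_mul, norm_mul, norm_mul, Complex.norm_I, Complex.norm_real, Real.norm_eq_abs]
    have h2 : ‖(2 : ℂ)‖ = 2 := by norm_num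
    rw [h2, zero_add, pow_one]
    have h3 : 0 ≤ |a| := abs_nonneg a
    nlinarith
  | succ j ih =>
    have e : aeval u0 (p.al1 (j + 1)) = (((1 / 2 - (j + 1 : ℝ) : ℝ)) : ℂ) * nn *
        (2 * (a : ℂ) * Complex.I * (4 * (p.y1 : ℂ) * nn)) * aeval u0 (p.al1 j) := by
      rw [← hdR]
      unfold Lin.al1
      rw [Par.al]
      simp only [map_add, map_sub, map_mul, aeval_C, hna, ← hnn, hR0, Complex.coe_algebraMap]
      push_cast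
      ring
    rw [e, norm_mul, norm_mul, norm_mul, norm_mul, norm_mul, norm_mul, norm_mul, norm_mul, Complex.norm_I,
      Complex.norm_real, Complex.norm_real, Complex.norm_real, Real.norm_eq_abs, Real.norm_eq_abs,
      Real.norm_eq_abs]
    have h2 : ‖(2 : ℂ)‖ = 2 := by norm_num
    have h4 : ‖(4 : ℂ)‖ = 4 := by norm_num
    rw [h2, h4]
    have h1 : (1 : ℝ) / 2 ≤ |1 / 2 - ((j : ℝ) + 1)| := by
      rw [abs_sub_comm, abs_of_nonneg (by have : (0 : ℝ) ≤ j := Nat.cast_nonneg j; linarith)]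
      have : (0 : ℝ) ≤ j := Nat.cast_nonneg j
      linarith
    have h3 : 0 ≤ |a| := abs_nonneg a
    calc |a| ^ (j + 1 + 1) = |a| * |a| ^ (j + 1) := by rw [pow_succ]; ring
      _ ≤ (1 / 2 * 1 * (2 * |a| * 1 * (4 * (9 / 5) * 1))) * |a| ^ (j + 1) := by
          gcongr
          nlinarith
      _ ≤ |1 / 2 - ((j : ℝ) + 1)| * ‖nn‖ * (2 * |a| * 1 * (4 * |p.y1| * ‖nn‖)) *
          ‖aeval u0 (p.al1 j)‖ := by gcongr

private theorem core (j : ℕ) (p : Lin) (μ : ℝ) (hμ : 0 < μ) (hcs : p.c ^ 2 + p.s ^ 2 = 1)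
    (hy1 : 9 / 5 ≤ |p.y1|) (hne : μ ^ 2 ≤ (p.x1 - p.x2) ^ 2 + (p.y1 - p.y2) ^ 2)
    (hn : 1 ≤ ‖aeval (rr p.c p.s p.x1 p.y1) p.n‖)
    (hQb : 1 ≤ ‖aeval (rr p.c p.s p.x1 p.y1) p.Qb2‖)
    (ha : μ ≤ |(p.y1 - 3) * p.c - p.x1 * p.s|)
    (haa : μ ≤ |((p.y1 - 3) * p.c - p.x1 * p.s) + ((p.y2 - 3) * p.c - p.x2 * p.s)|) :
    μ ^ (6 * j + 4) ≤ ‖aeval (rr p.c p.s p.x1 p.y1) (p.PP j)‖ := by
  obtain ⟨hR0, hal⟩ := core_al p hcs hy1 hn
  set u0 : ℂ := rr p.c p.s p.x1 p.y1 with hu0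
  have hR2 : μ * μ ≤ ‖aeval u0 p.R2‖ := by
    unfold Lin.R2
    rw [map_mul, norm_mul, aev_Q2 p hcs u0, norm_mul]
    have h1 : μ ≤ ‖u0 - rr p.c p.s p.x2 p.y2‖ := by
      have h2 : μ ^ 2 ≤ ‖u0 - rr p.c p.s p.x2 p.y2‖ ^ 2 := by
        rw [hu0, rr_sub _ _ _ _ _ _ hcs]
        exact hne
      exact le_of_sq_le_sq h2 (norm_nonneg _)
    have h3 : μ ≤ ‖u0 - (starRingEnd ℂ) (rr p.c p.s p.x2 p.y2)‖ := by
      refine le_trans ?_ (Complex.abs_im_le_norm _)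
      rw [Complex.sub_im, Complex.conj_im, hu0, rr_im, rr_im, sub_neg_eq_add]
      exact haa
    calc μ * μ = μ * μ * 1 := by ring
      _ ≤ _ := by gcongr
  have e : aeval u0 (p.PP j) = (aeval u0 (p.al1 j)) ^ 2 * (aeval u0 p.R2) ^ (2 * j + 1) := by
    unfold Lin.PP
    rw [map_sub, map_mul, map_mul, map_pow, map_pow, map_pow, map_pow, hR0,
      zero_pow (by omega), mul_zero, sub_zero]
  rw [e, norm_mul, norm_pow, norm_pow]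
  calc μ ^ (6 * j + 4) = (μ ^ (j + 1)) ^ 2 * (μ * μ) ^ (2 * j + 1) := by
        rw [← pow_mul, ← pow_two, ← pow_mul, ← pow_add]
        congr 1
        ring
    _ ≤ (|(p.y1 - 3) * p.c - p.x1 * p.s| ^ (j + 1)) ^ 2 * (μ * μ) ^ (2 * j + 1) := by gcongr
    _ ≤ ‖aeval u0 (p.al1 j)‖ ^ 2 * ‖aeval u0 p.R2‖ ^ (2 * j + 1) := by
        have := hal j
        gcongr

/-- exchange of the two points -/
private def sw (p : Lin) : Lin := ⟨p.c, p.s, p.x2, p.y2, p.x1, p.y1⟩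

/-- change of the signs of `y1`, `y2` -/
private def ng (p : Lin) : Lin := ⟨p.c, p.s, p.x1, -p.y1, p.x2, -p.y2⟩

private theorem sw_PP (p : Lin) (j : ℕ) : (sw p).PP j = - p.PP j := by
  have h1 : (sw p).R1 = p.R2 := rfl
  have h2 : (sw p).R2 = p.R1 := rfl
  have h3 : (sw p).al1 j = p.al2 j := rfl
  have h4 : (sw p).al2 j = p.al1 j := rfl
  unfold Lin.PP
  rw [h1, h2, h3, h4]
  ring

private theorem ng_PP (p : Lin) (j : ℕ) : (ng p).PP j = p.PP j := by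
  have hm : (ng p).m = p.m := rfl
  have hn : (ng p).n = p.n := rfl
  have hq : (ng p).q = p.q := rfl
  have hs : (ng p).s = p.s := rfl
  have hdn : derivative p.n = C p.s := by
    unfold Lin.n Par.n Lin.q
    simp
  have q1 : (ng p).Q1 = p.Qb1 := by
    unfold Lin.Q1 Lin.Qb1
    rw [hm, hn]
    change (p.m - C p.x1) ^ 2 + (p.n - C (-p.y1)) ^ 2 = _
    rw [C_neg]
    ring
  have q1' : (ng p).Qb1 = p.Q1 := by
    unfold Lin.Q1 Lin.Qb1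
    rw [hm, hn]
    change (p.m - C p.x1) ^ 2 + (p.n + C (-p.y1)) ^ 2 = _
    rw [C_neg]
    ring
  have q2 : (ng p).Q2 = p.Qb2 := by
    unfold Lin.Q2 Lin.Qb2
    rw [hm, hn]
    change (p.m - C p.x2) ^ 2 + (p.n - C (-p.y2)) ^ 2 = _
    rw [C_neg]
    ring
  have q2' : (ng p).Qb2 = p.Q2 := by
    unfold Lin.Q2 Lin.Qb2
    rw [hm, hn]
    change (p.m - C p.x2) ^ 2 + (p.n + C (-p.y2)) ^ 2 = _
    rw [C_neg]
    ring
  have e1 : p.Qb1 = p.Q1 + 4 * C p.y1 * p.n := by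
    unfold Lin.Q1 Lin.Qb1
    ring
  have e2 : p.Qb2 = p.Q2 + 4 * C p.y2 * p.n := by
    unfold Lin.Q2 Lin.Qb2
    ring
  have a1 : (ng p).a1 = p.a1 := by
    unfold Lin.a1
    rw [q1, hn, hs, e1]
    simp only [derivative_add, derivative_mul, derivative_C, hdn, derivative_ofNat]
    ring
  have a2 : (ng p).a2 = p.a2 := by
    unfold Lin.a2
    rw [q2, hn, hs, e2]
    simp only [derivative_add, derivative_mul, derivative_C, hdn, derivative_ofNat]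
    ring
  have r1 : (ng p).R1 = p.R1 := by
    unfold Lin.R1
    rw [q1, q1']
    ring
  have r2 : (ng p).R2 = p.R2 := by
    unfold Lin.R2
    rw [q2, q2']
    ring
  unfold Lin.PP Lin.al1 Lin.al2
  rw [hq, a1, a2, r1, r2]

/-- the norm of `n` at the root -/
private theorem n_rr (p : Lin) (h : p.c ^ 2 + p.s ^ 2 = 1) (x y : ℝ) :
    ‖(x : ℂ) + ((y + 3 : ℝ) : ℂ) * Complex.I - rr p.c p.s x y * ((p.c : ℂ) - p.s * Complex.I)‖ =
      2 * ‖aeval (rr p.c p.s x y) p.n‖ := by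
  have h' := hcsC p h
  have hI : Complex.I ^ 2 = -1 := Complex.I_sq
  have e : (x : ℂ) + ((y + 3 : ℝ) : ℂ) * Complex.I - rr p.c p.s x y * ((p.c : ℂ) - p.s * Complex.I) =
      2 * Complex.I * aeval (rr p.c p.s x y) p.n := by
    rw [aev_n]
    unfold rr
    push_cast
    linear_combination (-(x : ℂ) - ((y : ℂ) - 3) * Complex.I) * h' +
      (-(((y : ℂ) - 3) * p.c - x * p.s) * p.s) * hI
  rw [e, norm_mul, norm_mul, Complex.norm_I]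
  have h2 : ‖(2 : ℂ)‖ = 2 := by norm_num
  rw [h2]
  ring

private theorem e_norm (p : Lin) (h : p.c ^ 2 + p.s ^ 2 = 1) : ‖(p.c : ℂ) - p.s * Complex.I‖ = 1 := by
  have e : (p.c : ℂ) - p.s * Complex.I = (p.c : ℂ) + ((-p.s : ℝ) : ℂ) * Complex.I := by
    push_cast
    ring
  have h2 : ‖(p.c : ℂ) - p.s * Complex.I‖ ^ 2 = 1 := by
    rw [e, Complex.sq_norm, Complex.normSq_add_mul_I]
    linarith
  have h3 := norm_nonneg ((p.c : ℂ) - p.s * Complex.I)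
  nlinarith

private theorem low_of_sq {z : ℂ} {q : ℝ} (h : q ≤ ‖z‖ ^ 2) (hq : (24 / 5 : ℝ) ^ 2 ≤ q) : 24 / 5 ≤ ‖z‖ :=
  le_of_sq_le_sq (hq.trans h) (norm_nonneg _)

private theorem up_of_sq {z : ℂ} {q r : ℝ} (h : ‖z‖ ^ 2 = q) (hq : q ≤ r ^ 2) (hr : 0 ≤ r) : ‖z‖ ≤ r :=
  le_of_sq_le_sq (h.le.trans hq) hr

private theorem n_low (p : Lin) (h : p.c ^ 2 + p.s ^ 2 = 1) (x y : ℝ)
    (hxy : (x ^ 2 + (y - 3) ^ 2 ≤ 4 ∧ (24 / 5) ^ 2 ≤ x ^ 2 + (y + 3) ^ 2) ∨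
      (x ^ 2 + (y + 3) ^ 2 ≤ 4 ∧ (24 / 5) ^ 2 ≤ x ^ 2 + (y - 3) ^ 2)) :
    1 ≤ ‖aeval (rr p.c p.s x y) p.n‖ := by
  have h1 := n_rr p h x y
  have h2 := e_norm p h
  have h3 : ‖(x : ℂ) + ((y + 3 : ℝ) : ℂ) * Complex.I‖ ^ 2 = x ^ 2 + (y + 3) ^ 2 := by
    rw [Complex.sq_norm, Complex.normSq_add_mul_I]
  have h4 := rr_sq p.c p.s x y h
  have h5 : ‖rr p.c p.s x y * ((p.c : ℂ) - p.s * Complex.I)‖ = ‖rr p.c p.s x y‖ := by
    rw [norm_mul, h2, mul_one]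
  rcases hxy with ⟨ha, hb⟩ | ⟨ha, hb⟩
  · have h6 : ‖rr p.c p.s x y‖ ≤ 2 := up_of_sq h4 (by linarith) (by norm_num)
    have h7 : 24 / 5 ≤ ‖(x : ℂ) + ((y + 3 : ℝ) : ℂ) * Complex.I‖ := low_of_sq h3.ge hb
    have h8 := norm_sub_norm_le ((x : ℂ) + ((y + 3 : ℝ) : ℂ) * Complex.I)
      (rr p.c p.s x y * ((p.c : ℂ) - p.s * Complex.I))
    rw [h5, h1] at h8
    linarith
  · have h6 : ‖(x : ℂ) + ((y + 3 : ℝ) : ℂ) * Complex.I‖ ≤ 2 := up_of_sq h3 (by linarith) (by norm_num)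
    have h7 : 24 / 5 ≤ ‖rr p.c p.s x y‖ := low_of_sq h4.ge hb
    have h8 := norm_sub_norm_le (rr p.c p.s x y * ((p.c : ℂ) - p.s * Complex.I))
      ((x : ℂ) + ((y + 3 : ℝ) : ℂ) * Complex.I)
    rw [h5, norm_sub_rev, h1] at h8
    linarith

private theorem Qb_low (p : Lin) (h : p.c ^ 2 + p.s ^ 2 = 1)
    (hxy : (p.x1 ^ 2 + (p.y1 - 3) ^ 2 ≤ 4 ∧ (24 / 5) ^ 2 ≤ p.x2 ^ 2 + (-p.y2 - 3) ^ 2) ∨
      (p.x2 ^ 2 + (-p.y2 - 3) ^ 2 ≤ 4 ∧ (24 / 5) ^ 2 ≤ p.x1 ^ 2 + (p.y1 - 3) ^ 2)) :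
    1 ≤ ‖aeval (rr p.c p.s p.x1 p.y1) p.Qb2‖ := by
  rw [aev_Qb2 p h, norm_mul]
  have h1 := rr_sq p.c p.s p.x1 p.y1 h
  have h2 := rr_sq p.c p.s p.x2 (-p.y2) h
  have h3 : ‖(starRingEnd ℂ) (rr p.c p.s p.x2 (-p.y2))‖ = ‖rr p.c p.s p.x2 (-p.y2)‖ :=
    RCLike.norm_conj _
  have key : 1 ≤ ‖rr p.c p.s p.x1 p.y1 - rr p.c p.s p.x2 (-p.y2)‖ ∧
      1 ≤ ‖rr p.c p.s p.x1 p.y1 - (starRingEnd ℂ) (rr p.c p.s p.x2 (-p.y2))‖ := by
    rcases hxy with ⟨ha, hb⟩ | ⟨ha, hb⟩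
    · have h4 : ‖rr p.c p.s p.x1 p.y1‖ ≤ 2 := up_of_sq h1 (by linarith) (by norm_num)
      have h5 : 24 / 5 ≤ ‖rr p.c p.s p.x2 (-p.y2)‖ := low_of_sq h2.ge hb
      have h6 := norm_sub_norm_le (rr p.c p.s p.x2 (-p.y2)) (rr p.c p.s p.x1 p.y1)
      have h7 := norm_sub_norm_le ((starRingEnd ℂ) (rr p.c p.s p.x2 (-p.y2))) (rr p.c p.s p.x1 p.y1)
      rw [norm_sub_rev] at h6 h7
      rw [h3] at h7
      exact ⟨by linarith, by linarith⟩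
    · have h4 : ‖rr p.c p.s p.x2 (-p.y2)‖ ≤ 2 := up_of_sq h2 (by linarith) (by norm_num)
      have h5 : 24 / 5 ≤ ‖rr p.c p.s p.x1 p.y1‖ := low_of_sq h1.ge hb
      have h6 := norm_sub_norm_le (rr p.c p.s p.x1 p.y1) (rr p.c p.s p.x2 (-p.y2))
      have h7 := norm_sub_norm_le (rr p.c p.s p.x1 p.y1) ((starRingEnd ℂ) (rr p.c p.s p.x2 (-p.y2)))
      rw [h3] at h7
      exact ⟨by linarith, by linarith⟩
  nlinarith [key.1, key.2]

/-- the bound, if the sum of the imaginary parts of the small roots is large -/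
private theorem small_case (j : ℕ) (p : Lin) (μ : ℝ) (h : p.Good μ)
    (haa : 2 * μ ≤ |((p.y1 - 3) * p.c - p.x1 * p.s) + ((p.y2 - 3) * p.c - p.x2 * p.s)|) :
    ∃ u0 : ℂ, ‖u0‖ ≤ 10 ∧ μ ^ (6 * j + 4) ≤ ‖aeval u0 (p.PP j)‖ := by
  obtain ⟨hμ, hμ1, hcs, hc, hy1, hy2, hw1, hw2, hne⟩ := h
  have hor : μ ≤ |(p.y1 - 3) * p.c - p.x1 * p.s| ∨ μ ≤ |(p.y2 - 3) * p.c - p.x2 * p.s| := by
    by_contra hcon
    push Not at hcon
    have := abs_add_le ((p.y1 - 3) * p.c - p.x1 * p.s) ((p.y2 - 3) * p.c - p.x2 * p.s)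
    linarith [hcon.1, hcon.2]
  have l1 : (24 / 5 : ℝ) ^ 2 ≤ p.x1 ^ 2 + (p.y1 + 3) ^ 2 := by nlinarith [hy1.1, sq_nonneg p.x1]
  have l2 : (24 / 5 : ℝ) ^ 2 ≤ p.x2 ^ 2 + (p.y2 + 3) ^ 2 := by nlinarith [hy2.1, sq_nonneg p.x2]
  rcases hor with ha | ha
  · refine ⟨rr p.c p.s p.x1 p.y1, ?_, ?_⟩
    · exact (up_of_sq (rr_sq p.c p.s p.x1 p.y1 hcs) (by linarith) (by norm_num : (0 : ℝ) ≤ 2)).trans
        (by norm_num)
    · refine core j p μ hμ hcs ?_ hne (n_low p hcs _ _ (Or.inl ⟨hw1, l1⟩)) (Qb_low p hcs (Or.inl ⟨hw1, ?_⟩))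
        ha (by linarith)
      · rw [abs_of_nonneg (by linarith [hy1.1])]
        exact hy1.1
      · have e : p.x2 ^ 2 + (-p.y2 - 3) ^ 2 = p.x2 ^ 2 + (p.y2 + 3) ^ 2 := by ring
        rw [e]
        exact l2
  · refine ⟨rr p.c p.s p.x2 p.y2, ?_, ?_⟩
    · exact (up_of_sq (rr_sq p.c p.s p.x2 p.y2 hcs) (by linarith) (by norm_num : (0 : ℝ) ≤ 2)).trans
        (by norm_num)
    · have h1 := core j (sw p) μ hμ hcs (by
          change 9 / 5 ≤ |p.y2|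
          rw [abs_of_nonneg (by linarith [hy2.1])]
          exact hy2.1) (by
          change μ ^ 2 ≤ (p.x2 - p.x1) ^ 2 + (p.y2 - p.y1) ^ 2
          nlinarith [hne]) (n_low (sw p) hcs _ _ (Or.inl ⟨hw2, l2⟩))
          (Qb_low (sw p) hcs (Or.inl ⟨hw2, by
            change (24 / 5 : ℝ) ^ 2 ≤ p.x1 ^ 2 + (-p.y1 - 3) ^ 2
            have e : p.x1 ^ 2 + (-p.y1 - 3) ^ 2 = p.x1 ^ 2 + (p.y1 + 3) ^ 2 := by ring
            rw [e]
            exact l1⟩)) ha (by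
            change μ ≤ |((p.y2 - 3) * p.c - p.x2 * p.s) + ((p.y1 - 3) * p.c - p.x1 * p.s)|
            rw [add_comm]
            linarith)
      rw [sw_PP, map_neg, norm_neg] at h1
      exact h1

/-- the bound, if the sum of the imaginary parts of the large roots is large -/
private theorem large_case (j : ℕ) (p : Lin) (μ : ℝ) (h : p.Good μ)
    (haa : 2 * μ ≤ |((-p.y1 - 3) * p.c - p.x1 * p.s) + ((-p.y2 - 3) * p.c - p.x2 * p.s)|) :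
    ∃ u0 : ℂ, ‖u0‖ ≤ 10 ∧ μ ^ (6 * j + 4) ≤ ‖aeval u0 (p.PP j)‖ := by
  obtain ⟨hμ, hμ1, hcs, hc, hy1, hy2, hw1, hw2, hne⟩ := h
  have hor : μ ≤ |(-p.y1 - 3) * p.c - p.x1 * p.s| ∨ μ ≤ |(-p.y2 - 3) * p.c - p.x2 * p.s| := by
    by_contra hcon
    push Not at hcon
    have := abs_add_le ((-p.y1 - 3) * p.c - p.x1 * p.s) ((-p.y2 - 3) * p.c - p.x2 * p.s)
    linarith [hcon.1, hcon.2]
  have l1 : (24 / 5 : ℝ) ^ 2 ≤ p.x1 ^ 2 + (-p.y1 - 3) ^ 2 := by nlinarith [hy1.1, sq_nonneg p.x1]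
  have l2 : (24 / 5 : ℝ) ^ 2 ≤ p.x2 ^ 2 + (-p.y2 - 3) ^ 2 := by nlinarith [hy2.1, sq_nonneg p.x2]
  have s1 : p.x1 ^ 2 + (-p.y1 + 3) ^ 2 ≤ 4 := by nlinarith [hw1]
  have s2 : p.x2 ^ 2 + (-p.y2 + 3) ^ 2 ≤ 4 := by nlinarith [hw2]
  have u1 : p.x1 ^ 2 + (-p.y1 - 3) ^ 2 ≤ 10 ^ 2 := by nlinarith [hw1, hy1.2, hy1.1]
  have u2 : p.x2 ^ 2 + (-p.y2 - 3) ^ 2 ≤ 10 ^ 2 := by nlinarith [hw2, hy2.2, hy2.1]
  rcases hor with ha | ha
  · refine ⟨rr p.c p.s p.x1 (-p.y1), up_of_sq (rr_sq p.c p.s p.x1 (-p.y1) hcs) u1 (by norm_num), ?_⟩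
    have h1 := core j (ng p) μ hμ hcs (by
        change 9 / 5 ≤ |-p.y1|
        rw [abs_neg, abs_of_nonneg (by linarith [hy1.1])]
        exact hy1.1) (by
        change μ ^ 2 ≤ (p.x1 - p.x2) ^ 2 + (-p.y1 - -p.y2) ^ 2
        nlinarith [hne]) (n_low (ng p) hcs _ _ (Or.inr ⟨s1, l1⟩))
        (Qb_low (ng p) hcs (Or.inr ⟨by
          change p.x2 ^ 2 + (- -p.y2 - 3) ^ 2 ≤ 4
          rw [neg_neg]
          exact hw2, l1⟩)) ha (by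
          change μ ≤ |((-p.y1 - 3) * p.c - p.x1 * p.s) + ((-p.y2 - 3) * p.c - p.x2 * p.s)|
          linarith)
    rw [ng_PP] at h1
    exact h1
  · refine ⟨rr p.c p.s p.x2 (-p.y2), up_of_sq (rr_sq p.c p.s p.x2 (-p.y2) hcs) u2 (by norm_num), ?_⟩
    have h1 := core j (ng (sw p)) μ hμ hcs (by
        change 9 / 5 ≤ |-p.y2|
        rw [abs_neg, abs_of_nonneg (by linarith [hy2.1])]
        exact hy2.1) (by
        change μ ^ 2 ≤ (p.x2 - p.x1) ^ 2 + (-p.y2 - -p.y1) ^ 2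
        nlinarith [hne]) (n_low (ng (sw p)) hcs _ _ (Or.inr ⟨s2, l2⟩))
        (Qb_low (ng (sw p)) hcs (Or.inr ⟨by
          change p.x1 ^ 2 + (- -p.y1 - 3) ^ 2 ≤ 4
          rw [neg_neg]
          exact hw1, l2⟩)) ha (by
          change μ ≤ |((-p.y2 - 3) * p.c - p.x2 * p.s) + ((-p.y1 - 3) * p.c - p.x1 * p.s)|
          rw [add_comm]
          linarith)
    rw [ng_PP, sw_PP, map_neg, norm_neg] at h1
    exact h1

theorem root_lower_w (j : ℕ) : ∃ K : ℝ, 0 < K ∧ ∀ (p : Lin) (μ : ℝ), p.Good μ →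
    ∃ u0 : ℂ, ‖u0‖ ≤ 10 ∧ μ ^ (6 * j + 4) ≤ K * ‖aeval u0 (p.PP j)‖ := by
  refine ⟨1, one_pos, fun p μ h => ?_⟩
  have hc := h.hc
  have hμ := h.hμ
  have hy1 := h.hy1
  have hy2 := h.hy2
  have key : (((p.y1 - 3) * p.c - p.x1 * p.s) + ((p.y2 - 3) * p.c - p.x2 * p.s)) -
      (((-p.y1 - 3) * p.c - p.x1 * p.s) + ((-p.y2 - 3) * p.c - p.x2 * p.s)) =
      2 * (p.y1 + p.y2) * p.c := by ring
  have hbig : 4 * μ ≤ |2 * (p.y1 + p.y2) * p.c| := by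
    rw [abs_mul, abs_of_nonneg (by linarith [hy1.1, hy2.1] : (0 : ℝ) ≤ 2 * (p.y1 + p.y2))]
    nlinarith [hy1.1, hy2.1]
  have hor : 2 * μ ≤ |((p.y1 - 3) * p.c - p.x1 * p.s) + ((p.y2 - 3) * p.c - p.x2 * p.s)| ∨
      2 * μ ≤ |((-p.y1 - 3) * p.c - p.x1 * p.s) + ((-p.y2 - 3) * p.c - p.x2 * p.s)| := by
    by_contra hcon
    push Not at hcon
    have h1 := abs_sub (((p.y1 - 3) * p.c - p.x1 * p.s) + ((p.y2 - 3) * p.c - p.x2 * p.s))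
      (((-p.y1 - 3) * p.c - p.x1 * p.s) + ((-p.y2 - 3) * p.c - p.x2 * p.s))
    rw [key] at h1
    linarith [hcon.1, hcon.2]
  rcases hor with h1 | h1
  · obtain ⟨u0, ha, hb⟩ := small_case j p μ h h1
    exact ⟨u0, ha, by rw [one_mul]; exact hb⟩
  · obtain ⟨u0, ha, hb⟩ := large_case j p μ h h1
    exact ⟨u0, ha, by rw [one_mul]; exact hb⟩

end Pool.Agent.H19.WB
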