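import Mathlib
import Pool.Agent.H19.WB.N1
import Pool.Agent.H19.WB.N2
import Pool.Agent.H19.Sup.N5

set_option autoImplicit false

/-!
# N3: nondegeneracy of the phase of a line

Degree: `m, n ≤ 1`, `Q1, Qb1 ≤ 2`, `R1 ≤ 4`, `a1 ≤ 2`, `al1 j ≤ 4 j + 2` (induction, compare `Sup.N4_al`), `PP j ≤ 16 j + 8`.
At the nodes `|PP (u i)| ≤ K ε`: `Sup.N5_alg` (with `n ≤ 44`: `n = 3 + s u ≤ 43`) and `al_bound_w`.
Then `Sup.interp` with `d = 16 j + 8`, `M = 40`, `u0` of `root_lower_w`: `‖PP (u0)‖ ≤ (d + 1) K ε (80 / g)^d`.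
Compare `Pool.Agent.H36.XD.nondeg_x` (`H36/XD/N.lean`).
-/

namespace Pool.Agent.H19.WB

open Polynomial
open Pool.Agent.H19.Maass Pool.Agent.H19.Sup

private theorem n3w_n (p : Lin) : p.n.natDegree ≤ 1 := N4_n p.q

private theorem n3w_m (p : Lin) : p.m.natDegree ≤ 1 := by
  unfold Lin.m
  exact (natDegree_C_mul_le _ _).trans natDegree_X_le

private theorem n3w_sub (a : ℝ[X]) (c : ℝ) (ha : a.natDegree ≤ 1) : (a - C c).natDegree ≤ 1 := by
  refine (natDegree_sub_le _ _).trans (max_le ha ?_)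
  rw [natDegree_C]
  exact Nat.zero_le _

private theorem n3w_add (a : ℝ[X]) (c : ℝ) (ha : a.natDegree ≤ 1) : (a + C c).natDegree ≤ 1 := by
  refine (natDegree_add_le _ _).trans (max_le ha ?_)
  rw [natDegree_C]
  exact Nat.zero_le _

private theorem n3w_quad (a b : ℝ[X]) (ha : a.natDegree ≤ 1) (hb : b.natDegree ≤ 1) :
    (a ^ 2 + b ^ 2).natDegree ≤ 2 := by
  refine (natDegree_add_le _ _).trans (max_le ?_ ?_)
  · exact (natDegree_pow_le_of_le 2 ha).trans (by norm_num)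
  · exact (natDegree_pow_le_of_le 2 hb).trans (by norm_num)

private theorem n3w_Q1 (p : Lin) : p.Q1.natDegree ≤ 2 :=
  n3w_quad _ _ (n3w_sub _ _ (n3w_m p)) (n3w_sub _ _ (n3w_n p))

private theorem n3w_Q2 (p : Lin) : p.Q2.natDegree ≤ 2 :=
  n3w_quad _ _ (n3w_sub _ _ (n3w_m p)) (n3w_sub _ _ (n3w_n p))

private theorem n3w_Qb1 (p : Lin) : p.Qb1.natDegree ≤ 2 :=
  n3w_quad _ _ (n3w_sub _ _ (n3w_m p)) (n3w_add _ _ (n3w_n p))

private theorem n3w_Qb2 (p : Lin) : p.Qb2.natDegree ≤ 2 :=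
  n3w_quad _ _ (n3w_sub _ _ (n3w_m p)) (n3w_add _ _ (n3w_n p))

private theorem n3w_R1 (p : Lin) : p.R1.natDegree ≤ 4 := by
  unfold Lin.R1
  exact (natDegree_mul_le_of_le (n3w_Q1 p) (n3w_Qb1 p)).trans (by norm_num)

private theorem n3w_R2 (p : Lin) : p.R2.natDegree ≤ 4 := by
  unfold Lin.R2
  exact (natDegree_mul_le_of_le (n3w_Q2 p) (n3w_Qb2 p)).trans (by norm_num)

private theorem n3w_a (Q n : ℝ[X]) (s : ℝ) (hQ : Q.natDegree ≤ 2) (hn : n.natDegree ≤ 1) :
    (derivative Q * n - C s * Q).natDegree ≤ 2 := by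
  have hd : (derivative Q).natDegree ≤ 1 := (natDegree_derivative_le _).trans (by omega)
  refine (natDegree_sub_le _ _).trans (max_le ?_ ?_)
  · exact (natDegree_mul_le_of_le hd hn).trans (by norm_num)
  · exact (natDegree_C_mul_le _ _).trans hQ

private theorem n3w_al (p : Par) (R a : ℝ[X]) (hR : R.natDegree ≤ 4) (ha : a.natDegree ≤ 2) (j : ℕ) :
    (p.al R a j).natDegree ≤ 4 * j + 2 := by
  induction j with
  | zero => simpa [Par.al] using ha
  | succ j ih =>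
      have hn := N4_n p
      have hd : (derivative (p.al R a j)).natDegree ≤ 4 * j + 1 :=
        (natDegree_derivative_le _).trans (by omega)
      have hRd : (derivative R).natDegree ≤ 3 := (natDegree_derivative_le _).trans (by omega)
      rw [Par.al]
      refine (natDegree_add_le _ _).trans (max_le ((natDegree_sub_le _ _).trans (max_le ?_ ?_)) ?_)
      · exact (natDegree_mul_le_of_le (natDegree_mul_le_of_le hn hR) hd).trans (by omega)
      · refine (natDegree_mul_le_of_le (natDegree_mul_le_of_le (m := 0) ?_ hR) ih).trans (by omega)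
        rw [natDegree_C]
      · refine (natDegree_mul_le_of_le (natDegree_mul_le_of_le
          (natDegree_mul_le_of_le (m := 0) ?_ hn) hRd) ih).trans (by omega)
        rw [natDegree_C]

private theorem n3w_PP (p : Lin) (j : ℕ) : (p.PP j).natDegree ≤ 16 * j + 8 := by
  have h1 : (p.al1 j).natDegree ≤ 4 * j + 2 :=
    n3w_al p.q _ _ (n3w_R1 p) (n3w_a _ _ _ (n3w_Q1 p) (n3w_n p)) j
  have h2 : (p.al2 j).natDegree ≤ 4 * j + 2 :=
    n3w_al p.q _ _ (n3w_R2 p) (n3w_a _ _ _ (n3w_Q2 p) (n3w_n p)) j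
  unfold Lin.PP
  refine (natDegree_sub_le _ _).trans (max_le ?_ ?_)
  · exact (natDegree_mul_le_of_le (natDegree_pow_le_of_le 2 h1)
      (natDegree_pow_le_of_le (2 * j + 1) (n3w_R2 p))).trans (by ring_nf; omega)
  · exact (natDegree_mul_le_of_le (natDegree_pow_le_of_le 2 h2)
      (natDegree_pow_le_of_le (2 * j + 1) (n3w_R1 p))).trans (by ring_nf; omega)

/-- the polynomial is small where the derivative of the phase is small -/
private theorem n3w_small (j : ℕ) : ∃ K : ℝ, 0 < K ∧ ∀ (p : Lin) (μ : ℝ), p.Good μ →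
    ∀ (ε u : ℝ), |u| ≤ 40 → 0 < p.n.eval u → 0 < p.R1.eval u → 0 < p.R2.eval u →
    |p.H (j + 1) u| ≤ ε → |(p.PP j).eval u| ≤ K * ε := by
  obtain ⟨K0, hK0, hal⟩ := al_bound_w j
  have hK1 : 1 ≤ max K0 1 := le_max_right _ _
  refine ⟨44 ^ (j + 1) * (2 * max K0 1 * (max K0 1 ^ (2 * j + 1) * max K0 1 ^ (2 * j + 1))),
    by positivity, ?_⟩
  intro p μ hp ε u hu hn h1 h2 hH
  obtain ⟨ha, hb, hr1, hr2⟩ := hal p μ hp u hu
  have hs1 : |p.s| ≤ 1 := by
    apply abs_le_of_sq_le_sq _ zero_le_one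
    nlinarith [sq_nonneg p.c, hp.hcs]
  have hn44 : p.n.eval u ≤ 44 := by
    simp only [Lin.n, Lin.q, Par.n, eval_add, eval_mul, eval_C, eval_X]
    have e3 : p.s * u ≤ 40 := by
      calc p.s * u ≤ |p.s * u| := le_abs_self _
        _ = |p.s| * |u| := abs_mul _ _
        _ ≤ 1 * 40 := mul_le_mul hs1 hu (abs_nonneg _) zero_le_one
        _ = 40 := by norm_num
    linarith
  have e1 : (p.PP j).eval u = (p.al1 j).eval u ^ 2 * p.R2.eval u ^ (2 * j + 1) -
      (p.al2 j).eval u ^ 2 * p.R1.eval u ^ (2 * j + 1) := by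
    simp only [Lin.PP, eval_sub, eval_mul, eval_pow]
  rw [e1]
  exact N5_alg j hK1 hn hn44 h1 h2 (ha.trans (le_max_left _ _)) (hb.trans (le_max_left _ _))
    ((le_abs_self _).trans (hr1.trans (le_max_left _ _)))
    ((le_abs_self _).trans (hr2.trans (le_max_left _ _))) hH

theorem nondeg_w : NondegW := by
  intro j
  obtain ⟨K1, hK1, hsmall⟩ := n3w_small j
  obtain ⟨K3, hK3, hlow⟩ := root_lower_w j
  refine ⟨K3 * ((((16 * j + 8 : ℕ) : ℝ) + 1) * K1 * 80 ^ (16 * j + 8)), by positivity, ?_⟩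
  intro p μ hp g ε hg _ hε u hu hsep hn h1 h2 hH
  obtain ⟨u0, hu0, hPu0⟩ := hlow p μ hp
  have hI := interp (p.PP j) (16 * j + 8) (n3w_PP p j) u hg (le_refl (40 : ℝ))
    (mul_nonneg hK1.le hε) hu hsep
    (fun i => hsmall p μ hp ε (u i) (hu i) (hn i) (h1 i) (h2 i) (hH i)) u0
    (hu0.trans (by norm_num))
  have hgd : 0 < g ^ (16 * j + 8) := pow_pos hg _
  calc μ ^ (6 * j + 4) * g ^ (16 * j + 8) ≤ (K3 * ‖aeval u0 (p.PP j)‖) * g ^ (16 * j + 8) :=
        mul_le_mul_of_nonneg_right hPu0 hgd.le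
    _ ≤ (K3 * ((((16 * j + 8 : ℕ) : ℝ) + 1) * (K1 * ε) * (2 * 40 / g) ^ (16 * j + 8))) *
          g ^ (16 * j + 8) := by
        apply mul_le_mul_of_nonneg_right _ hgd.le
        exact mul_le_mul_of_nonneg_left hI hK3.le
    _ = K3 * ((((16 * j + 8 : ℕ) : ℝ) + 1) * (K1 * ε) * (2 * 40) ^ (16 * j + 8)) := by
        rw [div_pow]
        field_simp
    _ = K3 * ((((16 * j + 8 : ℕ) : ℝ) + 1) * K1 * 80 ^ (16 * j + 8)) * ε := by
        norm_num
        ring

end Pool.Agent.H19.WB
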