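import Mathlib
import Pool.Agent.H19.WB.St
import Pool.Agent.H19.WB.N0
import Pool.Agent.H19.Sup.P3
import Pool.Agent.H19.Sup.G1

set_option autoImplicit false

/-!
# PG: the line of `a` in the plane of `(c, d)` is a `Lin`

Let `R = √(CL1_nn c d z) > 0`, `C = c z.re + d`, `D = c z.im`, `C² + D² = R²`.  The point of `b` is `v (b) = pre z c d a b + i pim z c d a b =
(a z + b) / (c z + d)`; `v (b + n) = v (b) + n (C - i D) / R²`.  As `LL ≠ 0` there is `b₀` with `0 < a d - b₀ c` and nonzero term; `h = pim (b₀) > 0`; the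
distances of `v (b₀)` to `w`, `w'` are `< 1/2` (`Amp.hi`, `Sup.P3_dist`), so `Sup.near_im`, `Sup.G1_sq`: `3/5 w.im ≤ h ≤ 5/3 w.im`,
`|w - v(b₀)|² ≤ 4/15 h w.im ≤ 4/9 h²`, the same for `w'`.  Put `λ = 3 / h`, `Nj = R / λ = R h / 3` and
`p = { c := C / R, s := - D / R, x1 := λ (w.re - pre b₀), y1 := λ w.im, x2 := λ (w'.re - pre b₀), y2 := λ w'.im }`.
* `Good μ`: `|C / R| ≥ μ` is `hc`; `y1 ∈ [9/5, 5]`; `x1² + (y1 - 3)² = λ² |w - v(b₀)|² ≤ 4`; `|w - w'|² = 2 w.im w'.im (cosh dist - 1) ≥ w.im w'.im μ²`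
  (`Sup.P3_cosh`, `Sup.P3_cosh_ge`), times `λ²`: `≥ (9/5)² μ²`.
* `dh` is invariant under `x ↦ λ (x - t)`, `y ↦ λ y` (both points), so with `u = n / Nj` the term of `b₀ + n` is `p.term A T Nj 0 n` (`p.n = 3 + s u = λ pim`,
  `p.m = c u = λ (pre - pre b₀)`).
* If the term of `b = b₀ + n` is not zero then `dist (v b) (v b₀) < 1`, so `|u| ≤ 3 (e - 1) ≤ 6` and `p.n ≥ 3 / e ≥ 1`
  (cosh 1 < 1.5431: `u² = |..|² ≤ 2 * 3 * n * 0.5431`, ratio of the imaginary parts in `[1/e, e]`; any proof of `|u| ≤ 40`, `1 ≤ n` will do).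
  The set of the `n` with `-M ≤ b₀ + n ≤ M`, `|n / Nj| ≤ 6` and `1 ≤ 3 + s n / Nj` is an interval `Icc na nb` of integers containing all `n` with nonzero
  term, and `0 < a d - b c` on it.
* `Nj = R h / 3`, `3/10 ≤ 3/5 w.im ≤ h ≤ 5/3 h0`.
-/

namespace Pool.Agent.H19.WB

open Polynomial UpperHalfPlane
open Pool.Agent.H19.Maass Pool.Agent.H19.Sup

theorem PG_scale {X Y y x t lam : ℝ} (hl : 0 < lam) :
    dh (lam * (X - t)) (lam * Y) (lam * y) (lam * (x - t)) = dh X Y y x := by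
  unfold dh
  have h1 : (lam * (x - t) - lam * (X - t)) ^ 2 + (lam * y - lam * Y) ^ 2 =
      lam ^ 2 * ((x - X) ^ 2 + (y - Y) ^ 2) := by ring
  have h2 : 2 * (lam * Y) * (lam * y) = lam ^ 2 * (2 * Y * y) := by ring
  rw [h1, h2, mul_div_mul_left _ _ (pow_ne_zero 2 hl.ne')]

theorem PG_osc_ne {A : ℝ → ℂ} {B0 B1 ρ T d d' : ℝ} (hA : Amp A B0 B1 ρ) (h : osc A T d d' ≠ 0) :
    d < 1 / 2 ∧ d' < 1 / 2 := by
  constructor
  · by_contra hc
    apply h
    simp [osc, hA.hi d (not_lt.mp hc)]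
  · by_contra hc
    apply h
    simp [osc, hA.hi d' (not_lt.mp hc)]

theorem PG_near {w : ℍ} {y x : ℝ} (hy : 0 < y) (h : dh w.re w.im y x < 1 / 2) :
    y ≤ 5 / 3 * w.im ∧ w.im ≤ 5 / 3 * y ∧ (x - w.re) ^ 2 + (y - w.im) ^ 2 ≤ 4 / 15 * (y * w.im) := by
  set v : ℍ := ⟨⟨x, y⟩, hy⟩ with hv
  have h1 : dist v w ≤ 1 / 2 := by
    rw [dist_comm, P3_dist]
    exact h.le
  obtain ⟨h2, h3, -⟩ := near_im h1
  exact ⟨h2, h3, (G1_sq h1).le⟩

theorem PG_interval (P : ℤ → Prop) (h0 : P 0)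
    (hconv : ∀ a b c, P a → P b → a ≤ c → c ≤ b → P c) (B : ℤ) (hB : ∀ n, P n → |n| ≤ B) :
    ∃ na nb : ℤ, ∀ n, P n ↔ na ≤ n ∧ n ≤ nb := by
  obtain ⟨nb, hnb, hnb'⟩ := Int.exists_greatest_of_bdd (P := P)
    ⟨B, fun z hz => (abs_le.1 (hB z hz)).2⟩ ⟨0, h0⟩
  obtain ⟨na, hna, hna'⟩ := Int.exists_least_of_bdd (P := P)
    ⟨-B, fun z hz => (abs_le.1 (hB z hz)).1⟩ ⟨0, h0⟩
  exact ⟨na, nb, fun n => ⟨fun h => ⟨hna' n h, hnb' n h⟩, fun h => hconv na nb n hna hnb h.1 h.2⟩⟩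

theorem line_of_plane {A : ℝ → ℂ} {B0 B1 ρ T μ h0 : ℝ} {w w' z : ℍ} {c d a M : ℤ} (hA : Amp A B0 B1 ρ)
    (hμ : 0 < μ) (hμ1 : μ ≤ 1) (hw : 1 / 2 ≤ w.im) (hwh : w.im ≤ h0) (hd : μ ≤ dist w w')
    (hR : 0 < CL1_nn c d z) (hc : μ ^ 2 * CL1_nn c d z ≤ ((c : ℝ) * z.re + d) ^ 2)
    (hne : LL A T M w w' z c d a ≠ 0) :
    ∃ (p : Lin) (Nj : ℝ) (na nb : ℤ), p.Good μ ∧ √(CL1_nn c d z) / 10 ≤ Nj ∧
      Nj ≤ √(CL1_nn c d z) * h0 ∧ LL A T M w w' z c d a = ∑ n ∈ Finset.Icc na nb, p.term A T Nj 0 n ∧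
      ∀ n : ℤ, na ≤ n → n ≤ nb → |0 + n / Nj| ≤ 40 ∧ 1 ≤ p.n.eval (0 + n / Nj) := by
  -- a center
  obtain ⟨b0, hb0, h1⟩ := Finset.exists_ne_zero_of_sum_ne_zero hne
  have hb0c : 0 < a * d - b0 * c := by
    by_contra hcc
    rw [if_neg hcc] at h1
    exact h1 rfl
  rw [if_pos hb0c] at h1
  rw [Finset.mem_Icc] at hb0
  obtain ⟨hd1, hd2⟩ := PG_osc_ne hA h1
  have hzim := z.im_pos
  set R2 : ℝ := CL1_nn c d z with hR2
  set R : ℝ := √R2 with hRdef
  have hR0 : 0 < R := Real.sqrt_pos.mpr hR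
  have hRR : R ^ 2 = R2 := Real.sq_sqrt hR.le
  set Cc : ℝ := (c : ℝ) * z.re + d with hCc
  set D : ℝ := (c : ℝ) * z.im with hD
  have hCD : Cc ^ 2 + D ^ 2 = R2 := by
    rw [hR2, CL1_nn]
  -- positivity of the imaginary part
  have hpim : ∀ b : ℤ, 0 < a * d - b * c ↔ 0 < pim z c d a b := by
    intro b
    rw [pim, ← hR2]
    constructor
    · intro h
      have h' : (0 : ℝ) < (a : ℝ) * d - b * c := by exact_mod_cast h
      positivity
    · intro h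
      have h2 : 0 < z.im * ((a : ℝ) * d - b * c) := by
        have := mul_pos h hR
        rwa [div_mul_cancel₀ _ hR.ne'] at this
      have h3 : (0 : ℝ) < (a : ℝ) * d - b * c := (pos_iff_pos_of_mul_pos h2).mp hzim
      exact_mod_cast h3
  set h : ℝ := pim z c d a b0 with hh
  set r0 : ℝ := pre z c d a b0 with hr0
  have hh0 : 0 < h := (hpim b0).mp hb0c
  have hprn : ∀ n : ℤ, pre z c d a (b0 + n) = r0 + n * Cc / R2 := by
    intro n
    rw [hr0, pre, pre, ← hR2, ← hCc]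
    push_cast
    field_simp
    ring
  have hpin : ∀ n : ℤ, pim z c d a (b0 + n) = h - n * D / R2 := by
    intro n
    rw [hh, pim, pim, ← hR2, hD]
    push_cast
    field_simp
    ring
  obtain ⟨e1, e2, e3⟩ := PG_near hh0 hd1
  obtain ⟨e1', e2', e3'⟩ := PG_near hh0 hd2
  have hwp := w.im_pos
  have hwp' := w'.im_pos
  set lam : ℝ := 3 / h with hlam
  have hlam0 : 0 < lam := by positivity
  have hlh : lam * h = 3 := by
    rw [hlam]
    field_simp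
  set Nj : ℝ := R * h / 3 with hNj
  have hNj0 : 0 < Nj := by positivity
  set p : Lin := { c := Cc / R, s := -D / R, x1 := lam * (w.re - r0), y1 := lam * w.im,
                   x2 := lam * (w'.re - r0), y2 := lam * w'.im } with hp
  have hcs : (Cc / R) ^ 2 + (-D / R) ^ 2 = 1 := by
    rw [div_pow, div_pow, ← add_div, hRR, neg_sq, hCD, div_self hR.ne']
  have hgood : p.Good μ := by
    refine ⟨hμ, hμ1, hcs, ?_, ?_, ?_, ?_, ?_, ?_⟩
    · show μ ≤ |Cc / R|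
      rw [abs_div, abs_of_pos hR0, le_div_iff₀ hR0]
      apply le_of_sq_le_sq _ (abs_nonneg _)
      rw [mul_pow, hRR, sq_abs]
      exact hc
    · show 9 / 5 ≤ lam * w.im ∧ lam * w.im ≤ 5
      constructor <;> nlinarith
    · show 9 / 5 ≤ lam * w'.im ∧ lam * w'.im ≤ 5
      constructor <;> nlinarith
    · show (lam * (w.re - r0)) ^ 2 + (lam * w.im - 3) ^ 2 ≤ 4
      have f1 : (lam * (w.re - r0)) ^ 2 + (lam * w.im - 3) ^ 2 =
          lam ^ 2 * ((r0 - w.re) ^ 2 + (h - w.im) ^ 2) := by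
        rw [← hlh]
        ring
      have f2 : (r0 - w.re) ^ 2 + (h - w.im) ^ 2 ≤ 4 / 9 * h ^ 2 := by nlinarith
      rw [f1]
      calc lam ^ 2 * ((r0 - w.re) ^ 2 + (h - w.im) ^ 2) ≤ lam ^ 2 * (4 / 9 * h ^ 2) := by gcongr
        _ = 4 / 9 * (lam * h) ^ 2 := by ring
        _ = 4 := by rw [hlh]; norm_num
    · show (lam * (w'.re - r0)) ^ 2 + (lam * w'.im - 3) ^ 2 ≤ 4
      have f1 : (lam * (w'.re - r0)) ^ 2 + (lam * w'.im - 3) ^ 2 =
          lam ^ 2 * ((r0 - w'.re) ^ 2 + (h - w'.im) ^ 2) := by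
        rw [← hlh]
        ring
      have f2 : (r0 - w'.re) ^ 2 + (h - w'.im) ^ 2 ≤ 4 / 9 * h ^ 2 := by nlinarith
      rw [f1]
      calc lam ^ 2 * ((r0 - w'.re) ^ 2 + (h - w'.im) ^ 2) ≤ lam ^ 2 * (4 / 9 * h ^ 2) := by gcongr
        _ = 4 / 9 * (lam * h) ^ 2 := by ring
        _ = 4 := by rw [hlh]; norm_num
    · show μ ^ 2 ≤ (lam * (w.re - r0) - lam * (w'.re - r0)) ^ 2 + (lam * w.im - lam * w'.im) ^ 2
      have g1 := P3_cosh_ge (dist w w') dist_nonneg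
      rw [P3_cosh] at g1
      have g2 : μ ^ 2 ≤ dist w w' ^ 2 := pow_le_pow_left₀ hμ.le hd 2
      have g3 : μ ^ 2 / 2 ≤ ((w'.re - w.re) ^ 2 + (w'.im - w.im) ^ 2) / (2 * w.im * w'.im) := by
        linarith
      rw [le_div_iff₀ (by positivity)] at g3
      have g4 : 3 / 5 * h ≤ w.im := by linarith
      have g5 : 3 / 5 * h ≤ w'.im := by linarith
      have g6 : (3 / 5 * h) * (3 / 5 * h) ≤ w.im * w'.im :=
        mul_le_mul g4 g5 (by positivity) (by positivity)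
      have g7 : μ ^ 2 * ((3 / 5 * h) * (3 / 5 * h)) ≤ (w.re - w'.re) ^ 2 + (w.im - w'.im) ^ 2 := by
        have : μ ^ 2 * ((3 / 5 * h) * (3 / 5 * h)) ≤ μ ^ 2 * (w.im * w'.im) := by gcongr
        nlinarith
      have g8 : (lam * (w.re - r0) - lam * (w'.re - r0)) ^ 2 + (lam * w.im - lam * w'.im) ^ 2 =
          lam ^ 2 * ((w.re - w'.re) ^ 2 + (w.im - w'.im) ^ 2) := by ring
      rw [g8]
      calc μ ^ 2 ≤ μ ^ 2 * (81 / 25) := by nlinarith [sq_nonneg μ]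
        _ = lam ^ 2 * (μ ^ 2 * ((3 / 5 * h) * (3 / 5 * h))) := by
          have : lam ^ 2 * (μ ^ 2 * ((3 / 5 * h) * (3 / 5 * h))) = μ ^ 2 * (9 / 25) * (lam * h) ^ 2 := by
            ring
          rw [this, hlh]
          ring
        _ ≤ lam ^ 2 * ((w.re - w'.re) ^ 2 + (w.im - w'.im) ^ 2) := by gcongr
  -- evaluation
  have hev : ∀ n : ℤ, p.n.eval (0 + (n : ℝ) / Nj) = lam * pim z c d a (b0 + n) := by
    intro n
    rw [Lin.n_eval, hpin]
    show 3 + -D / R * (0 + (n : ℝ) / Nj) = _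
    rw [mul_sub, hlh, hNj, hlam, ← hRR]
    field_simp
    ring
  have hem : ∀ n : ℤ, p.m.eval (0 + (n : ℝ) / Nj) = lam * (pre z c d a (b0 + n) - r0) := by
    intro n
    rw [Lin.m_eval, hprn]
    show Cc / R * (0 + (n : ℝ) / Nj) = _
    rw [hNj, hlam, ← hRR]
    field_simp
    ring
  have hterm : ∀ n : ℤ, p.term A T Nj 0 n =
      osc A T (dh w.re w.im (pim z c d a (b0 + n)) (pre z c d a (b0 + n)))
        (dh w'.re w'.im (pim z c d a (b0 + n)) (pre z c d a (b0 + n))) := by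
    intro n
    rw [Lin.term, hev, hem]
    show osc A T (dh (lam * (w.re - r0)) (lam * w.im) _ _)
      (dh (lam * (w'.re - r0)) (lam * w'.im) _ _) = _
    rw [PG_scale hlam0, PG_scale hlam0]
  -- the size on the support
  have hsize : ∀ n : ℤ, 0 < pim z c d a (b0 + n) →
      dh w.re w.im (pim z c d a (b0 + n)) (pre z c d a (b0 + n)) < 1 / 2 →
      |0 + (n : ℝ) / Nj| ≤ 6 ∧ 1 ≤ p.n.eval (0 + (n : ℝ) / Nj) := by
    intro n hn1 hn2
    obtain ⟨f1, f2, f3⟩ := PG_near hn1 hn2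
    set y : ℝ := pim z c d a (b0 + n) with hy
    set x : ℝ := pre z c d a (b0 + n) with hx
    have f4 : 9 / 25 * h ≤ y := by linarith
    constructor
    · apply abs_le_of_sq_le_sq _ (by norm_num)
      have k1 : (0 + (n : ℝ) / Nj) ^ 2 = lam ^ 2 * ((x - r0) ^ 2 + (y - h) ^ 2) := by
        have k2 : x - r0 = n * Cc / R2 := by
          rw [hx, hprn]
          ring
        have k3 : y - h = -(n * D / R2) := by
          rw [hy, hpin]
          ring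
        have k4 : (n * Cc / R2) ^ 2 + (-(n * D / R2)) ^ 2 = (n : ℝ) ^ 2 / R2 := by
          have : (n * Cc / R2) ^ 2 + (-(n * D / R2)) ^ 2 = (n : ℝ) ^ 2 * (Cc ^ 2 + D ^ 2) / R2 ^ 2 := by
            ring
          rw [this, hCD]
          field_simp
        rw [k2, k3, k4, hNj, hlam, ← hRR]
        field_simp
        ring
      have k5 : (x - r0) ^ 2 + (y - h) ^ 2 ≤ 272 / 81 * h ^ 2 := by
        have m1 : (x - w.re) ^ 2 + (y - w.im) ^ 2 ≤ 4 / 9 * w.im ^ 2 := by nlinarith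
        have m2 : (r0 - w.re) ^ 2 + (h - w.im) ^ 2 ≤ 4 / 9 * h ^ 2 := by nlinarith
        have m3 : w.im ^ 2 ≤ 25 / 9 * h ^ 2 := by nlinarith
        nlinarith [sq_nonneg ((x - w.re) + (r0 - w.re)), sq_nonneg ((y - w.im) + (h - w.im))]
      rw [k1]
      calc lam ^ 2 * ((x - r0) ^ 2 + (y - h) ^ 2) ≤ lam ^ 2 * (272 / 81 * h ^ 2) := by gcongr
        _ = 272 / 81 * (lam * h) ^ 2 := by ring
        _ ≤ 6 ^ 2 := by rw [hlh]; norm_num
    · rw [hev]
      calc (1 : ℝ) ≤ 9 / 25 * (lam * h) := by rw [hlh]; norm_num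
        _ = lam * (9 / 25 * h) := by ring
        _ ≤ lam * y := by gcongr
  -- the interval
  obtain ⟨na, nb, hint⟩ := PG_interval
    (fun n : ℤ => (-M ≤ b0 + n ∧ b0 + n ≤ M) ∧ |0 + (n : ℝ) / Nj| ≤ 6 ∧
      1 ≤ p.n.eval (0 + (n : ℝ) / Nj)) (by
      refine ⟨by simpa using hb0, ?_⟩
      apply hsize 0
      · rw [add_zero]; exact hh0
      · rw [add_zero]; exact hd1) (by
      rintro n1 n2 n3 ⟨q1, q2, q3⟩ ⟨q1', q2', q3'⟩ hn1 hn2
      have s1 : (n1 : ℝ) / Nj ≤ (n3 : ℝ) / Nj := by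
        have : (n1 : ℝ) ≤ n3 := by exact_mod_cast hn1
        gcongr
      have s2 : (n3 : ℝ) / Nj ≤ (n2 : ℝ) / Nj := by
        have : (n3 : ℝ) ≤ n2 := by exact_mod_cast hn2
        gcongr
      refine ⟨⟨by linarith [q1.1], by linarith [q1'.2]⟩, ?_, ?_⟩
      · rw [abs_le] at q2 q2' ⊢
        exact ⟨by linarith [q2.1], by linarith [q2'.2]⟩
      · rw [Lin.n_eval] at q3 q3' ⊢
        rcases le_total 0 p.s with hs | hs
        · have := mul_le_mul_of_nonneg_left s1 hs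
          nlinarith
        · have := mul_le_mul_of_nonpos_left s2 hs
          nlinarith) ⌊6 * Nj⌋ (by
      rintro n ⟨-, q2, -⟩
      rw [Int.le_floor, Int.cast_abs]
      rw [zero_add, abs_div, abs_of_pos hNj0, div_le_iff₀ hNj0] at q2
      exact q2)
  refine ⟨p, Nj, na, nb, hgood, ?_, ?_, ?_, ?_⟩
  · rw [hNj]
    nlinarith
  · rw [hNj]
    nlinarith
  · rw [LL]
    symm
    refine Finset.sum_bij_ne_zero (fun n _ _ => b0 + n) ?_ ?_ ?_ ?_
    · intro n hn _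
      obtain ⟨q1, -⟩ := (hint n).mpr (Finset.mem_Icc.mp hn)
      exact Finset.mem_Icc.mpr q1
    · intro n _ _ n' _ _ hnn
      exact add_left_cancel hnn
    · intro b hb hb1
      have hbc : 0 < a * d - b * c := by
        by_contra hcc
        rw [if_neg hcc] at hb1
        exact hb1 rfl
      rw [if_pos hbc] at hb1
      have hbb : b0 + (b - b0) = b := by ring
      have hP : (-M ≤ b0 + (b - b0) ∧ b0 + (b - b0) ≤ M) ∧ |0 + ((b - b0 : ℤ) : ℝ) / Nj| ≤ 6 ∧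
          1 ≤ p.n.eval (0 + ((b - b0 : ℤ) : ℝ) / Nj) := by
        refine ⟨by rw [hbb]; exact Finset.mem_Icc.mp hb, hsize (b - b0) ?_ ?_⟩
        · rw [hbb]
          exact (hpim b).mp hbc
        · rw [hbb]
          exact (PG_osc_ne hA hb1).1
      refine ⟨b - b0, Finset.mem_Icc.mpr ((hint (b - b0)).mp hP), ?_, hbb⟩
      rw [hterm, hbb]
      exact hb1
    · intro n hn _
      obtain ⟨-, -, q3⟩ := (hint n).mpr (Finset.mem_Icc.mp hn)
      rw [hev] at q3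
      have hpos : 0 < pim z c d a (b0 + n) := by
        by_contra hcc
        have := mul_nonpos_of_nonneg_of_nonpos hlam0.le (not_lt.mp hcc)
        linarith
      have := (hpim (b0 + n)).mpr hpos
      rw [if_pos this, hterm]
  · intro n hn1 hn2
    obtain ⟨-, q2, q3⟩ := (hint n).mpr ⟨hn1, hn2⟩
    exact ⟨q2.trans (by norm_num), q3⟩

end Pool.Agent.H19.WB
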