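import Mathlib
import Pool.Agent.H19.WB.St
import Pool.Agent.H19.WB.PG
import Pool.Agent.H36.XD.P1

set_option autoImplicit false

/-!
# PN: a line of a plane

By `line_of_plane`, `Nj ∈ [√CL1_nn / 10, √CL1_nn h0]`, and `N z.im / (2 h0) ≤ CL1_nn ≤ 16 N z.im`, `1/2 ≤ z.im ≤ Y0`, `h0 ≤ N^(1/1000)`:
`√N / (20 √h0) ≤ Nj ≤ 4 √(N Y0) h0`, so `N^(1/2 - 1/2000) / 20 ≤ Nj`.  For `N ≥ N₀ (Y0)`:
`Nj^(-1/2000) ≤ N^(-1/4100) ≤ μ, ρ`; `2 π Nj^7 ≤ N^(39/10) ≤ T` and `T ≤ N^4 ≤ 2 π Nj^(81/10)`, so `LineSumW` (`k = 9`) applies; `Nj^(-1/1400) ≤ K N^(-1/2900)`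
and `Nj^(-1/20) ≤ K N^(-1/45)`.  For `N < N₀` the trivial bound: at most `80 Nj + 1 ≤ K √N h0` terms, each `≤ B0²`, and `N^(-1/2900) ≥ c`
(as in `H36/XD/P1.lean`).
-/

namespace Pool.Agent.H19.WB

open Polynomial UpperHalfPlane
open Pool.Agent.H19.Maass Pool.Agent.H19.Sup Pool.Agent.H36.XD

/-- the constant `N₀` -/
theorem PN_W (Y : ℝ) : ∃ W : ℝ, 1 ≤ W ∧ ∀ x : ℝ, W ≤ x →
    (20 : ℝ) ≤ x ^ (999 / 2000 : ℝ) ∧
    (20 : ℝ) ^ (1 / 2000 : ℝ) ≤ x ^ (999 / 2000 * (1 / 2000) - 1 / 4100 : ℝ) ∧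
    2 * Real.pi * (4 * Y) ^ 7 ≤ x ^ (393 / 1000 : ℝ) ∧
    (20 : ℝ) ^ (81 / 10 : ℝ) ≤ x ^ (999 / 2000 * (81 / 10) - 4 : ℝ) := by
  have h1 : ∀ᶠ x : ℝ in Filter.atTop, (20 : ℝ) ≤ x ^ (999 / 2000 : ℝ) :=
    (tendsto_rpow_atTop (by norm_num)).eventually_ge_atTop _
  have h2 : ∀ᶠ x : ℝ in Filter.atTop,
      (20 : ℝ) ^ (1 / 2000 : ℝ) ≤ x ^ (999 / 2000 * (1 / 2000) - 1 / 4100 : ℝ) :=
    (tendsto_rpow_atTop (by norm_num)).eventually_ge_atTop _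
  have h3 : ∀ᶠ x : ℝ in Filter.atTop, 2 * Real.pi * (4 * Y) ^ 7 ≤ x ^ (393 / 1000 : ℝ) :=
    (tendsto_rpow_atTop (by norm_num)).eventually_ge_atTop _
  have h4 : ∀ᶠ x : ℝ in Filter.atTop,
      (20 : ℝ) ^ (81 / 10 : ℝ) ≤ x ^ (999 / 2000 * (81 / 10) - 4 : ℝ) :=
    (tendsto_rpow_atTop (by norm_num)).eventually_ge_atTop _
  obtain ⟨W, hW⟩ := Filter.eventually_atTop.mp (h1.and (h2.and (h3.and h4)))
  exact ⟨max 1 W, le_max_left _ _, fun x hx => hW x ((le_max_right _ _).trans hx)⟩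

/-- negative powers of `Nj` -/
theorem PN_neg {N Nj e : ℝ} (hN : 1 ≤ N) (h : N ^ (999 / 2000 : ℝ) / 20 ≤ Nj) (he : 0 ≤ e) :
    Nj ^ (-e) ≤ (20 : ℝ) ^ e * N ^ (-(999 / 2000 * e) : ℝ) := by
  have hN0 : 0 < N := by linarith
  have hp : 0 < N ^ (999 / 2000 : ℝ) := Real.rpow_pos_of_pos hN0 _
  calc Nj ^ (-e) ≤ (N ^ (999 / 2000 : ℝ) / 20) ^ (-e) :=
        Real.rpow_le_rpow_of_nonpos (by positivity) h (by linarith)
    _ = (20 : ℝ) ^ e * N ^ (-(999 / 2000 * e) : ℝ) := by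
      rw [Real.div_rpow hp.le (by norm_num), ← Real.rpow_mul hN0.le,
        Real.rpow_neg (by norm_num : (0 : ℝ) ≤ 20) e, div_inv_eq_mul, mul_comm]
      congr 2
      ring

theorem plane_line_w (line_sum : LineSumW) : PlaneLineW := by
  intro Y0
  obtain ⟨K, hK, hLS⟩ := line_sum
  set Y : ℝ := √(max Y0 1) with hYdef
  have hY1 : 1 ≤ Y := Real.one_le_sqrt.mpr (le_max_right _ _)
  obtain ⟨W, hW1, hW⟩ := PN_W Y
  have hW0 : 0 < W := by linarith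
  refine ⟨max (80 * Y * K) ((320 * Y + 1) * W ^ (1 / 2900 : ℝ)),
    lt_max_of_lt_left (by positivity), ?_⟩
  intro A B0 B1 ρ T μ h0 N M w w' z c d a hP hCL1 hCL2 hc
  obtain ⟨hA, hρ, hρ1, hμ, hμ1, hN, hμN, hρN, hh, hhN, hT1, hNT, hTN, hz, hzY, hw, hwh, hw', hwh',
    hd⟩ := hP
  set K' : ℝ := max (80 * Y * K) ((320 * Y + 1) * W ^ (1 / 2900 : ℝ)) with hK'
  have hK1 : 80 * Y * K ≤ K' := le_max_left _ _
  have hK2 : (320 * Y + 1) * W ^ (1 / 2900 : ℝ) ≤ K' := le_max_right _ _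
  have hK0 : 0 < K' := lt_of_lt_of_le (by positivity) hK1
  have hB0 := P1_B0 hA
  have hB1 := P1_B1 hA
  have hN1 : (1 : ℝ) ≤ N := by exact_mod_cast hN
  have hN0 : (0 : ℝ) < N := by linarith
  have hh0 : 0 < h0 := by linarith
  have hsN : 1 ≤ √(N : ℝ) := Real.one_le_sqrt.mpr hN1
  have hz0 : 0 < z.im := by linarith
  have hT0 : 0 < T := by linarith
  by_cases hL0 : LL A T M w w' z c d a = 0
  · rw [hL0, norm_zero]
    positivity
  have hCL0 : 0 < CL1_nn c d z := lt_of_lt_of_le (by positivity) hCL1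
  obtain ⟨p, Nj, na, nb, hp, hlo, hup, hLL, hn⟩ :=
    line_of_plane hA hμ hμ1 hw hwh hd hCL0 hc hL0
  have hNjp : 0 < Nj := lt_of_lt_of_le (by positivity) hlo
  -- upper bound for `Nj`
  have hR : √(CL1_nn c d z) ≤ 4 * Y * √(N : ℝ) := by
    apply Real.sqrt_le_iff.mpr
    refine ⟨by positivity, ?_⟩
    have e1 : Y ^ 2 = max Y0 1 := Real.sq_sqrt (by positivity)
    have e2 : √(N : ℝ) ^ 2 = N := Real.sq_sqrt hN0.le
    calc CL1_nn c d z ≤ 16 * N * z.im := hCL2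
      _ ≤ 16 * N * max Y0 1 := by
        gcongr
        exact hzY.trans (le_max_left _ _)
      _ = (4 * Y * √(N : ℝ)) ^ 2 := by
        rw [mul_pow, mul_pow, e1, e2]
        ring
  have hNjU : Nj ≤ 4 * Y * (√(N : ℝ) * h0) := by
    calc Nj ≤ √(CL1_nn c d z) * h0 := hup
      _ ≤ 4 * Y * √(N : ℝ) * h0 := by gcongr
      _ = 4 * Y * (√(N : ℝ) * h0) := by ring
  -- lower bound for `Nj`
  have hNjL : (N : ℝ) ^ (999 / 2000 : ℝ) / 20 ≤ Nj := by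
    refine le_trans ?_ hlo
    have e1 : (N : ℝ) ^ (999 / 1000 : ℝ) / 4 ≤ CL1_nn c d z := by
      calc (N : ℝ) ^ (999 / 1000 : ℝ) / 4 = N * (N : ℝ) ^ (-(1 / 1000) : ℝ) / 4 := by
            congr 1
            conv_rhs => rw [← Real.rpow_one (N : ℝ)]
            rw [← Real.rpow_mul hN0.le, ← Real.rpow_add hN0]
            norm_num
        _ ≤ N * h0⁻¹ / 4 := by
            gcongr
            rw [Real.rpow_neg hN0.le]
            gcongr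
        _ = N * (1 / 2) / (2 * h0) := by
            field_simp
            norm_num
        _ ≤ N * z.im / (2 * h0) := by gcongr
        _ ≤ CL1_nn c d z := hCL1
    have e2 : (N : ℝ) ^ (999 / 2000 : ℝ) / 2 ≤ √(CL1_nn c d z) := by
      apply Real.le_sqrt_of_sq_le
      calc ((N : ℝ) ^ (999 / 2000 : ℝ) / 2) ^ 2 = (N : ℝ) ^ (999 / 1000 : ℝ) / 4 := by
            rw [div_pow, ← Real.rpow_natCast ((N : ℝ) ^ (999 / 2000 : ℝ)) 2,
              ← Real.rpow_mul hN0.le]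
            norm_num
        _ ≤ CL1_nn c d z := e1
    linarith
  rw [hLL]
  rcases le_total (N : ℝ) W with hsm | hbig
  · -- trivial bound
    have hcard : ((Finset.Icc na nb).card : ℝ) ≤ 80 * Nj + 1 := by
      rcases le_or_gt na nb with hab | hab
      · rw [Int.card_Icc]
        have e1 : (((nb + 1 - na).toNat : ℕ) : ℝ) = (nb : ℝ) + 1 - na := by
          have : (((nb + 1 - na).toNat : ℕ) : ℤ) = nb + 1 - na := Int.toNat_of_nonneg (by linarith)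
          have := congrArg (Int.cast : ℤ → ℝ) this
          push_cast at this
          exact_mod_cast this
        rw [e1]
        have e2 := (hn na le_rfl hab).1
        have e3 := (hn nb hab le_rfl).1
        rw [zero_add, abs_div, abs_of_pos hNjp, div_le_iff₀ hNjp] at e2 e3
        have e4 := (abs_le.mp e2).1
        have e5 := (abs_le.mp e3).2
        linarith
      · rw [Finset.Icc_eq_empty (not_le.mpr hab)]
        simp only [Finset.card_empty, Nat.cast_zero]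
        positivity
    have hc1 : (1 : ℝ) ≤ W ^ (1 / 2900 : ℝ) * (N : ℝ) ^ (-(1 / 2900) : ℝ) := by
      have e1 : W ^ (-(1 / 2900) : ℝ) ≤ (N : ℝ) ^ (-(1 / 2900) : ℝ) :=
        Real.rpow_le_rpow_of_nonpos hN0 hsm (by norm_num)
      calc (1 : ℝ) = W ^ (1 / 2900 : ℝ) * W ^ (-(1 / 2900) : ℝ) := by
            rw [← Real.rpow_add hW0]
            norm_num
        _ ≤ W ^ (1 / 2900 : ℝ) * (N : ℝ) ^ (-(1 / 2900) : ℝ) := by gcongr
    have hsh : 1 ≤ √(N : ℝ) * h0 := one_le_mul_of_one_le_of_one_le hsN hh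
    have h106 : 80 * Nj + 1 ≤ K' * (√(N : ℝ) * h0) * (N : ℝ) ^ (-(1 / 2900) : ℝ) := by
      calc 80 * Nj + 1 ≤ 80 * (4 * Y * (√(N : ℝ) * h0)) + √(N : ℝ) * h0 := by gcongr
        _ = (320 * Y + 1) * 1 * (√(N : ℝ) * h0) := by ring
        _ ≤ (320 * Y + 1) * (W ^ (1 / 2900 : ℝ) * (N : ℝ) ^ (-(1 / 2900) : ℝ)) *
            (√(N : ℝ) * h0) := by gcongr
        _ = ((320 * Y + 1) * W ^ (1 / 2900 : ℝ)) * (√(N : ℝ) * h0) *
            (N : ℝ) ^ (-(1 / 2900) : ℝ) := by ring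
        _ ≤ K' * (√(N : ℝ) * h0) * (N : ℝ) ^ (-(1 / 2900) : ℝ) := by gcongr
    calc ‖∑ n ∈ Finset.Icc na nb, p.term A T Nj 0 n‖
        ≤ ∑ n ∈ Finset.Icc na nb, ‖p.term A T Nj 0 n‖ := norm_sum_le _ _
      _ ≤ ∑ n ∈ Finset.Icc na nb, B0 * B0 := Finset.sum_le_sum fun n _ => P1_osc_norm hA
      _ = (Finset.Icc na nb).card * (B0 * B0) := by rw [Finset.sum_const, nsmul_eq_mul]
      _ ≤ (80 * Nj + 1) * (B0 * B0) := by gcongr
      _ ≤ (K' * (√(N : ℝ) * h0) * (N : ℝ) ^ (-(1 / 2900) : ℝ)) * (B0 * B0) := by gcongr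
      _ = K' * (√(N : ℝ) * h0) * (B0 ^ 2 * (N : ℝ) ^ (-(1 / 2900) : ℝ) + 0) := by ring
      _ ≤ K' * (√(N : ℝ) * h0) * (B0 ^ 2 * (N : ℝ) ^ (-(1 / 2900) : ℝ) +
          B0 * B1 * (N : ℝ) ^ (-(1 / 45) : ℝ)) := by
        gcongr
        positivity
  · obtain ⟨hw1, hw2, hw3, hw4⟩ := hW N hbig
    have hNj1 : 1 ≤ Nj := by
      refine le_trans ?_ hNjL
      rw [le_div_iff₀ (by norm_num)]
      linarith
    have hpi := Real.pi_gt_three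
    -- the hypotheses on `μ` and `ρ`
    have hj : Nj ^ (-(1 / 2000) : ℝ) ≤ (N : ℝ) ^ (-(1 / 4100) : ℝ) := by
      calc Nj ^ (-(1 / 2000) : ℝ)
          ≤ (20 : ℝ) ^ (1 / 2000 : ℝ) * (N : ℝ) ^ (-(999 / 2000 * (1 / 2000)) : ℝ) :=
            PN_neg hN1 hNjL (by norm_num)
        _ ≤ (N : ℝ) ^ (999 / 2000 * (1 / 2000) - 1 / 4100 : ℝ) *
            (N : ℝ) ^ (-(999 / 2000 * (1 / 2000)) : ℝ) := by gcongr
        _ = (N : ℝ) ^ (-(1 / 4100) : ℝ) := by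
            rw [← Real.rpow_add hN0]
            congr 1
            ring
    -- `2 π Nj ^ 7 ≤ T`
    have hT39 : (N : ℝ) ^ (39 / 10 : ℝ) ≤ T := by
      have e : ((N : ℝ) ^ (39 / 10 : ℝ)) ^ 10 ≤ T ^ 10 := by
        calc ((N : ℝ) ^ (39 / 10 : ℝ)) ^ 10 = (N : ℝ) ^ 39 := by
              rw [← Real.rpow_natCast ((N : ℝ) ^ (39 / 10 : ℝ)) 10, ← Real.rpow_mul hN0.le,
                ← Real.rpow_natCast (N : ℝ) 39]
              norm_num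
          _ ≤ T ^ 10 := hNT
      exact (pow_le_pow_iff_left₀ (by positivity) hT0.le (by norm_num)).mp e
    have h7 : 2 * Real.pi * Nj ^ 7 ≤ T := by
      have e1 : Nj ≤ 4 * Y * (N : ℝ) ^ (501 / 1000 : ℝ) := by
        calc Nj ≤ 4 * Y * (√(N : ℝ) * h0) := hNjU
          _ ≤ 4 * Y * (√(N : ℝ) * (N : ℝ) ^ (1 / 1000 : ℝ)) := by gcongr
          _ = 4 * Y * (N : ℝ) ^ (501 / 1000 : ℝ) := by
            rw [Real.sqrt_eq_rpow, ← Real.rpow_add hN0]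
            norm_num
      calc 2 * Real.pi * Nj ^ 7 ≤ 2 * Real.pi * (4 * Y * (N : ℝ) ^ (501 / 1000 : ℝ)) ^ 7 := by
            gcongr
        _ = 2 * Real.pi * (4 * Y) ^ 7 * ((N : ℝ) ^ (501 / 1000 : ℝ)) ^ 7 := by
            rw [mul_pow (4 * Y)]
            ring
        _ ≤ (N : ℝ) ^ (393 / 1000 : ℝ) * ((N : ℝ) ^ (501 / 1000 : ℝ)) ^ 7 := by gcongr
        _ = (N : ℝ) ^ (39 / 10 : ℝ) := by
            rw [← Real.rpow_natCast ((N : ℝ) ^ (501 / 1000 : ℝ)) 7, ← Real.rpow_mul hN0.le,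
              ← Real.rpow_add hN0]
            norm_num
        _ ≤ T := hT39
    have h3 : Nj ^ (-2 : ℝ) ≤ T / (2 * Real.pi * Nj ^ 9) := by
      rw [le_div_iff₀ (by positivity)]
      calc Nj ^ (-2 : ℝ) * (2 * Real.pi * Nj ^ 9)
          = 2 * Real.pi * (Nj ^ (-2 : ℝ) * Nj ^ (9 : ℝ)) := by
            rw [show (9 : ℝ) = ((9 : ℕ) : ℝ) by norm_num, Real.rpow_natCast]
            ring
        _ = 2 * Real.pi * Nj ^ 7 := by
            rw [← Real.rpow_add hNjp, ← Real.rpow_natCast Nj 7]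
            norm_num
        _ ≤ T := h7
    -- `T ≤ 2 π Nj ^ (81 / 10)`
    have h8 : T ≤ Nj ^ (81 / 10 : ℝ) := by
      have e1 := PN_neg hN1 hNjL (e := 81 / 10) (by norm_num)
      have e2 : Nj ^ (-(81 / 10) : ℝ) * (N : ℝ) ^ (4 : ℝ) ≤ 1 := by
        calc Nj ^ (-(81 / 10) : ℝ) * (N : ℝ) ^ (4 : ℝ)
            ≤ ((20 : ℝ) ^ (81 / 10 : ℝ) * (N : ℝ) ^ (-(999 / 2000 * (81 / 10)) : ℝ)) *
              (N : ℝ) ^ (4 : ℝ) := by gcongr
          _ ≤ ((N : ℝ) ^ (999 / 2000 * (81 / 10) - 4 : ℝ) *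
              (N : ℝ) ^ (-(999 / 2000 * (81 / 10)) : ℝ)) * (N : ℝ) ^ (4 : ℝ) := by gcongr
          _ = 1 := by
            rw [← Real.rpow_add hN0, ← Real.rpow_add hN0]
            norm_num
      have e3 : Nj ^ (-(81 / 10) : ℝ) * Nj ^ (81 / 10 : ℝ) = 1 := by
        rw [← Real.rpow_add hNjp]
        norm_num
      have e4 : 0 < Nj ^ (-(81 / 10) : ℝ) := Real.rpow_pos_of_pos hNjp _
      have e5 : (N : ℝ) ^ (4 : ℝ) ≤ Nj ^ (81 / 10 : ℝ) := by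
        by_contra hlt
        push Not at hlt
        have := mul_lt_mul_of_pos_left hlt e4
        linarith
      calc T ≤ (N : ℝ) ^ 4 := hTN
        _ = (N : ℝ) ^ (4 : ℝ) := by
          rw [show (4 : ℝ) = ((4 : ℕ) : ℝ) by norm_num, Real.rpow_natCast]
        _ ≤ Nj ^ (81 / 10 : ℝ) := e5
    have h5 : T / (2 * Real.pi * Nj ^ 9) ≤ Nj ^ (-(9 / 10) : ℝ) := by
      rw [div_le_iff₀ (by positivity)]
      calc T ≤ 1 * Nj ^ (81 / 10 : ℝ) := by linarith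
        _ ≤ 2 * Real.pi * Nj ^ (81 / 10 : ℝ) := by
          gcongr
          linarith
        _ = 2 * Real.pi * (Nj ^ (-(9 / 10) : ℝ) * Nj ^ (9 : ℝ)) := by
          rw [← Real.rpow_add hNjp]
          norm_num
        _ = Nj ^ (-(9 / 10) : ℝ) * (2 * Real.pi * Nj ^ 9) := by
          rw [show (9 : ℝ) = ((9 : ℕ) : ℝ) by norm_num, Real.rpow_natCast]
          ring
    have key := hLS p μ hp A B0 B1 ρ T Nj 0 na nb hA hρ hρ1 hNj1 (hj.trans hμN) (hj.trans hρN)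
      h3 h5 hn
    have e1 : Nj ^ (-(1 / 1400) : ℝ) ≤ 20 * (N : ℝ) ^ (-(1 / 2900) : ℝ) := by
      calc Nj ^ (-(1 / 1400) : ℝ)
          ≤ (20 : ℝ) ^ (1 / 1400 : ℝ) * (N : ℝ) ^ (-(999 / 2000 * (1 / 1400)) : ℝ) :=
            PN_neg hN1 hNjL (by norm_num)
        _ ≤ (20 : ℝ) ^ (1 : ℝ) * (N : ℝ) ^ (-(1 / 2900) : ℝ) := by
            gcongr
            · norm_num
            · norm_num
            · norm_num
        _ = 20 * (N : ℝ) ^ (-(1 / 2900) : ℝ) := by rw [Real.rpow_one]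
    have e2 : Nj ^ (-(1 / 20) : ℝ) ≤ 20 * (N : ℝ) ^ (-(1 / 45) : ℝ) := by
      calc Nj ^ (-(1 / 20) : ℝ)
          ≤ (20 : ℝ) ^ (1 / 20 : ℝ) * (N : ℝ) ^ (-(999 / 2000 * (1 / 20)) : ℝ) :=
            PN_neg hN1 hNjL (by norm_num)
        _ ≤ (20 : ℝ) ^ (1 : ℝ) * (N : ℝ) ^ (-(1 / 45) : ℝ) := by
            gcongr
            · norm_num
            · norm_num
            · norm_num
        _ = 20 * (N : ℝ) ^ (-(1 / 45) : ℝ) := by rw [Real.rpow_one]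
    calc ‖∑ n ∈ Finset.Icc na nb, p.term A T Nj 0 n‖
        ≤ K * (B0 ^ 2 * Nj ^ (-(1 / 1400) : ℝ) + B0 * B1 * Nj ^ (-(1 / 20) : ℝ)) * Nj := key
      _ ≤ K * (B0 ^ 2 * (20 * (N : ℝ) ^ (-(1 / 2900) : ℝ)) +
          B0 * B1 * (20 * (N : ℝ) ^ (-(1 / 45) : ℝ))) * (4 * Y * (√(N : ℝ) * h0)) := by gcongr
      _ = 80 * Y * K * (√(N : ℝ) * h0) * (B0 ^ 2 * (N : ℝ) ^ (-(1 / 2900) : ℝ) +
          B0 * B1 * (N : ℝ) ^ (-(1 / 45) : ℝ)) := by ring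
      _ ≤ K' * (√(N : ℝ) * h0) * (B0 ^ 2 * (N : ℝ) ^ (-(1 / 2900) : ℝ) +
          B0 * B1 * (N : ℝ) ^ (-(1 / 45) : ℝ)) := by gcongr

end Pool.Agent.H19.WB
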