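import Mathlib
import Pool.Agent.H19.WB.St
import Pool.Agent.H19.Sup.P3
import Pool.Agent.H19.Sup.G1

set_option autoImplicit false

/-!
# PT: number of lines of a plane, trivial bound for a plane

Let `v = (a z + b) / (c z + d)`, `v' = (a' z + b') / (c z + d)` be two points of the plane with `dist w v, dist w v' < 1/2`.  Then
`|w - v|² ≤ 4/15 v.im w.im ≤ 4/9 w.im²` (`Sup.G1_sq`, `Sup.near_im`), so `|v - v'| ≤ 4/3 w.im`.  From `a z + b = v (c z + d)`:
`(a - a') z.im = Im ((v - v') (c z + d))`, so `|a - a'| z.im ≤ 4/3 w.im √(CL1_nn c d z)`; for `a = a'`: `|b - b'| ≤ 4/3 w.im √(CL1_nn c d z)`.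
So (`Sup.P3_card_le`): the number of `a` with `LL ≠ 0` is at most `4/3 w.im √CL1_nn / z.im + 1`, every line has at most `4/3 w.im √CL1_nn + 1` nonzero terms,
each `≤ B0²` (`Sup.P3_osc_norm`).
-/

namespace Pool.Agent.H19.WB

open UpperHalfPlane
open Pool.Agent.H19.Maass Pool.Agent.H19.Sup

private lemma PT_nn_nonneg (c d : ℤ) (z : ℍ) : 0 ≤ CL1_nn c d z := by
  unfold CL1_nn; positivity

private lemma PT_nn_pos {z : ℍ} {c d a b : ℤ} (h : 0 < a * d - b * c) : 0 < CL1_nn c d z := by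
  have hz := z.im_pos
  rcases (PT_nn_nonneg c d z).lt_or_eq with h0 | h0
  · exact h0
  · exfalso
    unfold CL1_nn at h0
    have h1 : ((c : ℝ) * z.im) ^ 2 = 0 := by
      have e1 := sq_nonneg ((c : ℝ) * z.re + d)
      have e2 := sq_nonneg ((c : ℝ) * z.im)
      linarith
    have h2 : ((c : ℝ) * z.re + d) ^ 2 = 0 := by linarith
    have h3 : (c : ℝ) * z.im = 0 := pow_eq_zero_iff (two_ne_zero) |>.1 h1
    have h4 : (c : ℝ) = 0 := by
      rcases mul_eq_zero.1 h3 with h5 | h5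
      · exact h5
      · exact absurd h5 hz.ne'
    have h5 : (c : ℝ) * z.re + d = 0 := pow_eq_zero_iff (two_ne_zero) |>.1 h2
    rw [h4, zero_mul, zero_add] at h5
    have h6 : c = 0 := by exact_mod_cast h4
    have h7 : d = 0 := by exact_mod_cast h5
    subst h6 h7
    simp at h

private lemma PT_re {z : ℍ} {c d : ℤ} (a b : ℤ) (h : 0 < CL1_nn c d z) :
    pre z c d a b * ((c : ℝ) * z.re + d) - pim z c d a b * ((c : ℝ) * z.im) = (a : ℝ) * z.re + b := by
  have hn : CL1_nn c d z ≠ 0 := h.ne'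
  have key : (((a : ℝ) * z.re + b) * ((c : ℝ) * z.re + d) + a * c * z.im ^ 2) * ((c : ℝ) * z.re + d) -
      z.im * ((a : ℝ) * d - b * c) * ((c : ℝ) * z.im) = ((a : ℝ) * z.re + b) * CL1_nn c d z := by
    unfold CL1_nn; ring
  unfold pre pim
  rw [div_mul_eq_mul_div, div_mul_eq_mul_div, ← sub_div, key, mul_div_assoc, div_self hn, mul_one]

private lemma PT_im {z : ℍ} {c d : ℤ} (a b : ℤ) (h : 0 < CL1_nn c d z) :
    pre z c d a b * ((c : ℝ) * z.im) + pim z c d a b * ((c : ℝ) * z.re + d) = (a : ℝ) * z.im := by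
  have hn : CL1_nn c d z ≠ 0 := h.ne'
  have key : (((a : ℝ) * z.re + b) * ((c : ℝ) * z.re + d) + a * c * z.im ^ 2) * ((c : ℝ) * z.im) +
      z.im * ((a : ℝ) * d - b * c) * ((c : ℝ) * z.re + d) = ((a : ℝ) * z.im) * CL1_nn c d z := by
    unfold CL1_nn; ring
  unfold pre pim
  rw [div_mul_eq_mul_div, div_mul_eq_mul_div, ← add_div, key, mul_div_assoc, div_self hn, mul_one]

private lemma PT_near {A : ℝ → ℂ} {B0 B1 ρ T : ℝ} (hA : Amp A B0 B1 ρ) {w z : ℍ} {c d a b : ℤ} {d' : ℝ}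
    (hdet : 0 < a * d - b * c)
    (h : osc A T (dh w.re w.im (pim z c d a b) (pre z c d a b)) d' ≠ 0) :
    (pre z c d a b - w.re) ^ 2 + (pim z c d a b - w.im) ^ 2 ≤ 4 / 9 * w.im ^ 2 := by
  have hn := PT_nn_pos (z := z) hdet
  have hpos : 0 < pim z c d a b := by
    unfold pim
    have h1 : (0 : ℝ) < (a : ℝ) * d - b * c := by exact_mod_cast hdet
    have hz := z.im_pos
    positivity
  set v : ℍ := ⟨⟨pre z c d a b, pim z c d a b⟩, hpos⟩ with hv
  have hvre : v.re = pre z c d a b := rfl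
  have hvim : v.im = pim z c d a b := rfl
  have hlt : dist w v < 1 / 2 := by
    rw [P3_dist, hvre, hvim]
    by_contra hc
    push Not at hc
    exact h (P3_osc_zero A hA T d' hc)
  have hd : dist v w ≤ 1 / 2 := by rw [dist_comm]; exact hlt.le
  have h1 := G1_sq hd
  have h2 := (near_im hd).1
  rw [hvre, hvim] at h1
  rw [hvim] at h2
  have hw := w.im_pos
  nlinarith [mul_le_mul_of_nonneg_right h2 hw.le]

private lemma PT_two {x y x' y' X Y r : ℝ} (h1 : (x - X) ^ 2 + (y - Y) ^ 2 ≤ 4 / 9 * r ^ 2)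
    (h2 : (x' - X) ^ 2 + (y' - Y) ^ 2 ≤ 4 / 9 * r ^ 2) :
    (x - x') ^ 2 + (y - y') ^ 2 ≤ (4 / 3 * r) ^ 2 := by
  nlinarith [sq_nonneg ((x - X) + (x' - X)), sq_nonneg ((y - Y) + (y' - Y))]

private lemma PT_cs {p q e g s r : ℝ} (hs : 0 ≤ s) (hr : 0 ≤ r) (hn : e ^ 2 + g ^ 2 = s ^ 2)
    (h : p ^ 2 + q ^ 2 ≤ r ^ 2) : |p * g + q * e| ≤ r * s := by
  apply abs_le_of_sq_le_sq _ (mul_nonneg hr hs)
  have h1 : (p * g + q * e) ^ 2 ≤ (p ^ 2 + q ^ 2) * (e ^ 2 + g ^ 2) := by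
    nlinarith [sq_nonneg (p * e - q * g)]
  rw [hn] at h1
  calc (p * g + q * e) ^ 2 ≤ (p ^ 2 + q ^ 2) * s ^ 2 := h1
    _ ≤ r ^ 2 * s ^ 2 := mul_le_mul_of_nonneg_right h (sq_nonneg _)
    _ = (r * s) ^ 2 := by ring

private lemma PT_sq (c d : ℤ) (z : ℍ) :
    ((c : ℝ) * z.re + d) ^ 2 + ((c : ℝ) * z.im) ^ 2 = √(CL1_nn c d z) ^ 2 := by
  rw [Real.sq_sqrt (PT_nn_nonneg c d z)]; rfl

/-- two near points of a plane: their `a` -/
private lemma PT_a {A : ℝ → ℂ} {B0 B1 ρ T : ℝ} (hA : Amp A B0 B1 ρ) {w z : ℍ} {c d a b a' b' : ℤ}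
    {d1 d2 : ℝ} (hdet : 0 < a * d - b * c) (hdet' : 0 < a' * d - b' * c)
    (h : osc A T (dh w.re w.im (pim z c d a b) (pre z c d a b)) d1 ≠ 0)
    (h' : osc A T (dh w.re w.im (pim z c d a' b') (pre z c d a' b')) d2 ≠ 0) :
    |(a : ℝ) - a'| * z.im ≤ 4 / 3 * w.im * √(CL1_nn c d z) := by
  have hn := PT_nn_pos (z := z) hdet
  have h1 := PT_two (PT_near hA hdet h) (PT_near hA hdet' h')
  have hw := w.im_pos
  have h2 := PT_cs (Real.sqrt_nonneg (CL1_nn c d z)) (by positivity : (0 : ℝ) ≤ 4 / 3 * w.im)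
    (PT_sq c d z) h1
  have e1 := PT_im (z := z) a b hn
  have e2 := PT_im (z := z) a' b' hn
  have e3 : (pre z c d a b - pre z c d a' b') * ((c : ℝ) * z.im) +
      (pim z c d a b - pim z c d a' b') * ((c : ℝ) * z.re + d) = ((a : ℝ) - a') * z.im := by
    linarith
  rw [e3, abs_mul, abs_of_pos z.im_pos] at h2
  exact h2

/-- two near points of a line: their `b` -/
private lemma PT_b {A : ℝ → ℂ} {B0 B1 ρ T : ℝ} (hA : Amp A B0 B1 ρ) {w z : ℍ} {c d a b b' : ℤ}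
    {d1 d2 : ℝ} (hdet : 0 < a * d - b * c) (hdet' : 0 < a * d - b' * c)
    (h : osc A T (dh w.re w.im (pim z c d a b) (pre z c d a b)) d1 ≠ 0)
    (h' : osc A T (dh w.re w.im (pim z c d a b') (pre z c d a b')) d2 ≠ 0) :
    |(b : ℝ) - b'| ≤ 4 / 3 * w.im * √(CL1_nn c d z) := by
  have hn := PT_nn_pos (z := z) hdet
  have h1 := PT_two (PT_near hA hdet h) (PT_near hA hdet' h')
  have hw := w.im_pos
  have h3 : (-(pim z c d a b - pim z c d a b')) ^ 2 + (pre z c d a b - pre z c d a b') ^ 2 ≤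
      (4 / 3 * w.im) ^ 2 := by
    rw [neg_sq, add_comm]; exact h1
  have h2 := PT_cs (Real.sqrt_nonneg (CL1_nn c d z)) (by positivity : (0 : ℝ) ≤ 4 / 3 * w.im)
    (PT_sq c d z) h3
  have e1 := PT_re (z := z) a b hn
  have e2 := PT_re (z := z) a b' hn
  have e3 : -(pim z c d a b - pim z c d a b') * ((c : ℝ) * z.im) +
      (pre z c d a b - pre z c d a b') * ((c : ℝ) * z.re + d) = (b : ℝ) - b' := by
    linarith
  rw [e3] at h2
  exact h2

private lemma PT_card (S : Finset ℤ) {r : ℝ} (hr : 0 ≤ r) (h : ∀ a ∈ S, ∀ a' ∈ S, |(a : ℝ) - a'| ≤ r) :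
    (S.card : ℝ) ≤ r + 1 := by
  rcases S.eq_empty_or_nonempty with h0 | h0
  · subst h0
    simp
    linarith
  · have hm := S.min'_mem h0
    have h1 := P3_card_le S (S.min' h0 : ℤ) ((S.min' h0 : ℤ) + r) (by linarith) (by
      intro b hb
      constructor
      · exact_mod_cast S.min'_le b hb
      · have := (abs_le.1 (h b hb _ hm)).2
        linarith)
    linarith

private lemma PT_LL_ne {A : ℝ → ℂ} {T : ℝ} {w w' z : ℍ} {c d a M : ℤ} (h : LL A T M w w' z c d a ≠ 0) :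
    ∃ b : ℤ, 0 < a * d - b * c ∧ osc A T (dh w.re w.im (pim z c d a b) (pre z c d a b))
      (dh w'.re w'.im (pim z c d a b) (pre z c d a b)) ≠ 0 := by
  unfold LL at h
  obtain ⟨b, hb, hb2⟩ := Finset.exists_ne_zero_of_sum_ne_zero h
  split_ifs at hb2 with h1
  · exact ⟨b, h1, hb2⟩
  · exact absurd rfl hb2

open Classical in
theorem card_lines {A : ℝ → ℂ} {B0 B1 ρ T : ℝ} (hA : Amp A B0 B1 ρ) (w w' z : ℍ) (c d M : ℤ) :
    (((Finset.Icc (-M) M).filter fun a => LL A T M w w' z c d a ≠ 0).card : ℝ) ≤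
      4 / 3 * w.im * √(CL1_nn c d z) / z.im + 1 := by
  have hw := w.im_pos
  have hz := z.im_pos
  refine PT_card _ (by positivity) ?_
  intro a ha a' ha'
  obtain ⟨b, h1, h2⟩ := PT_LL_ne (Finset.mem_filter.1 ha).2
  obtain ⟨b', h1', h2'⟩ := PT_LL_ne (Finset.mem_filter.1 ha').2
  rw [le_div_iff₀ hz]
  exact PT_a hA h1 h1' h2 h2'

theorem line_triv {A : ℝ → ℂ} {B0 B1 ρ T : ℝ} (hA : Amp A B0 B1 ρ) (w w' z : ℍ) (c d a M : ℤ) :
    ‖LL A T M w w' z c d a‖ ≤ (4 / 3 * w.im * √(CL1_nn c d z) + 1) * B0 ^ 2 := by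
  classical
  have hw := w.im_pos
  set F : ℤ → ℂ := fun b => if 0 < a * d - b * c then
    osc A T (dh w.re w.im (pim z c d a b) (pre z c d a b))
      (dh w'.re w'.im (pim z c d a b) (pre z c d a b)) else 0 with hF
  set S : Finset ℤ := (Finset.Icc (-M) M).filter (fun b => F b ≠ 0) with hS
  have h1 : LL A T M w w' z c d a = ∑ b ∈ S, F b := by
    rw [hS, Finset.sum_filter_ne_zero]
    rfl
  have hcard : (S.card : ℝ) ≤ 4 / 3 * w.im * √(CL1_nn c d z) + 1 := by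
    refine PT_card _ (by positivity) ?_
    intro b hb b' hb'
    have h2 := (Finset.mem_filter.1 hb).2
    have h2' := (Finset.mem_filter.1 hb').2
    rw [hF] at h2 h2'
    simp only [ne_eq, ite_eq_right_iff, not_forall] at h2 h2'
    obtain ⟨h3, h4⟩ := h2
    obtain ⟨h3', h4'⟩ := h2'
    exact PT_b hA h3 h3' h4 h4'
  rw [h1]
  calc ‖∑ b ∈ S, F b‖ ≤ ∑ b ∈ S, B0 ^ 2 := by
        apply norm_sum_le_of_le
        intro b _
        rw [hF]
        dsimp only
        split_ifs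
        · exact P3_osc_norm A hA T _ _
        · rw [norm_zero]; positivity
    _ = S.card * B0 ^ 2 := by rw [Finset.sum_const, nsmul_eq_mul]
    _ ≤ _ := mul_le_mul_of_nonneg_right hcard (sq_nonneg _)

theorem plane_triv_w : PlaneTrivW := by
  intro Y0
  set R : ℝ := √(|Y0| + 1) with hR
  have hR0 : 0 ≤ R := Real.sqrt_nonneg _
  have hR2 : R ^ 2 = |Y0| + 1 := Real.sq_sqrt (by positivity)
  refine ⟨(32 / 3 * R + 1) ^ 2, by positivity, ?_⟩
  intro A B0 B1 ρ T h0 N M w w' z c d hA hN hh hz hzY hwh hnn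
  classical
  have hN' : (1 : ℝ) ≤ N := by exact_mod_cast hN
  set s : ℝ := √(CL1_nn c d z) with hs
  have hs0 : 0 ≤ s := Real.sqrt_nonneg _
  set n : ℝ := √(N : ℝ) with hn
  have hn1 : 1 ≤ n := by rw [hn]; exact Real.one_le_sqrt.2 hN'
  have hn2 : n ^ 2 = N := Real.sq_sqrt (by linarith)
  have hw := w.im_pos
  have hs1 : s ≤ 4 * n * R := by
    have hle : CL1_nn c d z ≤ (4 * n * R) ^ 2 := by
      have e : (4 * n * R) ^ 2 = 16 * N * (|Y0| + 1) := by
        rw [← hn2, ← hR2]; ring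
      rw [e]
      refine hnn.trans ?_
      have h1 : z.im ≤ |Y0| + 1 := by
        have := le_abs_self Y0
        linarith
      exact mul_le_mul_of_nonneg_left h1 (by positivity)
    rw [hs]
    exact (Real.sqrt_le_sqrt hle).trans_eq (Real.sqrt_sq (by positivity))
  have hb1 : 4 / 3 * w.im * s ≤ 16 / 3 * R * (h0 * n) := by
    calc 4 / 3 * w.im * s ≤ 4 / 3 * h0 * (4 * n * R) := by gcongr
      _ = _ := by ring
  have hhn : 1 ≤ h0 * n := by nlinarith
  have hline : 4 / 3 * w.im * s + 1 ≤ (32 / 3 * R + 1) * (h0 * n) := by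
    nlinarith [mul_nonneg hR0 (by linarith : (0 : ℝ) ≤ h0 * n)]
  have hcard : 4 / 3 * w.im * s / z.im + 1 ≤ (32 / 3 * R + 1) * (h0 * n) := by
    have h1 : 4 / 3 * w.im * s / z.im ≤ 2 * (4 / 3 * w.im * s) := by
      rw [div_le_iff₀ (by linarith)]
      have h2 : 0 ≤ 4 / 3 * w.im * s := by positivity
      nlinarith
    nlinarith [mul_nonneg hR0 (by linarith : (0 : ℝ) ≤ h0 * n)]
  set S : Finset ℤ := (Finset.Icc (-M) M).filter fun a => LL A T M w w' z c d a ≠ 0 with hS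
  have h1 : PL A T M w w' z c d = ∑ a ∈ S, LL A T M w w' z c d a := by
    rw [hS, Finset.sum_filter_ne_zero]
    rfl
  have hc := card_lines (T := T) hA w w' z c d M
  rw [h1]
  calc ‖∑ a ∈ S, LL A T M w w' z c d a‖
      ≤ ∑ a ∈ S, (32 / 3 * R + 1) * (h0 * n) * B0 ^ 2 := by
        apply norm_sum_le_of_le
        intro a _
        exact (line_triv hA w w' z c d a M).trans (mul_le_mul_of_nonneg_right hline (sq_nonneg _))
    _ = S.card * ((32 / 3 * R + 1) * (h0 * n) * B0 ^ 2) := by rw [Finset.sum_const, nsmul_eq_mul]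
    _ ≤ (32 / 3 * R + 1) * (h0 * n) * ((32 / 3 * R + 1) * (h0 * n) * B0 ^ 2) := by
        refine mul_le_mul_of_nonneg_right (hc.trans hcard) (by positivity)
    _ = (32 / 3 * R + 1) ^ 2 * (n ^ 2 * h0 ^ 2) * B0 ^ 2 := by ring
    _ = _ := by rw [hn2]

end Pool.Agent.H19.WB
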