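import Mathlib
import Pool.Agent.H19.WB.St
import Pool.Agent.H19.WB.PT

set_option autoImplicit false

/-!
# PS: a plane

* `plane_sum_w`: `PL = ∑_a LL`, only the `a` of `card_lines` count, their number is at most `4/3 h0 4 √(N z.im) / z.im + 1 ≤ K √N h0`, each line by `plane_line`.
-/

namespace Pool.Agent.H19.WB

open UpperHalfPlane
open Pool.Agent.H19.Maass Pool.Agent.H19.Sup

theorem plane_sum_w (plane_line : PlaneLineW) : PlaneSumW := by
  intro Y0
  obtain ⟨K1, hK1, hl⟩ := plane_line Y0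
  set R : ℝ := √(|Y0| + 1) with hR
  have hR0 : 0 ≤ R := Real.sqrt_nonneg _
  have hR2 : R ^ 2 = |Y0| + 1 := Real.sq_sqrt (by positivity)
  refine ⟨K1 * (32 / 3 * R + 1), by positivity, ?_⟩
  intro A B0 B1 ρ T μ h0 N M w w' z c d hP hlo hnn hμ
  classical
  have hN' : (1 : ℝ) ≤ N := by exact_mod_cast hP.hN
  have hz := hP.hz
  have hh := hP.hh
  have hwh := hP.hwh
  have hw := w.im_pos
  set s : ℝ := √(CL1_nn c d z) with hs
  have hs0 : 0 ≤ s := Real.sqrt_nonneg _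
  set n : ℝ := √(N : ℝ) with hn
  have hn1 : 1 ≤ n := by rw [hn]; exact Real.one_le_sqrt.2 hN'
  have hn2 : n ^ 2 = N := Real.sq_sqrt (by linarith)
  set E : ℝ := B0 ^ 2 * (N : ℝ) ^ (-(1 / 2900) : ℝ) + B0 * B1 * (N : ℝ) ^ (-(1 / 45) : ℝ) with hE
  have hLL : ∀ a : ℤ, ‖LL A T M w w' z c d a‖ ≤ K1 * (n * h0) * E := fun a =>
    hl A B0 B1 ρ T μ h0 N M w w' z c d a hP hlo hnn hμ
  have hb0 : 0 ≤ K1 * (n * h0) * E := (norm_nonneg _).trans (hLL 0)
  have hs1 : s ≤ 4 * n * R := by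
    have hle : CL1_nn c d z ≤ (4 * n * R) ^ 2 := by
      have e : (4 * n * R) ^ 2 = 16 * N * (|Y0| + 1) := by
        rw [← hn2, ← hR2]; ring
      rw [e]
      refine hnn.trans ?_
      have h1 : z.im ≤ |Y0| + 1 := by
        have := le_abs_self Y0
        linarith [hP.hzY]
      exact mul_le_mul_of_nonneg_left h1 (by positivity)
    rw [hs]
    exact (Real.sqrt_le_sqrt hle).trans_eq (Real.sqrt_sq (by positivity))
  have hb1 : 4 / 3 * w.im * s ≤ 16 / 3 * R * (h0 * n) := by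
    calc 4 / 3 * w.im * s ≤ 4 / 3 * h0 * (4 * n * R) := by gcongr
      _ = _ := by ring
  have hhn : 1 ≤ h0 * n := by nlinarith
  have hcard : 4 / 3 * w.im * s / z.im + 1 ≤ (32 / 3 * R + 1) * (h0 * n) := by
    have h1 : 4 / 3 * w.im * s / z.im ≤ 2 * (4 / 3 * w.im * s) := by
      rw [div_le_iff₀ (by linarith)]
      have h2 : 0 ≤ 4 / 3 * w.im * s := by positivity
      nlinarith
    nlinarith [mul_nonneg hR0 (by linarith : (0 : ℝ) ≤ h0 * n)]
  set S : Finset ℤ := (Finset.Icc (-M) M).filter fun a => LL A T M w w' z c d a ≠ 0 with hS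
  have h1 : PL A T M w w' z c d = ∑ a ∈ S, LL A T M w w' z c d a := by
    rw [hS, Finset.sum_filter_ne_zero]
    rfl
  have hc := card_lines (T := T) hP.hA w w' z c d M
  rw [h1]
  calc ‖∑ a ∈ S, LL A T M w w' z c d a‖
      ≤ ∑ a ∈ S, K1 * (n * h0) * E := by
        apply norm_sum_le_of_le
        intro a _
        exact hLL a
    _ = S.card * (K1 * (n * h0) * E) := by rw [Finset.sum_const, nsmul_eq_mul]
    _ ≤ (32 / 3 * R + 1) * (h0 * n) * (K1 * (n * h0) * E) :=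
        mul_le_mul_of_nonneg_right (hc.trans hcard) hb0
    _ = K1 * (32 / 3 * R + 1) * (n ^ 2 * h0 ^ 2) * E := by ring
    _ = _ := by rw [hn2]

end Pool.Agent.H19.WB
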