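import Mathlib
import Pool.Agent.H19.WB.St
import Pool.Agent.H19.Sup.K5

set_option autoImplicit false

/-!
# SK: the split kernel works for all forms of the window

* `selb4_w`: as `Sup.selb4` (`Sup/K0.lean`): real part `∫ rho4 b cos (T b) cos (t b) db`; `cos (T b) cos (t b) =
  cos² (T b) + cos (T b) (cos (t b) - cos (T b))`, `|cos (t b) - cos (T b)| ≤ |t - T| |b| ≤ |b| / 10`, `rho4 ≤ 1`, `rho4 = 0` for
  `1/4 ≤ |b|`, so the difference is at most `∫_{-1/4}^{1/4} |b| / 10 = 1/160`; `Sup.K0_integral`: `1/20 - 1/160 ≥ 1/40`.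
* `split_kernel_w`: copy of `Sup.split_kernel` (`Sup/K5.lean`, line 192) with `selb4_w` instead of `selb4`.
-/

namespace Pool.Agent.H19.WB

open MeasureTheory UpperHalfPlane
open Pool.Agent.H19.Maass Pool.Agent.H19.Sup
open scoped MatrixGroups ComplexConjugate ENNReal

lemma SK_err (T t : ℝ) (ht : |t - T| ≤ 1 / 10) :
    |∫ b : ℝ, rho4 b * (Real.cos (T * b) * (Real.cos (t * b) - Real.cos (T * b)))| ≤ 1 / 80 := by
  have h1 : ∫ b : ℝ, rho4 b * (Real.cos (T * b) * (Real.cos (t * b) - Real.cos (T * b))) =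
      ∫ b in Set.Icc (-(1 / 4) : ℝ) (1 / 4),
        rho4 b * (Real.cos (T * b) * (Real.cos (t * b) - Real.cos (T * b))) := by
    symm
    apply setIntegral_eq_integral_of_forall_compl_eq_zero
    intro b hb
    rw [K0_supp, zero_mul]
    by_contra h
    apply hb
    rw [Set.mem_Icc, ← abs_le]
    linarith [not_le.1 h]
  rw [h1, ← Real.norm_eq_abs]
  have h2 : ∀ b ∈ Set.Icc (-(1 / 4) : ℝ) (1 / 4),
      ‖rho4 b * (Real.cos (T * b) * (Real.cos (t * b) - Real.cos (T * b)))‖ ≤ 1 / 40 := by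
    intro b hb
    have hb' : |b| ≤ 1 / 4 := abs_le.2 hb
    rw [norm_mul, norm_mul, Real.norm_eq_abs, Real.norm_eq_abs, Real.norm_eq_abs]
    have e1 : |rho4 b| ≤ 1 := by rw [abs_of_nonneg (K0_nonneg b)]; exact K0_le_one b
    have e2 : |Real.cos (T * b)| ≤ 1 := Real.abs_cos_le_one _
    have e3 : |Real.cos (t * b) - Real.cos (T * b)| ≤ 1 / 40 := by
      have h := Real.abs_cos_sub_cos_le (t * b) (T * b)
      refine h.trans ?_
      rw [← sub_mul, abs_mul]
      have := mul_le_mul ht hb' (abs_nonneg _) (by norm_num)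
      linarith
    have e4 : |Real.cos (T * b)| * |Real.cos (t * b) - Real.cos (T * b)| ≤ 1 * (1 / 40) :=
      mul_le_mul e2 e3 (abs_nonneg _) zero_le_one
    have e5 : |rho4 b| * (|Real.cos (T * b)| * |Real.cos (t * b) - Real.cos (T * b)|) ≤
        1 * (1 * (1 / 40)) := mul_le_mul e1 e4 (by positivity) zero_le_one
    linarith
  have h3 := norm_setIntegral_le_of_norm_le_const (μ := volume) (s := Set.Icc (-(1 / 4) : ℝ) (1 / 4))
    (by simp) h2
  refine h3.trans ?_
  rw [Measure.real, Real.volume_Icc, ENNReal.toReal_ofReal (by norm_num)]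
  norm_num

theorem selb4_w {T t : ℝ} (hT : 1 ≤ T) (ht : |t - T| ≤ 1 / 10) :
    1 / 40 ≤ ‖selb (kd (gT4 T)) (1 / 2 + t * Complex.I)‖ := by
  obtain ⟨B, hB, hE⟩ := EV4
  have hEV := hE T hT
  refine le_trans ?_ (Complex.re_le_norm _)
  rw [hEV.selb_eq]
  have hc : Continuous fun b : ℝ => (gT4 T b : ℂ) *
      Complex.exp ((1 / 2 + t * Complex.I - 1 / 2) * b) := by
    have := hEV.d1.continuous
    fun_prop
  have hint : Integrable fun b : ℝ => (gT4 T b : ℂ) *
      Complex.exp ((1 / 2 + t * Complex.I - 1 / 2) * b) := by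
    refine hc.integrable_of_hasCompactSupport ?_
    exact (hEV.hcs.comp_left (g := fun x : ℝ => (x : ℂ)) (by simp)).mul_right
  have h1 : (∫ b : ℝ, (gT4 T b : ℂ) * Complex.exp ((1 / 2 + t * Complex.I - 1 / 2) * b)).re =
      ∫ b : ℝ, rho4 b * (Real.cos (T * b) * Real.cos (t * b)) := by
    have h2 := integral_re (𝕜 := ℂ) hint
    have h3 : RCLike.re (∫ b : ℝ, (gT4 T b : ℂ) *
        Complex.exp ((1 / 2 + t * Complex.I - 1 / 2) * b)) =
      (∫ b : ℝ, (gT4 T b : ℂ) * Complex.exp ((1 / 2 + t * Complex.I - 1 / 2) * b)).re := rfl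
    rw [← h3, ← h2]
    refine integral_congr_ae (Filter.Eventually.of_forall fun b => ?_)
    simp only
    have h4 : (1 / 2 + (t : ℂ) * Complex.I - 1 / 2) * (b : ℂ) = ((t * b : ℝ) : ℂ) * Complex.I := by
      push_cast; ring
    rw [h4]
    show ((gT4 T b : ℂ) * Complex.exp (((t * b : ℝ) : ℂ) * Complex.I)).re = _
    rw [Complex.re_ofReal_mul, Complex.exp_ofReal_mul_I_re]
    unfold gT4
    ring
  rw [h1]
  have h5 : ∫ b : ℝ, rho4 b * (Real.cos (T * b) * Real.cos (t * b)) =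
      (∫ b : ℝ, rho4 b * (Real.cos (T * b) * Real.cos (T * b))) +
      ∫ b : ℝ, rho4 b * (Real.cos (T * b) * (Real.cos (t * b) - Real.cos (T * b))) := by
    rw [← integral_add (K0_integrable (by fun_prop)) (K0_integrable (by fun_prop))]
    refine integral_congr_ae (Filter.Eventually.of_forall fun b => ?_)
    simp only
    ring
  rw [h5]
  have h6 := K0_integral hT
  have h7 := (abs_le.1 (SK_err T t ht)).1
  linarith

theorem split_kernel_w : SplitKernelW := by
  obtain ⟨R, C1, hC1, hR2, hRs, hRb, hmain⟩ := kernel_main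
  obtain ⟨K, hK, hAA⟩ := AA_bounds R C1 hR2 hRs hRb
  obtain ⟨C4, hC4, hph⟩ := ph4
  obtain ⟨B, hB, hEV⟩ := EV4
  refine ⟨C1 + 2 * C4 + 2 * K + 8, by positivity, ?_⟩
  set C := C1 + 2 * C4 + 2 * K + 8 with hCdef
  have hC0 : 0 < C := by positivity
  intro T hT ρ hρT hρ8
  have hT0 : 0 < T := by linarith
  have hρ : 0 < ρ := lt_of_lt_of_le (by positivity) hρT
  have hsT : 0 < √T := Real.sqrt_pos.mpr hT0
  have hsρ : 0 < √ρ := Real.sqrt_pos.mpr hρ
  obtain ⟨L, hL1, hL2, hphb⟩ := hph T hT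
  obtain ⟨hA1, hA2, hA3⟩ := hAA T hT
  have hker : Ker (kd (gT4 T)) (1 / 4) := (hEV T hT).ker
  have hρinv : 1 ≤ 1 / ρ := by rw [le_div_iff₀ hρ]; linarith
  obtain ⟨j0, hj1, hj2⟩ := exists_nat_pow_near hρinv (show (1 : ℝ) < 4 by norm_num)
  have hj1' : (4 : ℝ) ^ j0 * ρ ≤ 1 := by rwa [le_div_iff₀ hρ] at hj1
  have hj2' : 1 < (4 : ℝ) ^ (j0 + 1) * ρ := by rwa [div_lt_iff₀ hρ] at hj2
  have hj0L : j0 ≤ L := by
    have h1 : (4 : ℝ) ^ j0 ≤ 4 ^ L := by
      have h2 : 1 / ρ ≤ T := by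
        rw [div_le_iff₀ hρ]
        rw [div_le_iff₀ hT0] at hρT
        linarith
      have h3 : T ≤ 4 ^ L := by
        have h4 : √T ^ 2 ≤ (2 ^ L) ^ 2 := pow_le_pow_left₀ hsT.le hL1 2
        rw [Real.sq_sqrt hT0.le] at h4
        calc T ≤ (2 ^ L) ^ 2 := h4
          _ = 4 ^ L := by rw [← pow_mul, mul_comm, pow_mul]; norm_num
      exact hj1.trans (h2.trans h3)
    exact (pow_le_pow_iff_right₀ (by norm_num : (1 : ℝ) < 4)).mp h1
  have h8 : 1 / (8 : ℝ) ^ j0 ≤ 8 * ρ ^ (3 / 2 : ℝ) := by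
    have h1 : (1 / (4 : ℝ) ^ (j0 + 1)) ^ (3 / 2 : ℝ) ≤ ρ ^ (3 / 2 : ℝ) := by
      apply Real.rpow_le_rpow (by positivity) _ (by norm_num)
      rw [div_le_iff₀ (by positivity)]
      linarith
    have h2 : (1 / (4 : ℝ) ^ (j0 + 1)) ^ (3 / 2 : ℝ) = 1 / 8 ^ (j0 + 1) := by
      rw [Real.div_rpow zero_le_one (by positivity), Real.one_rpow]
      congr 1
      rw [← Real.rpow_natCast, ← Real.rpow_natCast, ← Real.rpow_mul (by norm_num)]
      rw [show (4 : ℝ) = 2 ^ (2 : ℝ) by norm_num, show (8 : ℝ) = 2 ^ (3 : ℝ) by norm_num,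
        ← Real.rpow_mul (by norm_num), ← Real.rpow_mul (by norm_num)]
      congr 1
      ring
    rw [h2] at h1
    have h3 : 1 / (8 : ℝ) ^ j0 = 8 * (1 / 8 ^ (j0 + 1)) := by
      rw [pow_succ]
      field_simp
    rw [h3]
    linarith
  have hamp := K5_amp R hK hT hρ (by linarith) hA1 hA2 hA3
  have hAmp : Amp (K5_Af R T ρ) (C * √T / √ρ) (C * √T / ρ ^ 3) ρ := by
    refine ⟨hamp.lo, hamp.hi, ?_, ?_⟩
    · intro d
      refine (hamp.bdd d).trans ?_
      have : K ≤ C := by rw [hCdef]; linarith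
      gcongr
    · intro d d'
      refine (hamp.lip d d').trans ?_
      have : 2 * K ≤ C := by rw [hCdef]; linarith
      gcongr
  refine ⟨L, j0, kd (gT4 T), K5_Af R T ρ, hL2, hj0L, ?_, hker, fun t ht => selb4_w hT ht, hAmp, ?_⟩
  · refine h8.trans ?_
    have h1 : 0 ≤ ρ ^ (3 / 2 : ℝ) := Real.rpow_nonneg hρ.le _
    have h2 : 8 ≤ C := by rw [hCdef]; linarith
    exact mul_le_mul_of_nonneg_right h2 h1
  · intro z w
    set d := dist z w with hd
    have hd0 : 0 ≤ d := dist_nonneg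
    rcases lt_or_ge (1 / 2) d with hd1 | hd1
    · have h1 : KK (kd (gT4 T)) z w = 0 := KK_supp hker (by rw [← hd]; linarith)
      have h2 : wv (K5_Af R T ρ) T d = 0 := by
        unfold wv
        rw [hAmp.hi d hd1.le, zero_mul]
      rw [h1, h2]
      simp
    rcases le_or_gt (2 * ρ) d with hd2 | hd2
    · have h1 : K5_Af R T ρ d = AA R T d := by
        unfold K5_Af
        rw [K5_psi_one (by rw [le_div_iff₀ hρ]; exact hd2)]
        simp
      have h2 : wv (K5_Af R T ρ) T d = wv (AA R T) T d := by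
        unfold wv
        rw [h1]
      rw [h2]
      have h3 := hmain T hT z w (by rw [← hd]; linarith)
      rw [← hd] at h3
      have h4 : 2 * Real.cosh d - 2 ≤ 1 := by
        have := K5_cosh hd0 hd1
        nlinarith
      unfold phn
      rw [ic_true h4, mul_one]
      refine le_trans ?_ le_self_add
      apply ENNReal.ofReal_le_ofReal
      refine h3.trans ?_
      rw [hCdef]; linarith
    · have hs : 2 * Real.cosh d - 2 ≤ 6 / 16 ^ j0 := by
        have h1 := K5_cosh hd0 (by linarith)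
        have h2 : d ^ 2 ≤ 4 * ρ ^ 2 := by nlinarith
        have h3 : ρ ^ 2 ≤ 1 / 16 ^ j0 := by
          rw [le_div_iff₀ (by positivity)]
          have h4 : (4 ^ j0 * ρ) ^ 2 ≤ 1 := by
            have := pow_le_pow_left₀ (by positivity) hj1' 2
            simpa using this
          calc ρ ^ 2 * 16 ^ j0 = (4 ^ j0 * ρ) ^ 2 := by
                rw [mul_pow, ← pow_mul, mul_comm j0 2, pow_mul]; norm_num; ring
            _ ≤ 1 := h4
        have h5 : (6 : ℝ) / 16 ^ j0 = 6 * (1 / 16 ^ j0) := by ring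
        rw [h5]
        linarith
      set s := 2 * Real.cosh d - 2 with hsdef
      have hsρ2 : 1 / √ρ ≤ 2 * 2 ^ j0 := by
        rw [div_le_iff₀ hsρ]
        have h1 : (1 : ℝ) ^ 2 ≤ (2 * 2 ^ j0 * √ρ) ^ 2 := by
          rw [mul_pow, Real.sq_sqrt hρ.le]
          have : (2 * (2 : ℝ) ^ j0) ^ 2 = 4 ^ (j0 + 1) := by
            rw [mul_pow, ← pow_mul, mul_comm j0 2, pow_mul, pow_succ]; norm_num; ring
          rw [this, one_pow]
          exact hj2'.le
        exact (pow_le_pow_iff_left₀ zero_le_one (by positivity) two_ne_zero).mp h1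
      have hw : |(wv (K5_Af R T ρ) T d).re| ≤ 2 * K * √T * 2 ^ j0 := by
        refine (Complex.abs_re_le_norm _).trans ?_
        unfold wv
        rw [norm_mul, Complex.norm_exp_ofReal_mul_I, mul_one]
        refine (hamp.bdd d).trans ?_
        calc K * √T / √ρ = K * √T * (1 / √ρ) := by ring
          _ ≤ K * √T * (2 * 2 ^ j0) := mul_le_mul_of_nonneg_left hsρ2 (by positivity)
          _ = 2 * K * √T * 2 ^ j0 := by ring
      have e1 : ENNReal.ofReal |KK (kd (gT4 T)) z w - (wv (K5_Af R T ρ) T d).re| ≤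
          ENNReal.ofReal |KK (kd (gT4 T)) z w| + ENNReal.ofReal (2 * K * √T * 2 ^ j0) := by
        rw [← ENNReal.ofReal_add (abs_nonneg _) (by positivity)]
        apply ENNReal.ofReal_le_ofReal
        refine (abs_sub _ _).trans ?_
        linarith
      refine e1.trans ?_
      have e2 : ENNReal.ofReal |KK (kd (gT4 T)) z w| ≤
          2 * ∑ j ∈ Finset.Icc j0 L, ENNReal.ofReal (C4 * √T * 2 ^ j) * ic (s ≤ 6 / 16 ^ j) :=
        (hphb z w).trans (K5_tail hC4.le hj0L hs)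
      have e3 : ENNReal.ofReal (2 * K * √T * 2 ^ j0) ≤
          ∑ j ∈ Finset.Icc j0 L, ENNReal.ofReal (2 * K * √T * 2 ^ j) * ic (s ≤ 6 / 16 ^ j) := by
        calc ENNReal.ofReal (2 * K * √T * 2 ^ j0) =
            ENNReal.ofReal (2 * K * √T * 2 ^ j0) * ic (s ≤ 6 / 16 ^ j0) := by
              rw [ic_true hs, mul_one]
          _ ≤ _ := Finset.single_le_sum (f := fun j => ENNReal.ofReal (2 * K * √T * 2 ^ j) *
              ic (s ≤ 6 / 16 ^ j)) (fun _ _ => bot_le) (Finset.mem_Icc.mpr ⟨le_rfl, hj0L⟩)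
      refine (add_le_add e2 e3).trans ?_
      unfold phn
      refine le_trans ?_ le_add_self
      rw [Finset.mul_sum, ← Finset.sum_add_distrib]
      apply Finset.sum_le_sum
      intro j _
      rw [← mul_assoc, ← add_mul]
      gcongr
      rw [show (2 : ℝ≥0∞) = ENNReal.ofReal 2 by simp, ← ENNReal.ofReal_mul (by norm_num),
        ← ENNReal.ofReal_add (by positivity) (by positivity)]
      apply ENNReal.ofReal_le_ofReal
      have h7 : 2 * C4 + 2 * K ≤ C := by rw [hCdef]; linarith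
      calc 2 * (C4 * √T * 2 ^ j) + 2 * K * √T * 2 ^ j = (2 * C4 + 2 * K) * (√T * 2 ^ j) := by ring
        _ ≤ C * (√T * 2 ^ j) := mul_le_mul_of_nonneg_right h7 (by positivity)
        _ = C * √T * 2 ^ j := by ring

end Pool.Agent.H19.WB
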