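import Mathlib
import Pool.Agent.H19.WB.SK
import Pool.Agent.H19.WB.BS
import Pool.Agent.H19.WB.N3
import Pool.Agent.H19.WB.GB
import Pool.Agent.H19.WB.LS
import Pool.Agent.H19.WB.PN
import Pool.Agent.H19.WB.PS
import Pool.Agent.H19.WB.AP
import Pool.Agent.H19.WB.FB
import Pool.Agent.H19.WB.LI

set_option autoImplicit false

/-!
# The steps put together: forms with large Hecke eigenvalues
-/

namespace Pool.Agent.H19.WB

theorem far_bound : FarBoundW :=
  far_bound_w (all_planes_w (plane_sum_w (plane_line_w (line_sum_w good_block_w nondeg_w)))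
    plane_triv_w) (all_triv_w plane_triv_w)

theorem large_improved : LargeImprovedW := large_improved_w far_bound split_kernel_w bessel_w

end Pool.Agent.H19.WB
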