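import Mathlib
import Pool.Agent.H19.WB.St
import Pool.Agent.H19.Maass.Unit

set_option autoImplicit false

/-!
# SV: large sieve inequality of any length

Everything is a copy with strips of height `Y` instead of `1`:
* `strip (lc a U) Y ≤ (3 + 8 / Y) ∑ ‖a j‖²` (`Maass.strip_lc_le`, `count_strip`), `strip_ge` with `Ioi (log Y)` instead of `Ioi 0` (`Maass/Cusp.lean`);
* `cusp_dual` for `𝒩` with `n Y ≤ exp (b - 1)`: `r = x + log n`, `x > log Y`; constant `3 + 8 / Y ≤ 11 / Y`;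
* `cusp_sieve`, `large_sieve` (`Maass/Sieve.lean`): `11` becomes `11 / Y`;
-/

namespace Pool.Agent.H19.WB

open UpperHalfPlane
open Pool.Agent.H19.Maass Pool.Agent.H19.Sup
open scoped MatrixGroups ComplexConjugate ENNReal
open MeasureTheory Set Filter Topology ModularGroup
open scoped Modular

variable {J : Type} [Fintype J] {t : J → ℝ} {U : J → ℂ → ℂ} {c : J → ℕ → ℂ}

lemma strip_lc_le_w (h : ∀ j, CFrm (t j) (U j) (c j)) (horth : Orth U) (a : J → ℂ) {Y : ℝ}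
    (hY : 0 < Y) (hY1 : Y ≤ 1) :
    strip (lc a U) Y ≤ ENNReal.ofReal (11 / Y * ∑ j, ‖a j‖ ^ 2) := by
  have hm : Measurable fun w : ℍ => ENNReal.ofReal (‖lc a U w‖ ^ 2) :=
    ENNReal.measurable_ofReal.comp (((lc_contH h a).norm.pow 2).measurable)
  have h1 := lintegral_unfold ((measurable_ic (measurableSet_strip Y)).mul hm)
  have h2 : ∫⁻ w in 𝒟, ∑' σ : SL(2, ℤ), (ic (inStrip Y (σ • w)) *
      ENNReal.ofReal (‖lc a U ((σ • w : ℍ) : ℂ)‖ ^ 2)) ≤ ENNReal.ofReal (11 / Y * ∑ j, ‖a j‖ ^ 2) := by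
    calc ∫⁻ w in 𝒟, ∑' σ : SL(2, ℤ), (ic (inStrip Y (σ • w)) *
        ENNReal.ofReal (‖lc a U ((σ • w : ℍ) : ℂ)‖ ^ 2))
        ≤ ∫⁻ w : ℍ in 𝒟, ENNReal.ofReal (11 / Y) * ENNReal.ofReal (‖lc a U w‖ ^ 2) := by
          refine setLIntegral_mono (hm.const_mul _) fun w hw => ?_
          simp_rw [lc_inv h]
          rw [ENNReal.tsum_mul_right]
          gcongr
          refine (count_strip hY (half_le_im_of_fd hw)).trans (ENNReal.ofReal_le_ofReal ?_)
          have e1 : (3 : ℝ) ≤ 3 / Y := by rw [le_div_iff₀ hY]; linarith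
          have e2 : 11 / Y = 3 / Y + 8 / Y := by ring
          linarith
      _ = _ := by
          rw [lintegral_const_mul _ hm, lintegral_lc h horth, ← ENNReal.ofReal_mul (by positivity)]
  have h3 : 2 * ∫⁻ w : ℍ, ic (inStrip Y w) * ENNReal.ofReal (‖lc a U w‖ ^ 2) ≤
      ENNReal.ofReal (11 / Y * ∑ j, ‖a j‖ ^ 2) := by
    rw [← show _ = 2 * ∫⁻ w : ℍ, ic (inStrip Y w) * ENNReal.ofReal (‖lc a U w‖ ^ 2) from h1]
    exact h2
  refine le_trans ?_ h3
  unfold strip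
  rw [two_mul]
  exact le_self_add

/-- Bessel's inequality in the strip -/
lemma strip_ge_w {F : ℂ → ℂ} (hF : ContinuousOn F UH)
    (hper : ∀ z : ℂ, 0 < z.im → F (z + 1) = F z)
    (hcf : ∀ n : ℤ, Continuous fun a : ℝ => fcf F n (Real.exp a)) (s : Finset ℤ)
    {Y : ℝ} (hY : 0 < Y) :
    ∑ n ∈ s, ∫⁻ a : ℝ in Ioi (Real.log Y), ENNReal.ofReal (Real.exp (-a)) *
      ENNReal.ofReal (‖fcf F n (Real.exp a)‖ ^ 2) ≤ strip F Y := by
  have hm : Measurable fun w : ℍ => ENNReal.ofReal (‖F w‖ ^ 2) :=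
    ENNReal.measurable_ofReal.comp (((continuous_coe_of hF).norm.pow 2).measurable)
  have hm2 : Measurable fun w : ℍ => ic (inStrip Y w) * ENNReal.ofReal (‖F w‖ ^ 2) :=
    (measurable_ic (measurableSet_strip Y)).mul hm
  unfold strip
  rw [horo_l hm2]
  have hexp : Measurable fun a : ℝ => ENNReal.ofReal (Real.exp (-a)) :=
    ENNReal.measurable_ofReal.comp (Real.continuous_exp.comp continuous_neg).measurable
  have hmeas : ∀ n : ℤ, Measurable fun a : ℝ => ENNReal.ofReal (‖fcf F n (Real.exp a)‖ ^ 2) :=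
    fun n => ENNReal.measurable_ofReal.comp ((hcf n).norm.pow 2).measurable
  have hm3 : ∀ n : ℤ, Measurable fun a : ℝ => ENNReal.ofReal (Real.exp (-a)) *
      ENNReal.ofReal (‖fcf F n (Real.exp a)‖ ^ 2) := fun n => hexp.mul (hmeas n)
  rw [← lintegral_finsetSum _ fun n _ => hm3 n]
  rw [← lintegral_indicator measurableSet_Ioi]
  refine lintegral_mono fun a => ?_
  by_cases ha : a ∈ Ioi (Real.log Y)
  · rw [indicator_of_mem ha, ← Finset.mul_sum]
    refine mul_le_mul_right ?_ _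
    have h1 : ∫⁻ x : ℝ, ic (inStrip Y (pt x a)) * ENNReal.ofReal (‖F (pt x a)‖ ^ 2) =
        ∑' n : ℤ, ENNReal.ofReal (‖fcf F n (Real.exp a)‖ ^ 2) := by
      rw [← inner_parseval' hF hper a, ← lintegral_indicator measurableSet_Ico]
      refine lintegral_congr fun x => ?_
      have h3 : inStrip Y (pt x a) ↔ x ∈ Ico (-(1 / 2 : ℝ)) (1 / 2) := by
        unfold inStrip
        rw [pt_im, pt_re, mem_Ico]
        have : Y < Real.exp a := (Real.log_lt_iff_lt_exp hY).1 ha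
        tauto
      by_cases hx : x ∈ Ico (-(1 / 2 : ℝ)) (1 / 2)
      · rw [ic_true (h3.2 hx), indicator_of_mem hx, one_mul]
      · rw [ic_false (fun h' => hx (h3.1 h')), indicator_of_notMem hx, zero_mul]
    rw [h1]
    exact ENNReal.sum_le_tsum s
  · rw [indicator_of_notMem ha]
    exact zero_le

/-- **Dual large sieve in the cusp.** -/
theorem cusp_dual_w (h : ∀ j, CFrm (t j) (U j) (c j)) (horth : Orth U) (a : J → ℂ) {Y : ℝ}
    (hY : 0 < Y) (hY1 : Y ≤ 1)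
    (𝒩 : Finset ℕ) {b : ℝ} (h𝒩 : ∀ n ∈ 𝒩, 1 ≤ n ∧ (n : ℝ) * Y ≤ Real.exp (b - 1)) {e : ℤ}
    (he : e ^ 2 = 1) :
    ∑ n ∈ 𝒩, 1 / (n : ℝ) * ∫ r in (b - 1)..b, ‖∑ j, a j * c j n * lf (U j) e r‖ ^ 2 ≤
      11 / Y * ∑ j, ‖a j‖ ^ 2 := by
  classical
  have hcU : ∀ (j : J) (n : ℤ), Continuous fun a : ℝ => fcf (U j) n (Real.exp a) := by
    intro j n
    obtain ⟨v1, hv, _⟩ := fcf_ode (h j).eig' (h j).per n
    refine continuous_iff_continuousAt.2 fun a => ?_
    exact (ContinuousAt.comp (g := fcf (U j) n) (f := Real.exp)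
      (hv _ (Real.exp_pos a)).continuousAt Real.continuous_exp.continuousAt)
  have hcf : ∀ n : ℤ, Continuous fun x : ℝ => fcf (lc a U) n (Real.exp x) := by
    intro n
    have h1 : (fun x : ℝ => fcf (lc a U) n (Real.exp x)) =
        fun x => ∑ j, a j * fcf (U j) n (Real.exp x) := funext fun x => fcf_lc h a n (Real.exp_pos x)
    rw [h1]
    exact continuous_finsetSum _ fun j _ => (hcU j n).const_mul _
  have hinj : Set.InjOn (fun n : ℕ => e * (n : ℤ)) (𝒩 : Set ℕ) := by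
    intro x _ y _ hxy
    simp only at hxy
    have he0 : e ≠ 0 := by rintro rfl; norm_num at he
    have := mul_left_cancel₀ he0 hxy
    exact_mod_cast this
  have hmain := (strip_ge_w (lc_cont h a) (lc_per h a) hcf (𝒩.image fun n : ℕ => e * (n : ℤ)) hY).trans
    (strip_lc_le_w h horth a hY hY1)
  rw [Finset.sum_image hinj] at hmain
  have hG : ∀ n : ℕ, Continuous fun r => ‖∑ j, a j * c j n * lf (U j) e r‖ ^ 2 := by
    intro n
    refine Continuous.pow (Continuous.norm ?_) 2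
    exact continuous_finsetSum _ fun j _ => (continuous_lf (h j) he).const_mul _
  have hpiece : ∀ n ∈ 𝒩, ENNReal.ofReal (1 / (n : ℝ) *
      ∫ r in (b - 1)..b, ‖∑ j, a j * c j n * lf (U j) e r‖ ^ 2) ≤
      ∫⁻ x : ℝ in Ioi (Real.log Y), ENNReal.ofReal (Real.exp (-x)) *
      ENNReal.ofReal (‖fcf (lc a U) (e * (n : ℤ)) (Real.exp x)‖ ^ 2) := by
    intro n hn
    obtain ⟨hn1, hn2⟩ := h𝒩 n hn
    have hn0 : (0 : ℝ) < n := by exact_mod_cast hn1
    have hlog : Real.log n + Real.log Y ≤ b - 1 := by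
      rw [← Real.log_mul hn0.ne' hY.ne', ← Real.log_exp (b - 1)]
      exact Real.log_le_log (mul_pos hn0 hY) hn2
    have h3 : ∀ x : ℝ, ENNReal.ofReal (Real.exp (-x)) *
        ENNReal.ofReal (‖fcf (lc a U) (e * (n : ℤ)) (Real.exp x)‖ ^ 2) =
        ENNReal.ofReal (1 / (n : ℝ) * ‖∑ j, a j * c j n * lf (U j) e (x + Real.log n)‖ ^ 2) := by
      intro x
      rw [← ENNReal.ofReal_mul (Real.exp_pos _).le]
      congr 1
      rw [fcf_lc h a _ (Real.exp_pos x)]
      have h4 : (n : ℝ) * Real.exp x = Real.exp (x + Real.log n) := by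
        rw [Real.exp_add, Real.exp_log hn0]; ring
      have h5 : ∀ j, a j * fcf (U j) (e * (n : ℤ)) (Real.exp x) =
          (((Real.exp ((x + Real.log n) / 2) / n : ℝ)) : ℂ) *
            (a j * c j n * lf (U j) e (x + Real.log n)) := by
        intro j
        rw [(h j).fcf_mul he hn1 (Real.exp_pos x), h4]
        unfold lf
        have h6 : Real.exp (-((x + Real.log n) / 2)) = (Real.exp ((x + Real.log n) / 2))⁻¹ :=
          Real.exp_neg _
        rw [h6]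
        have h7 : ((Real.exp ((x + Real.log n) / 2) : ℝ) : ℂ) ≠ 0 := by
          exact_mod_cast (Real.exp_pos _).ne'
        have h8 : (n : ℂ) ≠ 0 := by exact_mod_cast hn0.ne'
        rw [Complex.ofReal_div, Complex.ofReal_inv, Complex.ofReal_natCast]
        field_simp
      rw [Finset.sum_congr rfl fun j _ => h5 j, ← Finset.mul_sum, norm_mul, mul_pow,
        Complex.norm_real, Real.norm_eq_abs, sq_abs, div_pow, ← Real.exp_nat_mul]
      have h9 : ((2 : ℕ) : ℝ) * ((x + Real.log n) / 2) = x + Real.log n := by push_cast; ring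
      rw [h9, Real.exp_add, Real.exp_log hn0, Real.exp_neg]
      have := Real.exp_pos x
      field_simp
    simp_rw [h3]
    have h10 : ∫⁻ x : ℝ in Ioi (Real.log Y), ENNReal.ofReal (1 / (n : ℝ) *
        ‖∑ j, a j * c j n * lf (U j) e (x + Real.log n)‖ ^ 2) ≥
        ∫⁻ r in Ioc (b - 1) b, ENNReal.ofReal (1 / (n : ℝ) *
          ‖∑ j, a j * c j n * lf (U j) e r‖ ^ 2) := by
      rw [← lintegral_indicator measurableSet_Ioi, ← lintegral_indicator measurableSet_Ioc,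
        ← lintegral_add_right_eq_self (fun r => (Ioc (b - 1) b).indicator
          (fun r => ENNReal.ofReal (1 / (n : ℝ) * ‖∑ j, a j * c j n * lf (U j) e r‖ ^ 2)) r)
          (Real.log n)]
      refine lintegral_mono fun x => ?_
      by_cases hx : x + Real.log n ∈ Ioc (b - 1) b
      · rw [indicator_of_mem hx, indicator_of_mem]
        rw [mem_Ioi]
        linarith [hx.1]
      · rw [indicator_of_notMem hx]
        exact zero_le
    refine le_trans (le_of_eq ?_) h10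
    rw [← intervalIntegral.integral_const_mul, intervalIntegral.integral_of_le (by linarith),
      ofReal_integral_eq_lintegral_ofReal]
    · exact ((continuous_const.mul (hG n)).integrableOn_Icc (a := b - 1) (b := b)).mono_set
        Ioc_subset_Icc_self
    · exact Eventually.of_forall fun _ => by positivity
  have hfin := (Finset.sum_le_sum hpiece).trans hmain
  rw [← ENNReal.ofReal_sum_of_nonneg] at hfin
  · exact (ENNReal.ofReal_le_ofReal_iff (by positivity)).1 hfin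
  · intro n _
    refine mul_nonneg (by positivity) ?_
    exact intervalIntegral.integral_nonneg (by linarith) fun _ _ => by positivity

theorem cusp_sieve_w (h : ∀ j, CFrm (t j) (U j) (c j)) (horth : Orth U) {Y : ℝ}
    (hY : 0 < Y) (hY1 : Y ≤ 1)
    (𝒩 : Finset ℕ) {b : ℝ} (h𝒩 : ∀ n ∈ 𝒩, 1 ≤ n ∧ (n : ℝ) * Y ≤ Real.exp (b - 1)) {e : ℤ}
    (he : e ^ 2 = 1) (β : ℕ → ℂ) {W : ℝ → ℂ} (hW : Continuous W) {M : ℝ}
    (hM : ∀ r, ‖W r‖ ≤ M) :
    ∑ j, ‖∑ n ∈ 𝒩, β n * c j n‖ ^ 2 * ‖∫ r in (b - 1)..b, W r * lf (U j) e r‖ ^ 2 ≤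
      11 / Y * M ^ 2 * ∑ n ∈ 𝒩, n * ‖β n‖ ^ 2 := by
  classical
  set B : J → ℂ := fun j => ∑ n ∈ 𝒩, β n * c j n with hB
  set I : J → ℂ := fun j => ∫ r in (b - 1)..b, W r * lf (U j) e r with hI
  set a : J → ℂ := fun j => conj (B j * I j) with ha
  set X : ℝ := ∑ j, ‖B j‖ ^ 2 * ‖I j‖ ^ 2 with hX
  have hX' : X = ∑ j, ‖a j‖ ^ 2 := by
    rw [hX]
    refine Finset.sum_congr rfl fun j _ => ?_
    rw [ha]; simp only
    rw [RCLike.norm_conj, norm_mul, mul_pow]
  have hcl : ∀ j, Continuous (lf (U j) e) := fun j => continuous_lf (h j) he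
  set G : ℕ → ℝ → ℂ := fun n r => ∑ j, a j * c j n * lf (U j) e r with hG
  have hGc : ∀ n, Continuous (G n) := fun n =>
    continuous_finsetSum _ fun j _ => (hcl j).const_mul _
  have hXc : (X : ℂ) = ∑ n ∈ 𝒩, β n * ∫ r in (b - 1)..b, W r * G n r := by
    have h1 : (X : ℂ) = ∑ j, a j * (B j * I j) := by
      rw [hX]
      push_cast
      refine Finset.sum_congr rfl fun j _ => ?_
      rw [ha]; simp only
      rw [mul_comm (conj _), Complex.mul_conj, Complex.normSq_eq_norm_sq, norm_mul]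
      push_cast
      ring
    have h2 : ∀ n, ∫ r in (b - 1)..b, W r * G n r = ∑ j, a j * c j n * I j := by
      intro n
      have h3 : ∀ r, W r * G n r = ∑ j, a j * c j n * (W r * lf (U j) e r) := by
        intro r
        rw [hG]; simp only
        rw [Finset.mul_sum]
        exact Finset.sum_congr rfl fun j _ => by ring
      simp_rw [h3]
      have h4 : ∀ j, Continuous fun r => a j * c j n * (W r * lf (U j) e r) := fun j =>
        (hW.mul (hcl j)).const_mul _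
      rw [intervalIntegral.integral_finsetSum fun j _ => (h4 j).intervalIntegrable _ _]
      refine Finset.sum_congr rfl fun j _ => ?_
      rw [intervalIntegral.integral_const_mul]
    rw [h1]
    simp_rw [h2]
    rw [hB]
    simp only
    simp_rw [Finset.sum_mul, Finset.mul_sum]
    rw [Finset.sum_comm]
    exact Finset.sum_congr rfl fun n _ => Finset.sum_congr rfl fun j _ => by ring
  have hb : b - 1 ≤ b := by linarith
  have hpiece : ∀ n ∈ 𝒩, ‖β n * ∫ r in (b - 1)..b, W r * G n r‖ ≤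
      11 / (2 * Y) * M ^ 2 * (n * ‖β n‖ ^ 2) + Y / 22 * (1 / (n : ℝ) * ∫ r in (b - 1)..b, ‖G n r‖ ^ 2) := by
    intro n hn
    have hn0 : (0 : ℝ) < n := by exact_mod_cast (h𝒩 n hn).1
    have h1 : ‖β n * ∫ r in (b - 1)..b, W r * G n r‖ ≤
        ∫ r in (b - 1)..b, (11 / (2 * Y) * M ^ 2 * (n * ‖β n‖ ^ 2) + Y / 22 * (1 / (n : ℝ) *
          ‖G n r‖ ^ 2)) := by
      rw [norm_mul]
      have h2 : ‖∫ r in (b - 1)..b, W r * G n r‖ ≤ ∫ r in (b - 1)..b, ‖W r * G n r‖ :=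
        intervalIntegral.norm_integral_le_integral_norm hb
      refine (mul_le_mul_of_nonneg_left h2 (norm_nonneg _)).trans ?_
      rw [← intervalIntegral.integral_const_mul]
      have hc2 := (hGc n)
      refine intervalIntegral.integral_mono_on hb ?_ ?_ fun r _ => ?_
      · exact Continuous.intervalIntegrable (by fun_prop) _ _
      · exact Continuous.intervalIntegrable (by fun_prop) _ _
      · rw [norm_mul]
        have h3 : ‖W r‖ * ‖G n r‖ ≤ M * ‖G n r‖ :=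
          mul_le_mul_of_nonneg_right (hM r) (norm_nonneg _)
        calc ‖β n‖ * (‖W r‖ * ‖G n r‖) ≤ ‖β n‖ * (M * ‖G n r‖) := by gcongr
          _ ≤ _ := by
            have h4 : 11 / (2 * Y) * M ^ 2 * (n * ‖β n‖ ^ 2) + Y / 22 * (1 / (n : ℝ) * ‖G n r‖ ^ 2) -
                ‖β n‖ * (M * ‖G n r‖) = Y / (22 * n) * (11 / Y * n * M * ‖β n‖ - ‖G n r‖) ^ 2 := by
              field_simp
              ring
            have h5 : 0 ≤ Y / (22 * (n : ℝ)) * (11 / Y * n * M * ‖β n‖ - ‖G n r‖) ^ 2 := by positivity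
            linarith
    refine h1.trans (le_of_eq ?_)
    rw [intervalIntegral.integral_add (by simp) (by
      refine Continuous.intervalIntegrable ?_ _ _
      have := hGc n
      fun_prop), intervalIntegral.integral_const, intervalIntegral.integral_const_mul,
      intervalIntegral.integral_const_mul]
    simp
  have hX0 : 0 ≤ X := by rw [hX]; positivity
  have h5 : X ≤ ∑ n ∈ 𝒩, (11 / (2 * Y) * M ^ 2 * (n * ‖β n‖ ^ 2) +
      Y / 22 * (1 / (n : ℝ) * ∫ r in (b - 1)..b, ‖G n r‖ ^ 2)) := by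
    have h6 : X = ‖(X : ℂ)‖ := by rw [Complex.norm_real, Real.norm_of_nonneg hX0]
    rw [h6, hXc]
    exact (norm_sum_le _ _).trans (Finset.sum_le_sum hpiece)
  have h7 := cusp_dual_w h horth a hY hY1 𝒩 h𝒩 he
  rw [← hX'] at h7
  rw [Finset.sum_add_distrib, ← Finset.mul_sum, ← Finset.mul_sum] at h5
  have h8 : ∑ n ∈ 𝒩, 1 / (n : ℝ) * ∫ r in (b - 1)..b, ‖G n r‖ ^ 2 ≤ 11 / Y * X := h7
  have h9 : Y / 22 * (∑ n ∈ 𝒩, 1 / (n : ℝ) * ∫ r in (b - 1)..b, ‖G n r‖ ^ 2) ≤ X / 2 := by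
    calc Y / 22 * (∑ n ∈ 𝒩, 1 / (n : ℝ) * ∫ r in (b - 1)..b, ‖G n r‖ ^ 2) ≤
          Y / 22 * (11 / Y * X) := mul_le_mul_of_nonneg_left h8 (by positivity)
      _ = X / 2 := by field_simp; ring
  have h10 : 11 / (2 * Y) * M ^ 2 = 11 / Y * M ^ 2 / 2 := by field_simp
  rw [h10] at h5
  linarith

theorem sieve_w : SieveW := by
  intro ε hε
  obtain ⟨C, hC, homega⟩ := omega_ge ε hε
  refine ⟨C * 2 ^ (1 + ε) * 230, by positivity, ?_⟩
  intro T hT J _ t U c ht hF horth Y hY hY1 𝒩 h𝒩 β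
  classical
  have hT0 : 0 < T := by linarith
  set b : ℝ := Real.log (T / 100) with hb
  have hexpb : Real.exp b = T / 100 := Real.exp_log (by positivity)
  have h𝒩' : ∀ n ∈ 𝒩, 1 ≤ n ∧ (n : ℝ) * Y ≤ Real.exp (b - 1) := by
    intro n hn
    refine ⟨(h𝒩 n hn).1, (h𝒩 n hn).2.trans ?_⟩
    rw [Real.exp_sub, hexpb, div_le_div_iff₀ (by norm_num) (Real.exp_pos 1)]
    have := Real.exp_one_lt_d9
    nlinarith
  set S : ℝ := ∑ n ∈ 𝒩, n * ‖β n‖ ^ 2 with hS
  have hS0 : 0 ≤ S := Finset.sum_nonneg fun n _ => by positivity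
  set B : J → ℂ := fun j => ∑ n ∈ 𝒩, β n * c j n with hB
  have hpiece : ∀ (σ : ℝ) (e : ℤ), e ^ 2 = 1 → ∑ j, ‖B j‖ ^ 2 *
      ‖∫ r in (b - 1)..b, ((sr T r : ℝ) : ℂ) * lf (U j) e r * tw σ T b r‖ ^ 2 ≤
      11 / Y * T ^ 2 * S := by
    intro σ e he
    have hW : Continuous fun r => ((sr T r : ℝ) : ℂ) * tw σ T b r :=
      (Complex.continuous_ofReal.comp (continuous_sr T)).mul (continuous_tw σ T b)
    have h1 := cusp_sieve_w hF horth hY hY1 𝒩 h𝒩' he β hW (M := T) (fun r => by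
      rw [norm_mul, norm_tw, mul_one, Complex.norm_real,
        Real.norm_of_nonneg (show 0 ≤ sr T r from Real.sqrt_nonneg _)]
      exact sr_le hT0 r)
    refine le_trans (le_of_eq ?_) h1
    refine Finset.sum_congr rfl fun j _ => ?_
    congr 3
    refine intervalIntegral.integral_congr fun r _ => ?_
    change ((sr T r : ℝ) : ℂ) * lf (U j) e r * tw σ T b r =
      ((sr T r : ℝ) : ℂ) * tw σ T b r * lf (U j) e r
    ring
  have hE : ∀ j, EE (U j) (t j) b ≤ 5 * ((‖∫ r in (b - 1)..b, ((sr T r : ℝ) : ℂ) *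
      lf (U j) 1 r * tw 1 T b r‖ ^ 2 + ‖∫ r in (b - 1)..b, ((sr T r : ℝ) : ℂ) *
      lf (U j) 1 r * tw (-1) T b r‖ ^ 2) + (‖∫ r in (b - 1)..b, ((sr T r : ℝ) : ℂ) *
      lf (U j) (-1) r * tw 1 T b r‖ ^ 2 + ‖∫ r in (b - 1)..b, ((sr T r : ℝ) : ℂ) *
      lf (U j) (-1) r * tw (-1) T b r‖ ^ 2)) := by
    intro j
    unfold EE
    rw [mul_add]
    exact add_le_add (corr ((hF j).sol (by norm_num)) (by linarith) (ht j) hexpb.le)
      (corr ((hF j).sol (by norm_num)) (by linarith) (ht j) hexpb.le)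
  have hsum : ∑ j, ‖B j‖ ^ 2 * EE (U j) (t j) b ≤ 220 / Y * T ^ 2 * S := by
    calc ∑ j, ‖B j‖ ^ 2 * EE (U j) (t j) b
        ≤ ∑ j, ‖B j‖ ^ 2 * (5 * ((‖∫ r in (b - 1)..b, ((sr T r : ℝ) : ℂ) *
      lf (U j) 1 r * tw 1 T b r‖ ^ 2 + ‖∫ r in (b - 1)..b, ((sr T r : ℝ) : ℂ) *
      lf (U j) 1 r * tw (-1) T b r‖ ^ 2) + (‖∫ r in (b - 1)..b, ((sr T r : ℝ) : ℂ) *
      lf (U j) (-1) r * tw 1 T b r‖ ^ 2 + ‖∫ r in (b - 1)..b, ((sr T r : ℝ) : ℂ) *
      lf (U j) (-1) r * tw (-1) T b r‖ ^ 2))) :=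
          Finset.sum_le_sum fun j _ => mul_le_mul_of_nonneg_left (hE j) (by positivity)
      _ = 5 * (∑ j, ‖B j‖ ^ 2 * ‖∫ r in (b - 1)..b, ((sr T r : ℝ) : ℂ) *
      lf (U j) 1 r * tw 1 T b r‖ ^ 2 + ∑ j, ‖B j‖ ^ 2 * ‖∫ r in (b - 1)..b, ((sr T r : ℝ) : ℂ) *
      lf (U j) 1 r * tw (-1) T b r‖ ^ 2 + (∑ j, ‖B j‖ ^ 2 * ‖∫ r in (b - 1)..b, ((sr T r : ℝ) : ℂ) *
      lf (U j) (-1) r * tw 1 T b r‖ ^ 2 + ∑ j, ‖B j‖ ^ 2 * ‖∫ r in (b - 1)..b, ((sr T r : ℝ) : ℂ) *
      lf (U j) (-1) r * tw (-1) T b r‖ ^ 2)) := by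
          simp_rw [← Finset.sum_add_distrib]
          rw [Finset.mul_sum]
          exact Finset.sum_congr rfl fun j _ => by ring
      _ ≤ 5 * (11 / Y * T ^ 2 * S + 11 / Y * T ^ 2 * S + (11 / Y * T ^ 2 * S + 11 / Y * T ^ 2 * S)) := by
          gcongr
          · exact hpiece 1 1 (by norm_num)
          · exact hpiece (-1) 1 (by norm_num)
          · exact hpiece 1 (-1) (by norm_num)
          · exact hpiece (-1) (-1) (by norm_num)
      _ = _ := by ring
  have hfin : ∀ j, ‖B j‖ ^ 2 ≤ C * (2 ^ (1 + ε) * T ^ (1 + ε)) / (0.99 * T) ^ 2 *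
      (‖B j‖ ^ 2 * EE (U j) (t j) b) := by
    intro j
    have h1 := abs_le.1 (ht j)
    have ht0 : 0 < t j := by linarith [h1.1]
    have h2 := homega (t j) b (U j) (c j) (hF j) (by linarith [h1.1]) (by
      rw [hexpb]; linarith [h1.2]) (by rw [hexpb]; linarith [h1.1])
    have hEE : 0 ≤ EE (U j) (t j) b := EE_nonneg (hF j) ht0 (by rw [hexpb]; linarith [h1.1])
    have h3 : (t j) ^ (1 + ε) ≤ 2 ^ (1 + ε) * T ^ (1 + ε) := by
      rw [← Real.mul_rpow (by norm_num) hT0.le]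
      exact Real.rpow_le_rpow ht0.le (by linarith [h1.2]) (by linarith)
    have h4 : EE (U j) (t j) b / (t j) ^ 2 ≤ EE (U j) (t j) b / (0.99 * T) ^ 2 := by
      refine div_le_div_of_nonneg_left hEE (by positivity) ?_
      exact pow_le_pow_left₀ (by positivity) (by linarith [h1.1]) 2
    have h5 : 1 ≤ C * (2 ^ (1 + ε) * T ^ (1 + ε)) * (EE (U j) (t j) b / (0.99 * T) ^ 2) := by
      refine h2.trans ?_
      gcongr
    calc ‖B j‖ ^ 2 = ‖B j‖ ^ 2 * 1 := (mul_one _).symm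
      _ ≤ ‖B j‖ ^ 2 * (C * (2 ^ (1 + ε) * T ^ (1 + ε)) *
          (EE (U j) (t j) b / (0.99 * T) ^ 2)) := by gcongr
      _ = _ := by ring
  calc ∑ j, ‖B j‖ ^ 2 ≤ ∑ j, C * (2 ^ (1 + ε) * T ^ (1 + ε)) / (0.99 * T) ^ 2 *
      (‖B j‖ ^ 2 * EE (U j) (t j) b) := Finset.sum_le_sum fun j _ => hfin j
    _ = C * (2 ^ (1 + ε) * T ^ (1 + ε)) / (0.99 * T) ^ 2 *
        ∑ j, ‖B j‖ ^ 2 * EE (U j) (t j) b := by rw [← Finset.mul_sum]
    _ ≤ C * (2 ^ (1 + ε) * T ^ (1 + ε)) / (0.99 * T) ^ 2 * (220 / Y * T ^ 2 * S) := by gcongr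
    _ = C * 2 ^ (1 + ε) * (220 / 0.9801) / Y * T ^ (1 + ε) * S := by
        field_simp
        ring
    _ ≤ C * 2 ^ (1 + ε) * 230 / Y * T ^ (1 + ε) * S := by
        gcongr
        norm_num

end Pool.Agent.H19.WB
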