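import Mathlib
import Pool.Agent.H19.WB.Glue0
import Pool.Agent.H19.WB.SV
import Pool.Agent.H19.WB.CW
import Pool.Agent.H19.WB.AM
import Pool.Agent.H19.WB.FA

set_option autoImplicit false

/-!
# The steps put together: almost all forms
-/

namespace Pool.Agent.H19.WB

theorem almost_all : AlmostAllW := almost_all_w (almost_w large_improved (count_w sieve_w))

end Pool.Agent.H19.WB
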