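import Mathlib
import Pool.Agent.H19.WB.St
import Pool.Agent.H19.Maass.Sixth

set_option autoImplicit false

/-!
# FS: sixth moment, from short windows to unit windows

Copy of `Maass.sixth_moment` (`Maass/Sixth.lean`), with the exponent of `SixthW`.
-/

namespace Pool.Agent.H19.WB

open UpperHalfPlane
open Pool.Agent.H19.Maass Pool.Agent.H19.Sup
open scoped MatrixGroups ComplexConjugate ENNReal

theorem window_sixth_w (sixth : SixthW) : WindowSixthW := by
  classical
  intro K hK hKU
  set s : ℝ := 5 / 2 - 6 / 10 ^ 7 with hs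
  have hs0 : 0 ≤ s := by rw [hs]; norm_num
  -- bound for heights
  obtain ⟨Y, hY⟩ : ∃ Y : ℝ, ∀ z ∈ K, z.im + 1 / z.im ≤ Y := by
    have hcont : ContinuousOn (fun z : ℂ => z.im + 1 / z.im) K := by
      refine ContinuousOn.add Complex.continuous_im.continuousOn ?_
      refine ContinuousOn.div continuousOn_const Complex.continuous_im.continuousOn ?_
      intro z hz
      exact ne_of_gt (hKU hz)
    obtain ⟨Y, hY⟩ := (hK.image_of_continuousOn hcont).bddAbove
    exact ⟨Y, fun z hz => hY ⟨z, hz, rfl⟩⟩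
  obtain ⟨C, hC, hmain⟩ := sixth Y
  refine ⟨5 * (C * 2 ^ s), ?_⟩
  intro T hT n t U ht hF horth z hz
  choose c hc using fun j => (hF j).exists_frm
  have hzim : 0 < z.im := hKU hz
  obtain ⟨w, hw1, hw2, hw3, hw4⟩ := exists_move ⟨z, hzim⟩
  have hwU : ∀ j, U j w = U j z := fun j => hw4 (U j) (hc j).1.inv
  have hwY : w.im ≤ Y := hw3.trans (hY z hz)
  have hT0 : 0 < T := by linarith
  set f : Fin n → ℝ := fun j => ‖U j z‖ ^ 6 with hf
  have hf0 : ∀ j, 0 ≤ f j := fun j => by rw [hf]; positivity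
  set P : ℕ → Fin n → Prop := fun i j => |t j - (T + (2 * (i : ℝ) + 1) / 10)| ≤ 1 / 10 with hP
  have h1 : ∀ j, f j ≤ ∑ i ∈ Finset.range 5, if P i j then f j else 0 := by
    intro j
    obtain ⟨i, hi, hi2⟩ := exists_subwindow (ht j).1 (ht j).2
    have hnn : ∀ i ∈ Finset.range 5, 0 ≤ if P i j then f j else 0 := by
      intro i _
      split_ifs
      · exact hf0 j
      · exact le_rfl
    have := Finset.single_le_sum hnn hi
    rwa [if_pos hi2] at this
  have h2 : ∀ i ∈ Finset.range 5, ∑ j, (if P i j then f j else 0) ≤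
      C * 2 ^ s * T ^ s := by
    intro i hi
    have hi5 : (i : ℝ) ≤ 4 := by
      have : i ≤ 4 := by have := Finset.mem_range.1 hi; omega
      exact_mod_cast this
    set T' : ℝ := T + (2 * (i : ℝ) + 1) / 10 with hT'
    have hT'1 : 1 ≤ T' := by
      have : (0 : ℝ) ≤ i := Nat.cast_nonneg i
      rw [hT']; linarith
    have hT'2 : T' ≤ 2 * T := by rw [hT']; linarith
    have h3 := hmain T' hT'1 {j // P i j} (fun j => t j) (fun j => U j) (fun j => c j)
      (fun j => j.2) (fun j => (hc j).1)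
      (fun i j hij => (horth i j fun h => hij (Subtype.ext h)).integral)
      (fun j => (hc j).2) w hw1 hw2 hwY
    rw [← Finset.sum_filter, Finset.sum_subtype (p := P i) _ (by simp)]
    have h4 : ∀ j : {j // P i j}, f j = ‖U j w‖ ^ 6 := fun j => by rw [hf]; simp only; rw [hwU]
    simp_rw [h4]
    refine h3.trans ?_
    rw [mul_assoc C]
    refine mul_le_mul_of_nonneg_left ?_ hC.le
    rw [← Real.mul_rpow (by norm_num) hT0.le]
    exact Real.rpow_le_rpow (by linarith) hT'2 hs0
  calc ∑ j, ‖U j z‖ ^ 6 = ∑ j, f j := rfl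
    _ ≤ ∑ j, ∑ i ∈ Finset.range 5, (if P i j then f j else 0) := Finset.sum_le_sum fun j _ => h1 j
    _ = ∑ i ∈ Finset.range 5, ∑ j, (if P i j then f j else 0) := Finset.sum_comm
    _ ≤ ∑ i ∈ Finset.range 5, C * 2 ^ s * T ^ s := Finset.sum_le_sum h2
    _ = _ := by rw [Finset.sum_const, Finset.card_range]; simp; ring

end Pool.Agent.H19.WB
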