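import Mathlib
import Pool.Agent.H19.WB.St
import Pool.Agent.H19.Maass.Weak

set_option autoImplicit false

/-!
# SX: forms which are large at a point

Copy of `Maass.weak_point` (`Maass/Weak.lean`).  Let `δ = 10^(-9)`, `A = K T^(4δ)`, `W = V²`, `m = card J`; all forms are
`≥ V` at `z`; to show: `m W³ ≤ C T^(5/2 - 65/10^8)` (then the number of dyadic levels is `≤ C T^δ`).  `T` large (small `T`: `weyl_bound`, `∑ ‖U‖⁶ ≤ (∑ ‖U‖²)³`).
* `W ≤ T^(3/4 - 2/10^6)`: `m W³ ≤ (C₀ Y T) W²`.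
* Otherwise `X = 4 A T / W ≤ 4 A T^(1/4 + 2/10^6)`.  If `X < T^(1/6)` take `N = ⌈T^(1/6)⌉`: all forms have small eigenvalues (as below), `small` gives
  `m W ≤ K T^(..) (T / N + √T N²) ≤ A T^(5/6)` (with the constants in `A`), but `W > 4 A T^(5/6)`, so `J` is empty.
* `T^(1/6) ≤ X`, `N = ⌈X⌉ ≤ 2 X`.  All forms have `∑_{p ∈ PR N} ‖c p‖²/p ≤ #PR N / 2`: if not, `#PR N / 2 * W ≤ K (T + √T N^(2 - 1/42000))` by `large` if `T ≤ N^4`
  (`N^39 ≤ T^10` since `N ≤ 8 A T^(1/4 + 2/10^6)`; `√T N^(2 - 1/42000) ≤ T` since `(1/4 + 2/10^6 + 5 δ) (2 - 1/42000) < 1/2`), by `Maass.large_bound` if `N^4 ≤ T`; so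
  `#PR N * W ≤ 4 K T`, contradiction to `N W ≥ 4 A T` (`card_PR_ge`).
  `small` (`N^7 ≤ T²`, `T ≤ N^6`): `N² m W ≤ A (N T + √T N^(4 - 1/250000))` (exponents of `N^ε` inside `A`); `A T / N ≤ W / 4 ≤ m W / 4`, so `m W ≤ 2 A √T N^(2 - 1/250000)`,
  `m W³ ≤ 2 A √T N^(-1/250000) (N W)² ≤ 2 A √T N^(-1/250000) (8 A T)² ≤ 128 A³ T^(5/2) T^(-1/1500000)`.
-/

namespace Pool.Agent.H19.WB

open UpperHalfPlane
open Pool.Agent.H19.Maass Pool.Agent.H19.Sup
open scoped MatrixGroups ComplexConjugate ENNReal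

theorem weak_w (small : SmallFamW) (large : LargeImprovedW) : WeakW := by
  intro Y0
  obtain ⟨δ, hδ⟩ : ∃ δ : ℝ, δ = 1 / 10 ^ 9 := ⟨_, rfl⟩
  have hδ0 : 0 < δ := by rw [hδ]; positivity
  obtain ⟨C₀, hC₀, hweyl⟩ := weyl_bound
  obtain ⟨C₁, hC₁, hlarge⟩ := large_bound
  obtain ⟨C₂, hC₂, hsmall⟩ := small Y0 δ hδ0
  obtain ⟨C₃, hC₃, himp⟩ := large Y0
  obtain ⟨c₀, hc₀, hcard⟩ := card_PR_ge δ hδ0
  set Yc : ℝ := 1 + |Y0| with hYc
  have hYc0 : 0 < Yc := by positivity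
  set L : ℝ := C₁ * Yc + C₃ with hL
  have hL0 : 0 < L := by positivity
  set K : ℝ := C₀ * Yc + L / c₀ + 4 * C₂ / c₀ ^ 2 with hK
  have hKa : 0 < C₀ * Yc := by positivity
  have hKb : 0 < L / c₀ := by positivity
  have hKc : 0 < 4 * C₂ / c₀ ^ 2 := by positivity
  have hK0 : 0 < K := by positivity
  have hKC0 : C₀ * Yc ≤ K := by rw [hK]; linarith
  have hKL : L < c₀ * K := by
    have h1 : L / c₀ < K := by rw [hK]; linarith
    rw [div_lt_iff₀ hc₀] at h1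
    linarith
  have hKC2 : 4 * C₂ ≤ c₀ ^ 2 * K := by
    have h1 : 4 * C₂ / c₀ ^ 2 ≤ K := by rw [hK]; linarith
    rw [div_le_iff₀ (by positivity)] at h1
    linarith
  set T₀ : ℝ := max 4096 ((8 * K) ^ (10 ^ 9 : ℝ)) with hT₀
  have hT₀1 : 4096 ≤ T₀ := le_max_left _ _
  have hT₀0 : 0 < T₀ := by linarith
  refine ⟨64 * K ^ 3 + C₀ * Yc + (C₀ * Yc * T₀) ^ 3, by positivity, ?_⟩
  intro T hT J _ t U c ht hF horth hrel z hx hy hyY V hV hVU
  have hy0 := z.im_pos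
  have hYz : 1 + z.im ≤ Yc := by
    rw [hYc]
    have := le_abs_self Y0
    linarith
  have hT0 : 0 < T := by linarith
  set Q : ℝ := T ^ (5 / 2 - 65 / 10 ^ 8 : ℝ) with hQ
  have hQ1 : 1 ≤ Q := Real.one_le_rpow hT (by norm_num)
  have hQ0 : 0 < Q := by linarith
  set m : ℝ := (Fintype.card J : ℝ) with hm
  have hm0 : 0 ≤ m := Nat.cast_nonneg _
  set W : ℝ := V ^ 2 with hW
  have hW0 : 0 < W := by positivity
  have hV6 : V ^ 6 = W ^ 3 := by rw [hW]; ring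
  rw [hV6]
  rcases isEmpty_or_nonempty J with hJ | hJ
  · have : m = 0 := by rw [hm, Fintype.card_eq_zero, Nat.cast_zero]
    rw [this, zero_mul]; positivity
  have hm1 : 1 ≤ m := by
    rw [hm]; exact_mod_cast Fintype.card_pos
  have hsumV : m * W ≤ ∑ j, ‖U j z‖ ^ 2 := by
    calc m * W = ∑ _j : J, W := by
          rw [Finset.sum_const, Finset.card_univ, nsmul_eq_mul]
      _ ≤ ∑ j, ‖U j z‖ ^ 2 := Finset.sum_le_sum fun j _ => by
          rw [hW]; exact pow_le_pow_left₀ hV.le (hVU j) 2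
  have hweyl1 : m * W ≤ C₀ * Yc * T := by
    refine (hsumV.trans (hweyl T hT J t U c ht hF horth z hx hy)).trans ?_
    gcongr
  have hmW0 : 0 < m * W := by positivity
  -- small `T`
  by_cases hTT : T < T₀
  · calc m * W ^ 3 ≤ m ^ 3 * W ^ 3 := by
          refine mul_le_mul_of_nonneg_right ?_ (by positivity)
          exact le_self_pow₀ hm1 (by norm_num)
      _ = (m * W) ^ 3 := by ring
      _ ≤ (C₀ * Yc * T) ^ 3 := pow_le_pow_left₀ hmW0.le hweyl1 3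
      _ ≤ (C₀ * Yc * T₀) ^ 3 := by
          refine pow_le_pow_left₀ (by positivity) ?_ 3
          exact mul_le_mul_of_nonneg_left hTT.le hKa.le
      _ = (C₀ * Yc * T₀) ^ 3 * 1 := by ring
      _ ≤ (C₀ * Yc * T₀) ^ 3 * Q := mul_le_mul_of_nonneg_left hQ1 (by positivity)
      _ ≤ _ := by
          refine mul_le_mul_of_nonneg_right ?_ hQ0.le
          have h1 : 0 < 64 * K ^ 3 := by positivity
          linarith
  rw [not_lt] at hTT
  have hT4096 : 4096 ≤ T := hT₀1.trans hTT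
  have h8K : 8 * K ≤ T ^ δ := by
    have h1 : (8 * K) ^ (10 ^ 9 : ℝ) ≤ T := (le_max_right _ _).trans hTT
    calc 8 * K = ((8 * K) ^ (10 ^ 9 : ℝ)) ^ δ := by
          rw [← Real.rpow_mul (by positivity), hδ]
          norm_num
      _ ≤ T ^ δ := Real.rpow_le_rpow (by positivity) h1 hδ0.le
  by_cases hcase : W ≤ T ^ (3 / 4 - 2 / 10 ^ 6 : ℝ)
  · calc m * W ^ 3 = (m * W) * W ^ 2 := by ring
      _ ≤ (C₀ * Yc * T) * (T ^ (3 / 4 - 2 / 10 ^ 6 : ℝ)) ^ 2 := by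
          refine mul_le_mul hweyl1 (pow_le_pow_left₀ hW0.le hcase 2) (by positivity) (by positivity)
      _ = C₀ * Yc * T ^ (5 / 2 - 4 / 10 ^ 6 : ℝ) := by
          rw [← Real.rpow_natCast (T ^ (3 / 4 - 2 / 10 ^ 6 : ℝ)) 2, ← Real.rpow_mul hT0.le, mul_assoc]
          congr 1
          nth_rewrite 1 [← Real.rpow_one T]
          rw [← Real.rpow_add hT0]
          congr 1
          norm_num
      _ ≤ C₀ * Yc * Q := by
          refine mul_le_mul_of_nonneg_left ?_ hKa.le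
          exact Real.rpow_le_rpow_of_exponent_le hT (by norm_num)
      _ ≤ _ := by
          refine mul_le_mul_of_nonneg_right ?_ hQ0.le
          have h1 : 0 < 64 * K ^ 3 := by positivity
          have h2 : 0 < (C₀ * Yc * T₀) ^ 3 := by positivity
          linarith
  rw [not_le] at hcase
  set s : ℝ := √T with hs
  have hs0 : 0 < s := Real.sqrt_pos.2 hT0
  have hTs : s * s = T := Real.mul_self_sqrt hT0.le
  have hsr : s = T ^ (1 / 2 : ℝ) := by rw [hs, Real.sqrt_eq_rpow]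
  set θ : ℝ := T ^ (4 * δ) with hθ
  have hθ1 : 1 ≤ θ := Real.one_le_rpow hT (by positivity)
  have hθ0 : 0 < θ := by linarith
  set A : ℝ := K * θ with hA
  have hA0 : 0 < A := by positivity
  have hWA : W ≤ A * T := by
    calc W ≤ m * W := le_mul_of_one_le_left hW0.le hm1
      _ ≤ C₀ * Yc * T := hweyl1
      _ ≤ K * T := by gcongr
      _ ≤ A * T := by
          refine mul_le_mul_of_nonneg_right ?_ hT0.le
          rw [hA]; exact le_mul_of_one_le_right hK0.le hθ1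
  set X : ℝ := 4 * A * T / W with hX
  have hX0 : 0 < X := by positivity
  have hX4 : 4 ≤ X := by
    rw [hX, le_div_iff₀ hW0]; linarith
  have hXW : X * W = 4 * A * T := by rw [hX]; field_simp
  have hXT : X ≤ 4 * A * T ^ (1 / 4 + 2 / 10 ^ 6 : ℝ) := by
    rw [hX, div_le_iff₀ hW0]
    have h1 : T = T ^ (1 / 4 + 2 / 10 ^ 6 : ℝ) * T ^ (3 / 4 - 2 / 10 ^ 6 : ℝ) := by
      rw [← Real.rpow_add hT0]
      norm_num
    calc 4 * A * T = 4 * A * (T ^ (1 / 4 + 2 / 10 ^ 6 : ℝ) * T ^ (3 / 4 - 2 / 10 ^ 6 : ℝ)) := by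
          rw [← h1]
      _ ≤ 4 * A * (T ^ (1 / 4 + 2 / 10 ^ 6 : ℝ) * W) := by gcongr
      _ = _ := by ring
  -- what holds for every length `N`
  have hgen : ∀ N : ℕ, 1 ≤ N → X ≤ N → (N : ℝ) ^ 39 ≤ T ^ 10 → (N : ℝ) ^ 7 ≤ T ^ 2 → T ≤ (N : ℝ) ^ 6 →
      (T ≤ (N : ℝ) ^ 4 → (N : ℝ) ^ (2 - 1 / 42000 : ℝ) ≤ s) →
      4 * ((N : ℝ) ^ 2 * (m * W)) ≤ A * (N * T + s * (N : ℝ) ^ (4 - 1 / 250000 : ℝ)) := by
    intro N hN1 hXN hN39 hN7 hTN6 hNs
    have hN0 : (0 : ℝ) < N := by linarith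
    have hN1r : (1 : ℝ) ≤ N := by exact_mod_cast hN1
    have hNT : (N : ℝ) ≤ T := by
      by_contra hcon
      rw [not_le] at hcon
      have h1 : T ^ 10 < (N : ℝ) ^ 10 := pow_lt_pow_left₀ hcon hT0.le (by norm_num)
      have h2 : (N : ℝ) ^ 10 ≤ (N : ℝ) ^ 39 := pow_le_pow_right₀ hN1r (by norm_num)
      linarith
    have hN4θ : (N : ℝ) ^ (4 * δ) ≤ θ := Real.rpow_le_rpow hN0.le hNT (by positivity)
    have hN3θ : (N : ℝ) ^ (3 * δ) ≤ θ :=
      (Real.rpow_le_rpow_of_exponent_le hN1r (by linarith)).trans hN4θ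
    have hN1θ : (N : ℝ) ^ δ ≤ θ :=
      (Real.rpow_le_rpow_of_exponent_le hN1r (by linarith)).trans hN4θ
    have hNδ0 : 0 < (N : ℝ) ^ δ := by positivity
    set P : ℝ := ((PR N).card : ℝ) with hP
    have hPge : c₀ * (N / (N : ℝ) ^ δ) ≤ P := hcard N hN1
    have hP0 : 0 < P := lt_of_lt_of_le (by positivity) hPge
    have hPN : c₀ * N ≤ P * θ := by
      have h1 : c₀ * (N / (N : ℝ) ^ δ) * (N : ℝ) ^ δ = c₀ * N := by field_simp
      rw [← h1]
      exact mul_le_mul hPge hN1θ hNδ0.le hP0.le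
    have hNW : 4 * A * T ≤ N * W := by
      rw [← hXW]; exact mul_le_mul_of_nonneg_right hXN hW0.le
    have hall : ∀ j, ∑ p ∈ PR N, ‖c j p‖ ^ 2 / p ≤ (PR N).card / 2 := by
      intro j
      by_contra hcon
      rw [not_le] at hcon
      set S : ℝ := ∑ p ∈ PR N, ‖c j p‖ ^ 2 / p with hS
      have h2 : W ≤ ‖U j z‖ ^ 2 := by rw [hW]; exact pow_le_pow_left₀ hV.le (hVU j) 2
      have hS0 : 0 < S := lt_trans (by positivity) hcon
      have h3 : P / 2 * W ≤ S * ‖U j z‖ ^ 2 := mul_le_mul hcon.le h2 hW0.le hS0.le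
      have h4 : S * ‖U j z‖ ^ 2 ≤ 2 * L * T := by
        rcases le_total T ((N : ℝ) ^ 4) with h | h
        · refine (himp N T hN1 hN39 hT h (t j) (U j) (c j) (ht j) (hF j) z hx hy hyY).trans ?_
          have h5 := hNs h
          calc C₃ * (T + √T * (N : ℝ) ^ (2 - 1 / 42000 : ℝ)) ≤ C₃ * (T + s * s) := by
                rw [← hs]; gcongr
            _ = 2 * C₃ * T := by rw [hTs]; ring
            _ ≤ 2 * L * T := by
                have : 0 < C₁ * Yc := by positivity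
                have : C₃ ≤ L := by rw [hL]; linarith
                gcongr
        · refine (hlarge T hT (t j) (U j) (c j) (ht j) (hF j) z hx hy N hN1).trans ?_
          have h5 : (N : ℝ) ^ 2 ≤ s := by
            rw [hs]
            apply Real.le_sqrt_of_sq_le
            rw [← pow_mul]; exact h
          calc C₁ * (1 + z.im) * (T + √T * (N : ℝ) ^ 2) ≤ C₁ * Yc * (T + s * s) := by
                rw [← hs]; gcongr
            _ = 2 * (C₁ * Yc) * T := by rw [hTs]; ring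
            _ ≤ 2 * L * T := by
                have : C₁ * Yc ≤ L := by rw [hL]; linarith
                gcongr
      have h5 : P * W ≤ 4 * L * T := by linarith
      have h6 : c₀ * (4 * A * T) ≤ 4 * L * T * θ := by
        calc c₀ * (4 * A * T) ≤ c₀ * (N * W) := by gcongr
          _ = (c₀ * N) * W := by ring
          _ ≤ (P * θ) * W := by gcongr
          _ = (P * W) * θ := by ring
          _ ≤ (4 * L * T) * θ := by gcongr
      have h7 : (4 * T * θ) * (c₀ * K) ≤ (4 * T * θ) * L := by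
        calc (4 * T * θ) * (c₀ * K) = c₀ * (4 * A * T) := by rw [hA]; ring
          _ ≤ _ := h6
          _ = _ := by ring
      have h8 : c₀ * K ≤ L := le_of_mul_le_mul_left h7 (by positivity)
      linarith
    have h1 := hsmall N T hN1 hN7 hT hTN6 J t U c ht hF horth hrel z hx hy hyY hall
    rw [← hP, ← hs] at h1
    set B : ℝ := N * T + s * (N : ℝ) ^ (4 - 1 / 250000 : ℝ) with hB
    have hB0 : 0 < B := by positivity
    have h2 : (c₀ * (N / (N : ℝ) ^ δ)) ^ 2 * (m * W) ≤ C₂ * ((N : ℝ) ^ δ * B) := by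
      refine le_trans ?_ h1
      refine mul_le_mul ?_ hsumV hmW0.le (by positivity)
      exact pow_le_pow_left₀ (by positivity) hPge 2
    have h3 : (N : ℝ) ^ δ * ((N : ℝ) ^ δ) ^ 2 = (N : ℝ) ^ (3 * δ) := by
      rw [← Real.rpow_natCast ((N : ℝ) ^ δ), ← Real.rpow_mul hN0.le, ← Real.rpow_add hN0]
      congr 1
      push_cast; ring
    have h4 : c₀ ^ 2 * (4 * ((N : ℝ) ^ 2 * (m * W))) ≤ c₀ ^ 2 * (A * B) := by
      calc c₀ ^ 2 * (4 * ((N : ℝ) ^ 2 * (m * W)))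
          = 4 * (((c₀ * (N / (N : ℝ) ^ δ)) ^ 2 * (m * W)) * ((N : ℝ) ^ δ) ^ 2) := by
            field_simp
        _ ≤ 4 * ((C₂ * ((N : ℝ) ^ δ * B)) * ((N : ℝ) ^ δ) ^ 2) := by gcongr
        _ = 4 * C₂ * (((N : ℝ) ^ δ * ((N : ℝ) ^ δ) ^ 2) * B) := by ring
        _ = 4 * C₂ * ((N : ℝ) ^ (3 * δ) * B) := by rw [h3]
        _ ≤ c₀ ^ 2 * K * (θ * B) := by gcongr
        _ = _ := by rw [hA]; ring
    exact le_of_mul_le_mul_left h4 (by positivity)
  have hmW : W ≤ m * W := le_mul_of_one_le_left hW0.le hm1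
  have hT6 : 4 ≤ T ^ (1 / 6 : ℝ) := by
    calc (4 : ℝ) = ((4 : ℝ) ^ (6 : ℝ)) ^ (1 / 6 : ℝ) := by
          rw [← Real.rpow_mul (by norm_num)]; norm_num
      _ ≤ T ^ (1 / 6 : ℝ) := by
          refine Real.rpow_le_rpow (by positivity) ?_ (by norm_num)
          norm_num; linarith
  set r : ℝ := T ^ (1 / 6 : ℝ) with hr
  have hr0 : 0 < r := by linarith
  have hr6 : r ^ 6 = T := by
    rw [hr, ← Real.rpow_natCast, ← Real.rpow_mul hT0.le]; norm_num
  have hrs : s = r ^ 3 := by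
    rw [hsr, hr, ← Real.rpow_natCast, ← Real.rpow_mul hT0.le]; norm_num
  rcases lt_or_ge X r with hXr | hXr
  · -- the length `T^(1/6)`; `J` would be empty
    exfalso
    set N : ℕ := ⌈r⌉₊ with hN
    have hrN : r ≤ N := Nat.le_ceil r
    have hNr : (N : ℝ) ≤ 2 * r := by
      have : (N : ℝ) < r + 1 := Nat.ceil_lt_add_one (by linarith)
      linarith
    have hN0 : (0 : ℝ) < N := by linarith
    have hN1 : 1 ≤ N := by exact_mod_cast (by linarith : (0 : ℝ) < N)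
    have hN1r : (1 : ℝ) ≤ N := by exact_mod_cast hN1
    have hN7 : (N : ℝ) ^ 7 ≤ T ^ 2 := by
      calc (N : ℝ) ^ 7 ≤ (2 * r) ^ 7 := by gcongr
        _ = r ^ 7 * 128 := by ring
        _ ≤ r ^ 7 * r ^ 5 := by
            refine mul_le_mul_of_nonneg_left ?_ (by positivity)
            calc (128 : ℝ) ≤ 4 ^ 5 := by norm_num
              _ ≤ r ^ 5 := by gcongr
        _ = (r ^ 6) ^ 2 := by ring
        _ = T ^ 2 := by rw [hr6]
    have hN39 : (N : ℝ) ^ 39 ≤ T ^ 10 := by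
      calc (N : ℝ) ^ 39 ≤ (2 * r) ^ 39 := by gcongr
        _ = r ^ 39 * 2 ^ 39 := by ring
        _ ≤ r ^ 39 * r ^ 21 := by
            refine mul_le_mul_of_nonneg_left ?_ (by positivity)
            calc (2 : ℝ) ^ 39 ≤ 4 ^ 21 := by norm_num
              _ ≤ r ^ 21 := by gcongr
        _ = (r ^ 6) ^ 10 := by ring
        _ = T ^ 10 := by rw [hr6]
    have hTN6 : T ≤ (N : ℝ) ^ 6 := by rw [← hr6]; gcongr
    have hNs : T ≤ (N : ℝ) ^ 4 → (N : ℝ) ^ (2 - 1 / 42000 : ℝ) ≤ s := by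
      intro _
      calc (N : ℝ) ^ (2 - 1 / 42000 : ℝ) ≤ (N : ℝ) ^ (2 : ℝ) :=
            Real.rpow_le_rpow_of_exponent_le hN1r (by norm_num)
        _ = (N : ℝ) ^ 2 := Real.rpow_two _
        _ ≤ (2 * r) ^ 2 := by gcongr
        _ = r ^ 2 * 4 := by ring
        _ ≤ r ^ 2 * r := by gcongr
        _ = s := by rw [hrs]; ring
    have h1 := hgen N hN1 (hXr.le.trans hrN) hN39 hN7 hTN6 hNs
    have h2 : (N : ℝ) ^ (4 - 1 / 250000 : ℝ) ≤ (N : ℝ) ^ 4 := by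
      calc (N : ℝ) ^ (4 - 1 / 250000 : ℝ) ≤ (N : ℝ) ^ ((4 : ℕ) : ℝ) :=
            Real.rpow_le_rpow_of_exponent_le hN1r (by norm_num)
        _ = (N : ℝ) ^ 4 := Real.rpow_natCast _ _
    have h3 : 4 * ((N : ℝ) ^ 2 * (m * W)) ≤ (N : ℝ) ^ 2 * (5 * A * r ^ 5) := by
      calc 4 * ((N : ℝ) ^ 2 * (m * W)) ≤ A * (N * T + s * (N : ℝ) ^ (4 - 1 / 250000 : ℝ)) := h1
        _ ≤ A * (N * T + s * (N : ℝ) ^ 4) := by gcongr
        _ = A * (N * (r ^ 5 * r) + r ^ 3 * ((N : ℝ) ^ 2 * (N : ℝ) ^ 2)) := by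
            rw [← hr6, hrs]; ring
        _ ≤ A * (N * (r ^ 5 * N) + r ^ 3 * ((N : ℝ) ^ 2 * (2 * r) ^ 2)) := by gcongr
        _ = _ := by ring
    have h4 : 4 * (m * W) ≤ 5 * A * r ^ 5 := by
      have : (N : ℝ) ^ 2 * (4 * (m * W)) ≤ (N : ℝ) ^ 2 * (5 * A * r ^ 5) := by
        calc (N : ℝ) ^ 2 * (4 * (m * W)) = 4 * ((N : ℝ) ^ 2 * (m * W)) := by ring
          _ ≤ _ := h3
      exact le_of_mul_le_mul_left this (by positivity)
    have h5 : 4 * A * r ^ 5 ≤ W := by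
      have h6 : r * (4 * A * r ^ 5) ≤ r * W := by
        calc r * (4 * A * r ^ 5) = 4 * A * r ^ 6 := by ring
          _ = X * W := by rw [hr6, hXW]
          _ ≤ r * W := by gcongr
      exact le_of_mul_le_mul_left h6 hr0
    have h6 : 0 < A * r ^ 5 := by positivity
    linarith
  · -- the length `X`
    set N : ℕ := ⌈X⌉₊ with hN
    have hXN : X ≤ N := Nat.le_ceil X
    have hNX : (N : ℝ) ≤ 2 * X := by
      have : (N : ℝ) < X + 1 := Nat.ceil_lt_add_one (by linarith)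
      linarith
    have hN0 : (0 : ℝ) < N := by linarith
    have hN1 : 1 ≤ N := by exact_mod_cast (by linarith : (0 : ℝ) < N)
    have hN1r : (1 : ℝ) ≤ N := by exact_mod_cast hN1
    have hNT : (N : ℝ) ≤ T ^ (1 / 4 + 2 / 10 ^ 6 + 5 * δ : ℝ) := by
      calc (N : ℝ) ≤ 2 * X := hNX
        _ ≤ 2 * (4 * A * T ^ (1 / 4 + 2 / 10 ^ 6 : ℝ)) := by gcongr
        _ = (8 * K) * θ * T ^ (1 / 4 + 2 / 10 ^ 6 : ℝ) := by rw [hA]; ring
        _ ≤ T ^ δ * θ * T ^ (1 / 4 + 2 / 10 ^ 6 : ℝ) := by gcongr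
        _ = T ^ (1 / 4 + 2 / 10 ^ 6 + 5 * δ : ℝ) := by
            rw [hθ, ← Real.rpow_add hT0, ← Real.rpow_add hT0]
            congr 1
            ring
    have hNpow : ∀ (a b : ℕ), (1 / 4 + 2 / 10 ^ 6 + 5 * δ) * a ≤ (b : ℝ) → (N : ℝ) ^ a ≤ T ^ b := by
      intro a b hab
      calc (N : ℝ) ^ a ≤ (T ^ (1 / 4 + 2 / 10 ^ 6 + 5 * δ : ℝ)) ^ a := by gcongr
        _ = T ^ ((1 / 4 + 2 / 10 ^ 6 + 5 * δ) * a : ℝ) := by
            rw [← Real.rpow_natCast, ← Real.rpow_mul hT0.le]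
        _ ≤ T ^ (b : ℝ) := Real.rpow_le_rpow_of_exponent_le hT hab
        _ = T ^ b := Real.rpow_natCast _ _
    have hN7 : (N : ℝ) ^ 7 ≤ T ^ 2 := hNpow 7 2 (by rw [hδ]; norm_num)
    have hN39 : (N : ℝ) ^ 39 ≤ T ^ 10 := hNpow 39 10 (by rw [hδ]; norm_num)
    have hTN6 : T ≤ (N : ℝ) ^ 6 := by rw [← hr6]; gcongr; linarith
    have hNs : T ≤ (N : ℝ) ^ 4 → (N : ℝ) ^ (2 - 1 / 42000 : ℝ) ≤ s := by
      intro _
      calc (N : ℝ) ^ (2 - 1 / 42000 : ℝ)
          ≤ (T ^ (1 / 4 + 2 / 10 ^ 6 + 5 * δ : ℝ)) ^ (2 - 1 / 42000 : ℝ) :=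
            Real.rpow_le_rpow hN0.le hNT (by norm_num)
        _ = T ^ ((1 / 4 + 2 / 10 ^ 6 + 5 * δ) * (2 - 1 / 42000) : ℝ) := by
            rw [← Real.rpow_mul hT0.le]
        _ ≤ T ^ (1 / 2 : ℝ) := Real.rpow_le_rpow_of_exponent_le hT (by rw [hδ]; norm_num)
        _ = s := hsr.symm
    have h1 := hgen N hN1 hXN hN39 hN7 hTN6 hNs
    set R : ℝ := (N : ℝ) ^ (-(1 / 250000) : ℝ) with hR
    have hR0 : 0 < R := by positivity
    have h2 : (N : ℝ) ^ (4 - 1 / 250000 : ℝ) = (N : ℝ) ^ 4 * R := by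
      rw [hR, ← Real.rpow_natCast (N : ℝ) 4, ← Real.rpow_add hN0]
      norm_num
    have hNW : 4 * A * T ≤ N * W := by
      rw [← hXW]; exact mul_le_mul_of_nonneg_right hXN hW0.le
    have hNW2 : N * W ≤ 8 * A * T := by
      calc N * W ≤ 2 * X * W := by gcongr
        _ = 2 * (X * W) := by ring
        _ = 8 * A * T := by rw [hXW]; ring
    have h3 : A * (N * T) ≤ (N : ℝ) ^ 2 * (m * W) := by
      have h4 : 4 * (A * (N * T)) ≤ (N : ℝ) ^ 2 * (m * W) := by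
        calc 4 * (A * (N * T)) = N * (4 * A * T) := by ring
          _ ≤ N * (N * W) := by gcongr
          _ ≤ N * (N * (m * W)) := by gcongr
          _ = _ := by ring
      have h5 : 0 < A * (N * T) := by positivity
      linarith
    have h4 : (N : ℝ) ^ 2 * (m * W) ≤ (N : ℝ) ^ 2 * (A * s * ((N : ℝ) ^ 2 * R)) := by
      have h5 : A * (N * T + s * (N : ℝ) ^ (4 - 1 / 250000 : ℝ)) =
          A * (N * T) + (N : ℝ) ^ 2 * (A * s * ((N : ℝ) ^ 2 * R)) := by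
        rw [h2]; ring
      rw [h5] at h1
      have h6 : 0 < (N : ℝ) ^ 2 * (m * W) := by positivity
      linarith
    have h5 : m * W ≤ A * s * ((N : ℝ) ^ 2 * R) := le_of_mul_le_mul_left h4 (by positivity)
    have h6 : R ≤ T ^ (-(1 / 1500000) : ℝ) := by
      calc R ≤ r ^ (-(1 / 250000) : ℝ) := by
            rw [hR]
            exact Real.rpow_le_rpow_of_nonpos hr0 (hXr.trans hXN) (by norm_num)
        _ = T ^ (-(1 / 1500000) : ℝ) := by
            rw [hr, ← Real.rpow_mul hT0.le]; norm_num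
    have h7 : A ^ 3 * (s * T ^ 2) * T ^ (-(1 / 1500000) : ℝ) ≤ K ^ 3 * Q := by
      have h8 : θ ^ 3 * (s * T ^ 2) * T ^ (-(1 / 1500000) : ℝ) ≤ Q := by
        rw [hθ, hsr, ← Real.rpow_natCast (T ^ (4 * δ)) 3, ← Real.rpow_mul hT0.le,
          ← Real.rpow_natCast T 2, ← Real.rpow_add hT0, ← Real.rpow_add hT0, ← Real.rpow_add hT0, hQ]
        refine Real.rpow_le_rpow_of_exponent_le hT ?_
        rw [hδ]; norm_num
      calc A ^ 3 * (s * T ^ 2) * T ^ (-(1 / 1500000) : ℝ)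
          = K ^ 3 * (θ ^ 3 * (s * T ^ 2) * T ^ (-(1 / 1500000) : ℝ)) := by rw [hA]; ring
        _ ≤ K ^ 3 * Q := by gcongr
    calc m * W ^ 3 = (m * W) * W ^ 2 := by ring
      _ ≤ (A * s * ((N : ℝ) ^ 2 * R)) * W ^ 2 := by gcongr
      _ = A * s * R * (N * W) ^ 2 := by ring
      _ ≤ A * s * R * (8 * A * T) ^ 2 := by gcongr
      _ ≤ A * s * T ^ (-(1 / 1500000) : ℝ) * (8 * A * T) ^ 2 := by gcongr
      _ = 64 * (A ^ 3 * (s * T ^ 2) * T ^ (-(1 / 1500000) : ℝ)) := by ring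
      _ ≤ 64 * (K ^ 3 * Q) := by gcongr
      _ = 64 * K ^ 3 * Q := by ring
      _ ≤ _ := by
          refine mul_le_mul_of_nonneg_right ?_ hQ0.le
          have h2 : 0 < (C₀ * Yc * T₀) ^ 3 := by positivity
          linarith

end Pool.Agent.H19.WB
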