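import Mathlib
import Pool.Agent.H19.WB.St
import Pool.Agent.H19.Maass.Sixth

set_option autoImplicit false

/-!
# SY: sixth moment in a short window

Copy of `Maass.sixth_window` (`Maass/Sixth.lean`): `sum_six_le`, `weak` for every dyadic level; the number of levels is at most `C T^η`, `η = 5 / 10^8`, and
`5/2 - 65/10^8 + η = 5/2 - 6/10^7`.
-/

namespace Pool.Agent.H19.WB

open UpperHalfPlane
open Pool.Agent.H19.Maass Pool.Agent.H19.Sup
open scoped MatrixGroups ComplexConjugate ENNReal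

theorem sixth_w (weak : WeakW) : SixthW := by
  intro Y
  obtain ⟨C₀, hC₀, hweyl⟩ := weyl_bound
  obtain ⟨η, hη⟩ : ∃ η : ℝ, η = 5 / 10 ^ 8 := ⟨_, rfl⟩
  have hη0 : 0 < η := by rw [hη]; norm_num
  have hη1 : η ≤ 1 := by rw [hη]; norm_num
  obtain ⟨C₁, hC₁, hweak⟩ := weak Y
  set Y' : ℝ := 1 + |Y| with hY'
  have hY'1 : 1 ≤ Y' := by rw [hY']; linarith [abs_nonneg Y]
  set D : ℝ := (C₀ + 1) * Y' with hD
  have hD1 : 1 ≤ D := by rw [hD]; nlinarith
  refine ⟨D + 64 * (2 * D / η + 2) * C₁, by positivity, ?_⟩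
  intro T hT J _ t U c ht hF horth hrel z hx hy hzY
  classical
  have hT0 : 0 < T := by linarith
  have hy0 := z.im_pos
  have hzY' : 1 + z.im ≤ Y' := by rw [hY']; linarith [le_abs_self Y]
  have hTη : 1 ≤ T ^ η := Real.one_le_rpow hT hη0.le
  have hB : ∑ j, ‖U j z‖ ^ 2 ≤ D * T := by
    refine (hweyl T hT J t U c ht hF horth z hx hy).trans ?_
    rw [hD]
    gcongr
    linarith
  -- number of dyadic levels
  have hDT1 : 1 ≤ D * T := by nlinarith
  obtain ⟨n, hn1, hn2⟩ := exists_nat_pow_near hDT1 (by norm_num : (1 : ℝ) < 2)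
  set K : ℕ := n + 1 with hK
  have hKbound : (K : ℝ) ≤ (2 * D / η + 2) * T ^ η := by
    have h1 : (n : ℝ) * Real.log 2 ≤ Real.log (D * T) := by
      rw [← Real.log_pow]
      exact Real.log_le_log (by positivity) hn1
    have h2 : Real.log (D * T) ≤ (D * T) ^ η / η := Real.log_le_rpow_div (by positivity) hη0
    have h3 : (D * T) ^ η ≤ D * T ^ η := by
      rw [Real.mul_rpow (by positivity) hT0.le]
      refine mul_le_mul_of_nonneg_right ?_ (by positivity)
      calc D ^ η ≤ D ^ (1 : ℝ) := Real.rpow_le_rpow_of_exponent_le hD1 hη1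
        _ = D := Real.rpow_one D
    have h4 : (1 / 2 : ℝ) ≤ Real.log 2 := by
      have := Real.log_two_gt_d9
      linarith
    have h5 : (n : ℝ) * (1 / 2) ≤ D * T ^ η / η := by
      calc (n : ℝ) * (1 / 2) ≤ n * Real.log 2 := by gcongr
        _ ≤ _ := h1
        _ ≤ (D * T) ^ η / η := h2
        _ ≤ D * T ^ η / η := by gcongr
    rw [hK]; push_cast
    have h6 : (n : ℝ) ≤ 2 * D / η * T ^ η := by
      calc (n : ℝ) = 2 * (n * (1 / 2)) := by ring
        _ ≤ 2 * (D * T ^ η / η) := by gcongr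
        _ = _ := by ring
    have h7 : (2 * D / η + 2) * T ^ η = 2 * D / η * T ^ η + 2 * T ^ η := by ring
    rw [h7]
    have h8 : ∀ a b c : ℝ, a ≤ b → 1 ≤ c → a + 1 ≤ b + 2 * c := fun a b c h h' => by linarith
    exact h8 _ _ _ h6 hTη
  set W : ℝ := C₁ * T ^ (5 / 2 - 65 / 10 ^ 8 : ℝ) with hW
  have hmain := sum_six_le (fun j => ‖U j z‖) (fun j => norm_nonneg _) (B := D * T) (W := W) (K := K)
    (fun j => by
      have h1 : ‖U j z‖ ^ 2 ≤ D * T := by
        refine le_trans ?_ hB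
        exact Finset.single_le_sum (f := fun j => ‖U j z‖ ^ 2) (fun i _ => by positivity)
          (Finset.mem_univ j)
      have h2 : ‖U j z‖ ^ 2 < (2 ^ K) ^ 2 := by
        have h3 : (1 : ℝ) ≤ 2 ^ K := one_le_pow₀ (by norm_num)
        calc ‖U j z‖ ^ 2 ≤ D * T := h1
          _ < 2 ^ K := hn2
          _ ≤ (2 ^ K) ^ 2 := by nlinarith
      exact lt_of_pow_lt_pow_left₀ 2 (by positivity) h2)
    hB (fun k _ => by
      have h1 := hweak T hT {j // (2 : ℝ) ^ k ≤ ‖U j z‖} (fun j => t j) (fun j => U j)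
        (fun j => c j) (fun j => ht j) (fun j => hF j) (horth.comp Subtype.val_injective)
        (fun j => hrel j) z hx hy hzY (2 ^ k) (by positivity) (fun j => j.2)
      rw [Fintype.card_subtype] at h1
      exact h1)
  refine hmain.trans ?_
  have hTT : T ≤ T ^ (5 / 2 - 6 / 10 ^ 7 : ℝ) := by
    calc T = T ^ (1 : ℝ) := (Real.rpow_one T).symm
      _ ≤ _ := Real.rpow_le_rpow_of_exponent_le hT (by norm_num)
  have hexp : T ^ η * T ^ (5 / 2 - 65 / 10 ^ 8 : ℝ) = T ^ (5 / 2 - 6 / 10 ^ 7 : ℝ) := by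
    rw [← Real.rpow_add hT0, hη]
    congr 1
    norm_num
  have hW0 : 0 ≤ W := by rw [hW]; positivity
  calc D * T + 64 * K * W
      ≤ D * T ^ (5 / 2 - 6 / 10 ^ 7 : ℝ) + 64 * ((2 * D / η + 2) * T ^ η) * W := by gcongr
    _ = D * T ^ (5 / 2 - 6 / 10 ^ 7 : ℝ) + 64 * (2 * D / η + 2) * C₁ *
          (T ^ η * T ^ (5 / 2 - 65 / 10 ^ 8 : ℝ)) := by rw [hW]; ring
    _ = _ := by rw [hexp]; ring

end Pool.Agent.H19.WB
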