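import Mathlib
import Pool.Agent.H36.XD.Glue
import Pool.Agent.H19.WB.Glue0
import Pool.Agent.H19.WB.SF
import Pool.Agent.H19.WB.SX
import Pool.Agent.H19.WB.SY
import Pool.Agent.H19.WB.FS

set_option autoImplicit false

/-!
# The steps put together: sixth moment
-/

namespace Pool.Agent.H19.WB

theorem small_fam : SmallFamW := small_fam_w Pool.Agent.H36.XD.far_bound split_kernel_w bessel_w

theorem window_sixth : WindowSixthW := window_sixth_w (sixth_w (weak_w small_fam large_improved))

end Pool.Agent.H19.WB
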